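import Mathlib

-- part Pool.Agent.P.MP_2ab770_pr.Words
section

set_option autoImplicit false
set_option linter.dupNamespace false
set_option linter.unusedVariables false

namespace Pool.Agent.P.MP_2ab770_pr

open Finset

section words
variable {α : Type} [Fintype α] [DecidableEq α]

/-- all words of length n -/
def words (α : Type) [Fintype α] [DecidableEq α] : ℕ → Finset (List α)
  | 0 => {[]}
  | n + 1 => ((univ : Finset α) ×ˢ words α n).image (fun p => p.1 :: p.2)

lemma mem_words {n : ℕ} {w : List α} : w ∈ words α n ↔ w.length = n := by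
  induction n generalizing w with
  | zero => simp [words]
  | succ n ih =>
    cases w with
    | nil => simp [words]
    | cons a w => simp [words, ih]

lemma sum_words_zero {R : Type} [AddCommMonoid R] (f : List α → R) :
    ∑ w ∈ words α 0, f w = f [] := by simp [words]

lemma sum_words_succ {R : Type} [AddCommMonoid R] (n : ℕ) (f : List α → R) :
    ∑ w ∈ words α (n + 1), f w = ∑ a : α, ∑ w ∈ words α n, f (a :: w) := by
  rw [words, sum_image, sum_product]
  rintro ⟨a, u⟩ _ ⟨b, v⟩ _ h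
  simpa using h

lemma sum_words_add {R : Type} [AddCommMonoid R] (m n : ℕ) (f : List α → R) :
    ∑ w ∈ words α (m + n), f w = ∑ u ∈ words α m, ∑ v ∈ words α n, f (u ++ v) := by
  induction m generalizing f with
  | zero => simp [sum_words_zero]
  | succ m ih =>
    rw [show m + 1 + n = (m + n) + 1 by ring, sum_words_succ, sum_words_succ]
    refine sum_congr rfl fun a _ => ?_
    rw [ih]; simp

lemma card_words (n : ℕ) : (words α n).card = Fintype.card α ^ n := by
  induction n with
  | zero => simp [words]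
  | succ n ih =>
    rw [card_eq_sum_ones, sum_words_succ]
    simp [ih, pow_succ, mul_comm]

end words

section ssum
variable {α : Type} {R : Type} [AddCommMonoid R]

/-- sum over all splittings of a word in two -/
def ssum (w : List α) (f : List α → List α → R) : R :=
  ∑ i ∈ range (w.length + 1), f (w.take i) (w.drop i)

lemma ssum_nil (f : List α → List α → R) : ssum [] f = f [] [] := by simp [ssum]

lemma ssum_cons (a : α) (w : List α) (f : List α → List α → R) :
    ssum (a :: w) f = f [] (a :: w) + ssum w (fun u v => f (a :: u) v) := by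
  simp only [ssum, List.length_cons]
  rw [sum_range_succ' _ (w.length + 1)]
  simp [add_comm]

lemma ssum_congr {w : List α} {f g : List α → List α → R}
    (h : ∀ u v, u ++ v = w → f u v = g u v) : ssum w f = ssum w g :=
  sum_congr rfl fun i _ => h _ _ (List.take_append_drop i w)

lemma ssum_add (w : List α) (f g : List α → List α → R) :
    ssum w (fun u v => f u v + g u v) = ssum w f + ssum w g := by
  simp [ssum, sum_add_distrib]

lemma ssum_assoc (w : List α) (f : List α → List α → List α → R) :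
    ssum w (fun u v => ssum u (fun x y => f x y v)) =
      ssum w (fun u v => ssum v (fun x y => f u x y)) := by
  induction w generalizing f with
  | nil => simp [ssum_nil]
  | cons a w ih =>
    rw [ssum_cons, ssum_cons, ssum_nil, ssum_cons]
    simp_rw [ssum_cons]
    rw [ssum_add, ih (fun x y v => f (a :: x) y v), add_assoc]

lemma ssum_le [PartialOrder R] [IsOrderedAddMonoid R] {w : List α} {f g : List α → List α → R}
    (h : ∀ u v, u ++ v = w → f u v ≤ g u v) : ssum w f ≤ ssum w g :=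
  sum_le_sum fun i _ => h _ _ (List.take_append_drop i w)

lemma sum_words_ssum [Fintype α] [DecidableEq α] (n : ℕ) (f : List α → List α → R) :
    ∑ w ∈ words α n, ssum w f =
      ∑ i ∈ range (n + 1), ∑ u ∈ words α i, ∑ v ∈ words α (n - i), f u v := by
  have h1 : ∑ w ∈ words α n, ssum w f =
      ∑ w ∈ words α n, ∑ i ∈ range (n + 1), f (w.take i) (w.drop i) :=
    sum_congr rfl fun w hw => by rw [ssum, mem_words.1 hw]
  rw [h1, sum_comm]
  refine sum_congr rfl fun i hi => ?_
  have hi' : i ≤ n := Nat.lt_succ_iff.1 (mem_range.1 hi)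
  conv_lhs => rw [show n = i + (n - i) by omega]
  rw [sum_words_add]
  refine sum_congr rfl fun u hu => sum_congr rfl fun v _ => ?_
  have := mem_words.1 hu
  rw [List.take_left' this, List.drop_left' this]

end ssum

/-- a factor closed set of words containing all letters -/
structure Model (α : Type) where
  good : List α → Prop
  nil : good []
  single : ∀ a, good [a]
  left : ∀ u v, good (u ++ v) → good u
  right : ∀ u v, good (u ++ v) → good v

namespace Model
variable {α : Type} (M : Model α)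

/-- v is a good word which first breaks goodness after u at its last letter -/
def F (u v : List α) : Prop := v ≠ [] ∧ M.good v ∧ M.good (u ++ v.dropLast) ∧ ¬ M.good (u ++ v)

open Classical in
/-- indicator of good words -/
noncomputable def ind (w : List α) : ℝ := if M.good w then 1 else 0

open Classical in
/-- expansion coefficients -/
noncomputable def P : List α → List α → ℝ
  | u, w => (if w = [] then 1 else 0) -
      ∑ i : Fin (w.length + 1),
        if _h : M.F u (w.take i) then P (w.take i) (w.drop i) else 0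
termination_by _ w => w.length
decreasing_by
  have h1 := _h.1
  have h2 : (i : ℕ) ≠ 0 := by
    intro h; apply h1; simp [h]
  have h3 : w ≠ [] := by
    intro h; apply h1; simp [h]
  have h4 := List.length_pos_iff.2 h3
  simp only [List.length_drop]
  omega

open Classical in
lemma P_eq (u w : List α) : M.P u w = (if w = [] then 1 else 0) -
    ssum w (fun v r => if M.F u v then M.P v r else 0) := by
  rw [P, ssum, ← Fin.sum_univ_eq_sum_range
    (fun i => if M.F u (w.take i) then M.P (w.take i) (w.drop i) else 0)]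
  simp only [dite_eq_ite]

lemma ind_nonneg (w : List α) : 0 ≤ M.ind w := by
  unfold ind; split_ifs <;> norm_num

lemma ind_le_one (w : List α) : M.ind w ≤ 1 := by
  unfold ind; split_ifs <;> norm_num

lemma ind_good {w : List α} (h : M.good w) : M.ind w = 1 := by simp [ind, h]

lemma ind_not {w : List α} (h : ¬ M.good w) : M.ind w = 0 := by simp [ind, h]

lemma ind_append_le (u v : List α) : M.ind (u ++ v) ≤ M.ind u * M.ind v := by
  by_cases h : M.good (u ++ v)
  · rw [M.ind_good h, M.ind_good (M.left _ _ h), M.ind_good (M.right _ _ h)]; norm_num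
  · rw [M.ind_not h]; exact mul_nonneg (M.ind_nonneg _) (M.ind_nonneg _)

open Classical in
lemma first_break (u w : List α) (hw : M.good w) (k : ℕ) (hk : k ≤ w.length) :
    ∑ i ∈ range (k + 1), (if M.F u (w.take i) then (1 : ℝ) else 0) =
      M.ind u - M.ind (u ++ w.take k) := by
  induction k with
  | zero => simp [F]
  | succ k ih =>
    rw [sum_range_succ, ih (by omega)]
    have hd : (w.take (k + 1)).dropLast = w.take k := by
      rw [List.dropLast_eq_take, List.take_take]
      congr 1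
      simp only [List.length_take]
      omega
    have hne : w.take (k + 1) ≠ [] := by
      intro h
      have := congrArg List.length h
      simp only [List.length_take, List.length_nil] at this
      omega
    have hg : M.good (w.take (k + 1)) := by
      apply M.left _ (w.drop (k + 1)); rwa [List.take_append_drop]
    have hsplit : u ++ w.take (k + 1) = (u ++ w.take k) ++ (w.take (k + 1)).drop k := by
      rw [List.append_assoc]
      congr 1
      conv_lhs => rw [← List.take_append_drop k (w.take (k + 1))]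
      rw [List.take_take]; congr 2; omega
    by_cases h1 : M.good (u ++ w.take (k + 1))
    · have h2 : M.good (u ++ w.take k) := M.left _ _ (hsplit ▸ h1)
      rw [M.ind_good h1, M.ind_good h2, if_neg (fun h => h.2.2.2 h1)]; ring
    · by_cases h2 : M.good (u ++ w.take k)
      · rw [M.ind_not h1, M.ind_good h2, if_pos ⟨hne, hg, hd ▸ h2, h1⟩]; ring
      · rw [M.ind_not h1, M.ind_not h2, if_neg (fun h => h2 (hd ▸ h.2.2.1))]; ring

open Classical in
lemma ind_append_eq (n : ℕ) : ∀ w : List α, w.length ≤ n → ∀ u, M.good u →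
    M.ind (u ++ w) = ssum w (fun x y => M.P u x * M.ind y) := by
  induction n using Nat.strong_induction_on with
  | _ n ih =>
  intro w hw u hu
  have e1 : ssum w (fun x y => M.P u x * M.ind y) =
      ssum w (fun x y => (if x = [] then M.ind y else 0) +
        ssum x (fun v r => - ((if M.F u v then M.P v r else 0) * M.ind y))) := by
    refine ssum_congr fun x y _ => ?_
    rw [P_eq, sub_mul, sub_eq_add_neg]
    congr 1
    · split_ifs <;> simp
    · simp [ssum, sum_mul]
  have e2 : ssum w (fun x y => (if x = [] then M.ind y else 0)) = M.ind w := by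
    cases w with
    | nil => simp [ssum_nil]
    | cons a w => rw [ssum_cons]; simp [ssum]
  have e3 : ssum w (fun v y => ssum y
      (fun r t => - ((if M.F u v then M.P v r else 0) * M.ind t))) =
      ssum w (fun v _ => - ((if M.F u v then (1 : ℝ) else 0) * M.ind w)) := by
    refine ssum_congr fun v y hvy => ?_
    by_cases hF : M.F u v
    · simp only [if_pos hF, one_mul]
      have hl : y.length < n := by
        have := congrArg List.length hvy
        have h2 := List.length_pos_iff.2 hF.1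
        simp only [List.length_append] at this
        omega
      rw [← hvy, ih y.length hl y le_rfl v hF.2.1]
      simp [ssum]
    · simp [if_neg hF, ssum]
  rw [e1, ssum_add, e2, ssum_assoc w
    (fun v r t => - ((if M.F u v then M.P v r else 0) * M.ind t)), e3]
  by_cases hg : M.good w
  · have := M.first_break u w hg w.length le_rfl
    simp only [ssum, sum_neg_distrib, ← sum_mul]
    rw [this, M.ind_good hg, M.ind_good hu]; simp
  · rw [M.ind_not hg, M.ind_not (fun h => hg (M.right _ _ h))]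
    simp [ssum]

/-- the irreducible coefficient of a word -/
noncomputable def rho : List α → ℝ
  | [] => 0
  | a :: w => M.P [a] w

open Classical in
lemma ind_eq (w : List α) :
    M.ind w = (if w = [] then 1 else 0) + ssum w (fun x y => M.rho x * M.ind y) := by
  cases w with
  | nil => simp [ssum_nil, rho, M.ind_good M.nil]
  | cons a w =>
    rw [ssum_cons]
    have := M.ind_append_eq w.length w le_rfl [a] (M.single a)
    simp only [List.singleton_append] at this
    simp [rho, this]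

lemma P_nil (u : List α) : M.P u [] = 1 := by
  rw [P_eq]; simp [ssum_nil, F]

lemma rho_single (a : α) : M.rho [a] = 1 := by simp [rho, P_nil]

/-- symmetry -/
lemma P_map (σ : α → α) (hσ : ∀ w, M.good (w.map σ) ↔ M.good w) (n : ℕ) :
    ∀ w : List α, w.length ≤ n → ∀ u, M.P (u.map σ) (w.map σ) = M.P u w := by
  induction n using Nat.strong_induction_on with
  | _ n ih =>
  intro w hw u
  have hF : ∀ v, M.F (u.map σ) (v.map σ) ↔ M.F u v := by
    intro v
    simp only [F, ← List.map_dropLast, ← List.map_append, hσ, ne_eq, List.map_eq_nil_iff]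
  rw [P_eq, P_eq M u w]
  congr 1
  · simp
  · simp only [ssum, List.length_map]
    refine sum_congr rfl fun i _ => ?_
    rw [← List.map_take, ← List.map_drop]
    by_cases h : M.F u (w.take i)
    · rw [if_pos h, if_pos ((hF _).2 h)]
      have h1 := h.1
      have h2 : i ≠ 0 := by intro h; apply h1; simp [h]
      have h3 : w ≠ [] := by intro h; apply h1; simp [h]
      have h4 := List.length_pos_iff.2 h3
      refine ih (w.drop i).length ?_ _ le_rfl _
      simp only [List.length_drop]; omega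
    · rw [if_neg h, if_neg (fun h' => h ((hF _).1 h'))]

lemma rho_map (σ : α → α) (hσ : ∀ w, M.good (w.map σ) ↔ M.good w) (w : List α) :
    M.rho (w.map σ) = M.rho w := by
  cases w with
  | nil => simp [rho]
  | cons a w =>
    have := M.P_map σ hσ w.length w le_rfl [a]
    simpa [rho] using this

variable [Fintype α] [DecidableEq α]

open Classical in
lemma P_bound (z T : ℝ) (hz : 0 ≤ z) (hT0 : 0 ≤ T) (hT : T ≤ 1 / 2)
    (H : ∀ (u : List α) (K : ℕ), ∑ n ∈ range K, ∑ v ∈ words α n,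
      (if M.F u v then ((n : ℝ) + 1) ^ 3 * z ^ n else 0) ≤ (u.length + 1) * T) (K : ℕ) :
    ∀ u : List α, ∑ n ∈ range K, ∑ w ∈ words α n, ((n : ℝ) + 1) ^ 2 * z ^ n * |M.P u w| ≤
      1 + (u.length + 1) * (2 * T) := by
  induction K with
  | zero => intro u; simp; positivity
  | succ K ih =>
    intro u
    set g : List α → List α → ℝ := fun v r =>
      if M.F u v then ((v.length : ℝ) + 1) ^ 2 * z ^ v.length *
        (((r.length : ℝ) + 1) ^ 2 * z ^ r.length * |M.P v r|) else 0 with hg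
    have hg0 : ∀ v r, 0 ≤ g v r := by
      intro v r; simp only [hg]; split_ifs <;> positivity
    have h1 : ∀ n, ∀ w ∈ words α n, ((n : ℝ) + 1) ^ 2 * z ^ n * |M.P u w| ≤
        (if n = 0 then 1 else 0) + ssum w g := by
      intro n w hw
      have hl := mem_words.1 hw
      rw [P_eq]
      have ha : |(if w = [] then (1 : ℝ) else 0) -
          ssum w (fun v r => if M.F u v then M.P v r else 0)| ≤
          (if w = [] then (1 : ℝ) else 0) +
          ssum w (fun v r => if M.F u v then |M.P v r| else 0) := by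
        refine (abs_sub _ _).trans (add_le_add (by split_ifs <;> simp) ?_)
        refine (abs_sum_le_sum_abs _ _).trans (le_of_eq ?_)
        refine sum_congr rfl fun i _ => ?_
        beta_reduce
        split_ifs <;> simp
      refine (mul_le_mul_of_nonneg_left ha (by positivity)).trans ?_
      rw [mul_add]
      refine add_le_add ?_ ?_
      · by_cases h : w = []
        · subst h; simp at hl; subst hl; simp
        · have : n ≠ 0 := by rintro rfl; exact h (List.length_eq_zero_iff.1 hl)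
          simp [h, this]
      · rw [ssum, mul_sum, ssum]
        refine sum_le_sum fun i hi => ?_
        simp only [hg]
        split_ifs with hF
        · have hlen : (w.take i).length + (w.drop i).length = n := by
            rw [← List.length_append, List.take_append_drop, hl]
          set a := (w.take i).length
          set b := (w.drop i).length
          have hn : (n : ℝ) = a + b := by rw [← hlen]; push_cast; ring
          rw [hn, ← hlen, pow_add]
          have ha0 : (0 : ℝ) ≤ a := by positivity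
          have hb0 : (0 : ℝ) ≤ b := by positivity
          have : ((a : ℝ) + b + 1) ^ 2 ≤ (a + 1) ^ 2 * (b + 1) ^ 2 := by
            rw [← mul_pow]; gcongr; nlinarith [mul_nonneg ha0 hb0]
          calc ((a : ℝ) + b + 1) ^ 2 * (z ^ a * z ^ b) * |M.P (w.take i) (w.drop i)|
              ≤ ((a + 1) ^ 2 * (b + 1) ^ 2) * (z ^ a * z ^ b) * |M.P (w.take i) (w.drop i)| := by
                gcongr
            _ = _ := by ring
        · simp
    have h2 : ∑ n ∈ range (K + 1), ∑ w ∈ words α n, ((if n = 0 then (1 : ℝ) else 0) + ssum w g) =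
        1 + ∑ i ∈ range (K + 1), ∑ j ∈ range (K + 1 - i),
          ∑ v ∈ words α i, ∑ r ∈ words α j, g v r := by
      simp_rw [sum_add_distrib, sum_words_ssum]
      rw [sum_range_diag_flip (K + 1) (fun i j => ∑ v ∈ words α i, ∑ r ∈ words α j, g v r)]
      congr 1
      rw [sum_range_succ']
      simp [card_words]
    have h3 : ∀ i, ∑ j ∈ range (K + 1 - i), ∑ v ∈ words α i, ∑ r ∈ words α j, g v r ≤
        (1 + 2 * T) * ∑ v ∈ words α i, (if M.F u v then ((i : ℝ) + 1) ^ 3 * z ^ i else 0) := by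
      intro i
      rw [sum_comm, mul_sum]
      refine sum_le_sum fun v hv => ?_
      have hl := mem_words.1 hv
      by_cases hF : M.F u v
      · have hi : i ≠ 0 := by rintro rfl; exact hF.1 (List.length_eq_zero_iff.1 hl)
        have e : ∀ j, ∑ r ∈ words α j, g v r = ((i : ℝ) + 1) ^ 2 * z ^ i *
            ∑ r ∈ words α j, ((j : ℝ) + 1) ^ 2 * z ^ j * |M.P v r| := by
          intro j
          rw [mul_sum]
          refine sum_congr rfl fun r hr => ?_
          simp only [hg, if_pos hF, hl, mem_words.1 hr]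
        simp_rw [e]
        rw [← mul_sum, if_pos hF]
        have hsub : ∑ j ∈ range (K + 1 - i), ∑ r ∈ words α j, ((j : ℝ) + 1) ^ 2 * z ^ j * |M.P v r|
            ≤ ∑ j ∈ range K, ∑ r ∈ words α j, ((j : ℝ) + 1) ^ 2 * z ^ j * |M.P v r| :=
          sum_le_sum_of_subset_of_nonneg (range_subset_range.2 (by omega))
            (fun j _ _ => sum_nonneg fun r _ => by positivity)
        have hb := hsub.trans (ih v)
        rw [hl] at hb
        have hi0 : (0 : ℝ) ≤ i := by positivity
        have : 1 + ((i : ℝ) + 1) * (2 * T) ≤ (i + 1) * (1 + 2 * T) := by nlinarith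
        calc _ ≤ ((i : ℝ) + 1) ^ 2 * z ^ i * ((i + 1) * (1 + 2 * T)) := by
              gcongr; exact hb.trans this
          _ = _ := by ring
      · simp [hg, if_neg hF]
    calc _ ≤ ∑ n ∈ range (K + 1), ∑ w ∈ words α n, ((if n = 0 then (1 : ℝ) else 0) + ssum w g) :=
          sum_le_sum fun n _ => sum_le_sum fun w hw => h1 n w hw
      _ ≤ 1 + ∑ i ∈ range (K + 1), (1 + 2 * T) *
            ∑ v ∈ words α i, (if M.F u v then ((i : ℝ) + 1) ^ 3 * z ^ i else 0) := by
          rw [h2]; gcongr with i _; exact h3 i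
      _ ≤ 1 + (1 + 2 * T) * ((u.length + 1) * T) := by
          rw [← mul_sum]; gcongr; exact H u (K + 1)
      _ ≤ _ := by
          have : (0 : ℝ) ≤ (u.length + 1) * T := by positivity
          nlinarith

end Model

end Pool.Agent.P.MP_2ab770_pr
end

-- part Pool.Agent.P.MP_2ab770_pr.Fourier
section

set_option autoImplicit false
set_option linter.dupNamespace false

namespace Pool.Agent.P.MP_2ab770_pr

open Finset Filter Topology MeasureTheory Real

/-- uniform measure on a unit interval -/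
noncomputable def nu : Measure ℝ := volume.restrict (Set.Ioc (-1 / 2 : ℝ) (1 / 2))

instance nu_prob : IsProbabilityMeasure nu := ⟨by simp [nu]; norm_num⟩

/-- uniform measure on the unit cube -/
noncomputable def mu (d : ℕ) : Measure (Fin d → ℝ) := Measure.pi fun _ => nu

instance mu_prob (d : ℕ) : IsProbabilityMeasure (mu d) := by unfold mu; infer_instance

variable {d : ℕ}

/-- phase -/
noncomputable def th (k : Fin d → ℝ) (x : Fin d → ℤ) : ℝ := ∑ j, 2 * π * x j * k j

/-- character -/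
noncomputable def chr (k : Fin d → ℝ) (x : Fin d → ℤ) : ℂ := Complex.exp (th k x * Complex.I)

lemma th_add (k : Fin d → ℝ) (x y : Fin d → ℤ) : th k (x + y) = th k x + th k y := by
  simp only [th, ← sum_add_distrib, Pi.add_apply]
  refine sum_congr rfl fun j _ => ?_
  push_cast; ring

lemma th_zero (k : Fin d → ℝ) : th k 0 = 0 := by simp [th]

lemma th_neg (k : Fin d → ℝ) (x : Fin d → ℤ) : th k (-x) = - th k x := by
  simp [th]

lemma th_zero_left (x : Fin d → ℤ) : th 0 x = 0 := by simp [th]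

lemma chr_add (k : Fin d → ℝ) (x y : Fin d → ℤ) : chr k (x + y) = chr k x * chr k y := by
  simp [chr, th_add, add_mul, Complex.exp_add]

lemma chr_zero (k : Fin d → ℝ) : chr k 0 = 1 := by simp [chr, th_zero]

lemma chr_zero_left (x : Fin d → ℤ) : chr 0 x = 1 := by simp [chr, th_zero_left]

lemma norm_chr (k : Fin d → ℝ) (x : Fin d → ℤ) : ‖chr k x‖ = 1 := by
  simp [chr, Complex.norm_exp_ofReal_mul_I]

lemma re_chr (k : Fin d → ℝ) (x : Fin d → ℤ) : (chr k x).re = cos (th k x) := by
  simp [chr, Complex.exp_ofReal_mul_I_re]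

lemma conj_chr (k : Fin d → ℝ) (x : Fin d → ℤ) : (starRingEnd ℂ) (chr k x) = chr k (-x) := by
  rw [chr, chr, ← Complex.exp_conj, th_neg]; simp

lemma continuous_chr (x : Fin d → ℤ) : Continuous fun k : Fin d → ℝ => chr k x := by
  unfold chr th; fun_prop

lemma integrable_of_bdd {E : Type} [NormedAddCommGroup E] {f : (Fin d → ℝ) → E} (hf : Continuous f)
    (C : ℝ) (h : ∀ k, ‖f k‖ ≤ C) : Integrable f (mu d) :=
  Integrable.of_bound hf.aestronglyMeasurable C (Eventually.of_forall h)

lemma integrable_chr (x : Fin d → ℤ) : Integrable (fun k => chr k x) (mu d) :=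
  integrable_of_bdd (continuous_chr x) 1 fun k => (norm_chr k x).le

lemma integral_one_dim (n : ℤ) :
    ∫ t, Complex.exp ((2 * π * n * t : ℝ) * Complex.I) ∂nu = if n = 0 then 1 else 0 := by
  split_ifs with h
  · subst h; simp
  · rw [nu, ← intervalIntegral.integral_of_le (by norm_num)]
    have hc : (2 * π * n * Complex.I : ℂ) ≠ 0 := by
      have : (π : ℂ) ≠ 0 := by exact_mod_cast pi_ne_zero
      have h2 : (n : ℂ) ≠ 0 := by exact_mod_cast h
      simp [this, h2]
    have := integral_exp_mul_complex (a := (-1 / 2 : ℝ)) (b := (1 / 2 : ℝ)) hc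
    have e : (fun t : ℝ => Complex.exp ((2 * π * n * t : ℝ) * Complex.I)) =
        fun t : ℝ => Complex.exp (2 * π * n * Complex.I * t) := by
      funext t; congr 1; push_cast; ring
    rw [e, this]
    have e2 : Complex.exp (2 * π * n * Complex.I * ((1 / 2 : ℝ) : ℂ)) =
        Complex.exp (2 * π * n * Complex.I * ((-1 / 2 : ℝ) : ℂ)) := by
      rw [Complex.exp_eq_exp_iff_exists_int]
      exact ⟨n, by push_cast; ring⟩
    rw [e2]; simp

lemma integral_chr (x : Fin d → ℤ) : ∫ k, chr k x ∂(mu d) = if x = 0 then 1 else 0 := by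
  have e : (fun k : Fin d → ℝ => chr k x) =
      fun k => ∏ j, Complex.exp ((2 * π * x j * k j : ℝ) * Complex.I) := by
    funext k
    rw [chr, th, ← Complex.exp_sum, ← sum_mul]; push_cast; rfl
  rw [e, mu, integral_fintype_prod_eq_prod
    (fun j (t : ℝ) => Complex.exp ((2 * π * x j * t : ℝ) * Complex.I))]
  simp_rw [integral_one_dim]
  split_ifs with h
  · subst h; simp
  · obtain ⟨j, hj⟩ := Function.ne_iff.1 h
    exact prod_eq_zero (mem_univ j) (if_neg hj)

/-- one dimensional symbol -/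
noncomputable def yy (t : ℝ) : ℝ := 1 - cos (2 * π * t)

/-- averaged symbol -/
noncomputable def YY (k : Fin d → ℝ) : ℝ := (∑ j, yy (k j)) / d

lemma yy_nonneg (t : ℝ) : 0 ≤ yy t := by unfold yy; linarith [cos_le_one (2 * π * t)]

lemma yy_le (t : ℝ) : yy t ≤ 2 := by unfold yy; linarith [neg_one_le_cos (2 * π * t)]

lemma yy_lower {t : ℝ} (h : |t| ≤ 1 / 2) : t ^ 2 ≤ yy t := by
  have h1 : |2 * π * t| ≤ π := by
    rw [abs_mul, abs_of_pos (by positivity : 0 < 2 * π)]; nlinarith [pi_pos]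
  have := cos_le_one_sub_mul_cos_sq h1
  have e : 2 / π ^ 2 * (2 * π * t) ^ 2 = 8 * t ^ 2 := by field_simp; ring
  unfold yy; nlinarith [sq_nonneg t]

lemma ae_nu : ∀ᵐ t ∂nu, |t| ≤ 1 / 2 ∧ t ≠ 0 := by
  have h1 : ∀ᵐ t ∂nu, t ∈ Set.Ioc (-1 / 2 : ℝ) (1 / 2) := ae_restrict_mem measurableSet_Ioc
  have h2 : ∀ᵐ t ∂nu, t ≠ 0 := by
    rw [nu]; refine ae_restrict_of_ae ?_
    simp [ae_iff]
  filter_upwards [h1, h2] with t h1 h2
  exact ⟨abs_le.2 ⟨by linarith [h1.1], h1.2⟩, h2⟩

lemma integrable_abs_rpow : Integrable (fun t : ℝ => |t| ^ (-1 / 2 : ℝ)) nu := by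
  have h0 : IntervalIntegrable (fun t : ℝ => t ^ (-1 / 2 : ℝ)) volume 0 (1 / 2) :=
    intervalIntegral.intervalIntegrable_rpow' (by norm_num)
  have h1 : IntervalIntegrable (fun t : ℝ => |t| ^ (-1 / 2 : ℝ)) volume 0 (1 / 2) := by
    refine h0.congr ?_
    intro t ht
    rw [Set.uIoc_of_le (by norm_num)] at ht
    simp [abs_of_pos ht.1]
  have h2 : IntervalIntegrable (fun t : ℝ => |t| ^ (-1 / 2 : ℝ)) volume (-1 / 2) 0 := by
    have := (IntervalIntegrable.iff_comp_neg (by simp)).1 h1
    simp only [abs_neg, neg_zero] at this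
    have e : (-(1 / 2) : ℝ) = -1 / 2 := by norm_num
    rw [e] at this
    exact this.symm
  have h3 := h2.trans h1
  rw [intervalIntegrable_iff_integrableOn_Ioc_of_le (by norm_num)] at h3
  exact h3

lemma measurable_yy : Measurable yy := by unfold yy; fun_prop

lemma yy_rpow_le {s : ℝ} (hs0 : 0 ≤ s) (hs : s ≤ 1 / 4) :
    ∀ᵐ t ∂nu, yy t ^ (-s) ≤ 1 + 4 * s * |t| ^ (-1 / 2 : ℝ) := by
  filter_upwards [ae_nu] with t ht
  have ha : 0 < |t| := abs_pos.2 ht.2
  have h1 : yy t ^ (-s) ≤ (t ^ 2) ^ (-s) :=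
    rpow_le_rpow_of_nonpos (by have := ht.2; positivity) (yy_lower ht.1) (by linarith)
  have h2 : (t ^ 2) ^ (-s) = (|t| ^ (-1 / 2 : ℝ)) ^ (4 * s) := by
    rw [← sq_abs, ← rpow_natCast, ← rpow_mul ha.le, ← rpow_mul ha.le]
    congr 1; push_cast; ring
  have h3 := rpow_one_add_le_one_add_mul_self (s := |t| ^ (-1 / 2 : ℝ) - 1) (p := 4 * s)
    (by have : 0 ≤ |t| ^ (-1 / 2 : ℝ) := by positivity
        linarith) (by linarith) (by linarith)
  rw [add_sub_cancel] at h3
  rw [h2] at h1
  nlinarith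

lemma integrable_yy_rpow {s : ℝ} (hs0 : 0 ≤ s) (hs : s ≤ 1 / 4) :
    Integrable (fun t => yy t ^ (-s)) nu := by
  refine Integrable.mono' ((integrable_const (1 : ℝ)).add (integrable_abs_rpow.const_mul (4 * s)))
    (measurable_yy.pow_const _).aestronglyMeasurable ?_
  filter_upwards [yy_rpow_le hs0 hs] with t ht
  rw [Real.norm_of_nonneg (rpow_nonneg (yy_nonneg t) _)]
  exact ht

theorem key_integral : ∃ C : ℝ, 0 ≤ C ∧ ∀ d : ℕ, 32 ≤ d → ∀ η : ℝ, 0 < η →
    ∀ S G : (Fin d → ℝ) → ℂ, Integrable (fun k => ‖S k‖ ^ 2) (mu d) →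
      (∀ k, ‖G k‖ * YY k ≤ 5) →
      ∫ k, ‖S k * G k ^ 4‖ ∂(mu d) ≤ (∫ k, ‖S k‖ ^ 2 ∂(mu d)) / (2 * η) + η * C := by
  set C1 := ∫ t, |t| ^ (-1 / 2 : ℝ) ∂nu with hC1
  have hC10 : 0 ≤ C1 := integral_nonneg fun t => by positivity
  refine ⟨5 ^ 8 * exp (32 * C1) / 2, by positivity, fun d hd η hη S G hS hG => ?_⟩
  have hd0 : (0 : ℝ) < d := by exact_mod_cast (by omega : 0 < d)
  have hd32 : (32 : ℝ) ≤ d := by exact_mod_cast hd
  set s : ℝ := 8 / d with hs
  have hs0 : 0 ≤ s := by positivity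
  have hs4 : s ≤ 1 / 4 := by rw [hs, div_le_iff₀ hd0]; linarith
  set B : (Fin d → ℝ) → ℝ := fun k => ∏ j, yy (k j) ^ (-s) with hB
  have hBi : Integrable B (mu d) :=
    Integrable.fintype_prod (f := fun _ t => yy t ^ (-s)) fun _ => integrable_yy_rpow hs0 hs4
  have hBint : ∫ k, B k ∂(mu d) ≤ exp (32 * C1) := by
    rw [hB, mu, integral_fintype_prod_eq_pow (fun t => yy t ^ (-s)), Fintype.card_fin]
    have h1 : ∫ t, yy t ^ (-s) ∂nu ≤ 1 + 4 * s * C1 := by
      have := integral_mono_ae (integrable_yy_rpow hs0 hs4)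
        ((integrable_const (1 : ℝ)).add (integrable_abs_rpow.const_mul (4 * s)))
        (yy_rpow_le hs0 hs4)
      refine this.trans (le_of_eq ?_)
      simp only [Pi.add_apply]
      rw [integral_add (integrable_const _) (integrable_abs_rpow.const_mul _), integral_const_mul]
      simp [hC1]
    have h2 : 1 + 4 * s * C1 ≤ exp (4 * s * C1) := by linarith [add_one_le_exp (4 * s * C1)]
    calc _ ≤ (exp (4 * s * C1)) ^ d :=
          pow_le_pow_left₀ (integral_nonneg fun t => rpow_nonneg (yy_nonneg t) _) (h1.trans h2) d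
      _ = _ := by rw [← exp_nat_mul]; congr 1; rw [hs]; field_simp; ring
  have hae : ∀ᵐ k ∂(mu d), ∀ j, 0 < yy (k j) := by
    rw [ae_all_iff]
    intro j
    have h1 : ∀ᵐ t ∂nu, 0 < yy t := by
      filter_upwards [ae_nu] with t ht
      exact lt_of_lt_of_le (by have := ht.2; positivity) (yy_lower ht.1)
    exact (Measure.tendsto_eval_ae_ae (μ := fun _ : Fin d => nu) (i := j)).eventually h1
  have hpt : ∀ᵐ k ∂(mu d), ‖S k * G k ^ 4‖ ≤ ‖S k‖ ^ 2 / (2 * η) + η * (5 ^ 8 * B k / 2) := by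
    filter_upwards [hae] with k hk
    have hgm : ∏ j, yy (k j) ^ (1 / d : ℝ) ≤ YY k := by
      have := geom_mean_le_arith_mean_weighted univ (fun _ : Fin d => (1 / d : ℝ))
        (fun j => yy (k j)) (fun _ _ => by positivity) (by simp; field_simp)
        (fun j _ => yy_nonneg _)
      refine this.trans (le_of_eq ?_)
      rw [YY, ← mul_sum]; ring
    set Q := ∏ j, yy (k j) ^ (1 / d : ℝ) with hQ
    have hQ0 : 0 < Q := prod_pos fun j _ => rpow_pos_of_pos (hk j) _
    have hBQ : B k * Q ^ 8 = 1 := by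
      rw [hB, hQ, ← prod_pow, ← prod_mul_distrib]
      refine prod_eq_one fun j _ => ?_
      rw [← rpow_natCast, ← rpow_mul (hk j).le, ← rpow_add (hk j)]
      have : -s + 1 / d * ((8 : ℕ) : ℝ) = 0 := by rw [hs]; push_cast; ring
      rw [this, rpow_zero]
    have hB0 : 0 ≤ B k := prod_nonneg fun j _ => rpow_nonneg (yy_nonneg _) _
    have h1 : ‖G k‖ * Q ≤ 5 := (mul_le_mul_of_nonneg_left hgm (norm_nonneg _)).trans (hG k)
    have h2 : ‖G k‖ ^ 8 ≤ 5 ^ 8 * B k := by
      have h3 : (‖G k‖ * Q) ^ 8 ≤ 5 ^ 8 := pow_le_pow_left₀ (by positivity) h1 8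
      calc ‖G k‖ ^ 8 = (‖G k‖ * Q) ^ 8 * B k := by
            rw [mul_pow, mul_assoc, mul_comm (Q ^ 8), hBQ, mul_one]
        _ ≤ _ := by gcongr
    rw [norm_mul, norm_pow]
    have h4 : ‖S k‖ * ‖G k‖ ^ 4 ≤ ‖S k‖ ^ 2 / (2 * η) + η * (‖G k‖ ^ 8 / 2) := by
      have : ‖S k‖ ^ 2 / (2 * η) + η * (‖G k‖ ^ 8 / 2) - ‖S k‖ * ‖G k‖ ^ 4 =
          (‖S k‖ - η * ‖G k‖ ^ 4) ^ 2 / (2 * η) := by field_simp; ring
      have h5 : 0 ≤ (‖S k‖ - η * ‖G k‖ ^ 4) ^ 2 / (2 * η) := by positivity
      linarith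
    refine h4.trans ?_
    gcongr
  have hi2 : Integrable (fun k => η * (5 ^ 8 * B k / 2)) (mu d) :=
    ((hBi.const_mul _).div_const _).const_mul _
  refine (integral_mono_of_nonneg (Eventually.of_forall fun k => norm_nonneg _)
    ((hS.div_const _).add hi2) hpt).trans ?_
  simp only [Pi.add_apply]
  rw [integral_add (hS.div_const _) hi2, integral_div, integral_const_mul, integral_div,
    integral_const_mul]
  gcongr

end Pool.Agent.P.MP_2ab770_pr
end

-- part Pool.Agent.P.MP_2ab770_pr.Transform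
section

set_option autoImplicit false
set_option linter.dupNamespace false
set_option linter.unusedVariables false

namespace Pool.Agent.P.MP_2ab770_pr

open Finset Filter Topology MeasureTheory Real

variable {d : ℕ}

/-- letters -/
abbrev Lt (d : ℕ) := Fin d × Bool

/-- unit step of a letter -/
def step (a : Lt d) : Fin d → ℤ := Pi.single a.1 (if a.2 then 1 else -1)

/-- displacement of a word -/
def disp (w : List (Lt d)) : Fin d → ℤ := (w.map step).sum

lemma disp_nil : disp ([] : List (Lt d)) = 0 := by simp [disp]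

lemma disp_cons (a : Lt d) (w : List (Lt d)) : disp (a :: w) = step a + disp w := by simp [disp]

lemma disp_append (u v : List (Lt d)) : disp (u ++ v) = disp u + disp v := by simp [disp]

lemma step_injective : Function.Injective (step : Lt d → Fin d → ℤ) := by
  rintro ⟨i, b⟩ ⟨j, c⟩ h
  have h1 := congrFun h i
  simp only [step, Pi.single_eq_same] at h1
  by_cases hij : i = j
  · subst hij
    simp only [Pi.single_eq_same] at h1
    cases b <;> cases c <;> simp_all
  · rw [Pi.single_eq_of_ne hij] at h1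
    cases b <;> simp at h1

lemma cos_step (k : Fin d → ℝ) (a : Lt d) : 1 - cos (th k (step a)) = yy (k a.1) := by
  have : th k (step a) = 2 * π * ((if a.2 then 1 else -1 : ℤ) : ℝ) * k a.1 := by
    rw [th, sum_eq_single a.1]
    · simp [step]
    · intro j _ hj; simp [step, Pi.single_eq_of_ne hj]
    · simp
  rw [this, yy]
  cases a.2 <;> simp

/-- Fourier coefficient -/
noncomputable def hat (φ : List (Lt d) → ℝ) (n : ℕ) (k : Fin d → ℝ) : ℂ :=
  ∑ w ∈ words (Lt d) n, (φ w : ℂ) * chr k (disp w)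

/-- total variation -/
noncomputable def nrm (φ : List (Lt d) → ℝ) (n : ℕ) : ℝ := ∑ w ∈ words (Lt d) n, |φ w|

/-- total mass -/
noncomputable def tot (φ : List (Lt d) → ℝ) (n : ℕ) : ℝ := ∑ w ∈ words (Lt d) n, φ w

/-- concatenation product -/
noncomputable def cat (φ ψ : List (Lt d) → ℝ) (w : List (Lt d)) : ℝ :=
  ssum w (fun u v => φ u * ψ v)

/-- generating function -/
noncomputable def Tr (φ : List (Lt d) → ℝ) (z : ℝ) (k : Fin d → ℝ) : ℂ :=
  ∑' n, hat φ n k * (z : ℂ) ^ n

/-- absolute summability -/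
def Summ (φ : List (Lt d) → ℝ) (z : ℝ) : Prop := Summable fun n => nrm φ n * z ^ n

lemma nrm_nonneg (φ : List (Lt d) → ℝ) (n : ℕ) : 0 ≤ nrm φ n :=
  sum_nonneg fun _ _ => abs_nonneg _

lemma abs_tot_le (φ : List (Lt d) → ℝ) (n : ℕ) : |tot φ n| ≤ nrm φ n := abs_sum_le_sum_abs _ _

lemma norm_hat_le (φ : List (Lt d) → ℝ) (n : ℕ) (k : Fin d → ℝ) : ‖hat φ n k‖ ≤ nrm φ n := by
  refine (norm_sum_le _ _).trans (le_of_eq ?_)
  refine sum_congr rfl fun w _ => ?_
  rw [norm_mul, norm_chr]; simp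

lemma hat_zero_k (φ : List (Lt d) → ℝ) (n : ℕ) : hat φ n 0 = (tot φ n : ℂ) := by
  simp [hat, tot, chr_zero_left]

lemma continuous_hat (φ : List (Lt d) → ℝ) (n : ℕ) : Continuous (hat φ n) :=
  continuous_finsetSum _ fun w _ => continuous_const.mul (continuous_chr _)

lemma cat_nonneg {φ ψ : List (Lt d) → ℝ} (h1 : ∀ w, 0 ≤ φ w) (h2 : ∀ w, 0 ≤ ψ w) (w : List (Lt d)) :
    0 ≤ cat φ ψ w := by
  unfold cat ssum
  exact sum_nonneg fun _ _ => mul_nonneg (h1 _) (h2 _)

lemma hat_cat (φ ψ : List (Lt d) → ℝ) (n : ℕ) (k : Fin d → ℝ) :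
    hat (cat φ ψ) n k = ∑ i ∈ range (n + 1), hat φ i k * hat ψ (n - i) k := by
  have : hat (cat φ ψ) n k = ∑ w ∈ words (Lt d) n,
      ssum w (fun u v => ((φ u : ℂ) * chr k (disp u)) * ((ψ v : ℂ) * chr k (disp v))) := by
    refine sum_congr rfl fun w _ => ?_
    rw [ssum_congr (g := fun u v => ((φ u * ψ v : ℝ) : ℂ) * chr k (disp w))]
    · simp [cat, ssum, sum_mul]
    · intro u v h
      rw [← h, disp_append, chr_add]; push_cast; ring
  rw [this, sum_words_ssum]
  refine sum_congr rfl fun i _ => ?_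
  rw [hat, hat, sum_mul_sum]

lemma tot_cat (φ ψ : List (Lt d) → ℝ) (n : ℕ) :
    tot (cat φ ψ) n = ∑ i ∈ range (n + 1), tot φ i * tot ψ (n - i) := by
  have := hat_cat φ ψ n 0
  simp only [hat_zero_k] at this
  exact_mod_cast this

lemma nrm_cat_le (φ ψ : List (Lt d) → ℝ) (n : ℕ) :
    nrm (cat φ ψ) n ≤ ∑ i ∈ range (n + 1), nrm φ i * nrm ψ (n - i) := by
  have := tot_cat (fun w => |φ w|) (fun w => |ψ w|) n
  refine le_trans ?_ (le_of_eq this)
  refine sum_le_sum fun w _ => ?_
  unfold cat ssum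
  refine (abs_sum_le_sum_abs _ _).trans (le_of_eq ?_)
  exact sum_congr rfl fun i _ => abs_mul _ _

lemma norm_term_le {φ : List (Lt d) → ℝ} {z : ℝ} (hz : 0 ≤ z) (n : ℕ) (k : Fin d → ℝ) :
    ‖hat φ n k * (z : ℂ) ^ n‖ ≤ nrm φ n * z ^ n := by
  rw [norm_mul, norm_pow, Complex.norm_real, Real.norm_of_nonneg hz]
  exact mul_le_mul_of_nonneg_right (norm_hat_le _ _ _) (by positivity)

lemma Summ.norm {φ : List (Lt d) → ℝ} {z : ℝ} (hz : 0 ≤ z) (h : Summ φ z) (k : Fin d → ℝ) :
    Summable fun n => ‖hat φ n k * (z : ℂ) ^ n‖ :=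
  Summable.of_nonneg_of_le (fun _ => norm_nonneg _) (fun n => norm_term_le hz n k) h

lemma Summ.cat {φ ψ : List (Lt d) → ℝ} {z : ℝ} (hz : 0 ≤ z) (h1 : Summ φ z) (h2 : Summ ψ z) :
    Summ (cat φ ψ) z := by
  have a1 : Summable fun n => ‖nrm φ n * z ^ n‖ := Summable.norm h1
  have a2 : Summable fun n => ‖nrm ψ n * z ^ n‖ := Summable.norm h2
  have := (summable_norm_sum_mul_range_of_summable_norm a1 a2).of_norm
  refine Summable.of_nonneg_of_le (fun n => mul_nonneg (nrm_nonneg _ _) (by positivity))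
    (fun n => ?_) this
  refine (mul_le_mul_of_nonneg_right (nrm_cat_le φ ψ n) (by positivity)).trans (le_of_eq ?_)
  rw [sum_mul]
  refine sum_congr rfl fun i hi => ?_
  have := mem_range.1 hi
  conv_lhs => rw [show n = i + (n - i) by omega, pow_add]
  rw [show i + (n - i) - i = n - i by omega]; ring

lemma Tr_cat {φ ψ : List (Lt d) → ℝ} {z : ℝ} (hz : 0 ≤ z) (h1 : Summ φ z) (h2 : Summ ψ z)
    (k : Fin d → ℝ) : Tr (cat φ ψ) z k = Tr φ z k * Tr ψ z k := by
  rw [Tr, Tr, Tr, tsum_mul_tsum_eq_tsum_sum_range_of_summable_norm (h1.norm hz k) (h2.norm hz k)]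
  refine tsum_congr fun n => ?_
  rw [hat_cat, sum_mul]
  refine sum_congr rfl fun i hi => ?_
  have := mem_range.1 hi
  conv_lhs => rw [show n = i + (n - i) by omega, pow_add]
  rw [show i + (n - i) - i = n - i by omega]; ring

lemma Tr_zero_k (φ : List (Lt d) → ℝ) (z : ℝ) :
    Tr φ z 0 = ((∑' n, tot φ n * z ^ n : ℝ) : ℂ) := by
  rw [Complex.ofReal_tsum, Tr]
  refine tsum_congr fun n => ?_
  rw [hat_zero_k]; push_cast; rfl

/-- mass at a given endpoint -/
noncomputable def loc (φ : List (Lt d) → ℝ) (n : ℕ) (x : Fin d → ℤ) : ℝ :=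
  ∑ w ∈ words (Lt d) n, if disp w = x then φ w else 0

lemma loc_eq (φ : List (Lt d) → ℝ) (n : ℕ) (x : Fin d → ℤ) :
    (loc φ n x : ℂ) = ∫ k, hat φ n k * chr k (-x) ∂(mu d) := by
  have : ∀ k, hat φ n k * chr k (-x) =
      ∑ w ∈ words (Lt d) n, (φ w : ℂ) * chr k (disp w + -x) := by
    intro k; rw [hat, sum_mul]
    exact sum_congr rfl fun w _ => by rw [chr_add, mul_assoc]
  simp_rw [this]
  rw [integral_finsetSum _ (fun w _ => (integrable_chr _).const_mul _), loc]
  push_cast
  refine sum_congr rfl fun w _ => ?_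
  rw [integral_const_mul, integral_chr]
  by_cases h : disp w = x
  · simp [h]
  · have : disp w + -x ≠ 0 := fun h' => h (by rwa [add_neg_eq_zero] at h')
    simp [h, this]

lemma loc_sum_le {φ : List (Lt d) → ℝ} {z : ℝ} (hz : 0 ≤ z) (h0 : ∀ w, 0 ≤ φ w) (h : Summ φ z)
    (x : Fin d → ℤ) (K : ℕ) :
    ∑ n ∈ range K, loc φ n x * z ^ n ≤ ∫ k, ‖Tr φ z k‖ ∂(mu d) := by
  have hb : ∀ n k, ‖hat φ n k * (z : ℂ) ^ n * chr k (-x)‖ ≤ nrm φ n * z ^ n := by
    intro n k; rw [norm_mul, norm_chr, mul_one]; exact norm_term_le hz n k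
  have hi : ∀ n, Integrable (fun k => hat φ n k * (z : ℂ) ^ n * chr k (-x)) (mu d) := fun n =>
    integrable_of_bdd (((continuous_hat φ n).mul continuous_const).mul (continuous_chr _)) _ (hb n)
  have hs : Summable fun n => ∫ k, ‖hat φ n k * (z : ℂ) ^ n * chr k (-x)‖ ∂(mu d) := by
    refine Summable.of_nonneg_of_le (fun n => integral_nonneg fun _ => norm_nonneg _)
      (fun n => ?_) h
    have := integral_mono (hi n).norm (integrable_const (nrm φ n * z ^ n)) (hb n)
    simpa using this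
  have hh := hasSum_integral_of_summable_integral_norm hi hs
  have e1 : ∀ n, ∫ k, hat φ n k * (z : ℂ) ^ n * chr k (-x) ∂(mu d) =
      ((loc φ n x * z ^ n : ℝ) : ℂ) := by
    intro n
    push_cast
    rw [loc_eq, ← integral_mul_const]
    congr 1; funext k; ring
  simp_rw [e1, tsum_mul_right] at hh
  have h2 := Complex.hasSum_re hh
  simp only [Complex.ofReal_re] at h2
  have h3 : ∑ n ∈ range K, loc φ n x * z ^ n ≤ _ :=
    sum_le_hasSum _ (fun n _ => mul_nonneg (sum_nonneg fun w _ => by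
      split_ifs; exacts [h0 w, le_rfl]) (by positivity)) h2
  refine h3.trans ((Complex.re_le_norm _).trans ((norm_integral_le_integral_norm _).trans
    (le_of_eq ?_)))
  congr 1; funext k
  rw [norm_mul, norm_chr, mul_one, Tr]

/-- indicator of one letter words -/
def one1 (w : List (Lt d)) : ℝ := if w.length = 1 then 1 else 0

lemma one1_nonneg (w : List (Lt d)) : 0 ≤ one1 w := by unfold one1; split_ifs <;> norm_num

lemma hat_one1_ne {n : ℕ} (hn : n ≠ 1) (k : Fin d → ℝ) : hat one1 n k = 0 :=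
  sum_eq_zero fun w hw => by simp [one1, mem_words.1 hw, hn]

lemma summ_one1 (z : ℝ) : Summ (one1 : List (Lt d) → ℝ) z := by
  refine summable_of_ne_finset_zero (s := {1}) fun n hn => ?_
  have hn' : n ≠ 1 := by simpa using hn
  have : nrm (one1 : List (Lt d) → ℝ) n = 0 :=
    sum_eq_zero fun w hw => by simp [one1, mem_words.1 hw, hn']
  simp [this]

lemma Tr_one1 (z : ℝ) (k : Fin d → ℝ) : Tr one1 z k = (∑ a : Lt d, chr k (step a)) * z := by
  rw [Tr, tsum_eq_single 1 (fun n hn => by rw [hat_one1_ne hn, zero_mul]), pow_one, hat,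
    sum_words_succ]
  simp [sum_words_zero, one1, disp_cons, disp_nil]

lemma integrable_sq_one1 (z : ℝ) : Integrable (fun k => ‖Tr one1 z k‖ ^ 2) (mu d) := by
  simp_rw [Tr_one1]
  refine integrable_of_bdd ?_ ((Fintype.card (Lt d) * |z|) ^ 2) fun k => ?_
  · exact (((continuous_finsetSum _ fun a _ => continuous_chr _).mul continuous_const).norm).pow 2
  · rw [Real.norm_of_nonneg (by positivity), norm_mul, Complex.norm_real, Real.norm_eq_abs]
    gcongr
    refine (norm_sum_le _ _).trans (le_of_eq ?_)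
    simp [norm_chr]

lemma integral_sq_one1 (z : ℝ) : ∫ k, ‖Tr one1 z k‖ ^ 2 ∂(mu d) = 2 * d * z ^ 2 := by
  have e : ∀ k : Fin d → ℝ, ((‖Tr one1 z k‖ ^ 2 : ℝ) : ℂ) =
      ∑ a : Lt d, ∑ b : Lt d, chr k (step a + -step b) * (z : ℂ) ^ 2 := by
    intro k
    push_cast
    rw [← Complex.mul_conj', Tr_one1, map_mul, map_sum, Complex.conj_ofReal]
    simp_rw [conj_chr, chr_add, ← sum_mul]
    rw [← sum_mul_sum]; ring
  have : ((∫ k, ‖Tr one1 z k‖ ^ 2 ∂(mu d) : ℝ) : ℂ) = ((2 * d * z ^ 2 : ℝ) : ℂ) := by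
    rw [← integral_complex_ofReal]
    simp_rw [e]
    rw [integral_finsetSum _ (fun a _ => integrable_finsetSum _
      fun b _ => (integrable_chr _).mul_const _)]
    have h2 : ∀ a : Lt d, ∫ k, ∑ b : Lt d, chr k (step a + -step b) * (z : ℂ) ^ 2 ∂(mu d) =
        (z : ℂ) ^ 2 := by
      intro a
      rw [integral_finsetSum _ (fun b _ => (integrable_chr _).mul_const _), sum_eq_single a]
      · rw [integral_mul_const, integral_chr]; simp
      · intro b _ hb
        rw [integral_mul_const, integral_chr, if_neg, zero_mul]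
        intro h
        rw [add_neg_eq_zero] at h
        exact hb (step_injective h).symm
      · simp
    simp_rw [h2]
    simp only [sum_const, card_univ, Fintype.card_prod, Fintype.card_fin, Fintype.card_bool,
      nsmul_eq_mul]
    push_cast; ring
  exact_mod_cast this

lemma norm_one_sub_chr_sq (k : Fin d → ℝ) (x : Fin d → ℤ) :
    ‖1 - chr k x‖ ^ 2 = 2 * (1 - cos (th k x)) := by
  rw [Complex.sq_norm, Complex.normSq_apply]
  have h1 : (chr k x).im = sin (th k x) := by simp [chr, Complex.exp_ofReal_mul_I_im]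
  simp only [Complex.sub_re, Complex.sub_im, re_chr, h1, Complex.one_re, Complex.one_im]
  nlinarith [sin_sq_add_cos_sq (th k x)]

lemma one_sub_cos_le (k : Fin d → ℝ) (w : List (Lt d)) :
    1 - cos (th k (disp w)) ≤ w.length * (w.map fun a => yy (k a.1)).sum := by
  induction w with
  | nil => simp [disp_nil, th_zero]
  | cons a w ih =>
    have h1 := norm_one_sub_chr_sq k (disp (a :: w))
    have h2 := norm_one_sub_chr_sq k (disp w)
    have h3 := norm_one_sub_chr_sq k (step a)
    rw [cos_step] at h3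
    have h4 : ‖1 - chr k (disp (a :: w))‖ ≤ ‖1 - chr k (step a)‖ + ‖1 - chr k (disp w)‖ := by
      rw [disp_cons, chr_add]
      calc _ = ‖(1 - chr k (step a)) + chr k (step a) * (1 - chr k (disp w))‖ := by
            congr 1; ring
        _ ≤ _ := by
            refine (norm_add_le _ _).trans (le_of_eq ?_)
            rw [norm_mul, norm_chr, one_mul]
    simp only [List.length_cons, List.map_cons, List.sum_cons]
    set S := (w.map fun a => yy (k a.1)).sum
    set x := ‖1 - chr k (disp w)‖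
    set b := ‖1 - chr k (step a)‖
    have hx : 0 ≤ x := norm_nonneg _
    have hb : 0 ≤ b := norm_nonneg _
    have h5 : ‖1 - chr k (disp (a :: w))‖ ^ 2 ≤ (b + x) ^ 2 :=
      pow_le_pow_left₀ (norm_nonneg _) h4 2
    have hS : 0 ≤ S := List.sum_nonneg fun y hy => by
      obtain ⟨a, _, rfl⟩ := List.mem_map.1 hy; exact yy_nonneg _
    have hx2 : x ^ 2 ≤ 2 * (w.length * S) := by linarith
    have key : 2 * x * b ≤ 2 * S + w.length * b ^ 2 := by
      rcases Nat.eq_zero_or_pos w.length with h | h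
      · rw [h] at hx2
        have hx3 : x ^ 2 = 0 := le_antisymm (by simpa using hx2) (sq_nonneg x)
        have : x = 0 := by simpa using hx3
        rw [this, h]; simpa using hS
      · have hn : (0 : ℝ) < w.length := by exact_mod_cast h
        by_contra hc
        push Not at hc
        nlinarith [sq_nonneg (x - w.length * b), mul_lt_mul_of_pos_left hc hn]
    push_cast
    nlinarith

lemma sum_words_map {α : Type} [Fintype α] [DecidableEq α] (σ : α ≃ α) (n : ℕ) (g : List α → ℝ) :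
    ∑ w ∈ words α n, g (w.map σ) = ∑ w ∈ words α n, g w := by
  induction n generalizing g with
  | zero => simp [sum_words_zero]
  | succ n ih =>
    rw [sum_words_succ, sum_words_succ, ← Equiv.sum_comp σ (fun a => ∑ w ∈ words α n, g (a :: w))]
    refine sum_congr rfl fun a _ => ?_
    simp only [List.map_cons]
    exact ih (fun w => g (σ a :: w))

/-- number of letters along an axis -/
def cnt (j : Fin d) (w : List (Lt d)) : ℝ := (w.map fun a => if a.1 = j then (1 : ℝ) else 0).sum

lemma map_sum_eq (f : Fin d → ℝ) (w : List (Lt d)) :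
    (w.map fun a => f a.1).sum = ∑ j, f j * cnt j w := by
  induction w with
  | nil => simp [cnt]
  | cons a w ih =>
    simp only [List.map_cons, List.sum_cons, ih, cnt, mul_add, sum_add_distrib]
    simp

lemma sym_bound (hd : 0 < d) (φ : List (Lt d) → ℝ)
    (hφ : ∀ (σ : Equiv.Perm (Fin d)) (w : List (Lt d)), φ (w.map (Prod.map σ id)) = φ w)
    (m : ℕ) (k : Fin d → ℝ) :
    ∑ w ∈ words (Lt d) m, |φ w| * (1 - cos (th k (disp w))) ≤ m ^ 2 * nrm φ m * YY k := by
  set N : Fin d → ℝ := fun j => ∑ w ∈ words (Lt d) m, |φ w| * cnt j w with hN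
  have hNeq : ∀ i j, N i = N j := by
    intro i j
    simp only [hN]
    rw [← sum_words_map ((Equiv.swap i j).prodCongr (Equiv.refl Bool)) m]
    refine sum_congr rfl fun w _ => ?_
    have e : (((Equiv.swap i j).prodCongr (Equiv.refl Bool)) : Lt d → Lt d) =
        Prod.map (Equiv.swap i j) id := by
      funext a; simp
    rw [e, hφ]
    congr 1
    simp only [cnt, List.map_map]
    congr 1
    refine List.map_congr_left fun a _ => ?_
    simp only [Function.comp, Prod.map_fst]
    simp only [Equiv.swap_apply_eq_iff, Equiv.swap_apply_left]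
  have hsum : ∑ j, N j = m * nrm φ m := by
    simp only [hN]
    rw [sum_comm, nrm, mul_sum]
    refine sum_congr rfl fun w hw => ?_
    have := map_sum_eq (fun _ => 1) w
    simp only [one_mul] at this
    rw [← mul_sum, ← this]
    simp [mem_words.1 hw, mul_comm]
  have hd0 : (0 : ℝ) < d := by exact_mod_cast hd
  have hNj : ∀ j, N j = m * nrm φ m / d := by
    intro j
    rw [← hsum, sum_congr rfl (fun i _ => hNeq i j)]
    simp; field_simp
  calc _ ≤ ∑ w ∈ words (Lt d) m, |φ w| * (m * ∑ j, yy (k j) * cnt j w) := by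
        refine sum_le_sum fun w hw => mul_le_mul_of_nonneg_left ?_ (abs_nonneg _)
        have := one_sub_cos_le k w
        rwa [mem_words.1 hw, map_sum_eq (fun j => yy (k j))] at this
    _ = m * ∑ j, yy (k j) * N j := by
        simp only [hN, mul_sum]
        rw [sum_comm]
        refine sum_congr rfl fun j _ => sum_congr rfl fun w _ => by ring
    _ = _ := by
        simp_rw [hNj]
        rw [← sum_mul, YY]; ring

end Pool.Agent.P.MP_2ab770_pr
end

-- part Pool.Agent.P.MP_2ab770_pr.Improve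
section

set_option autoImplicit false
set_option linter.dupNamespace false
set_option linter.unusedVariables false

namespace Pool.Agent.P.MP_2ab770_pr

open Finset Filter Topology MeasureTheory Real

variable {d : ℕ}

/-- geometric hypotheses on a model of lattice walks -/
structure Nice (M : Model (Lt d)) : Prop where
  revisit : ∀ u v, M.F u v → ∃ i ≤ u.length, disp (u ++ v) = disp (u.take i)
  perm : ∀ (σ : Equiv.Perm (Fin d)) (w : List (Lt d)), M.good (w.map (Prod.map σ id)) ↔ M.good w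
  pos : ∀ w : List (Lt d), (∀ a ∈ w, a.2 = true) → M.good w

/-- bootstrap quantity -/
def Bd (M : Model (Lt d)) (z t : ℝ) : Prop :=
  ∀ (x : Fin d → ℤ) (K : ℕ),
    ∑ n ∈ range K, ((n : ℝ) + 2) ^ 3 * loc M.ind (n + 1) x * z ^ (n + 1) ≤ t

variable {M : Model (Lt d)}

lemma loc_nonneg {φ : List (Lt d) → ℝ} (h0 : ∀ w, 0 ≤ φ w) (n : ℕ) (x : Fin d → ℤ) :
    0 ≤ loc φ n x := sum_nonneg fun w _ => by split_ifs; exacts [h0 w, le_rfl]

open Classical in
lemma Bd.hyp (hM : Nice M) {z t : ℝ} (hz : 0 ≤ z) (h : Bd M z t) (u : List (Lt d)) (K : ℕ) :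
    ∑ n ∈ range K, ∑ v ∈ words (Lt d) n,
      (if M.F u v then ((n : ℝ) + 1) ^ 3 * z ^ n else 0) ≤ (u.length + 1) * t := by
  have ht : 0 ≤ t := by simpa using h 0 0
  cases K with
  | zero => simp; positivity
  | succ K =>
    rw [sum_range_succ', sum_words_zero, if_neg (fun h => h.1 rfl), add_zero]
    have h1 : ∀ n, ∑ v ∈ words (Lt d) (n + 1),
        (if M.F u v then (((n + 1 : ℕ) : ℝ) + 1) ^ 3 * z ^ (n + 1) else 0) ≤
        ∑ i ∈ range (u.length + 1),
          ((n : ℝ) + 2) ^ 3 * loc M.ind (n + 1) (disp (u.take i) - disp u) * z ^ (n + 1) := by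
      intro n
      simp only [loc, mul_sum, sum_mul]
      rw [sum_comm]
      refine sum_le_sum fun v _ => ?_
      have hnn : ∀ i ∈ range (u.length + 1), 0 ≤ ((n : ℝ) + 2) ^ 3 *
          (if disp v = disp (u.take i) - disp u then M.ind v else 0) * z ^ (n + 1) := by
        intro i _
        have := M.ind_nonneg v
        split_ifs <;> positivity
      split_ifs with hF
      · obtain ⟨i, hi, hd⟩ := hM.revisit u v hF
        refine le_trans (le_of_eq ?_) (single_le_sum hnn (mem_range.2 (Nat.lt_succ_of_le hi)))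
        rw [if_pos (by rw [← hd, disp_append]; abel), M.ind_good hF.2.1]
        push_cast; ring
      · exact sum_nonneg hnn
    calc _ ≤ _ := sum_le_sum fun n _ => h1 n
      _ = ∑ i ∈ range (u.length + 1), ∑ n ∈ range K,
          ((n : ℝ) + 2) ^ 3 * loc M.ind (n + 1) (disp (u.take i) - disp u) * z ^ (n + 1) :=
        sum_comm
      _ ≤ ∑ i ∈ range (u.length + 1), t := sum_le_sum fun i _ => h _ K
      _ = _ := by simp

lemma Bd.rho (hM : Nice M) {z t : ℝ} (hz : 0 ≤ z) (hdz : d * z ≤ 1) (ht : t ≤ 1 / 2)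
    (h : Bd M z t) (K : ℕ) :
    ∑ n ∈ range K, ((n : ℝ) + 2) ^ 2 * nrm M.rho (n + 2) * z ^ (n + 2) ≤ 8 * t := by
  have ht0 : 0 ≤ t := by simpa using h 0 0
  have h1 : ∀ a : Lt d, ∑ n ∈ range K, ∑ w ∈ words (Lt d) (n + 1),
      ((n : ℝ) + 2) ^ 2 * z ^ (n + 1) * |M.P [a] w| ≤ 4 * t := by
    intro a
    have := M.P_bound z t hz ht0 ht (h.hyp hM hz) (K + 1) [a]
    rw [sum_range_succ', sum_words_zero, M.P_nil] at this
    simp only [List.length_singleton] at this
    push_cast at this
    have e : ∀ n : ℕ, ((n : ℝ) + 1 + 1) = n + 2 := fun n => by ring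
    simp_rw [e] at this
    norm_num at this
    linarith
  have h2 : ∑ n ∈ range K, ((n : ℝ) + 2) ^ 2 * nrm M.rho (n + 2) * z ^ (n + 2) =
      z * ∑ a : Lt d, ∑ n ∈ range K, ∑ w ∈ words (Lt d) (n + 1),
        ((n : ℝ) + 2) ^ 2 * z ^ (n + 1) * |M.P [a] w| := by
    rw [sum_comm, mul_sum]
    refine sum_congr rfl fun n _ => ?_
    rw [nrm, sum_words_succ]
    simp only [Model.rho, mul_sum, sum_mul]
    refine sum_congr rfl fun a _ => sum_congr rfl fun w _ => by ring
  rw [h2]
  calc _ ≤ z * ∑ a : Lt d, 4 * t := by gcongr with a; exact h1 a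
    _ = 8 * t * (d * z) := by simp; ring
    _ ≤ 8 * t * 1 := by gcongr
    _ = _ := by ring

lemma nrm_rho_zero : nrm M.rho 0 = 0 := by simp [nrm, sum_words_zero, Model.rho]

lemma nrm_rho_one : nrm M.rho 1 = 2 * d := by
  rw [nrm, sum_words_succ]
  simp [sum_words_zero, M.rho_single, mul_comm]

lemma tot_rho_zero : tot M.rho 0 = 0 := by simp [tot, sum_words_zero, Model.rho]

lemma summ_rho {z ε : ℝ} (hz : 0 ≤ z)
    (h : ∀ K, ∑ n ∈ range K, ((n : ℝ) + 2) ^ 2 * nrm M.rho (n + 2) * z ^ (n + 2) ≤ ε) :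
    Summable (fun n : ℕ => ((n : ℝ) + 2) ^ 2 * nrm M.rho (n + 2) * z ^ (n + 2)) ∧
      Summ M.rho z ∧ ∑' n, nrm M.rho n * z ^ n ≤ 2 * d * z + ε := by
  have hnn : ∀ n : ℕ, 0 ≤ ((n : ℝ) + 2) ^ 2 * nrm M.rho (n + 2) * z ^ (n + 2) := fun n => by
    have := nrm_nonneg M.rho (n + 2); positivity
  have h1 := summable_of_sum_range_le hnn h
  have hle : ∀ n : ℕ, nrm M.rho (n + 2) * z ^ (n + 2) ≤
      ((n : ℝ) + 2) ^ 2 * nrm M.rho (n + 2) * z ^ (n + 2) := by
    intro n
    have h0 : 0 ≤ nrm M.rho (n + 2) * z ^ (n + 2) := mul_nonneg (nrm_nonneg _ _) (by positivity)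
    have : (1 : ℝ) ≤ ((n : ℝ) + 2) ^ 2 := by nlinarith [(Nat.cast_nonneg n : (0 : ℝ) ≤ n)]
    nlinarith
  have h2 : Summable fun n : ℕ => nrm M.rho (n + 2) * z ^ (n + 2) :=
    Summable.of_nonneg_of_le (fun n => mul_nonneg (nrm_nonneg _ _) (by positivity)) hle h1
  have h3 : Summ M.rho z := (summable_nat_add_iff 2).1 h2
  refine ⟨h1, h3, ?_⟩
  rw [← Summable.sum_add_tsum_nat_add 2 h3]
  have h4 := (h2.tsum_le_tsum hle h1).trans (Real.tsum_le_of_sum_range_le hnn h)
  simp only [sum_range_succ, sum_range_zero, nrm_rho_zero, nrm_rho_one]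
  linarith

lemma nrm_ind (n : ℕ) : nrm M.ind n = tot M.ind n :=
  sum_congr rfl fun w _ => abs_of_nonneg (M.ind_nonneg w)

lemma Tr_identity {z : ℝ} (hz : 0 ≤ z) (h1 : Summ M.rho z) (h2 : Summ M.ind z) (k : Fin d → ℝ) :
    Tr M.ind z k * (1 - Tr M.rho z k) = 1 := by
  have hc := h1.cat hz h2
  have e : ∀ n, hat M.ind n k * (z : ℂ) ^ n =
      (if n = 0 then 1 else 0) + hat (cat M.rho M.ind) n k * (z : ℂ) ^ n := by
    intro n
    have : hat M.ind n k = (if n = 0 then 1 else 0) + hat (cat M.rho M.ind) n k := by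
      have : hat M.ind n k = ∑ w ∈ words (Lt d) n, ((if n = 0 then chr k (disp w) else 0) +
          (cat M.rho M.ind w : ℂ) * chr k (disp w)) := by
        refine sum_congr rfl fun w hw => ?_
        rw [M.ind_eq w]
        have hl := mem_words.1 hw
        by_cases h : w = []
        · subst h
          simp only [List.length_nil] at hl
          subst hl
          simp [cat, add_mul]
        · have : n ≠ 0 := by rintro rfl; exact h (List.length_eq_zero_iff.1 hl)
          simp [h, this, cat]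
      rw [this, sum_add_distrib]
      congr 1
      split_ifs with h
      · subst h; simp [sum_words_zero, disp_nil, chr_zero]
      · simp
    rw [this, add_mul]
    split_ifs with h
    · subst h; simp
    · simp
  have h3 : Tr M.ind z k = 1 + Tr (cat M.rho M.ind) z k := by
    rw [Tr, Tr, tsum_congr e, Summable.tsum_add _ (hc.norm hz k).of_norm]
    · simp
    · exact summable_of_ne_finset_zero (s := {0}) fun n hn => by simpa using hn
  rw [Tr_cat hz h1 h2] at h3
  linear_combination h3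

lemma tot_ind_zero : tot M.ind 0 = 1 := by simp [tot, sum_words_zero, M.ind_good M.nil]

lemma tot_ind_nonneg (n : ℕ) : 0 ≤ tot M.ind n := sum_nonneg fun w _ => M.ind_nonneg w

lemma real_identity {z : ℝ} (hz : 0 ≤ z) (h1 : Summ M.rho z) (h2 : Summ M.ind z) :
    (∑' n, tot M.ind n * z ^ n) * (1 - ∑' n, tot M.rho n * z ^ n) = 1 := by
  have := Tr_identity hz h1 h2 0
  rw [Tr_zero_k, Tr_zero_k] at this
  exact_mod_cast this

lemma YY_nonneg (k : Fin d → ℝ) : 0 ≤ YY k :=
  div_nonneg (sum_nonneg fun _ _ => yy_nonneg _) (Nat.cast_nonneg _)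

lemma YY_le (hd : 0 < d) (k : Fin d → ℝ) : YY k ≤ 2 := by
  have hd0 : (0 : ℝ) < d := by exact_mod_cast hd
  rw [YY, div_le_iff₀ hd0]
  calc _ ≤ ∑ _j : Fin d, (2 : ℝ) := sum_le_sum fun j _ => yy_le _
    _ = _ := by simp; ring

lemma infrared (hd : 0 < d) (hM : Nice M) {z : ℝ} (hz : 0 ≤ z) (h2 : Summ M.ind z)
    (h : ∀ K, ∑ n ∈ range K, ((n : ℝ) + 2) ^ 2 * nrm M.rho (n + 2) * z ^ (n + 2) ≤ 1 / 10)
    (k : Fin d → ℝ) : ‖Tr M.ind z k‖ * YY k ≤ 5 := by
  obtain ⟨hs2, h1, hb⟩ := summ_rho hz h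
  have hY0 := YY_nonneg k
  have hY2 := YY_le hd k
  have hre : YY k / 5 ≤ (1 - Tr M.rho z k).re := by
    by_cases hc : 2 * d * z ≤ 1 / 2
    · have : ‖Tr M.rho z k‖ ≤ 2 * d * z + 1 / 10 :=
        (tsum_of_norm_bounded h1.hasSum fun n => norm_term_le hz n k).trans hb
      have h3 := Complex.re_le_norm (Tr M.rho z k)
      simp only [Complex.sub_re, Complex.one_re]
      linarith
    · push Not at hc
      have hχ : 0 ≤ ∑' n, tot M.ind n * z ^ n :=
        tsum_nonneg fun n => mul_nonneg (tot_ind_nonneg n) (by positivity)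
      have hid := real_identity hz h1 h2
      have hF0 : 0 ≤ 1 - ∑' n, tot M.rho n * z ^ n := by
        by_contra hneg
        push Not at hneg
        nlinarith
      set u : ℕ → ℝ := fun n =>
        (∑ w ∈ words (Lt d) n, M.rho w * (1 - cos (th k (disp w)))) * z ^ n with hu
      have hs0 : Summable fun n => tot M.rho n * z ^ n :=
        Summable.of_norm_bounded h1 fun n => by
          rw [norm_mul, norm_pow, Real.norm_of_nonneg hz]
          exact mul_le_mul_of_nonneg_right (abs_tot_le _ _) (by positivity)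
      have hsk := Complex.hasSum_re (h1.norm hz k).of_norm.hasSum
      have hue : ∀ n, u n = tot M.rho n * z ^ n - (hat M.rho n k * (z : ℂ) ^ n).re := by
        intro n
        rw [← Complex.ofReal_pow, Complex.re_mul_ofReal, hat, Complex.re_sum, ← sub_mul, tot,
          ← sum_sub_distrib]
        simp only [hu]
        congr 1
        refine sum_congr rfl fun w _ => ?_
        rw [Complex.re_ofReal_mul, re_chr]; ring
      have hsu : HasSum u (∑' n, tot M.rho n * z ^ n - (Tr M.rho z k).re) := by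
        have := hs0.hasSum.sub hsk
        exact (funext hue : u = _) ▸ this
      have hu0 : u 0 = 0 := by simp [hu, sum_words_zero, Model.rho]
      have hu1 : u 1 = 2 * d * z * YY k := by
        have hd0 : (0 : ℝ) < d := by exact_mod_cast hd
        simp only [hu]
        rw [sum_words_succ]
        simp only [sum_words_zero, M.rho_single, disp_cons, disp_nil, add_zero, cos_step, one_mul,
          Fintype.sum_prod_type, sum_const, card_univ, Fintype.card_bool, nsmul_eq_mul, YY,
          ← mul_sum]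
        field_simp
        push_cast; ring
      have hu2 : ∀ n : ℕ, ‖u (n + 2)‖ ≤
          ((n : ℝ) + 2) ^ 2 * nrm M.rho (n + 2) * z ^ (n + 2) * YY k := by
        intro n
        have := sym_bound hd M.rho (fun σ w => M.rho_map _ (hM.perm σ) w) (n + 2) k
        simp only [hu]
        rw [norm_mul, norm_pow, Real.norm_of_nonneg hz]
        have h5 : ‖∑ w ∈ words (Lt d) (n + 2), M.rho w * (1 - cos (th k (disp w)))‖ ≤
            ∑ w ∈ words (Lt d) (n + 2), |M.rho w| * (1 - cos (th k (disp w))) := by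
          refine (norm_sum_le _ _).trans (le_of_eq ?_)
          refine sum_congr rfl fun w _ => ?_
          rw [norm_mul, Real.norm_eq_abs, Real.norm_of_nonneg (sub_nonneg.2 (cos_le_one _))]
        push_cast at this
        calc _ ≤ (((n : ℝ) + 2) ^ 2 * nrm M.rho (n + 2) * YY k) * z ^ (n + 2) := by
              gcongr; exact h5.trans this
          _ = _ := by ring
      have h6 := tsum_of_norm_bounded (hs2.hasSum.mul_right (YY k)) hu2
      have hnn : ∀ n : ℕ, 0 ≤ ((n : ℝ) + 2) ^ 2 * nrm M.rho (n + 2) * z ^ (n + 2) := fun n => by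
        have := nrm_nonneg M.rho (n + 2); positivity
      have h7 := Real.tsum_le_of_sum_range_le hnn h
      have h8 := Summable.sum_add_tsum_nat_add 2 hsu.summable
      rw [hsu.tsum_eq] at h8
      simp only [sum_range_succ, sum_range_zero, hu0, hu1] at h8
      have h9 := (abs_le.1 (h6.trans (mul_le_mul_of_nonneg_right h7 hY0))).1
      simp only [Complex.sub_re, Complex.one_re]
      nlinarith
  have hid := congrArg norm (Tr_identity hz h1 h2 k)
  rw [norm_mul, norm_one] at hid
  have h3 := hre.trans (Complex.re_le_norm _)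
  nlinarith [norm_nonneg (Tr M.ind z k)]

lemma cat_good {ψ : List (Lt d) → ℝ} {f : ℕ → ℝ} (hψ : ∀ v, M.good v → ψ v = f v.length)
    (w : List (Lt d)) (hw : M.good w) : cat M.ind ψ w = ∑ i ∈ range (w.length + 1), f i := by
  rw [← sum_range_reflect, cat, ssum]
  refine sum_congr rfl fun i hi => ?_
  have h := List.take_append_drop i w
  rw [M.ind_good (M.left _ _ (h.symm ▸ hw)), hψ _ (M.right _ _ (h.symm ▸ hw))]
  simp

lemma cat4_good (w : List (Lt d)) (hw : M.good w) :
    cat M.ind (cat M.ind (cat M.ind M.ind)) w =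
      ((w.length : ℝ) + 1) * (w.length + 2) * (w.length + 3) / 6 := by
  have h2 : ∀ v, M.good v → cat M.ind M.ind v = (fun n : ℕ => (n : ℝ) + 1) v.length := by
    intro v hv
    rw [cat_good (f := fun _ => 1) (fun v hv => M.ind_good hv) v hv]; simp
  have h3 : ∀ v, M.good v → cat M.ind (cat M.ind M.ind) v =
      (fun n : ℕ => ((n : ℝ) + 1) * (n + 2) / 2) v.length := by
    intro v hv
    rw [cat_good (f := fun n : ℕ => (n : ℝ) + 1) h2 v hv]
    generalize v.length = n
    induction n with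
    | zero => simp
    | succ n ih => rw [sum_range_succ, ih]; push_cast; ring
  rw [cat_good (f := fun n : ℕ => ((n : ℝ) + 1) * (n + 2) / 2) h3 w hw]
  generalize w.length = n
  induction n with
  | zero => simp; norm_num
  | succ n ih => rw [sum_range_succ, ih]; push_cast; ring

lemma Bd_of_integral {z : ℝ} (hz : 0 ≤ z) (h2 : Summ M.ind z) :
    Bd M z (8 * ∫ k, ‖Tr one1 z k * Tr M.ind z k ^ 4‖ ∂(mu d)) := by
  intro x K
  set g4 := cat M.ind (cat M.ind (cat M.ind M.ind)) with hg4
  have hg0 : ∀ w, 0 ≤ g4 w :=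
    cat_nonneg M.ind_nonneg (cat_nonneg M.ind_nonneg (cat_nonneg M.ind_nonneg M.ind_nonneg))
  have hs4 : Summ g4 z := h2.cat hz (h2.cat hz (h2.cat hz h2))
  have hφ0 : ∀ w, 0 ≤ cat one1 g4 w := cat_nonneg one1_nonneg hg0
  have h1 := loc_sum_le hz hφ0 ((summ_one1 z).cat hz hs4) x (K + 1)
  have e : ∀ k, Tr (cat one1 g4) z k = Tr one1 z k * Tr M.ind z k ^ 4 := by
    intro k
    rw [Tr_cat hz (summ_one1 z) hs4, hg4, Tr_cat hz h2 (h2.cat hz (h2.cat hz h2)),
      Tr_cat hz h2 (h2.cat hz h2), Tr_cat hz h2 h2]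
    ring
  simp_rw [e] at h1
  rw [sum_range_succ'] at h1
  have h0 : 0 ≤ loc (cat one1 g4) 0 x * z ^ 0 := mul_nonneg (loc_nonneg hφ0 _ _) (by positivity)
  have h3 : ∀ n : ℕ, ((n : ℝ) + 2) ^ 3 * loc M.ind (n + 1) x ≤ 8 * loc (cat one1 g4) (n + 1) x := by
    intro n
    simp only [loc, mul_sum]
    refine sum_le_sum fun w hw => ?_
    split_ifs
    · have hl := mem_words.1 hw
      obtain ⟨a, w, rfl⟩ := List.exists_cons_of_length_eq_add_one hl
      have hl' : w.length = n := by simpa using hl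
      have e2 : cat one1 g4 (a :: w) = g4 w := by
        rw [cat, ssum_cons]
        cases w with
        | nil => simp [ssum_nil, one1]
        | cons b w => rw [ssum_cons]; simp [one1, ssum]
      rw [e2]
      by_cases hg : M.good (a :: w)
      · rw [M.ind_good hg, hg4, cat4_good w (M.right [a] w hg), hl']
        have : (0 : ℝ) ≤ n := Nat.cast_nonneg n
        nlinarith [mul_nonneg this this, mul_nonneg this (mul_nonneg this this)]
      · rw [M.ind_not hg]; have := hg0 w; linarith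
    · simp
  calc _ ≤ ∑ n ∈ range K, 8 * (loc (cat one1 g4) (n + 1) x * z ^ (n + 1)) := by
        refine sum_le_sum fun n _ => ?_
        rw [← mul_assoc]
        exact mul_le_mul_of_nonneg_right (h3 n) (by positivity)
    _ ≤ _ := by rw [← mul_sum]; linarith

theorem improve : ∃ d0 : ℕ, 1 ≤ d0 ∧ ∀ d : ℕ, d0 ≤ d → ∀ M : Model (Lt d), Nice M → ∀ z : ℝ,
    0 ≤ z → d * z ≤ 1 → Summ M.ind z → Bd M z (1 / 80) → Bd M z (1 / 160) := by
  obtain ⟨C, hC0, hC⟩ := key_integral
  set η : ℝ := 1 / (2560 * (C + 1)) with hη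
  have hη0 : 0 < η := by positivity
  obtain ⟨N, hN⟩ := exists_nat_ge (2560 / η)
  refine ⟨max 32 N, le_max_of_le_left (by norm_num), fun d hd M hM z hz hdz h2 hB => ?_⟩
  have hd32 : 32 ≤ d := le_of_max_le_left hd
  have hdN : (2560 / η) ≤ d := hN.trans (by exact_mod_cast le_of_max_le_right hd)
  have hd0 : (0 : ℝ) < d := by exact_mod_cast (by omega : 0 < d)
  have hr := hB.rho hM hz hdz (by norm_num)
  have hi := infrared (by omega) hM hz h2 (fun K => (hr K).trans (by norm_num))
  have h3 := hC d hd32 η hη0 _ _ (integrable_sq_one1 z) hi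
  rw [integral_sq_one1] at h3
  have h4 : 2 * d * z ^ 2 / (2 * η) ≤ 1 / 2560 := by
    rw [div_le_iff₀ hη0] at hdN
    rw [div_le_div_iff₀ (by positivity) (by norm_num)]
    have h5 : (d * z) ^ 2 ≤ 1 := pow_le_one₀ (by positivity) hdz
    have h6 : d * z ^ 2 * 2560 * d ≤ η * d := by
      calc d * z ^ 2 * 2560 * d = (d * z) ^ 2 * 2560 := by ring
        _ ≤ 1 * 2560 := by gcongr
        _ ≤ _ := by linarith
    have := le_of_mul_le_mul_right h6 hd0
    linarith
  have h5 : η * C ≤ 1 / 2560 := by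
    rw [hη, div_mul_eq_mul_div, div_le_div_iff₀ (by positivity) (by norm_num)]
    linarith
  intro x K
  have := Bd_of_integral hz h2 x K
  linarith

end Pool.Agent.P.MP_2ab770_pr
end

-- part Pool.Agent.P.MP_2ab770_pr.Renewal
section

set_option autoImplicit false
set_option linter.dupNamespace false

namespace Pool.Agent.P.MP_2ab770_pr

open Finset Filter Topology

theorem renewal (r a : ℕ → ℝ) (ε : ℝ) (hε : ε < 1) (hr0 : r 0 = 0) (ha0 : a 0 = 1)
    (hrec : ∀ n, a (n + 1) = ∑ i ∈ range (n + 2), r i * a (n + 1 - i))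
    (hsum : HasSum r 1)
    (hw : ∀ K, ∑ m ∈ range K, ((m : ℝ) + 1) * |r (m + 2)| ≤ ε) :
    ∃ A, Tendsto a atTop (𝓝 A) := by
  have hε0 : 0 ≤ ε := by simpa using hw 0
  set t : ℕ → ℝ := fun j => 1 - ∑ i ∈ range (j + 1), r i with ht
  have ht0 : t 0 = 1 := by simp [ht, hr0]
  have hts : ∀ j, t (j + 1) = t j - r (j + 1) := by
    intro j; simp only [ht]; rw [sum_range_succ _ (j + 1)]; ring
  have htail : ∀ j, HasSum (fun i => r (i + (j + 1))) (t j) := fun j =>
    (hasSum_nat_add_iff' (j + 1)).2 hsum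
  have hT : ∀ K, ∑ j ∈ range K, |t (j + 1)| ≤ ε := by
    intro K
    have hlim : Tendsto (fun N => ∑ j ∈ range K, |∑ i ∈ range N, r (i + (j + 1 + 1))|) atTop
        (𝓝 (∑ j ∈ range K, |t (j + 1)|)) :=
      tendsto_finsetSum _ fun j _ => ((htail (j + 1)).tendsto_sum_nat).abs
    refine le_of_tendsto' hlim fun N => ?_
    have h1 := sum_range_diag_flip (K + N) (fun j i => |r (j + i + 2)|)
    have h2 : ∑ m ∈ range (K + N), ∑ k ∈ range (m + 1), |r (k + (m - k) + 2)| =
        ∑ m ∈ range (K + N), ((m : ℝ) + 1) * |r (m + 2)| := by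
      refine sum_congr rfl fun m _ => ?_
      rw [sum_congr rfl (g := fun _ => |r (m + 2)|)]
      · simp
      · intro k hk
        have := mem_range.1 hk
        rw [show k + (m - k) = m by omega]
    calc _ ≤ ∑ j ∈ range K, ∑ i ∈ range (K + N - j), |r (j + i + 2)| := by
          refine sum_le_sum fun j hj => (abs_sum_le_sum_abs _ _).trans ?_
          have := mem_range.1 hj
          calc _ = ∑ i ∈ range N, |r (j + i + 2)| :=
                sum_congr rfl fun i _ => by rw [show i + (j + 1 + 1) = j + i + 2 by ring]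
            _ ≤ _ := sum_le_sum_of_subset_of_nonneg (range_subset_range.2 (by omega))
                (fun _ _ _ => abs_nonneg _)
      _ ≤ ∑ j ∈ range (K + N), ∑ i ∈ range (K + N - j), |r (j + i + 2)| :=
          sum_le_sum_of_subset_of_nonneg (range_subset_range.2 (by omega))
            (fun _ _ _ => sum_nonneg fun _ _ => abs_nonneg _)
      _ ≤ ε := by rw [← h1, h2]; exact hw _
  set d : ℕ → ℝ := fun n => Nat.casesOn n 1 (fun m => a (m + 1) - a m) with hd
  have hd0 : d 0 = 1 := rfl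
  have hds : ∀ n, d (n + 1) = a (n + 1) - a n := fun n => rfl
  have had : ∀ n, a n = ∑ i ∈ range (n + 1), d i := by
    intro n
    induction n with
    | zero => simp [hd0, ha0]
    | succ n ih => rw [sum_range_succ, ← ih, hds]; ring
  have hid : ∀ n, d (n + 1) = - ∑ j ∈ range (n + 1), t (j + 1) * d (n - j) := by
    intro n
    have e1 : ∑ j ∈ range (n + 1), t (j + 1) * d (n - j) =
        ∑ j ∈ range (n + 1), t (j + 1) * a (n - j) - ∑ j ∈ range n, t (j + 1) * a (n - 1 - j) := by
      rw [sum_range_succ, sum_range_succ (fun j => t (j + 1) * a (n - j)), Nat.sub_self, hd0, ha0]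
      have : ∑ j ∈ range n, t (j + 1) * d (n - j) =
          ∑ j ∈ range n, (t (j + 1) * a (n - j) - t (j + 1) * a (n - 1 - j)) := by
        refine sum_congr rfl fun j hj => ?_
        have := mem_range.1 hj
        rw [show n - j = (n - 1 - j) + 1 by omega, hds]; ring
      rw [this, sum_sub_distrib]; ring
    have e2 : ∑ j ∈ range (n + 1), t (j + 1) * a (n - j) =
        ∑ j ∈ range (n + 1), t j * a (n - j) - ∑ j ∈ range (n + 1), r (j + 1) * a (n - j) := by
      rw [← sum_sub_distrib]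
      refine sum_congr rfl fun j _ => ?_
      rw [hts]; ring
    have e3 : ∑ j ∈ range (n + 1), t j * a (n - j) =
        a n + ∑ j ∈ range n, t (j + 1) * a (n - 1 - j) := by
      rw [sum_range_succ', ht0, Nat.sub_zero, one_mul, add_comm]
      congr 1
      refine sum_congr rfl fun j _ => ?_
      rw [show n - (j + 1) = n - 1 - j by omega]
    have e4 : a (n + 1) = ∑ j ∈ range (n + 1), r (j + 1) * a (n - j) := by
      rw [hrec, sum_range_succ', hr0, zero_mul, add_zero]
      refine sum_congr rfl fun j _ => ?_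
      rw [show n + 1 - (j + 1) = n - j by omega]
    rw [e1, e2, e3, hds, e4]; ring
  have hS : ∀ K, ∑ n ∈ range K, |d n| ≤ 1 / (1 - ε) := by
    have hpos : 0 < 1 - ε := by linarith
    intro K
    induction K with
    | zero => simp; linarith
    | succ K ih =>
      rw [sum_range_succ', hd0, abs_one]
      have h1 : ∑ n ∈ range K, |d (n + 1)| ≤
          ∑ n ∈ range K, ∑ j ∈ range (n + 1), |t (j + 1)| * |d (n - j)| := by
        refine sum_le_sum fun n _ => ?_
        rw [hid, abs_neg]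
        refine (abs_sum_le_sum_abs _ _).trans (le_of_eq ?_)
        exact sum_congr rfl fun j _ => abs_mul _ _
      rw [sum_range_diag_flip K (fun j i => |t (j + 1)| * |d i|)] at h1
      have h2 : ∑ j ∈ range K, ∑ i ∈ range (K - j), |t (j + 1)| * |d i| ≤
          ∑ j ∈ range K, |t (j + 1)| * (1 / (1 - ε)) := by
        refine sum_le_sum fun j _ => ?_
        rw [← mul_sum]
        refine mul_le_mul_of_nonneg_left (le_trans ?_ ih) (abs_nonneg _)
        exact sum_le_sum_of_subset_of_nonneg (range_subset_range.2 (by omega))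
            (fun _ _ _ => abs_nonneg _)
      rw [← sum_mul] at h2
      have h3 : (∑ j ∈ range K, |t (j + 1)|) * (1 / (1 - ε)) ≤ ε * (1 / (1 - ε)) :=
        mul_le_mul_of_nonneg_right (hT K) (by positivity)
      have h4 : ε * (1 / (1 - ε)) + 1 = 1 / (1 - ε) := by field_simp; ring
      linarith
  have hsd : Summable d := (summable_of_sum_range_le (fun _ => abs_nonneg _) hS).of_abs
  refine ⟨∑' n, d n, ?_⟩
  have := (tendsto_add_atTop_iff_nat 1).2 hsd.hasSum.tendsto_sum_nat
  exact this.congr fun n => (had n).symm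

end Pool.Agent.P.MP_2ab770_pr
end

-- part Pool.Agent.P.MP_2ab770_pr.Boot
section

set_option autoImplicit false
set_option linter.dupNamespace false
set_option linter.unusedVariables false

namespace Pool.Agent.P.MP_2ab770_pr

open Finset Filter Topology MeasureTheory Real

variable {d : ℕ} {M : Model (Lt d)}

lemma tot_ind_le (n : ℕ) : tot M.ind n ≤ (2 * d) ^ n := by
  calc _ ≤ ∑ _w ∈ words (Lt d) n, (1 : ℝ) := sum_le_sum fun w _ => M.ind_le_one w
    _ = _ := by simp [card_words, mul_comm]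

open Classical in
lemma tot_ind_ge (hM : Nice M) (n : ℕ) : (d : ℝ) ^ n ≤ tot M.ind n := by
  have h1 : ∀ n : ℕ, ∑ w ∈ words (Lt d) n, (if ∀ a ∈ w, a.2 = true then (1 : ℝ) else 0) =
      (d : ℝ) ^ n := by
    intro n
    induction n with
    | zero => rw [sum_words_zero]; simp
    | succ n ih =>
      rw [sum_words_succ]
      have : ∀ a : Lt d, ∑ w ∈ words (Lt d) n,
          (if ∀ b ∈ a :: w, b.2 = true then (1 : ℝ) else 0) = if a.2 = true then (d : ℝ) ^ n else 0 := by
        intro a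
        by_cases ha : a.2 = true
        · rw [if_pos ha, ← ih]
          refine sum_congr rfl fun w _ => ?_
          simp only [List.forall_mem_cons, ha, true_and]
        · rw [if_neg ha]
          refine sum_eq_zero fun w _ => if_neg fun h => ha (h a List.mem_cons_self)
      simp_rw [this]
      simp [Fintype.sum_prod_type, pow_succ, mul_comm]
  rw [← h1]
  refine sum_le_sum fun w _ => ?_
  split_ifs with h
  · rw [M.ind_good (hM.pos w h)]
  · exact M.ind_nonneg w

lemma tot_ind_add (m n : ℕ) : tot M.ind (m + n) ≤ tot M.ind m * tot M.ind n := by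
  rw [tot, sum_words_add, tot, tot, sum_mul_sum]
  exact sum_le_sum fun u _ => sum_le_sum fun v _ => M.ind_append_le u v

lemma loc_le_tot (n : ℕ) (x : Fin d → ℤ) : loc M.ind n x ≤ tot M.ind n :=
  sum_le_sum fun w _ => by split_ifs; exacts [le_rfl, M.ind_nonneg w]

lemma summ_iff {z : ℝ} : Summ M.ind z ↔ Summable fun n => tot M.ind n * z ^ n := by
  simp only [Summ, nrm_ind]

lemma summ_of_lt_one {z : ℝ} (hz : 0 ≤ z) {N : ℕ} (h : tot M.ind N * z ^ N < 1) :
    Summ M.ind z := by
  rw [summ_iff]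
  have hnn : ∀ n, 0 ≤ tot M.ind n * z ^ n := fun n => mul_nonneg (tot_ind_nonneg n) (by positivity)
  set q := tot M.ind N * z ^ N with hq
  set B := ∑ n ∈ range N, tot M.ind n * z ^ n
  refine summable_of_sum_range_le hnn (c := B / (1 - q)) fun K => ?_
  have h1 : ∑ n ∈ range K, tot M.ind n * z ^ n ≤ ∑ n ∈ range (N + K), tot M.ind n * z ^ n :=
    sum_le_sum_of_subset_of_nonneg (range_subset_range.2 (by omega)) fun n _ _ => hnn n
  rw [sum_range_add] at h1
  have h2 : ∑ n ∈ range K, tot M.ind (N + n) * z ^ (N + n) ≤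
      q * ∑ n ∈ range K, tot M.ind n * z ^ n := by
    rw [mul_sum]
    refine sum_le_sum fun n _ => ?_
    calc _ ≤ tot M.ind N * tot M.ind n * z ^ (N + n) :=
          mul_le_mul_of_nonneg_right (tot_ind_add N n) (by positivity)
      _ = _ := by rw [hq, pow_add]; ring
  rw [le_div_iff₀ (by linarith)]
  linarith

lemma crit (hd : 0 < d) (hM : Nice M) : ∃ zc : ℝ, 0 < zc ∧ d * zc ≤ 1 ∧
    (∀ z, 0 ≤ z → z < zc → Summable fun n : ℕ => ((n : ℝ) + 1) ^ 3 * (tot M.ind n * z ^ n)) ∧
    (∀ z, 0 ≤ z → z < zc → Summ M.ind z) ∧ ∀ N, 1 ≤ tot M.ind N * zc ^ N := by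
  have hd0 : (0 : ℝ) < d := by exact_mod_cast hd
  set Z : Set ℝ := {z | 0 ≤ z ∧ Summ M.ind z} with hZ
  have hZb : ∀ z ∈ Z, z ≤ 1 / d := by
    intro z hz
    by_contra hc
    push Not at hc
    rw [div_lt_iff₀ hd0] at hc
    have h1 := (summ_iff.1 hz.2).tendsto_atTop_zero
    have h2 : ∀ n, (1 : ℝ) ≤ tot M.ind n * z ^ n := by
      intro n
      calc (1 : ℝ) ≤ (d * z) ^ n := one_le_pow₀ (by linarith)
        _ = d ^ n * z ^ n := mul_pow _ _ _
        _ ≤ _ := mul_le_mul_of_nonneg_right (tot_ind_ge hM n) (pow_nonneg hz.1 n)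
    have := ge_of_tendsto' h1 h2
    linarith
  have hbdd : BddAbove Z := ⟨1 / d, hZb⟩
  have hmem : 1 / (4 * (d : ℝ)) ∈ Z := by
    refine ⟨by positivity, summ_of_lt_one (by positivity) (N := 1) ?_⟩
    calc _ ≤ (2 * d) ^ 1 * (1 / (4 * (d : ℝ))) ^ 1 := by gcongr; exact tot_ind_le 1
      _ = 1 / 2 := by field_simp; ring
      _ < 1 := by norm_num
  set zc := sSup Z with hzc
  have hzc0 : 0 < zc := lt_of_lt_of_le (by positivity) (le_csSup hbdd hmem)
  have hzc1 : d * zc ≤ 1 := by
    have := csSup_le ⟨_, hmem⟩ hZb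
    rw [le_div_iff₀ hd0] at this; linarith
  have hsub : ∀ z, 0 ≤ z → z < zc →
      Summable fun n : ℕ => ((n : ℝ) + 1) ^ 3 * (tot M.ind n * z ^ n) := by
    intro z hz hlt
    obtain ⟨z1, hz1, hlt1⟩ := exists_lt_of_lt_csSup ⟨_, hmem⟩ hlt
    have hz10 : 0 < z1 := lt_of_le_of_lt hz hlt1
    have hs1 := summ_iff.1 hz1.2
    have hnn : ∀ n, 0 ≤ tot M.ind n * z1 ^ n :=
      fun n => mul_nonneg (tot_ind_nonneg n) (by positivity)
    set B := ∑' n, tot M.ind n * z1 ^ n
    have hB : ∀ n, tot M.ind n * z1 ^ n ≤ B := fun n => hs1.le_tsum n fun m _ => hnn m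
    have hr : ‖z / z1‖ < 1 := by
      rw [Real.norm_of_nonneg (by positivity), div_lt_one hz10]; exact hlt1
    have g3 := summable_pow_mul_geometric_of_norm_lt_one 3 hr
    have g2 := summable_pow_mul_geometric_of_norm_lt_one 2 hr
    have g1 := summable_pow_mul_geometric_of_norm_lt_one 1 hr
    have g0 := summable_pow_mul_geometric_of_norm_lt_one 0 hr
    have g := (((g3.add (g2.mul_left 3)).add (g1.mul_left 3)).add g0).mul_right B
    refine Summable.of_nonneg_of_le (fun n => by
      have := tot_ind_nonneg (M := M) n; positivity) (fun n => ?_) g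
    have e : tot M.ind n * z ^ n = (z / z1) ^ n * (tot M.ind n * z1 ^ n) := by
      rw [div_pow]; field_simp
    rw [e]
    calc _ ≤ ((n : ℝ) + 1) ^ 3 * ((z / z1) ^ n * B) := by gcongr; exact hB n
      _ = _ := by ring
  have hsum : ∀ z, 0 ≤ z → z < zc → Summ M.ind z := by
    intro z hz hlt
    rw [summ_iff]
    have hnn : ∀ n, 0 ≤ tot M.ind n * z ^ n :=
      fun n => mul_nonneg (tot_ind_nonneg n) (by positivity)
    refine Summable.of_nonneg_of_le hnn (fun n => ?_) (hsub z hz hlt)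
    have : (1 : ℝ) ≤ ((n : ℝ) + 1) ^ 3 := one_le_pow₀ (by simp)
    nlinarith [hnn n]
  have hge : ∀ N, 1 ≤ tot M.ind N * zc ^ N := by
    intro N
    by_contra hc
    push Not at hc
    have hcont : ContinuousAt (fun z : ℝ => tot M.ind N * z ^ N) zc := by fun_prop
    have hev := (hcont.eventually (gt_mem_nhds hc)).filter_mono
      (nhdsWithin_le_nhds (s := Set.Ioi zc))
    obtain ⟨z, hz1, hz2⟩ := (hev.and self_mem_nhdsWithin).exists
    have hz2' : zc < z := hz2
    have : z ∈ Z := ⟨by linarith, summ_of_lt_one (by linarith) hz1⟩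
    exact absurd (le_csSup hbdd this) (not_le.2 hz2')
  exact ⟨zc, hzc0, hzc1, hsub, hsum, hge⟩

lemma finish {zc ε : ℝ} (hzc0 : 0 < zc) (hε : ε < 1) (hsum : ∀ z, 0 ≤ z → z < zc → Summ M.ind z)
    (hge : ∀ N, 1 ≤ tot M.ind N * zc ^ N)
    (hrho : ∀ K, ∑ n ∈ range K, ((n : ℝ) + 1) * (nrm M.rho (n + 2) * zc ^ (n + 2)) ≤ ε) :
    ∃ μ A : ℝ, 0 < μ ∧ 1 ≤ A ∧ Tendsto (fun n => tot M.ind n / μ ^ n) atTop (𝓝 A) := by
  have hsc : Summ M.rho zc := by
    have hnn : ∀ n, 0 ≤ nrm M.rho n * zc ^ n := fun n =>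
      mul_nonneg (nrm_nonneg _ _) (pow_nonneg hzc0.le _)
    refine (summable_nat_add_iff 2).1 (summable_of_sum_range_le (fun n => hnn _) fun K =>
      le_trans (sum_le_sum fun n _ => le_mul_of_one_le_left (hnn _) (by simp)) (hrho K))
  set R : ℝ → ℝ := fun s => ∑' n : ℕ, tot M.rho n * s ^ n with hR
  have hbn : ∀ n s, s ∈ Set.Icc 0 zc → ‖tot M.rho n * s ^ n‖ ≤ nrm M.rho n * zc ^ n := by
    intro n s hs
    have h0 := hs.1
    have := nrm_nonneg M.rho n
    rw [norm_mul, norm_pow, Real.norm_of_nonneg h0]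
    gcongr
    · exact abs_tot_le _ _
    · exact hs.2
  have hRc : ContinuousOn R (Set.Icc 0 zc) :=
    continuousOn_tsum (fun n => by fun_prop) hsc hbn
  have hR1 : R zc = 1 := by
    have hw : ContinuousWithinAt R (Set.Ico 0 zc) zc :=
      (hRc zc ⟨hzc0.le, le_rfl⟩).mono Set.Ico_subset_Icc_self
    have ht : Tendsto R (𝓝[<] zc) (𝓝 (R zc)) := by
      rw [← nhdsWithin_Ico_eq_nhdsLT hzc0]; exact hw
    have hev : ∀ᶠ s in 𝓝[<] zc, s / zc ≤ R s ∧ R s ≤ 1 := by
      filter_upwards [Ico_mem_nhdsLT hzc0] with s hs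
      have hs1 : Summ M.rho s := Summable.of_nonneg_of_le
        (fun n => mul_nonneg (nrm_nonneg _ _) (pow_nonneg hs.1 _))
        (fun n => mul_le_mul_of_nonneg_left (pow_le_pow_left₀ hs.1 hs.2.le _) (nrm_nonneg _ _)) hsc
      have hid := real_identity hs.1 hs1 (hsum s hs.1 hs.2)
      have hr0 : 0 ≤ s / zc := div_nonneg hs.1 hzc0.le
      have hr1 : s / zc < 1 := (div_lt_one hzc0).2 hs.2
      have hgeo : (1 - s / zc)⁻¹ ≤ ∑' n, tot M.ind n * s ^ n := by
        rw [← tsum_geometric_of_lt_one hr0 hr1]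
        refine (summable_geometric_of_lt_one hr0 hr1).tsum_le_tsum (fun n => ?_)
          (summ_iff.1 (hsum s hs.1 hs.2))
        have e : tot M.ind n * s ^ n = (s / zc) ^ n * (tot M.ind n * zc ^ n) := by
          rw [div_pow]; field_simp
        rw [e]
        exact le_mul_of_one_le_right (by positivity) (hge n)
      set χ := ∑' n, tot M.ind n * s ^ n
      have hp : 0 < 1 - s / zc := by linarith
      have hχ0 : 0 < χ := lt_of_lt_of_le (by positivity) hgeo
      have h1 : 1 ≤ χ * (1 - s / zc) := by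
        rw [inv_le_iff_one_le_mul₀ hp] at hgeo; exact hgeo
      change χ * (1 - R s) = 1 at hid
      constructor
      · by_contra hc
        push Not at hc
        nlinarith
      · by_contra hc
        push Not at hc
        nlinarith
    have ht2 : Tendsto (fun s => s / zc) (𝓝[<] zc) (𝓝 1) := by
      have : Tendsto (fun s => s / zc) (𝓝 zc) (𝓝 (zc / zc)) := tendsto_id.div_const zc
      rw [div_self hzc0.ne'] at this
      exact this.mono_left nhdsWithin_le_nhds
    exact le_antisymm (le_of_tendsto ht (hev.mono fun s h => h.2))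
      (le_of_tendsto_of_tendsto ht2 ht (hev.mono fun s h => h.1))
  have hsR : HasSum (fun n => tot M.rho n * zc ^ n) 1 := by
    rw [← hR1]
    exact (Summable.of_norm_bounded hsc fun n => hbn n zc ⟨hzc0.le, le_rfl⟩).hasSum
  suffices h : ∃ A, Tendsto (fun n => tot M.ind n * zc ^ n) atTop (𝓝 A) by
    obtain ⟨A, hA⟩ := h
    refine ⟨1 / zc, A, by positivity, ge_of_tendsto' hA hge, hA.congr fun n => ?_⟩
    simp
  refine renewal (fun n => tot M.rho n * zc ^ n) (fun n => tot M.ind n * zc ^ n)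
    ε hε (by simp [tot_rho_zero]) (by simp [tot_ind_zero]) ?_ hsR ?_
  · intro n
    have e : tot M.ind (n + 1) = tot (cat M.rho M.ind) (n + 1) := by
      refine sum_congr rfl fun w hw => ?_
      have : w ≠ [] := by rintro rfl; simpa using mem_words.1 hw
      rw [M.ind_eq w, if_neg this, zero_add, cat]
    rw [e, tot_cat, sum_mul]
    refine sum_congr rfl fun i hi => ?_
    have := mem_range.1 hi
    conv_lhs => rw [show n + 1 = i + (n + 1 - i) by omega, pow_add]
    rw [show i + (n + 1 - i) - i = n + 1 - i by omega]; ring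
  · intro K
    exact le_trans (sum_le_sum fun m _ => mul_le_mul_of_nonneg_left
      (hbn (m + 2) zc ⟨hzc0.le, le_rfl⟩) (by positivity)) (hrho K)

theorem general : ∃ d0 : ℕ, ∀ d : ℕ, d0 ≤ d → ∀ M : Model (Lt d), Nice M →
    ∃ μ A : ℝ, 0 < μ ∧ 1 ≤ A ∧ Tendsto (fun n => tot M.ind n / μ ^ n) atTop (𝓝 A) := by
  obtain ⟨d0, hd01, himp⟩ := improve
  refine ⟨d0, fun d hd M hM => ?_⟩
  obtain ⟨zc, hzc0, hzc1, hsub, hsum, hge⟩ := crit (by omega) hM
  -- bootstrap
  have hboot : Set.Icc 0 zc ⊆ {z | Bd M z (1 / 160)} := by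
    refine IsClosed.Icc_subset_of_forall_exists_gt ?_ ?_ ?_
    · refine IsClosed.inter ?_ isClosed_Icc
      simp only [Bd, Set.ofPred_forall]
      exact isClosed_iInter fun x => isClosed_iInter fun K =>
        isClosed_le (by fun_prop) continuous_const
    · intro x K; simp
    · rintro z ⟨hB, hz0, hz1⟩ y hy
      set z1 := (z + zc) / 2 with hz1d
      have hz1a : z < z1 := by rw [hz1d]; linarith
      have hz1b : z1 < zc := by rw [hz1d]; linarith
      set φ : ℝ → ℝ := fun s => ∑' n : ℕ, ((n : ℝ) + 1) ^ 3 * (tot M.ind n * s ^ n) with hφ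
      have hφc : ContinuousOn φ (Set.Icc 0 z1) := by
        refine continuousOn_tsum (fun n => by fun_prop) (hsub z1 (by linarith) hz1b) ?_
        intro n s hs
        have := tot_ind_nonneg (M := M) n
        have h0 := hs.1
        rw [Real.norm_of_nonneg (by positivity)]
        gcongr; exact hs.2
      have hw : ContinuousWithinAt φ (Set.Ioc z z1) z :=
        (hφc z ⟨hz0, hz1a.le⟩).mono fun s hs => ⟨hz0.trans hs.1.le, hs.2⟩
      have hev := hw.eventually (gt_mem_nhds (show φ z < φ z + 1 / 160 by linarith))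
      rw [nhdsWithin_Ioc_eq_nhdsGT hz1a] at hev
      have ev1 : ∀ᶠ s in 𝓝[>] z, s ∈ Set.Ioc z z1 := Ioc_mem_nhdsGT hz1a
      have ev2 : ∀ᶠ s in 𝓝[>] z, s ∈ Set.Ioc z y := Ioc_mem_nhdsGT (show z < y from hy)
      obtain ⟨s, hs1, hs2, hs3⟩ := (hev.and (ev1.and ev2)).exists
      have hs0 : 0 ≤ s := hz0.trans hs2.1.le
      have hsc : s < zc := lt_of_le_of_lt hs2.2 hz1b
      refine ⟨s, ?_, hs3⟩
      refine himp d hd M hM s hs0 (le_trans (by gcongr) hzc1) (hsum s hs0 hsc) ?_
      intro x K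
      have h1 := hB x K
      have hsd := (hsub s hs0 hsc).hasSum.sub (hsub z hz0 hz1).hasSum
      have hnn : ∀ n : ℕ, 0 ≤ ((n : ℝ) + 1) ^ 3 * (tot M.ind n * s ^ n) -
          ((n : ℝ) + 1) ^ 3 * (tot M.ind n * z ^ n) := by
        intro n
        have := tot_ind_nonneg (M := M) n
        have h3 := hs2.1.le
        rw [sub_nonneg]; gcongr
      have h2 := sum_le_hasSum (range (K + 1)) (fun n _ => hnn n) hsd
      rw [sum_range_succ'] at h2
      have h3 : ∑ n ∈ range K, ((n : ℝ) + 2) ^ 3 * loc M.ind (n + 1) x * s ^ (n + 1) ≤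
          ∑ n ∈ range K, (((n : ℝ) + 2) ^ 3 * loc M.ind (n + 1) x * z ^ (n + 1) +
            ((((n + 1 : ℕ) : ℝ) + 1) ^ 3 * (tot M.ind (n + 1) * s ^ (n + 1)) -
              (((n + 1 : ℕ) : ℝ) + 1) ^ 3 * (tot M.ind (n + 1) * z ^ (n + 1)))) := by
        refine sum_le_sum fun n _ => ?_
        have a1 : z ^ (n + 1) ≤ s ^ (n + 1) := pow_le_pow_left₀ hz0 hs2.1.le _
        have a2 := loc_le_tot (M := M) (n + 1) x
        have a3 : 0 ≤ ((n : ℝ) + 2) ^ 3 * ((tot M.ind (n + 1) - loc M.ind (n + 1) x) *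
            (s ^ (n + 1) - z ^ (n + 1))) :=
          mul_nonneg (by positivity) (mul_nonneg (by linarith) (by linarith))
        push_cast
        rw [show (n : ℝ) + 1 + 1 = n + 2 by ring]
        nlinarith
      rw [sum_add_distrib] at h3
      have h4 := hnn 0
      simp only [hφ] at hs1
      linarith
  refine finish (ε := 8 * (1 / 160)) hzc0 (by norm_num) hsum hge fun K => ?_
  refine le_trans (sum_le_sum fun m _ => ?_)
    (Bd.rho hM hzc0.le hzc1 (by norm_num) (hboot ⟨hzc0.le, le_rfl⟩) K)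
  have h2 : (m : ℝ) + 1 ≤ ((m : ℝ) + 2) ^ 2 := by nlinarith [(Nat.cast_nonneg m : (0 : ℝ) ≤ m)]
  rw [mul_assoc]
  exact mul_le_mul_of_nonneg_right h2 (mul_nonneg (nrm_nonneg _ _) (by positivity))

end Pool.Agent.P.MP_2ab770_pr
end

-- part Pool.Agent.P.MP_2ab770_pr.Models
section

set_option autoImplicit false
set_option linter.dupNamespace false
set_option linter.unusedVariables false

namespace Pool.Agent.P.MP_2ab770_pr

open Finset Filter Topology

variable {d : ℕ}

/-- position after i steps -/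
def pos (w : List (Lt d)) (i : ℕ) : Fin d → ℤ := disp (w.take i)

lemma pos_left (u v : List (Lt d)) {i : ℕ} (h : i ≤ u.length) : pos (u ++ v) i = pos u i := by
  rw [pos, pos, List.take_append_of_le_length h]

lemma pos_right (u v : List (Lt d)) (i : ℕ) : pos (u ++ v) (u.length + i) = disp u + pos v i := by
  rw [pos, pos, List.take_length_add_append, disp_append]

lemma pos_length (w : List (Lt d)) : pos w w.length = disp w := by simp [pos]

lemma pos_zero (w : List (Lt d)) : pos w 0 = 0 := by simp [pos, disp_nil]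

lemma pos_succ (w : List (Lt d)) {i : ℕ} (h : i < w.length) :
    pos w (i + 1) = pos w i + step w[i] := by
  rw [pos, pos, List.take_succ_eq_append_getElem h, disp_append, disp_cons, disp_nil, add_zero]

lemma pos_dropLast (u v : List (Lt d)) {i : ℕ} (h : i < u.length + v.length) :
    pos (u ++ v.dropLast) i = pos (u ++ v) i := by
  by_cases hv : v = []
  · subst hv; simp
  · conv_rhs => rw [← List.dropLast_append_getLast hv, ← List.append_assoc]
    have := List.length_pos_iff.2 hv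
    refine (pos_left _ _ ?_).symm
    simp only [List.length_append, List.length_dropLast]
    omega

lemma disp_map (σ : Equiv.Perm (Fin d)) (w : List (Lt d)) :
    disp (w.map (Prod.map σ id)) = disp w ∘ σ.symm := by
  induction w with
  | nil => funext j; simp [disp_nil]
  | cons a w ih =>
    rw [List.map_cons, disp_cons, disp_cons, ih]
    funext j
    simp only [Pi.add_apply, Function.comp, step, Prod.map_fst, Prod.map_snd, id, Pi.single_apply]
    simp only [Equiv.symm_apply_eq]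

lemma pos_map (σ : Equiv.Perm (Fin d)) (w : List (Lt d)) (i : ℕ) :
    pos (w.map (Prod.map σ id)) i = pos w i ∘ σ.symm := by
  rw [pos, pos, ← List.map_take, disp_map]

lemma comp_inj (σ : Equiv.Perm (Fin d)) {x y : Fin d → ℤ} : x ∘ σ.symm = y ∘ σ.symm ↔ x = y :=
  ⟨fun h => funext fun j => by simpa using congrFun h (σ j), fun h => h ▸ rfl⟩

lemma sum_disp_pos (w : List (Lt d)) (h : ∀ a ∈ w, a.2 = true) : ∑ j, disp w j = w.length := by
  induction w with
  | nil => simp [disp_nil]
  | cons a w ih =>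
    rw [disp_cons]
    simp only [Pi.add_apply, sum_add_distrib, ih fun b hb => h b (List.mem_cons_of_mem _ hb)]
    simp [step, h a List.mem_cons_self, add_comm]

/-- no repeated vertex -/
def goodS (w : List (Lt d)) : Prop := ∀ i j, i < j → j ≤ w.length → pos w i ≠ pos w j

/-- no repeated edge -/
def goodT (w : List (Lt d)) : Prop :=
  ∀ i j, i < j → j < w.length → s(pos w i, pos w (i + 1)) ≠ s(pos w j, pos w (j + 1))

lemma step_ne_zero (a : Lt d) : step a ≠ 0 := by
  intro h
  have := congrFun h a.1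
  cases hb : a.2 <;> simp [step, hb] at this

/-- self avoiding walks -/
def modelS (d : ℕ) : Model (Lt d) where
  good := goodS
  nil := fun i j h1 h2 => by simp at h2; omega
  single := fun a i j h1 h2 => by
    simp only [List.length_singleton] at h2
    obtain rfl : j = 1 := by omega
    obtain rfl : i = 0 := by omega
    rw [pos_succ _ (by simp), pos_zero, zero_add]
    exact (step_ne_zero _).symm
  left := fun u v h i j h1 h2 => by
    rw [← pos_left u v h2, ← pos_left u v (by omega : i ≤ u.length)]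
    exact h i j h1 (by simp; omega)
  right := fun u v h i j h1 h2 e => by
    refine h (u.length + i) (u.length + j) (by omega) (by simp; omega) ?_
    rw [pos_right, pos_right, e]

/-- self avoiding trails -/
def modelT (d : ℕ) : Model (Lt d) where
  good := goodT
  nil := fun i j h1 h2 => by simp at h2
  single := fun a i j h1 h2 => by
    simp only [List.length_singleton] at h2
    omega
  left := fun u v h i j h1 h2 => by
    rw [← pos_left u v h2.le, ← pos_left u v (by omega : i ≤ u.length),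
      ← pos_left u v (by omega : i + 1 ≤ u.length), ← pos_left u v (by omega : j + 1 ≤ u.length)]
    exact h i j h1 (by simp; omega)
  right := fun u v h i j h1 h2 e => by
    refine h (u.length + i) (u.length + j) (by omega) (by simp; omega) ?_
    rw [add_assoc, add_assoc, pos_right, pos_right, pos_right, pos_right]
    rw [Sym2.eq_iff] at e ⊢
    simpa using e

lemma goodS_pos (w : List (Lt d)) (h : ∀ a ∈ w, a.2 = true) : goodS w := by
  intro i j h1 h2 e
  have a1 := sum_disp_pos (w.take i) fun a ha => h a (List.mem_of_mem_take ha)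
  have a2 := sum_disp_pos (w.take j) fun a ha => h a (List.mem_of_mem_take ha)
  rw [pos, pos] at e
  rw [e, a2] at a1
  simp only [List.length_take, Nat.cast_inj] at a1
  omega

lemma goodT_of_goodS (w : List (Lt d)) (h : goodS w) : goodT w := by
  intro i j h1 h2 e
  rcases Sym2.eq_iff.1 e with ⟨e1, -⟩ | ⟨e1, -⟩
  · exact h i j h1 h2.le e1
  · exact h i (j + 1) (by omega) h2 e1

lemma niceS (d : ℕ) : Nice (modelS d) where
  revisit := fun u v ⟨hv, h1, h2, h3⟩ => by
    change goodS v at h1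
    change goodS _ at h2
    change ¬ goodS _ at h3
    simp only [goodS, not_forall, not_not] at h3
    obtain ⟨i, j, hij, hj, e⟩ := h3
    have hl := List.length_pos_iff.2 hv
    simp only [List.length_append] at hj
    have hjn : j = u.length + v.length := by
      by_contra hne
      refine h2 i j hij (by simp; omega) ?_
      rw [pos_dropLast u v (by omega), pos_dropLast u v (by omega), e]
    have hi : i < u.length := by
      by_contra hc
      refine h1 (i - u.length) v.length (by omega) le_rfl ?_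
      rw [hjn, show i = u.length + (i - u.length) by omega, pos_right, pos_right] at e
      exact add_left_cancel e
    refine ⟨i, hi.le, ?_⟩
    rw [← pos_length, List.length_append, ← hjn, ← e, pos_left u v hi.le, pos]
  perm := fun σ w => by
    change goodS _ ↔ goodS _
    simp only [goodS, pos_map, List.length_map, ne_eq, comp_inj]
  pos := goodS_pos

lemma niceT (d : ℕ) : Nice (modelT d) where
  revisit := fun u v ⟨hv, h1, h2, h3⟩ => by
    change goodT v at h1
    change goodT _ at h2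
    change ¬ goodT _ at h3
    simp only [goodT, not_forall, not_not] at h3
    obtain ⟨i, j, hij, hj, e⟩ := h3
    have hl := List.length_pos_iff.2 hv
    simp only [List.length_append] at hj
    have hjn : j + 1 = u.length + v.length := by
      by_contra hne
      refine h2 i j hij (by simp; omega) ?_
      rw [pos_dropLast u v (by omega), pos_dropLast u v (by omega), pos_dropLast u v (by omega),
        pos_dropLast u v (by omega), e]
    have hi : i < u.length := by
      by_contra hc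
      refine h1 (i - u.length) (j - u.length) (by omega) (by omega) ?_
      rw [show j = u.length + (j - u.length) by omega, show i = u.length + (i - u.length) by omega,
        add_assoc, add_assoc, pos_right, pos_right, pos_right, pos_right, Sym2.eq_iff] at e
      rw [Sym2.eq_iff]
      simpa using e
    rw [← pos_length, List.length_append, ← hjn]
    rcases Sym2.eq_iff.1 e with ⟨-, e1⟩ | ⟨e1, -⟩
    · exact ⟨i + 1, hi, by rw [← e1, pos_left u v hi, pos]⟩
    · exact ⟨i, hi.le, by rw [← e1, pos_left u v hi.le, pos]⟩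
  perm := fun σ w => by
    change goodT _ ↔ goodT _
    simp only [goodT, pos_map, List.length_map, ne_eq, Sym2.eq_iff, comp_inj]
  pos := fun w h => goodT_of_goodS w (goodS_pos w h)

lemma sum_abs_step (a : Lt d) : ∑ k, |step a k| = 1 := by
  rw [sum_eq_single a.1]
  · cases hb : a.2 <;> simp [step, hb]
  · intro j _ hj; simp [step, Pi.single_eq_of_ne hj]
  · simp

lemma exists_step {x : Fin d → ℤ} (h : ∑ k, |x k| = 1) : ∃ a : Lt d, step a = x := by
  obtain ⟨j, -, hj⟩ := exists_ne_zero_of_sum_ne_zero (h ▸ one_ne_zero : ∑ k, |x k| ≠ 0)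
  rw [← add_sum_erase _ _ (mem_univ j)] at h
  have h0 : 0 ≤ ∑ k ∈ univ.erase j, |x k| := sum_nonneg fun _ _ => abs_nonneg _
  have h1 : 1 ≤ |x j| := Int.one_le_abs (abs_ne_zero.1 hj)
  have h2 : ∑ k ∈ univ.erase j, |x k| = 0 := by omega
  have h3 : |x j| = 1 := by omega
  rw [sum_eq_zero_iff_of_nonneg fun _ _ => abs_nonneg _] at h2
  refine ⟨(j, decide (x j = 1)), funext fun k => ?_⟩
  by_cases hk : k = j
  · subst hk
    rcases abs_eq (by norm_num : (0 : ℤ) ≤ 1) |>.1 h3 with h | h <;> simp [step, h]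
  · have := h2 k (mem_erase.2 ⟨hk, mem_univ _⟩)
    simp only [step, Pi.single_eq_of_ne hk]
    exact (abs_eq_zero.1 this).symm

open Classical in
lemma count_eq (M : Model (Lt d)) (n : ℕ) (C : (Fin (n + 1) → Fin d → ℤ) → Prop)
    (hC : ∀ w : List (Lt d), w.length = n → (M.good w ↔ C fun i => pos w i)) :
    ((Set.ncard {ω : Fin (n + 1) → (Fin d → ℤ) | ω 0 = 0 ∧
      (∀ i : Fin n, ∑ k : Fin d, |ω i.succ k - ω i.castSucc k| = 1) ∧ C ω} : ℕ) : ℝ) =
      tot M.ind n := by
  have h1 : {ω : Fin (n + 1) → (Fin d → ℤ) | ω 0 = 0 ∧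
      (∀ i : Fin n, ∑ k : Fin d, |ω i.succ k - ω i.castSucc k| = 1) ∧ C ω} =
      (fun (w : List (Lt d)) (i : Fin (n + 1)) => pos w i) ''
        ↑((words (Lt d) n).filter M.good) := by
    ext ω
    simp only [Set.mem_ofPred_eq, Set.mem_image, coe_filter, mem_words]
    constructor
    · rintro ⟨h0, hs, hc⟩
      choose a ha using fun i : Fin n => exists_step (x := ω i.succ - ω i.castSucc) (hs i)
      have key : ∀ i : Fin (n + 1), pos (List.ofFn a) i = ω i := by
        intro i
        induction i using Fin.induction with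
        | zero => simp [pos_zero, h0]
        | succ i ih =>
          rw [Fin.val_succ, pos_succ _ (by simp)]
          rw [Fin.val_castSucc] at ih
          rw [ih, List.getElem_ofFn]
          simp [ha]
      have e : (fun i : Fin (n + 1) => pos (List.ofFn a) i) = ω := funext key
      exact ⟨List.ofFn a, ⟨by simp, (hC _ (by simp)).2 (e ▸ hc)⟩, e⟩
    · rintro ⟨w, ⟨hl, hg⟩, rfl⟩
      refine ⟨by simp [pos_zero], fun i => ?_, (hC w hl).1 hg⟩
      simp only [Fin.val_succ, Fin.val_castSucc]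
      rw [pos_succ w (by rw [hl]; exact i.2)]
      simpa using sum_abs_step _
  rw [h1, Set.InjOn.ncard_image, Set.ncard_coe_finset, card_filter, tot]
  · push_cast; rfl
  · intro u hu v hv e
    simp only [coe_filter, mem_words, Set.mem_ofPred_eq] at hu hv
    have e' : ∀ i, i ≤ n → pos u i = pos v i := fun i hi =>
      congrFun e ⟨i, Nat.lt_succ_of_le hi⟩
    refine List.ext_getElem (hu.1.trans hv.1.symm) fun i h1 h2 => ?_
    have a1 := pos_succ u h1
    have a2 := pos_succ v h2
    rw [e' i (by omega), e' (i + 1) (by omega), a2] at a1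
    exact step_injective (add_left_cancel a1).symm

lemma goodS_iff (n : ℕ) (w : List (Lt d)) (hl : w.length = n) :
    (modelS d).good w ↔ Function.Injective fun i : Fin (n + 1) => pos w i := by
  change goodS w ↔ _
  constructor
  · intro h i j e
    by_contra hne
    rcases lt_or_gt_of_ne (Fin.val_ne_of_ne hne) with h1 | h1
    · exact h i j h1 (by have := j.2; omega) e
    · exact h j i h1 (by have := i.2; omega) e.symm
  · intro h i j h1 h2 e
    have := @h ⟨i, by omega⟩ ⟨j, by omega⟩ e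
    simp only [Fin.mk.injEq] at this
    omega

lemma goodT_iff (n : ℕ) (w : List (Lt d)) (hl : w.length = n) :
    (modelT d).good w ↔ (fun ω : Fin (n + 1) → Fin d → ℤ =>
      Function.Injective fun i : Fin n => s(ω i.castSucc, ω i.succ)) fun i => pos w i := by
  change goodT w ↔ Function.Injective fun i : Fin n => s(pos w i, pos w (i + 1))
  constructor
  · intro h i j e
    by_contra hne
    rcases lt_or_gt_of_ne (Fin.val_ne_of_ne hne) with h1 | h1
    · exact h i j h1 (by have := j.2; omega) e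
    · exact h j i h1 (by have := i.2; omega) e.symm
  · intro h i j h1 h2 e
    have := @h ⟨i, by omega⟩ ⟨j, by omega⟩ e
    simp only [Fin.mk.injEq] at this
    omega

theorem main : ∃ d₀ : ℕ, ∀ d : ℕ, d₀ ≤ d →
    ∃ μ lam A G : ℝ, 0 < μ ∧ 0 < lam ∧ 0 < A ∧ 0 < G ∧
      Tendsto (fun n : ℕ =>
        ((Set.ncard {ω : Fin (n + 1) → (Fin d → ℤ) |
            ω 0 = 0 ∧
            (∀ i : Fin n, ∑ k : Fin d, |ω i.succ k - ω i.castSucc k| = 1) ∧
            Function.Injective ω} : ℕ) : ℝ) / μ ^ n) atTop (𝓝 A) ∧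
      Tendsto (fun n : ℕ =>
        ((Set.ncard {ω : Fin (n + 1) → (Fin d → ℤ) |
            ω 0 = 0 ∧
            (∀ i : Fin n, ∑ k : Fin d, |ω i.succ k - ω i.castSucc k| = 1) ∧
            Function.Injective (fun i : Fin n => s(ω i.castSucc, ω i.succ))} : ℕ) : ℝ) /
          lam ^ n) atTop (𝓝 G) := by
  obtain ⟨d0, h⟩ := general
  refine ⟨d0, fun d hd => ?_⟩
  obtain ⟨μ, A, hμ, hA, h1⟩ := h d hd _ (niceS d)
  obtain ⟨lam, G, hl, hG, h2⟩ := h d hd _ (niceT d)
  refine ⟨μ, lam, A, G, hμ, hl, by linarith, by linarith, h1.congr fun n => ?_,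
    h2.congr fun n => ?_⟩
  · rw [count_eq (modelS d) n Function.Injective (goodS_iff n)]
  · rw [count_eq (modelT d) n _ (goodT_iff n)]

end Pool.Agent.P.MP_2ab770_pr
end

-- part Pool.Agent.P.MP_2ab770_pr.ESum
section

set_option autoImplicit false
set_option linter.dupNamespace false
set_option linter.unusedVariables false
set_option linter.unusedSectionVars false

namespace Pool.Agent.P.MP_2ab770_pr

open Finset
open scoped ENNReal NNReal

section general
variable {α : Type} [Fintype α] [DecidableEq α]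

lemma tsum_cons (f : List α → ℝ≥0∞) :
    ∑' w, f w = f [] + ∑ a : α, ∑' w, f (a :: w) := by
  rw [ENNReal.tsum_eq_add_tsum_ite []]
  congr 1
  have hinj : Function.Injective (fun p : α × List α => p.1 :: p.2) := by
    rintro ⟨a, u⟩ ⟨b, v⟩ h
    simpa using h
  rw [← hinj.tsum_eq, ENNReal.tsum_prod', tsum_fintype]
  · simp
  · intro w hw
    cases w with
    | nil => simp at hw
    | cons a w => exact ⟨(a, w), rfl⟩

lemma tsum_words (f : List α → ℝ≥0∞) : ∑' w, f w = ∑' n, ∑ w ∈ words α n, f w := by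
  rw [← (Equiv.sigmaFiberEquiv (List.length : List α → ℕ)).tsum_eq, ENNReal.tsum_sigma']
  refine tsum_congr fun n => ?_
  rw [← Finset.tsum_subtype']
  have : (↑(words α n) : Set (List α)) = {w | w.length = n} := by
    ext w; simp [mem_words]
  rw [this]
  rfl

lemma tsum_ssum (f : List α → List α → ℝ≥0∞) :
    ∑' w, ssum w f = ∑' u, ∑' v, f u v := by
  rw [tsum_words]
  simp_rw [sum_words_ssum]
  rw [tsum_words]
  have h1 : ∀ i, ∑ u ∈ words α i, ∑' v, f u v =
      ∑' j, ∑ u ∈ words α i, ∑ v ∈ words α j, f u v := by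
    intro i
    simp_rw [tsum_words (f _)]
    rw [Summable.tsum_finsetSum (fun _ _ => ENNReal.summable)]
  simp_rw [h1]
  rw [← ENNReal.tsum_prod (f := fun i j => ∑ u ∈ words α i, ∑ v ∈ words α j, f u v),
    ← (Finset.HasAntidiagonal.sigmaAntidiagonalEquivProd (A := ℕ)).tsum_eq, ENNReal.tsum_sigma']
  refine tsum_congr fun n => ?_
  rw [← Finset.Nat.sum_antidiagonal_eq_sum_range_succ
    (fun i j => ∑ u ∈ words α i, ∑ v ∈ words α j, f u v) n, ← Finset.tsum_subtype]
  rfl

lemma tsum_snoc (c : α) (f : List α → ℝ≥0∞) :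
    ∑' v, (if v.getLast? = some c then f v else 0) = ∑' v, f (v ++ [c]) := by
  have hinj : Function.Injective (fun v : List α => v ++ [c]) := fun u v h => by simpa using h
  rw [← hinj.tsum_eq]
  · simp
  · intro w hw
    have : w.getLast? = some c := by
      by_contra h
      simp [h] at hw
    obtain ⟨v, rfl⟩ := List.getLast?_eq_some_iff.1 this
    exact ⟨v, rfl⟩

/-- sum over the letters of a word -/
noncomputable def esum (u : List α) (g : List α → α → List α → ℝ≥0∞) : ℝ≥0∞ :=
  ssum u (fun x r => match r with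
    | [] => 0
    | c :: y => g x c y)

lemma esum_nil (g : List α → α → List α → ℝ≥0∞) : esum [] g = 0 := by simp [esum, ssum_nil]

lemma esum_cons (a : α) (u : List α) (g : List α → α → List α → ℝ≥0∞) :
    esum (a :: u) g = g [] a u + esum u (fun x => g (a :: x)) := by
  rw [esum, ssum_cons]; rfl

lemma esum_le {u : List α} {g g' : List α → α → List α → ℝ≥0∞}
    (h : ∀ x c y, x ++ c :: y = u → g x c y ≤ g' x c y) : esum u g ≤ esum u g' := by
  refine ssum_le fun x r hx => ?_
  cases r with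
  | nil => exact le_rfl
  | cons c y => exact h x c y hx

lemma esum_const (u : List α) (B : ℝ≥0∞) : esum u (fun _ _ _ => B) = u.length * B := by
  induction u with
  | nil => simp [esum_nil]
  | cons a u ih => rw [esum_cons, ih]; simp [add_mul, add_comm]

lemma esum_snoc (u : List α) (c : α) (g : List α → α → List α → ℝ≥0∞) :
    esum (u ++ [c]) g = g u c [] + esum u (fun x a y => g x a (y ++ [c])) := by
  induction u generalizing g with
  | nil => simp [esum_cons, esum_nil]
  | cons a u ih =>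
    rw [List.cons_append, esum_cons, ih, esum_cons]
    ring

lemma le_esum (x : List α) (c : α) (y : List α) (g : List α → α → List α → ℝ≥0∞) :
    g x c y ≤ esum (x ++ c :: y) g := by
  induction x generalizing g with
  | nil => rw [List.nil_append, esum_cons]; exact le_self_add
  | cons a x ih =>
    rw [List.cons_append, esum_cons]
    exact (ih (fun x => g (a :: x))).trans le_add_self

lemma mul_esum (B : ℝ≥0∞) (u : List α) (g : List α → α → List α → ℝ≥0∞) :
    B * esum u g = esum u (fun x c y => B * g x c y) := by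
  induction u generalizing g with
  | nil => simp [esum_nil]
  | cons a u ih => rw [esum_cons, esum_cons, mul_add, ih]

lemma tsum_esum_comm {β : Type} (u : List α) (g : β → List α → α → List α → ℝ≥0∞) :
    ∑' b, esum u (g b) = esum u (fun x c y => ∑' b, g b x c y) := by
  induction u generalizing g with
  | nil => simp [esum_nil]
  | cons a u ih => simp_rw [esum_cons]; rw [ENNReal.tsum_add, ih]

lemma tsum_esum (g : List α → α → List α → ℝ≥0∞) :
    ∑' u, esum u g = ∑' x, ∑ c, ∑' y, g x c y := by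
  simp only [esum]
  rw [tsum_ssum]
  refine tsum_congr fun x => ?_
  rw [tsum_cons]; simp

lemma tsum_map (σ : α ≃ α) (f : List α → ℝ≥0∞) : ∑' w, f (List.map σ w) = ∑' w, f w :=
  (Equiv.listEquivOfEquiv σ).tsum_eq f

namespace Model
variable (M : Model α)

open Classical in
/-- number of diagrams with N loops -/
noncomputable def Qn : ℕ → List α → List α → ℕ
  | 0, _, w => if w = [] then 1 else 0
  | N + 1, u, w => ssum w (fun v r => if M.F u v then Qn N v r else 0)

lemma Qn_zero : ∀ (N : ℕ) (u w : List α), w.length < N → M.Qn N u w = 0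
  | 0, _, _, h => by omega
  | N + 1, u, w, h => by
    classical
    rw [Qn, ssum]
    refine sum_eq_zero fun i _ => ?_
    split_ifs with hF
    · refine Qn_zero N _ _ ?_
      have h1 := List.length_pos_iff.2 hF.1
      simp only [List.length_take, List.length_drop] at h1 ⊢
      omega
    · rfl

lemma P_eq_sum : ∀ (L : ℕ) (u w : List α), w.length < L →
    M.P u w = ∑ N ∈ range L, (-1) ^ N * (M.Qn N u w : ℝ)
  | 0, _, _, h => by omega
  | L + 1, u, w, h => by
    classical
    rw [sum_range_succ', P_eq, sub_eq_add_neg, add_comm]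
    congr 1
    · simp only [Qn, ssum, Nat.cast_sum, mul_sum]
      rw [sum_comm, ← sum_neg_distrib]
      refine sum_congr rfl fun i _ => ?_
      split_ifs with hF
      · rw [P_eq_sum L, ← sum_neg_distrib]
        · refine sum_congr rfl fun N _ => ?_
          ring
        · have h1 := List.length_pos_iff.2 hF.1
          simp only [List.length_take, List.length_drop] at h1 ⊢
          omega
      · simp
    · simp [Qn]

lemma Qn_map (σ : α → α) (hσ : ∀ w, M.good (w.map σ) ↔ M.good w) :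
    ∀ (N : ℕ) (u w : List α), M.Qn N (u.map σ) (w.map σ) = M.Qn N u w
  | 0, u, w => by simp [Qn]
  | N + 1, u, w => by
    classical
    have hF : ∀ v, M.F (u.map σ) (v.map σ) ↔ M.F u v := by
      intro v
      simp only [F, ← List.map_dropLast, ← List.map_append, hσ, ne_eq, List.map_eq_nil_iff]
    simp only [Qn, ssum, List.length_map]
    refine sum_congr rfl fun i _ => ?_
    rw [← List.map_take, ← List.map_drop, Qn_map σ hσ N]
    simp only [hF]

/-- weighted sum of diagrams -/
noncomputable def q (z : ℝ≥0∞) (N : ℕ) (u : List α) (f : List α → ℝ≥0∞) : ℝ≥0∞ :=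
  ∑' w, z ^ w.length * M.Qn N u w * f w

lemma q_zero (z : ℝ≥0∞) (u : List α) (f : List α → ℝ≥0∞) : M.q z 0 u f = f [] := by
  rw [q, tsum_cons]; simp [Qn]

open Classical in
lemma q_succ (z : ℝ≥0∞) (N : ℕ) (u : List α) (f : List α → ℝ≥0∞) :
    M.q z (N + 1) u f =
      ∑' v, if M.F u v then z ^ v.length * M.q z N v (fun r => f (v ++ r)) else 0 := by
  have : ∀ w, z ^ w.length * M.Qn (N + 1) u w * f w = ssum w (fun v r =>
      if M.F u v then z ^ v.length * (z ^ r.length * M.Qn N v r * f (v ++ r)) else 0) := by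
    intro w
    rw [ssum_congr (g := fun v r => z ^ w.length * (if M.F u v then M.Qn N v r else 0 : ℕ) * f w)]
    · simp only [Qn, ssum, Nat.cast_sum, mul_sum, sum_mul]
    · intro v r h
      subst h
      split_ifs
      · rw [List.length_append, pow_add]; ring
      · simp
  rw [q, tsum_congr this, tsum_ssum]
  refine tsum_congr fun v => ?_
  split_ifs
  · rw [q, ENNReal.tsum_mul_left]
  · simp

lemma q_mono (z : ℝ≥0∞) (N : ℕ) (u : List α) {f g : List α → ℝ≥0∞} (h : ∀ w, f w ≤ g w) :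
    M.q z N u f ≤ M.q z N u g :=
  ENNReal.tsum_le_tsum fun w => mul_le_mul_right (h w) _

lemma q_lin (z : ℝ≥0∞) (N : ℕ) (u : List α) (A B : ℝ≥0∞) (f : List α → ℝ≥0∞) :
    M.q z N u (fun w => A + B * f w) = A * M.q z N u (fun _ => 1) + B * M.q z N u f := by
  simp only [q, ← ENNReal.tsum_mul_left, ← ENNReal.tsum_add]
  exact tsum_congr fun w => by ring

lemma q_map (σ : α ≃ α) (hσ : ∀ w, M.good (w.map σ) ↔ M.good w) (z : ℝ≥0∞) (N : ℕ)
    (u : List α) (f : List α → ℝ≥0∞) :
    M.q z N (u.map σ) f = M.q z N u (fun w => f (w.map σ)) := by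
  rw [q, ← tsum_map σ]
  simp only [List.length_map, M.Qn_map σ hσ, q]

end Model
end general

lemma geo_sum {u v : ℕ → ℝ≥0∞} {r M : ℝ≥0∞} (h : ∀ n, u (n + 1) ≤ v n + r * u n)
    (hM : u 0 + ∑' n, v n + r * M ≤ M) : ∑' n, u n ≤ M := by
  have : ∀ K, ∑ n ∈ range K, u n ≤ M := by
    intro K
    induction K with
    | zero => simp
    | succ K ih =>
      rw [sum_range_succ']
      refine le_trans ?_ hM
      calc _ ≤ ∑ n ∈ range K, (v n + r * u n) + u 0 := by gcongr with n; exact h n
        _ = u 0 + ∑ n ∈ range K, v n + r * ∑ n ∈ range K, u n := by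
          rw [sum_add_distrib, mul_sum]; ring
        _ ≤ _ := by gcongr; exact ENNReal.sum_le_tsum _
  rw [ENNReal.tsum_eq_iSup_nat]
  exact iSup_le this

lemma geo_pow {r M : ℝ≥0∞} (hM : 1 + r * M ≤ M) : ∑' n, r ^ n ≤ M :=
  geo_sum (v := fun _ => 0) (r := r) (fun n => by simp [pow_succ']) (by simpa using hM)

end Pool.Agent.P.MP_2ab770_pr
end

-- part Pool.Agent.P.MP_2ab770_pr.Geo
section

set_option autoImplicit false
set_option linter.dupNamespace false
set_option linter.unusedVariables false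
set_option linter.unusedSectionVars false

namespace Pool.Agent.P.MP_2ab770_pr

open Finset
open scoped ENNReal NNReal

variable {d : ℕ}

/-- lattice points -/
abbrev X (d : ℕ) := Fin d → ℤ

/-- opposite letter -/
def iv (a : Lt d) : Lt d := (a.1, !a.2)

lemma iv_iv (a : Lt d) : iv (iv a) = a := by simp [iv]

lemma step_iv (a : Lt d) : step (iv a) = - step a := by
  funext j
  by_cases h : j = a.1
  · subst h; cases hb : a.2 <;> simp [step, iv, hb]
  · simp [step, iv, Pi.single_eq_of_ne h]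

/-- inversion of letters as a permutation -/
def ivE (d : ℕ) : Lt d ≃ Lt d := ⟨iv, iv, iv_iv, iv_iv⟩

lemma sum_iv {R : Type} [AddCommMonoid R] (f : Lt d → R) : ∑ a, f (iv a) = ∑ a, f a :=
  Equiv.sum_comp (ivE d) f

lemma disp_single (a : Lt d) : disp [a] = step a := by simp [disp]

lemma good_left {u v : List (Lt d)} (h : goodT (u ++ v)) : goodT u := (modelT d).left u v h

lemma good_right {u v : List (Lt d)} (h : goodT (u ++ v)) : goodT v := (modelT d).right u v h

lemma good_nil : goodT ([] : List (Lt d)) := (modelT d).nil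

lemma good_single (a : Lt d) : goodT [a] := (modelT d).single a

lemma not_good_rev (a : Lt d) : ¬ goodT [a, iv a] := by
  intro h
  refine h 0 1 (by norm_num) (by simp) ?_
  simp [pos, disp, step_iv]

/-- a trail with given last letter and endpoint -/
def Hit (h : X d) (c : Lt d) (v : List (Lt d)) : Prop :=
  goodT v ∧ v.getLast? = some c ∧ disp v = h

lemma F_hit {u v : List (Lt d)} (hF : (modelT d).F u v) :
    ∃ x c y, x ++ c :: y = u ∧ (Hit (-disp y) c v ∨ Hit (-disp y - step c) (iv c) v) := by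
  obtain ⟨hv, h1, h2, h3⟩ := hF
  change goodT v at h1
  change goodT _ at h2
  change ¬ goodT _ at h3
  simp only [goodT, not_forall, not_not] at h3
  obtain ⟨i, j, hij, hj, e⟩ := h3
  have hl := List.length_pos_iff.2 hv
  simp only [List.length_append] at hj
  have hjn : j + 1 = u.length + v.length := by
    by_contra hne
    refine h2 i j hij (by simp; omega) ?_
    rw [pos_dropLast u v (by omega), pos_dropLast u v (by omega), pos_dropLast u v (by omega),
      pos_dropLast u v (by omega), e]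
  have hi : i < u.length := by
    by_contra hc
    refine h1 (i - u.length) (j - u.length) (by omega) (by omega) ?_
    rw [show j = u.length + (j - u.length) by omega, show i = u.length + (i - u.length) by omega,
      add_assoc, add_assoc, pos_right, pos_right, pos_right, pos_right, Sym2.eq_iff] at e
    rw [Sym2.eq_iff]
    simpa using e
  obtain ⟨v', l, rfl⟩ : ∃ v' l, v = v' ++ [l] := ⟨_, _, (List.dropLast_append_getLast hv).symm⟩
  have hu : u.take i ++ u[i] :: u.drop (i + 1) = u := by simp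
  have hd : disp u = disp (u.take i) + (step u[i] + disp (u.drop (i + 1))) := by
    rw [← disp_cons, ← disp_append, hu]
  have e1 : pos (u ++ (v' ++ [l])) i = disp (u.take i) := by rw [pos_left u _ hi.le, pos]
  have e2 : pos (u ++ (v' ++ [l])) (i + 1) = disp (u.take i) + step u[i] := by
    rw [pos_left u _ hi, pos_succ u hi, pos]
  have e3 : pos (u ++ (v' ++ [l])) (j + 1) = disp u + (disp v' + step l) := by
    rw [hjn, ← List.length_append, pos_length, disp_append, disp_append, disp_single]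
  have e4 : pos (u ++ (v' ++ [l])) j = disp u + disp v' := by
    simp only [List.length_append, List.length_singleton] at hjn
    rw [show j = (u ++ v').length by simp; omega, ← List.append_assoc, pos_left _ _ le_rfl,
      pos_length, disp_append]
  rw [e1, e2, e3, e4, hd] at e
  refine ⟨_, _, _, hu, ?_⟩
  rcases Sym2.eq_iff.1 e with ⟨a1, a2⟩ | ⟨a1, a2⟩
  · left
    have : l = u[i] := step_injective (by linear_combination a1 - a2)
    refine ⟨h1, by simp [this], ?_⟩
    rw [disp_append, disp_single]; linear_combination - a2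
  · right
    have : l = iv u[i] := step_injective (by rw [step_iv]; linear_combination a2 - a1)
    refine ⟨h1, by simp [this], ?_⟩
    rw [disp_append, disp_single]; linear_combination - a1

lemma F_rev (a : Lt d) : (modelT d).F [a] [iv a] :=
  ⟨by simp, good_single _, good_single _, not_good_rev a⟩

/-- lattice symmetries -/
structure Sym (d : ℕ) where
  σ : Lt d ≃ Lt d
  T : X d ≃+ X d
  hs : ∀ a, step (σ a) = T (step a)

namespace Sym
variable (S : Sym d)

lemma disp_map (w : List (Lt d)) : disp (w.map S.σ) = S.T (disp w) := by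
  induction w with
  | nil => simp [disp_nil]
  | cons a w ih => rw [List.map_cons, disp_cons, disp_cons, ih, S.hs, map_add]

lemma good_map (w : List (Lt d)) : goodT (w.map S.σ) ↔ goodT w := by
  simp only [goodT, pos, ← List.map_take, S.disp_map, List.length_map, ne_eq, Sym2.eq_iff,
    EmbeddingLike.apply_eq_iff_eq]

lemma iv_map (a : Lt d) : S.σ (iv a) = iv (S.σ a) :=
  step_injective (by rw [S.hs, step_iv, step_iv, S.hs, map_neg])

lemma hit_map (h : X d) (c : Lt d) (v : List (Lt d)) :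
    Hit (S.T h) (S.σ c) (v.map S.σ) ↔ Hit h c v := by
  simp only [Hit, S.good_map, S.disp_map, EmbeddingLike.apply_eq_iff_eq, List.getLast?_map]
  cases v.getLast? <;> simp

end Sym

/-- point reflection -/
def negS (d : ℕ) : Sym d := ⟨ivE d, AddEquiv.neg _, fun a => step_iv a⟩

/-- exchange of two coordinates -/
def swapS (i j : Fin d) : Sym d where
  σ := (Equiv.swap i j).prodCongr (Equiv.refl Bool)
  T := ⟨⟨fun x => x ∘ Equiv.swap i j, fun x => x ∘ Equiv.swap i j,
    fun x => by funext k; simp, fun x => by funext k; simp⟩, fun x y => rfl⟩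
  hs := fun a => by
    funext k
    simp only [step, Equiv.prodCongr_apply, Prod.map_fst, Prod.map_snd, Equiv.refl_apply,
      AddEquiv.coe_mk, Equiv.coe_fn_mk, Function.comp, Pi.single_apply, Equiv.swap_apply_eq_iff]

/-- reflection of one coordinate -/
def flipT (j : Fin d) (x : X d) : X d := fun k => if k = j then - x k else x k

lemma flipT_flipT (j : Fin d) (x : X d) : flipT j (flipT j x) = x := by
  funext k; unfold flipT; split_ifs <;> simp

/-- reflection of one coordinate -/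
def flipS (j : Fin d) : Sym d where
  σ := ⟨fun a => if a.1 = j then iv a else a, fun a => if a.1 = j then iv a else a,
    fun ⟨i, s⟩ => by by_cases h : i = j <;> simp [h, iv],
    fun ⟨i, s⟩ => by by_cases h : i = j <;> simp [h, iv]⟩
  T := ⟨⟨flipT j, flipT j, flipT_flipT j, flipT_flipT j⟩, fun x y => by
    funext k; simp only [flipT, Pi.add_apply]; split_ifs <;> ring⟩
  hs := fun a => by
    funext k
    simp only [Equiv.coe_fn_mk, AddEquiv.coe_mk, flipT]
    by_cases h : a.1 = j
    · rw [if_pos h, step_iv]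
      split_ifs with hk
      · rfl
      · have : k ≠ a.1 := h ▸ hk
        simp [step, Pi.single_eq_of_ne this]
    · rw [if_neg h]
      split_ifs with hk
      · have : k ≠ a.1 := fun h' => h (h' ▸ hk)
        simp [step, Pi.single_eq_of_ne this]
      · rfl

lemma sym_const {R : Type} (f : Lt d → R) (h : ∀ (S : Sym d) a, f (S.σ a) = f a) (a b : Lt d) :
    f a = f b := by
  obtain ⟨i, s⟩ := a
  obtain ⟨j, t⟩ := b
  have h1 := h (swapS i j) (i, s)
  have h2 := h (negS d) (j, s)
  simp only [swapS, negS, ivE, iv, Equiv.prodCongr_apply, Prod.map_apply, Equiv.swap_apply_left,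
    Equiv.refl_apply, Equiv.coe_fn_mk] at h1 h2
  cases s <;> cases t <;> simp_all

lemma le_of_sum_le {f : Lt d → ℝ≥0∞} (h : ∀ (S : Sym d) a, f (S.σ a) = f a) {B : ℝ≥0∞}
    (hB : ∑ a, f a ≤ 2 * d * B) (a : Lt d) : f a ≤ B := by
  rw [sum_congr rfl fun b _ => sym_const f h b a] at hB
  simp only [sum_const, card_univ, Fintype.card_prod, Fintype.card_fin, Fintype.card_bool,
    nsmul_eq_mul, Nat.cast_mul, Nat.cast_ofNat] at hB
  rw [mul_comm (d : ℝ≥0∞) 2] at hB
  have hd : d ≠ 0 := a.1.pos.ne'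
  exact (ENNReal.mul_le_mul_iff_right (by simp [hd]) (by finiteness)).1 hB

lemma sum_const_Lt (B : ℝ≥0∞) : ∑ _a : Lt d, B = 2 * d * B := by
  simp [mul_comm]

/-- squared norm -/
def nsq (x : X d) : ℕ := ∑ j, (x j).natAbs ^ 2

lemma nsq_real (x : X d) : (nsq x : ℝ) = ∑ j, (x j : ℝ) ^ 2 := by
  simp only [nsq, Nat.cast_sum, Nat.cast_pow, Nat.cast_natAbs, Int.cast_abs, sq_abs]

lemma nsq_zero : nsq (0 : X d) = 0 := by simp [nsq]

lemma nsq_neg (x : X d) : nsq (-x) = nsq x := by simp [nsq]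

lemma nsq_step (a : Lt d) : nsq (step a) = 1 := by
  rw [nsq, sum_eq_single a.1]
  · cases hb : a.2 <;> simp [step, hb]
  · intro j _ hj; simp [step, Pi.single_eq_of_ne hj]
  · simp

/-- admissible constants for the squared triangle inequality -/
def Adm (A B : ℝ≥0∞) : Prop :=
  ∀ (d : ℕ) (x y : X d), (nsq (x + y) : ℝ≥0∞) ≤ A * nsq x + B * nsq y

lemma adm_of {A B : ℝ≥0} (h1 : (1 : ℝ) < A) (h2 : (A : ℝ) + B ≤ A * B) : Adm A B := by
  intro d x y
  have : (nsq (x + y) : ℝ) ≤ A * nsq x + B * nsq y := by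
    simp only [nsq_real, mul_sum, ← sum_add_distrib]
    refine sum_le_sum fun j _ => ?_
    simp only [Pi.add_apply, Int.cast_add]
    generalize ((x j : ℤ) : ℝ) = s
    generalize ((y j : ℤ) : ℝ) = t
    have h3 : (0 : ℝ) < A - 1 := by linarith
    by_contra hc
    push Not at hc
    nlinarith [sq_nonneg ((A - 1) * s - t), mul_lt_mul_of_pos_left hc h3, sq_nonneg t]
  exact_mod_cast this

lemma adm_two : Adm 2 2 := by
  have := adm_of (A := 2) (B := 2) (by norm_num) (by norm_num)
  exact_mod_cast this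

/-- push forward of a weight on words -/
noncomputable def pf (z : ℝ≥0∞) (φ : List (Lt d) → ℝ≥0∞) (x : X d) : ℝ≥0∞ :=
  ∑' w, if disp w = x then z ^ w.length * φ w else 0

/-- convolution -/
noncomputable def ec (f g : X d → ℝ≥0∞) (y : X d) : ℝ≥0∞ := ∑' x, f x * g (y - x)

lemma tsum_slice (g : List (Lt d) → X d → ℝ≥0∞) :
    ∑' w, g w (disp w) = ∑' x, ∑' w, if disp w = x then g w x else 0 := by
  rw [ENNReal.tsum_comm]
  refine tsum_congr fun w => ?_
  rw [tsum_eq_single (disp w)]
  · simp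
  · intro x hx; rw [if_neg hx.symm]

lemma tsum_pf (z : ℝ≥0∞) (φ : List (Lt d) → ℝ≥0∞) (ω : X d → ℝ≥0∞) :
    ∑' x, pf z φ x * ω x = ∑' w, z ^ w.length * φ w * ω (disp w) := by
  rw [tsum_slice (fun w x => z ^ w.length * φ w * ω x)]
  refine tsum_congr fun x => ?_
  rw [pf, ← ENNReal.tsum_mul_right]
  refine tsum_congr fun w => ?_
  split_ifs <;> simp

lemma pf_cat (z : ℝ≥0∞) (φ ψ : List (Lt d) → ℝ≥0∞) (y : X d) :
    pf z (fun w => ssum w (fun u v => φ u * ψ v)) y = ec (pf z φ) (pf z ψ) y := by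
  rw [ec, tsum_pf z φ (fun x => pf z ψ (y - x)), pf]
  have : ∀ w : List (Lt d), (if disp w = y then z ^ w.length * ssum w (fun u v => φ u * ψ v) else 0)
      = ssum w (fun u v => z ^ u.length * φ u *
        (if disp v = y - disp u then z ^ v.length * ψ v else 0)) := by
    intro w
    symm
    rw [ssum_congr (g := fun u v => if disp w = y then z ^ w.length * (φ u * ψ v) else 0)]
    · split_ifs <;> simp [ssum, mul_sum]
    · intro u v h
      subst h
      rw [disp_append, List.length_append, pow_add]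
      by_cases h : disp u + disp v = y
      · rw [if_pos h, if_pos (by rw [← h]; abel)]; ring
      · rw [if_neg h, if_neg (fun h' => h (by rw [h']; abel)), mul_zero]
  rw [tsum_congr this, tsum_ssum]
  refine tsum_congr fun u => ?_
  rw [ENNReal.tsum_mul_left, pf]

lemma pf_mono (z : ℝ≥0∞) {φ ψ : List (Lt d) → ℝ≥0∞} (h : ∀ w, φ w ≤ ψ w) (x : X d) :
    pf z φ x ≤ pf z ψ x :=
  ENNReal.tsum_le_tsum fun w => by split_ifs; exacts [mul_le_mul_right (h w) _, le_rfl]

lemma pf_add (z : ℝ≥0∞) (φ ψ : List (Lt d) → ℝ≥0∞) (x : X d) :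
    pf z (fun w => φ w + ψ w) x = pf z φ x + pf z ψ x := by
  simp only [pf, ← ENNReal.tsum_add]
  exact tsum_congr fun w => by split_ifs <;> simp [mul_add]

lemma pf_mul (z B : ℝ≥0∞) (φ : List (Lt d) → ℝ≥0∞) (x : X d) :
    pf z (fun w => B * φ w) x = B * pf z φ x := by
  simp only [pf, ← ENNReal.tsum_mul_left]
  exact tsum_congr fun w => by split_ifs <;> simp [mul_left_comm]

lemma pf_sym (S : Sym d) (z : ℝ≥0∞) {φ : List (Lt d) → ℝ≥0∞} (h : ∀ w, φ (w.map S.σ) = φ w)
    (x : X d) : pf z φ (S.T x) = pf z φ x := by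
  rw [pf, ← tsum_map S.σ]
  simp only [S.disp_map, EmbeddingLike.apply_eq_iff_eq, List.length_map, h, pf]

lemma pf_one (z : ℝ≥0∞) (u : List (Lt d)) (x : X d) :
    pf z (fun w => if w = u then 1 else 0) x = if disp u = x then z ^ u.length else 0 := by
  rw [pf, tsum_eq_single u]
  · simp
  · intro w hw; simp [hw]

lemma pf_sum {ι : Type} (s : Finset ι) (z : ℝ≥0∞) (φ : ι → List (Lt d) → ℝ≥0∞) (x : X d) :
    pf z (fun w => ∑ i ∈ s, φ i w) x = ∑ i ∈ s, pf z (φ i) x := by
  simp only [pf]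
  rw [← Summable.tsum_finsetSum (fun _ _ => ENNReal.summable)]
  exact tsum_congr fun w => by split_ifs <;> simp [mul_sum]

lemma pf_cons (z : ℝ≥0∞) (φ : List (Lt d) → ℝ≥0∞) (x : X d) :
    pf z φ x = (if x = 0 then φ [] else 0) +
      z * ∑ a, pf z (fun w => φ (a :: w)) (x - step a) := by
  rw [pf, tsum_cons, mul_sum]
  congr 1
  · simp [disp_nil, eq_comm]
  · refine sum_congr rfl fun a _ => ?_
    rw [pf, ← ENNReal.tsum_mul_left]
    refine tsum_congr fun w => ?_
    rw [disp_cons]
    by_cases h : step a + disp w = x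
    · rw [if_pos h, if_pos (by rw [← h]; abel), List.length_cons]; ring
    · rw [if_neg h, if_neg (fun h' => h (by rw [h']; abel)), mul_zero]

lemma ec_comm (f g : X d → ℝ≥0∞) (y : X d) : ec f g y = ec g f y := by
  rw [ec, ec, ← (Equiv.subLeft y).tsum_eq]
  simp [mul_comm]

lemma ec_sym (S : Sym d) {f g : X d → ℝ≥0∞} (hf : ∀ x, f (S.T x) = f x) (hg : ∀ x, g (S.T x) = g x)
    (y : X d) : ec f g (S.T y) = ec f g y := by
  rw [ec, ec, ← S.T.toEquiv.tsum_eq]
  refine tsum_congr fun x => ?_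
  change f (S.T x) * g (S.T y - S.T x) = _
  rw [← map_sub, hf, hg]

lemma tsum_ec (f g : X d → ℝ≥0∞) : ∑' y, ec f g y = (∑' x, f x) * ∑' x, g x := by
  simp only [ec]
  rw [ENNReal.tsum_comm, ← ENNReal.tsum_mul_right]
  refine tsum_congr fun x => ?_
  rw [ENNReal.tsum_mul_left, (Equiv.subRight x).tsum_eq g |>.symm]
  rfl

open Classical in
/-- indicator of trails -/
noncomputable def I (w : List (Lt d)) : ℝ≥0∞ := if goodT w then 1 else 0

lemma I_le_one (w : List (Lt d)) : I w ≤ 1 := by unfold I; split_ifs <;> simp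

lemma I_good {w : List (Lt d)} (h : goodT w) : I w = 1 := if_pos h

lemma I_not {w : List (Lt d)} (h : ¬ goodT w) : I w = 0 := if_neg h

lemma I_cons_le (a : Lt d) (w : List (Lt d)) : I (a :: w) ≤ I w := by
  by_cases h : goodT (a :: w)
  · rw [I_good h, I_good (good_right (u := [a]) h)]
  · rw [I_not h]; exact zero_le

/-- two point function -/
noncomputable def G (z : ℝ≥0∞) : X d → ℝ≥0∞ := pf z I

/-- open bubble -/
noncomputable def GG (z : ℝ≥0∞) : X d → ℝ≥0∞ := ec (G z) (G z)

lemma G_sym (S : Sym d) (z : ℝ≥0∞) (x : X d) : G z (S.T x) = G z x :=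
  pf_sym S z (fun w => by unfold I; rw [propext (S.good_map w)]) x

lemma GG_sym (S : Sym d) (z : ℝ≥0∞) (x : X d) : GG z (S.T x) = GG z x :=
  ec_sym S (G_sym S z) (G_sym S z) x

lemma G_neg (z : ℝ≥0∞) (x : X d) : G z (-x) = G z x := G_sym (negS d) z x

lemma GG_neg (z : ℝ≥0∞) (x : X d) : GG z (-x) = GG z x := GG_sym (negS d) z x

lemma tsum_GG (z : ℝ≥0∞) (a b : X d) : ∑' h, G z (h + a) * G z (h - b) = GG z (a + b) := by
  rw [GG, ec, ← (Equiv.addRight a).tsum_eq (fun x => G z x * G z (a + b - x))]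
  refine tsum_congr fun h => ?_
  rw [← G_neg z (h - b)]
  simp only [Equiv.coe_addRight]
  congr 2; abel

lemma one_le_G (z : ℝ≥0∞) : 1 ≤ G z (0 : X d) := by
  rw [G, pf_cons, if_pos rfl, I_good good_nil]; exact le_self_add

lemma ssum_I (w : List (Lt d)) : (w.length + 1) * I w ≤ ssum w (fun u v => I u * I v) := by
  by_cases h : goodT w
  · rw [ssum_congr (g := fun _ _ => 1), I_good h]
    · simp [ssum]
    · intro u v e
      subst e
      rw [I_good (good_left h), I_good (good_right h), mul_one]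
  · rw [I_not h]; simp

lemma B_le_GG (z : ℝ≥0∞) (y : X d) : pf z (fun w => (w.length + 1) * I w) y ≤ GG z y := by
  rw [GG, G, ← pf_cat]; exact pf_mono z ssum_I y

end Pool.Agent.P.MP_2ab770_pr
end

-- part Pool.Agent.P.MP_2ab770_pr.L1
section

set_option autoImplicit false
set_option linter.dupNamespace false
set_option linter.unusedVariables false
set_option linter.unusedSectionVars false

namespace Pool.Agent.P.MP_2ab770_pr

open Finset Filter Topology MeasureTheory Real

variable {d : ℕ}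

/-- shear -/
def shear (d : ℕ) : X d × X d ≃ X d × X d where
  toFun p := (p.2, p.1 - p.2)
  invFun p := (p.1 + p.2, p.1)
  left_inv p := by simp
  right_inv p := by simp

lemma conv_gen {R : Type} [NormedRing R] [CompleteSpace R] {a b : X d → R}
    (ha : Summable fun x => ‖a x‖) (hb : Summable fun x => ‖b x‖) :
    (∀ y, Summable fun x => a x * b (y - x)) ∧
      HasSum (fun y => ∑' x, a x * b (y - x)) ((∑' x, a x) * ∑' x, b x) := by
  have h1 := summable_mul_of_summable_norm ha hb
  have h2 : Summable fun p : X d × X d => a p.2 * b (p.1 - p.2) :=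
    ((shear d).summable_iff (f := fun p : X d × X d => a p.1 * b p.2)).2 h1
  refine ⟨fun y => h2.prod_factor y, ?_⟩
  rw [tsum_mul_tsum_of_summable_norm ha hb, ← (shear d).tsum_eq]
  exact h2.hasSum.prod_fiberwise fun y => (h2.prod_factor y).hasSum

/-- real convolution -/
noncomputable def rc (f g : X d → ℝ) (y : X d) : ℝ := ∑' x, f x * g (y - x)

/-- Fourier series -/
noncomputable def FT (f : X d → ℝ) (k : Fin d → ℝ) : ℂ := ∑' x, (f x : ℂ) * chr k x

variable {f g : X d → ℝ}

lemma rc_pt (hf : Summable f) (hg : Summable g) (y : X d) : Summable fun x => f x * g (y - x) :=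
  (conv_gen hf.norm hg.norm).1 y

lemma rc_summ (hf : Summable f) (hg : Summable g) : Summable (rc f g) :=
  (conv_gen hf.norm hg.norm).2.summable

lemma norm_FT_term (f : X d → ℝ) (k : Fin d → ℝ) (x : X d) : ‖(f x : ℂ) * chr k x‖ = ‖f x‖ := by
  rw [norm_mul, norm_chr, mul_one, Complex.norm_real]

lemma FT_summ (hf : Summable f) (k : Fin d → ℝ) : Summable fun x => ‖(f x : ℂ) * chr k x‖ := by
  simp_rw [norm_FT_term]; exact hf.norm

lemma FT_rc (hf : Summable f) (hg : Summable g) (k : Fin d → ℝ) :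
    FT (rc f g) k = FT f k * FT g k := by
  rw [FT, FT, FT, ← (conv_gen (FT_summ hf k) (FT_summ hg k)).2.tsum_eq]
  refine tsum_congr fun y => ?_
  rw [rc, Complex.ofReal_tsum, ← tsum_mul_right]
  refine tsum_congr fun x => ?_
  have : chr k y = chr k x * chr k (y - x) := by rw [← chr_add]; congr 1; abel
  rw [this]; push_cast; ring

lemma FT_add (hf : Summable f) (hg : Summable g) (k : Fin d → ℝ) :
    FT (fun x => f x + g x) k = FT f k + FT g k := by
  rw [FT, FT, FT, ← (FT_summ hf k).of_norm.tsum_add (FT_summ hg k).of_norm]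
  exact tsum_congr fun x => by push_cast; ring

lemma FT_sub (hf : Summable f) (hg : Summable g) (k : Fin d → ℝ) :
    FT (fun x => f x - g x) k = FT f k - FT g k := by
  rw [FT, FT, FT, ← (FT_summ hf k).of_norm.tsum_sub (FT_summ hg k).of_norm]
  exact tsum_congr fun x => by push_cast; ring

lemma FT_mul (c : ℝ) (f : X d → ℝ) (k : Fin d → ℝ) : FT (fun x => c * f x) k = c * FT f k := by
  rw [FT, FT, ← tsum_mul_left]
  exact tsum_congr fun x => by push_cast; ring

lemma FT_sum {ι : Type} (s : Finset ι) {F : ι → X d → ℝ} (h : ∀ i, Summable (F i))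
    (k : Fin d → ℝ) : FT (fun x => ∑ i ∈ s, F i x) k = ∑ i ∈ s, FT (F i) k := by
  simp only [FT]
  rw [← Summable.tsum_finsetSum fun i _ => (FT_summ (h i) k).of_norm]
  exact tsum_congr fun x => by push_cast; rw [sum_mul]

/-- point mass -/
def dl (y x : X d) : ℝ := if x = y then 1 else 0

lemma summ_dl (y : X d) : Summable (dl y) :=
  summable_of_ne_finset_zero (s := {y}) fun x hx => if_neg (by simpa using hx)

lemma FT_dl (y : X d) (k : Fin d → ℝ) : FT (dl y) k = chr k y := by
  rw [FT, tsum_eq_single y (fun x hx => by simp [dl, hx])]; simp [dl]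

lemma continuous_FT (hf : Summable f) : Continuous (FT f) :=
  continuous_tsum (fun x => continuous_const.mul (continuous_chr x)) hf.norm
    fun x k => (norm_FT_term f k x).le

lemma norm_FT_le (hf : Summable f) (k : Fin d → ℝ) : ‖FT f k‖ ≤ ∑' x, ‖f x‖ :=
  tsum_of_norm_bounded hf.norm.hasSum fun x => (norm_FT_term f k x).le

lemma FT_inv (hf : Summable f) (y : X d) : (f y : ℂ) = ∫ k, FT f k * chr k (-y) ∂(mu d) := by
  have hi : ∀ x, Integrable (fun k => (f x : ℂ) * chr k (x + -y)) (mu d) := fun x =>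
    (integrable_chr _).const_mul _
  have hs : Summable fun x => ∫ k, ‖(f x : ℂ) * chr k (x + -y)‖ ∂(mu d) := by
    simp only [norm_mul, norm_chr, mul_one, Complex.norm_real]
    simpa using hf.norm
  have hh := (hasSum_integral_of_summable_integral_norm hi hs).tsum_eq
  simp only [integral_const_mul, integral_chr] at hh
  rw [tsum_eq_single y (fun x hx => by rw [if_neg (by rwa [add_neg_eq_zero]), mul_zero])] at hh
  simp only [add_neg_cancel, if_true, mul_one] at hh
  rw [hh]
  congr 1; funext k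
  rw [FT, ← tsum_mul_right]
  exact tsum_congr fun x => by rw [chr_add, mul_assoc]

lemma continuous_th (x : X d) : Continuous fun k : Fin d → ℝ => th k x := by
  unfold th; fun_prop

lemma real_inv (hf : Summable f) {ψ : (Fin d → ℝ) → ℝ} (h : ∀ k, FT f k = ψ k) :
    Integrable ψ (mu d) ∧ ∀ y, f y = ∫ k, ψ k * cos (th k y) ∂(mu d) := by
  have e : ψ = fun k => (FT f k).re := funext fun k => by rw [h]; simp
  have hc : Continuous ψ := e ▸ Complex.continuous_re.comp (continuous_FT hf)
  have hb : ∀ k, ‖ψ k‖ ≤ ∑' x, ‖f x‖ := fun k => by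
    have := norm_FT_le hf k
    rwa [h, Complex.norm_real] at this
  refine ⟨integrable_of_bdd hc _ hb, fun y => ?_⟩
  have h1 := congrArg Complex.re (FT_inv hf y)
  have hi : Integrable (fun k => FT f k * chr k (-y)) (mu d) :=
    integrable_of_bdd ((continuous_FT hf).mul (continuous_chr _)) _ fun k => by
      rw [norm_mul, norm_chr, mul_one]; exact norm_FT_le hf k
  have h2 := integral_re hi
  simp only [RCLike.re_to_complex] at h2
  rw [Complex.ofReal_re, ← h2] at h1
  rw [h1]
  congr 1; funext k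
  rw [h, Complex.re_ofReal_mul, re_chr, th_neg, cos_neg]

lemma le_integral_of (hf : Summable f) {ψ m : (Fin d → ℝ) → ℝ} (h : ∀ k, FT f k = ψ k)
    (hm : Integrable m (mu d)) (hle : ∀ᵐ k ∂(mu d), |ψ k| ≤ m k) (y : X d) :
    f y ≤ ∫ k, m k ∂(mu d) := by
  obtain ⟨hi, h2⟩ := real_inv hf h
  rw [h2 y]
  refine (Real.le_norm_self _).trans (norm_integral_le_of_norm_le hm ?_)
  filter_upwards [hle] with k hk
  rw [Real.norm_eq_abs, abs_mul]
  exact (mul_le_of_le_one_right (abs_nonneg _) (abs_cos_le_one _)).trans hk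

lemma zero_le_integral_of (hf : Summable f) {ψ m : (Fin d → ℝ) → ℝ} (h : ∀ k, FT f k = ψ k)
    (hm : Integrable m (mu d)) (hle : ∀ᵐ k ∂(mu d), ψ k ≤ m k) :
    f 0 ≤ ∫ k, m k ∂(mu d) := by
  obtain ⟨hi, h2⟩ := real_inv hf h
  rw [h2 0]
  simp only [th_zero, cos_zero, mul_one]
  exact integral_mono_ae hi hm hle

/-- cosine transform -/
noncomputable def CT (f : X d → ℝ) (k : Fin d → ℝ) : ℝ := ∑' x, f x * cos (th k x)

/-- sine transform -/
noncomputable def ST (f : X d → ℝ) (k : Fin d → ℝ) : ℝ := ∑' x, f x * sin (th k x)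

lemma summ_bdd (hf : Summable f) {u : X d → ℝ} (hu : ∀ x, |u x| ≤ 1) :
    Summable fun x => f x * u x :=
  Summable.of_norm_bounded hf.norm fun x => by
    rw [norm_mul]; exact mul_le_of_le_one_right (norm_nonneg _) (hu x)

lemma FT_eq (hf : Summable f) (k : Fin d → ℝ) : FT f k = CT f k + ST f k * Complex.I := by
  rw [FT, CT, ST, Complex.ofReal_tsum, Complex.ofReal_tsum, ← tsum_mul_right,
    ← Summable.tsum_add]
  · refine tsum_congr fun x => ?_
    rw [chr, Complex.exp_mul_I]; push_cast; ring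
  · exact Complex.summable_ofReal.2 (summ_bdd hf fun x => abs_cos_le_one _)
  · exact (Complex.summable_ofReal.2 (summ_bdd hf fun x => abs_sin_le_one _)).mul_right _

lemma tsum_odd {u : X d → ℝ} (e : X d ≃ X d) (hu : ∀ x, u (e x) = - u x) : ∑' x, u x = 0 := by
  have := e.tsum_eq u
  simp only [hu, tsum_neg] at this
  linarith

lemma FT_even (hf : Summable f) (he : ∀ x, f (-x) = f x) (k : Fin d → ℝ) : FT f k = CT f k := by
  rw [FT_eq hf, ST, tsum_odd (Equiv.neg _) fun x => by simp [he, th_neg]]; simp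

lemma FT_odd (hf : Summable f) (he : ∀ x, f (-x) = - f x) (k : Fin d → ℝ) :
    FT f k = ST f k * Complex.I := by
  rw [FT_eq hf, CT, tsum_odd (Equiv.neg _) fun x => by simp [he, th_neg]]; simp

/-- multiplication by a coordinate -/
def Dj (j : Fin d) (f : X d → ℝ) (x : X d) : ℝ := x j * f x

lemma Dj_rc (j : Fin d) (hf : Summable f) (hg : Summable g) (hf' : Summable (Dj j f))
    (hg' : Summable (Dj j g)) : Dj j (rc f g) = fun y => rc (Dj j f) g y + rc f (Dj j g) y := by
  funext y
  rw [Dj, rc, rc, rc, ← tsum_mul_left, ← (rc_pt hf' hg y).tsum_add (rc_pt hf hg' y)]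
  refine tsum_congr fun x => ?_
  simp only [Dj, Pi.sub_apply]; push_cast; ring

lemma sq_le_nsq (x : X d) (j : Fin d) : (x j : ℝ) ^ 2 ≤ nsq x := by
  rw [nsq_real]
  exact single_le_sum (f := fun j => (x j : ℝ) ^ 2) (fun _ _ => sq_nonneg _) (mem_univ j)

lemma abs_le_sq_int (n : ℤ) : |(n : ℝ)| ≤ (n : ℝ) ^ 2 := by
  have : |n| ≤ n ^ 2 := by
    rcases eq_or_ne n 0 with h | h
    · simp [h]
    · have := Int.one_le_abs h
      nlinarith [sq_abs n]
  exact_mod_cast this

lemma summ_Dj (h2 : Summable fun x => (nsq x : ℝ) * f x) (j : Fin d) : Summable (Dj j f) :=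
  Summable.of_norm_bounded h2.norm fun x => by
    rw [Dj, norm_mul, norm_mul]
    refine mul_le_mul_of_nonneg_right ?_ (norm_nonneg _)
    rw [Real.norm_eq_abs, Real.norm_of_nonneg (by positivity)]
    exact (abs_le_sq_int _).trans (sq_le_nsq x j)

lemma summ_DDj (h2 : Summable fun x => (nsq x : ℝ) * f x) (j : Fin d) :
    Summable (Dj j (Dj j f)) :=
  Summable.of_norm_bounded h2.norm fun x => by
    rw [Dj, Dj, ← mul_assoc, norm_mul, norm_mul (nsq x : ℝ)]
    refine mul_le_mul_of_nonneg_right ?_ (norm_nonneg _)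
    rw [Real.norm_of_nonneg (mul_self_nonneg _), Real.norm_of_nonneg (by positivity), ← sq]
    exact sq_le_nsq x j

lemma sum_DDj (f : X d → ℝ) : (fun x => (nsq x : ℝ) * f x) = fun x => ∑ j, Dj j (Dj j f) x := by
  funext x
  rw [nsq_real, sum_mul]
  exact sum_congr rfl fun j _ => by simp only [Dj]; ring

/-- second derivative of the solution of a renewal equation -/
lemma FT_second {G ρ : X d → ℝ} (hG : Summable G) (hρ : Summable ρ)
    (hG2 : Summable fun x => (nsq x : ℝ) * G x) (hρ2 : Summable fun x => (nsq x : ℝ) * ρ x)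
    (h : G = fun x => dl 0 x + rc ρ G x) (k : Fin d → ℝ) :
    FT G k * (1 - FT ρ k) = 1 ∧ FT (fun x => (nsq x : ℝ) * G x) k =
      FT (fun x => (nsq x : ℝ) * ρ x) k * FT G k ^ 2 + 2 * (∑ j, FT (Dj j ρ) k ^ 2) * FT G k ^ 3 := by
  have h0 : FT G k = 1 + FT ρ k * FT G k := by
    conv_lhs => rw [h]
    rw [FT_add (summ_dl 0) (rc_summ hρ hG), FT_dl, chr_zero, FT_rc hρ hG]
  have h0' : FT G k * (1 - FT ρ k) = 1 := by linear_combination h0
  refine ⟨h0', ?_⟩
  rw [sum_DDj, sum_DDj, FT_sum _ (summ_DDj hG2), FT_sum _ (summ_DDj hρ2), mul_sum, sum_mul,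
    sum_mul, ← sum_add_distrib]
  refine sum_congr rfl fun j _ => ?_
  have g1 := summ_Dj hG2 j
  have g2 := summ_DDj hG2 j
  have r1 := summ_Dj hρ2 j
  have r2 := summ_DDj hρ2 j
  have e1 : Dj j G = fun y => rc (Dj j ρ) G y + rc ρ (Dj j G) y := by
    rw [← Dj_rc j hρ hG r1 g1]
    funext y
    rw [Dj, Dj, congrFun h y, dl]
    split_ifs with hy
    · simp [hy]
    · simp
  have e2 : Dj j (Dj j G) = fun y => (rc (Dj j (Dj j ρ)) G y + rc (Dj j ρ) (Dj j G) y) +
      (rc (Dj j ρ) (Dj j G) y + rc ρ (Dj j (Dj j G)) y) := by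
    funext y
    rw [← congrFun (Dj_rc j r1 hG r2 g1) y, ← congrFun (Dj_rc j hρ g1 r1 g2) y, Dj, congrFun e1 y,
      Dj, Dj, mul_add]
  have f1 := congrArg (fun f => FT f k) e1
  have f2 := congrArg (fun f => FT f k) e2
  beta_reduce at f1 f2
  rw [FT_add (rc_summ r1 hG) (rc_summ hρ g1), FT_rc r1 hG, FT_rc hρ g1] at f1
  rw [FT_add ((rc_summ r2 hG).add (rc_summ r1 g1)) ((rc_summ r1 g1).add (rc_summ hρ g2)), FT_add (rc_summ r2 hG) (rc_summ r1 g1),
    FT_add (rc_summ r1 g1) (rc_summ hρ g2), FT_rc r2 hG, FT_rc r1 g1, FT_rc hρ g2] at f2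
  have f3 : FT (Dj j G) k = FT (Dj j ρ) k * FT G k ^ 2 := by
    linear_combination FT G k * f1 - FT (Dj j G) k * h0'
  linear_combination FT G k * f2 - FT (Dj j (Dj j G)) k * h0' + 2 * FT G k * FT (Dj j ρ) k * f3

end Pool.Agent.P.MP_2ab770_pr
end

-- part Pool.Agent.P.MP_2ab770_pr.Symm
section

set_option autoImplicit false
set_option linter.dupNamespace false
set_option linter.unusedVariables false
set_option linter.unusedSectionVars false

namespace Pool.Agent.P.MP_2ab770_pr

open Finset Filter Topology MeasureTheory Real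

variable {d : ℕ} {f h : X d → ℝ}

/-- invariance under lattice symmetries -/
def Sy (h : X d → ℝ) : Prop := ∀ (S : Sym d) x, h (S.T x) = h x

lemma Sy.neg (hs : Sy h) (x : X d) : h (-x) = h x := hs (negS d) x

lemma hasSum_cg {ι R : Type} [AddCommMonoid R] [TopologicalSpace R] {u v : ι → R}
    {a : R} (h : HasSum u a) (e : ∀ i, v i = u i) : HasSum v a := (funext e : v = u) ▸ h

lemma abs_sin_nat (n : ℕ) (t : ℝ) : |sin (n * t)| ≤ n * |sin t| := by
  induction n with
  | zero => simp
  | succ n ih =>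
    push_cast
    rw [add_mul, one_mul, sin_add]
    refine (abs_add_le _ _).trans ?_
    rw [abs_mul, abs_mul, add_mul, one_mul]
    exact add_le_add ((mul_le_of_le_one_right (abs_nonneg _) (abs_cos_le_one _)).trans ih)
      (mul_le_of_le_one_left (abs_nonneg _) (abs_cos_le_one _))

lemma abs_sin_int (n : ℤ) (t : ℝ) : |sin (n * t)| ≤ |(n : ℝ)| * |sin t| := by
  obtain ⟨m, rfl | rfl⟩ := n.eq_nat_or_neg
  · simpa using abs_sin_nat m t
  · simpa using abs_sin_nat m t

lemma one_sub_cos_int (n : ℤ) (t : ℝ) : 1 - cos (n * t) ≤ (n : ℝ) ^ 2 * (1 - cos t) := by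
  have h1 := abs_sin_int n (t / 2)
  have h2 : sin (n * (t / 2)) ^ 2 ≤ (n : ℝ) ^ 2 * sin (t / 2) ^ 2 := by
    rw [← mul_pow, sq_le_sq, abs_mul]; exact h1
  have h3 := cos_two_mul (n * (t / 2))
  have h4 := cos_two_mul (t / 2)
  rw [show 2 * (n * (t / 2)) = n * t by ring] at h3
  rw [show 2 * (t / 2) = t by ring] at h4
  rw [h3, h4]
  nlinarith [sin_sq_add_cos_sq (n * (t / 2)), sin_sq_add_cos_sq (t / 2)]

/-- phase in one coordinate -/
noncomputable def ph (k : Fin d → ℝ) (x : X d) (j : Fin d) : ℝ := x j * (2 * π * k j)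

lemma prod_formula (hf : Summable f) (k : Fin d → ℝ) (s : Finset (Fin d))
    (hs : ∀ j ∈ s, ∀ x, f (flipT j x) = f x) :
    HasSum (fun x => (f x : ℂ) * ∏ j, if j ∈ s then (cos (ph k x j) : ℂ) else
      Complex.exp (ph k x j * Complex.I)) (FT f k) := by
  induction s using Finset.induction_on with
  | empty =>
    refine hasSum_cg (FT_summ hf k).of_norm.hasSum fun x => ?_
    congr 1
    simp only [notMem_empty, if_false, chr, th, ph]
    rw [← Complex.exp_sum, ← sum_mul]
    push_cast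
    congr 2
    exact sum_congr rfl fun j _ => by ring
  | insert m s hm ih =>
    have h1 := ih fun j hj => hs j (mem_insert_of_mem hj)
    have h2 := (flipS m).T.toEquiv.hasSum_iff.2 h1
    have h3 := (h1.add h2).div_const 2
    rw [add_self_div_two] at h3
    refine hasSum_cg h3 fun x => ?_
    change _ = (_ + (f (flipT m x) : ℂ) * ∏ j, if j ∈ s then (cos (ph k (flipT m x) j) : ℂ) else
      Complex.exp (ph k (flipT m x) j * Complex.I)) / 2
    rw [hs m (mem_insert_self _ _), ← mul_prod_erase _ _ (mem_univ m),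
      ← mul_prod_erase _ _ (mem_univ m), ← mul_prod_erase _ _ (mem_univ m)]
    have e1 : ∏ j ∈ univ.erase m, (if j ∈ insert m s then (cos (ph k x j) : ℂ) else
        Complex.exp (ph k x j * Complex.I)) = ∏ j ∈ univ.erase m,
        (if j ∈ s then (cos (ph k x j) : ℂ) else Complex.exp (ph k x j * Complex.I)) :=
      prod_congr rfl fun j hj => by simp [ne_of_mem_erase hj]
    have e2 : ∏ j ∈ univ.erase m, (if j ∈ s then (cos (ph k (flipT m x) j) : ℂ) else
        Complex.exp (ph k (flipT m x) j * Complex.I)) = ∏ j ∈ univ.erase m,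
        (if j ∈ s then (cos (ph k x j) : ℂ) else Complex.exp (ph k x j * Complex.I)) :=
      prod_congr rfl fun j hj => by simp [ph, flipT, ne_of_mem_erase hj]
    have e3 : ph k (flipT m x) m = - ph k x m := by simp [ph, flipT]
    rw [e1, e2, e3, if_pos (mem_insert_self _ _), if_neg hm, if_neg hm, Complex.exp_mul_I,
      Complex.exp_mul_I]
    push_cast
    rw [Complex.cos_neg, Complex.sin_neg]
    ring

lemma CT_prod (hh : Summable h) (hs : Sy h) (k : Fin d → ℝ) :
    HasSum (fun x => h x * ∏ j, cos (ph k x j)) (CT h k) := by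
  have := prod_formula hh k univ fun j _ x => hs (flipS j) x
  rw [FT_even hh hs.neg] at this
  simp only [mem_univ, if_true] at this
  exact_mod_cast this

lemma ST_prod (j : Fin d) (hh : Summable (Dj j h)) (hs : Sy h) (k : Fin d → ℝ) :
    HasSum (fun x => h x * (x j * (sin (ph k x j) * ∏ i ∈ univ.erase j, cos (ph k x i))))
      (ST (Dj j h) k) := by
  have h1 := prod_formula hh k (univ.erase j) fun i hi x => by
    have := hs (flipS i) x
    change h (flipT i x) = _ at this
    simp [Dj, this, flipT, (ne_of_mem_erase hi).symm]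
  have h2 := Complex.hasSum_im h1
  rw [FT_eq hh] at h2
  simp only [Complex.add_im, Complex.ofReal_im, Complex.mul_im, Complex.ofReal_re, Complex.I_im,
    Complex.I_re, mul_one, mul_zero, add_zero, zero_add, zero_mul] at h2
  refine hasSum_cg h2 fun x => ?_
  rw [← mul_prod_erase _ _ (mem_univ j), if_neg (notMem_erase j _),
    prod_congr rfl fun i hi => if_pos hi, ← Complex.ofReal_prod, Complex.im_mul_ofReal,
    Complex.exp_ofReal_mul_I_im, Dj]
  ring

lemma moment_eq (h2 : Summable fun x => (nsq x : ℝ) * h x) (hs : Sy h) (j : Fin d) :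
    HasSum (fun x => h x * (x j : ℝ) ^ 2) ((∑' x, (nsq x : ℝ) * h x) / d) := by
  have e : ∀ i, (fun x => h x * (x i : ℝ) ^ 2) = Dj i (Dj i h) := fun i => by
    funext x; simp only [Dj]; ring
  have h1 : ∀ i, ∑' x, Dj i (Dj i h) x = ∑' x, Dj j (Dj j h) x := by
    intro i
    rw [← (swapS i j).T.toEquiv.tsum_eq]
    refine tsum_congr fun x => ?_
    have := hs (swapS i j) x
    simp only [Dj, AddEquiv.toEquiv_eq_coe, EquivLike.coe_coe, this]
    simp [swapS]
  have hd : (0 : ℝ) < d := by exact_mod_cast j.pos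
  rw [sum_DDj, Summable.tsum_finsetSum fun i _ => summ_DDj h2 i, sum_congr rfl fun i _ => h1 i, e]
  simp only [sum_const, card_univ, Fintype.card_fin, nsmul_eq_mul]
  rw [mul_div_cancel_left₀ _ hd.ne']
  exact (summ_DDj h2 j).hasSum

lemma one_sub_prod_le {ι : Type} [DecidableEq ι] (s : Finset ι) (c : ι → ℝ) (hc : ∀ i, |c i| ≤ 1) :
    1 - ∏ i ∈ s, c i ≤ ∑ i ∈ s, (1 - c i) := by
  induction s using Finset.induction_on with
  | empty => simp
  | insert m s hm ih =>
    rw [prod_insert hm, sum_insert hm]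
    have h1 : ∏ i ∈ s, c i ≤ 1 := (le_abs_self _).trans (by
      rw [abs_prod]; exact prod_le_one (fun _ _ => abs_nonneg _) fun i _ => hc i)
    have h2 := (abs_le.1 (hc m)).2
    nlinarith

lemma abs_prod_le_one {ι : Type} (s : Finset ι) (c : ι → ℝ) (hc : ∀ i, |c i| ≤ 1) :
    |∏ i ∈ s, c i| ≤ 1 := by
  rw [abs_prod]; exact prod_le_one (fun _ _ => abs_nonneg _) fun i _ => hc i

lemma sum_sin_sq_le {ι : Type} [DecidableEq ι] (s : Finset ι) (a : ι → ℝ) (h0 : ∀ i, 0 ≤ a i)
    (h1 : ∀ i, a i ≤ 1) : ∑ j ∈ s, (1 - a j) * ∏ i ∈ s.erase j, a i ≤ 1 - ∏ i ∈ s, a i := by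
  induction s using Finset.induction_on with
  | empty => simp
  | insert m s hm ih =>
    rw [prod_insert hm, sum_insert hm, erase_insert hm]
    have : ∑ j ∈ s, (1 - a j) * ∏ i ∈ (insert m s).erase j, a i ≤
        ∑ j ∈ s, (1 - a j) * ∏ i ∈ s.erase j, a i := by
      refine sum_le_sum fun j hj => mul_le_mul_of_nonneg_left ?_ (sub_nonneg.2 (h1 j))
      rw [erase_insert_of_ne (fun e : m = j => hm (e ▸ hj)), prod_insert fun e => hm (mem_of_mem_erase e)]
      exact mul_le_of_le_one_left (prod_nonneg fun _ _ => h0 _) (h1 m)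
    linarith

lemma R_nonneg (hh : Summable h) (h0 : ∀ x, 0 ≤ h x) (k : Fin d → ℝ) : CT h k ≤ ∑' x, h x :=
  (summ_bdd hh fun x => abs_cos_le_one _).tsum_le_tsum
    (fun x => mul_le_of_le_one_right (h0 x) (cos_le_one _)) hh

lemma abs_CT_le (hh : Summable h) (h0 : ∀ x, 0 ≤ h x) (k : Fin d → ℝ) : |CT h k| ≤ ∑' x, h x := by
  rw [← Real.norm_eq_abs, CT]
  refine tsum_of_norm_bounded hh.hasSum fun x => ?_
  rw [norm_mul, Real.norm_of_nonneg (h0 x)]
  exact mul_le_of_le_one_right (h0 x) (abs_cos_le_one _)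

lemma R_le (hh : Summable h) (h2 : Summable fun x => (nsq x : ℝ) * h x) (h0 : ∀ x, 0 ≤ h x)
    (hs : Sy h) (k : Fin d → ℝ) : ∑' x, h x - CT h k ≤ (∑' x, (nsq x : ℝ) * h x) * YY k := by
  have a1 := hh.hasSum.sub (CT_prod hh hs k)
  have a2 := hasSum_sum (s := univ) fun j _ => (moment_eq h2 hs j).mul_left (yy (k j))
  refine (hasSum_le (fun x => ?_) a1 a2).trans (le_of_eq ?_)
  · calc _ = h x * (1 - ∏ j, cos (ph k x j)) := by ring
      _ ≤ h x * ∑ j, (x j : ℝ) ^ 2 * yy (k j) :=
        mul_le_mul_of_nonneg_left ((one_sub_prod_le _ _ fun j => abs_cos_le_one _).trans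
          (sum_le_sum fun j _ => one_sub_cos_int _ _)) (h0 x)
      _ = _ := by rw [mul_sum]; exact sum_congr rfl fun j _ => by ring
  · rw [← sum_mul, YY]; ring

lemma S_le (h2 : Summable fun x => (nsq x : ℝ) * h x) (h0 : ∀ x, 0 ≤ h x)
    (hs : Sy h) (k : Fin d → ℝ) (j : Fin d) :
    |ST (Dj j h) k| ≤ |sin (2 * π * k j)| * ((∑' x, (nsq x : ℝ) * h x) / d) := by
  rw [← (ST_prod j (summ_Dj h2 j) hs k).tsum_eq, ← Real.norm_eq_abs]
  refine tsum_of_norm_bounded ((moment_eq h2 hs j).mul_left _) fun x => ?_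
  rw [norm_mul, norm_mul, norm_mul, Real.norm_of_nonneg (h0 x)]
  simp only [Real.norm_eq_abs]
  have a1 := abs_prod_le_one (univ.erase j) (fun i => cos (ph k x i)) fun i => abs_cos_le_one _
  have a2 := abs_sin_int (x j) (2 * π * k j)
  calc _ ≤ h x * (|(x j : ℝ)| * ((|(x j : ℝ)| * |sin (2 * π * k j)|) * 1)) := by
        have := h0 x
        gcongr
        exact a2
    _ = _ := by rw [← sq_abs (x j : ℝ)]; ring

lemma cs_tsum {ι : Type} {w a b : ι → ℝ} {A B C : ℝ} (h0 : ∀ i, 0 ≤ w i)
    (hA : HasSum (fun i => w i * a i ^ 2) A) (hB : HasSum (fun i => w i * b i ^ 2) B)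
    (hC : HasSum (fun i => w i * (a i * b i)) C) : C ^ 2 ≤ A * B := by
  have : ∀ t : ℝ, 0 ≤ A * (t * t) + (2 * C) * t + B := by
    intro t
    have h1 := ((hA.mul_right (t * t)).add (hC.mul_left (2 * t))).add hB
    have h2 := h1.nonneg fun i => by
      have := mul_nonneg (h0 i) (sq_nonneg (a i * t + b i))
      nlinarith
    linarith
  have := discrim_le_zero this
  rw [discrim] at this
  nlinarith

lemma S_sq_le (hh : Summable h) (h2 : Summable fun x => (nsq x : ℝ) * h x) (h0 : ∀ x, 0 ≤ h x)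
    (hs : Sy h) (k : Fin d → ℝ) : ∑ j, ST (Dj j h) k ^ 2 ≤
      2 * ((∑' x, (nsq x : ℝ) * h x) / d) * (∑' x, h x - CT h k) := by
  set s := (∑' x, (nsq x : ℝ) * h x) / d
  have hs0 : 0 ≤ s := div_nonneg (tsum_nonneg fun x => mul_nonneg (Nat.cast_nonneg _) (h0 x))
    (Nat.cast_nonneg _)
  set b : Fin d → X d → ℝ := fun j x => sin (ph k x j) * ∏ i ∈ univ.erase j, cos (ph k x i)
  have hb : ∀ j, Summable fun x => h x * b j x ^ 2 := fun j => summ_bdd hh fun x => by
    rw [abs_pow]
    refine pow_le_one₀ (abs_nonneg _) ?_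
    rw [abs_mul]
    exact mul_le_one₀ (abs_sin_le_one _) (abs_nonneg _)
      (abs_prod_le_one _ _ fun i => abs_cos_le_one _)
  have a1 : ∀ j, ST (Dj j h) k ^ 2 ≤ s * ∑' x, h x * b j x ^ 2 := fun j =>
    cs_tsum h0 (moment_eq h2 hs j) (hb j).hasSum (ST_prod j (summ_Dj h2 j) hs k)
  have a2 := hasSum_sum (s := univ) fun j _ => (hb j).hasSum
  have a3 := (hh.hasSum.sub (CT_prod hh hs k)).mul_left 2
  have a4 := hasSum_le (fun x => ?_) a2 a3
  · refine (sum_le_sum fun j _ => a1 j).trans ?_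
    rw [← mul_sum]
    nlinarith
  · have c1 := sum_sin_sq_le univ (fun i => cos (ph k x i) ^ 2) (fun _ => sq_nonneg _)
      fun _ => cos_sq_le_one _
    rw [prod_pow] at c1
    have c2 : ∑ j, b j x ^ 2 ≤ 2 * (1 - ∏ j, cos (ph k x j)) := by
      refine le_trans (le_of_eq (sum_congr rfl fun j _ => ?_)) (c1.trans ?_)
      · simp only [b]; rw [mul_pow, prod_pow, sin_sq]
      · nlinarith [sq_nonneg (1 - ∏ j, cos (ph k x j))]
    rw [← mul_sum]
    nlinarith [mul_le_mul_of_nonneg_left c2 (h0 x)]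

/-- nearest neighbour kernel -/
def nn (x : X d) : ℝ := ∑ a : Lt d, dl (step a) x

lemma summ_nn_mul (u : X d → ℝ) : HasSum (fun x => nn x * u x) (∑ a : Lt d, u (step a)) := by
  simp only [nn, sum_mul]
  refine hasSum_sum fun a _ => ?_
  convert hasSum_single (f := fun x => dl (step a) x * u x) (step a) (fun x hx => by simp [dl, hx])
  simp [dl]

lemma summ_nn : Summable (nn (d := d)) := by simpa using (summ_nn_mul (d := d) fun _ => 1).summable

lemma nsq_nn : (fun x : X d => (nsq x : ℝ) * nn x) = nn := by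
  funext x
  simp only [nn, mul_sum]
  refine sum_congr rfl fun a _ => ?_
  unfold dl
  split_ifs with h
  · simp [h, nsq_step]
  · simp

/-- Fourier transform of the step distribution -/
noncomputable def DD (k : Fin d → ℝ) : ℝ := 1 - YY k

lemma sum_cos_step (hd : 0 < d) (k : Fin d → ℝ) :
    ∑ a : Lt d, cos (th k (step a)) = 2 * d * DD k := by
  have hd0 : (0 : ℝ) < d := by exact_mod_cast hd
  have : ∀ a : Lt d, cos (th k (step a)) = 1 - yy (k a.1) := fun a => by
    linarith [cos_step k a]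
  simp only [this, Fintype.sum_prod_type, sum_const, card_univ, Fintype.card_bool, nsmul_eq_mul,
    DD, YY, ← mul_sum, sum_sub_distrib, Fintype.card_fin, Fintype.card_prod]
  field_simp
  push_cast; ring

lemma CT_nn (hd : 0 < d) (k : Fin d → ℝ) : CT nn k = 2 * d * DD k := by
  rw [CT, (summ_nn_mul _).tsum_eq, sum_cos_step hd]

lemma nn_neg (x : X d) : nn (-x) = nn x := by
  rw [nn, nn, ← sum_iv]
  refine sum_congr rfl fun a _ => ?_
  simp [dl, step_iv]

lemma FT_nn (hd : 0 < d) (k : Fin d → ℝ) : FT nn k = (2 * d * DD k : ℝ) := by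
  rw [FT_even summ_nn nn_neg, CT_nn hd]

lemma ST_nn (k : Fin d → ℝ) (j : Fin d) : ST (Dj j nn) k = 2 * sin (2 * π * k j) := by
  have := (summ_nn_mul fun x : X d => x j * sin (th k x)).tsum_eq
  rw [ST]
  simp only [Dj, mul_assoc, mul_left_comm _ (nn _)]
  rw [this, Fintype.sum_prod_type, sum_eq_single j]
  · have e : ∀ b : Bool, th k (step (j, b)) = (if b then 1 else -1 : ℤ) * (2 * π * k j) := by
      intro b
      rw [th, sum_eq_single j]
      · cases b <;> simp [step]
      · intro i _ hi; simp [step, Pi.single_eq_of_ne hi]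
      · simp
    simp only [e]
    simp [step]
    ring_nf
  · intro i _ hi; simp [step, Pi.single_eq_of_ne hi.symm]
  · simp

lemma rc_nn (u : X d → ℝ) (y : X d) : rc nn u y = ∑ a : Lt d, u (y - step a) :=
  (summ_nn_mul fun x => u (y - x)).tsum_eq

end Pool.Agent.P.MP_2ab770_pr
end

-- part Pool.Agent.P.MP_2ab770_pr.Ints
section

set_option autoImplicit false
set_option linter.dupNamespace false
set_option linter.unusedVariables false
set_option linter.unusedSectionVars false

namespace Pool.Agent.P.MP_2ab770_pr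

open Finset Filter Topology MeasureTheory Real

variable {d : ℕ}

lemma integrable_mu {f : (Fin d → ℝ) → ℝ} (hf : Continuous f) : Integrable f (mu d) := by
  have hK : IsCompact (Set.pi Set.univ fun _ : Fin d => Set.Icc (-1 / 2 : ℝ) (1 / 2)) :=
    isCompact_univ_pi fun _ => isCompact_Icc
  obtain ⟨C, hC⟩ := hK.exists_bound_of_continuousOn hf.continuousOn
  refine Integrable.of_bound hf.aestronglyMeasurable C ?_
  have : ∀ᵐ k ∂(mu d), ∀ j, |k j| ≤ 1 / 2 ∧ k j ≠ 0 := by
    rw [ae_all_iff]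
    exact fun j => (Measure.tendsto_eval_ae_ae (μ := fun _ : Fin d => nu) (i := j)).eventually ae_nu
  filter_upwards [this] with k hk
  refine hC k fun j _ => ?_
  have := abs_le.1 (hk j).1
  exact ⟨by linarith [this.1], this.2⟩

lemma integral_split {m : ℕ} (j : Fin (m + 1)) {f : (Fin (m + 1) → ℝ) → ℝ} (hf : Continuous f) :
    ∫ k, f k ∂(mu (m + 1)) = ∫ y, (∫ t, f (Fin.insertNth j t y) ∂nu) ∂(mu m) := by
  have h := (measurePreserving_piFinSuccAbove (fun _ : Fin (m + 1) => nu) j).symm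
  have hi := (h.integrable_comp_emb (MeasurableEquiv.measurableEmbedding _)).2 (integrable_mu hf)
  rw [mu, ← h.integral_comp']
  exact integral_prod_symm _ hi

/-- sum of cosines -/
noncomputable def cs (k : Fin d → ℝ) : ℝ := ∑ j, cos (2 * π * k j)

lemma continuous_cs : Continuous (cs (d := d)) := by unfold cs; fun_prop

lemma cs_insert {m : ℕ} (j : Fin (m + 1)) (t : ℝ) (y : Fin m → ℝ) :
    cs (Fin.insertNth j t y : Fin (m + 1) → ℝ) = cos (2 * π * t) + cs y := by
  rw [cs, Fin.sum_univ_succAbove _ j]; simp [cs]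

lemma DD_eq (hd : 0 < d) (k : Fin d → ℝ) : DD k = cs k / d := by
  have hd0 : (0 : ℝ) < d := by exact_mod_cast hd
  simp only [DD, YY, yy, cs, sum_sub_distrib, sum_const, card_univ, Fintype.card_fin, nsmul_eq_mul]
  field_simp; ring

lemma integral_nu (f : ℝ → ℝ) : ∫ t, f t ∂nu = ∫ t in (-1 / 2 : ℝ)..(1 / 2), f t := by
  rw [nu, intervalIntegral.integral_of_le (by norm_num)]

lemma integrable_nu {f : ℝ → ℝ} (hf : Continuous f) : Integrable f nu :=
  (hf.integrableOn_Icc).mono_set Set.Ioc_subset_Icc_self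

lemma ibp (S : ℝ) (n : ℕ) : ∫ t, cos (2 * π * t) * (cos (2 * π * t) + S) ^ n ∂nu =
    n * ∫ t, sin (2 * π * t) ^ 2 * (cos (2 * π * t) + S) ^ (n - 1) ∂nu := by
  have hd : ∀ t, HasDerivAt (fun t => sin (2 * π * t) * (cos (2 * π * t) + S) ^ n)
      (2 * π * (cos (2 * π * t) * (cos (2 * π * t) + S) ^ n -
        n * (sin (2 * π * t) ^ 2 * (cos (2 * π * t) + S) ^ (n - 1)))) t := by
    intro t
    have h0 : HasDerivAt (fun t => 2 * π * t) (2 * π) t := by
      simpa using (hasDerivAt_id t).const_mul (2 * π)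
    exact (h0.sin.fun_mul ((h0.cos.add_const S).fun_pow n)).congr_deriv (by ring)
  have h1 := intervalIntegral.integral_eq_sub_of_hasDerivAt (a := -1 / 2) (b := 1 / 2)
    (fun t _ => hd t) (Continuous.intervalIntegrable (by fun_prop) _ _)
  rw [show 2 * π * (1 / 2) = π by ring, show 2 * π * (-1 / 2) = -π by ring, sin_neg, sin_pi,
    ← integral_nu, integral_const_mul, integral_sub (integrable_nu (by fun_prop))
      (integrable_nu (by fun_prop)), integral_const_mul] at h1
  have := pi_pos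
  have h2 := (mul_eq_zero.1 (h1.trans (by ring))).resolve_left (by positivity)
  linarith

/-- one dimensional moments -/
noncomputable def c1 (n : ℕ) : ℝ := ∫ t, cos (2 * π * t) ^ n ∂nu

lemma c1_zero : c1 0 = 1 := by simp [c1]

lemma c1_one : c1 1 = 0 := by simpa [c1] using ibp 0 0

lemma c1_succ (n : ℕ) : (n + 2) * c1 (n + 2) = (n + 1) * c1 n := by
  have h := ibp 0 (n + 1)
  simp only [add_zero, Nat.add_sub_cancel, sin_sq, sub_mul, one_mul, ← pow_succ', ← pow_add] at h
  rw [integral_sub (integrable_nu (by fun_prop)) (integrable_nu (by fun_prop)), add_comm 2] at h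
  push_cast at h
  simp only [c1]
  linarith

lemma c1_odd (m : ℕ) : c1 (2 * m + 1) = 0 := by
  induction m with
  | zero => exact c1_one
  | succ m ih =>
    have := c1_succ (2 * m + 1)
    rw [ih, mul_zero] at this
    exact (mul_eq_zero.1 this).resolve_left (by positivity)

/-- moments of the sum of cosines -/
noncomputable def mom (d n : ℕ) : ℝ := ∫ k, cs k ^ n ∂(mu d)

lemma mom_succ (m n : ℕ) :
    mom (m + 1) n = ∑ i ∈ range (n + 1), c1 i * mom m (n - i) * n.choose i := by
  rw [mom, integral_split 0 (f := fun k => cs k ^ n) (continuous_cs.pow n)]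
  simp only [cs_insert, add_pow]
  have : ∀ y : Fin m → ℝ, ∫ t, ∑ i ∈ range (n + 1), cos (2 * π * t) ^ i * cs y ^ (n - i) *
      n.choose i ∂nu = ∑ i ∈ range (n + 1), c1 i * cs y ^ (n - i) * n.choose i := by
    intro y
    rw [integral_finsetSum _ fun i _ => integrable_nu (by fun_prop)]
    simp only [integral_mul_const, c1]
  simp only [this]
  rw [integral_finsetSum _ fun i _ => integrable_mu (by have := continuous_cs (d := m); fun_prop)]
  simp only [integral_mul_const, integral_const_mul, mom]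

lemma mom_odd : ∀ (d n : ℕ), Odd n → mom d n = 0
  | 0, n, h => by simp [mom, cs, h.pos.ne']
  | d + 1, n, h => by
    rw [mom_succ]
    refine sum_eq_zero fun i hi => ?_
    rcases Nat.even_or_odd i with h1 | ⟨m, rfl⟩
    · rw [mom_odd d _ (Nat.Odd.sub_even (Nat.lt_succ_iff.1 (mem_range.1 hi)) h h1)]; simp
    · rw [c1_odd]; simp

/-- return probabilities -/
noncomputable def pm (d n : ℕ) : ℝ := ∫ k : Fin d → ℝ, DD k ^ n ∂(mu d)

lemma pm_eq (hd : 0 < d) (n : ℕ) : pm d n = mom d n / d ^ n := by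
  simp only [pm, DD_eq hd, div_pow, integral_div, mom]

lemma pm_odd (hd : 0 < d) {n : ℕ} (h : Odd n) : pm d n = 0 := by rw [pm_eq hd, mom_odd d n h]; simp

lemma pm_even (m : ℕ) : 0 ≤ pm d (2 * m) :=
  integral_nonneg fun k => by simp only [pow_mul]; positivity

lemma continuous_DD : Continuous (DD (d := d)) := by unfold DD YY yy; fun_prop

/-- squared gradient of the symbol -/
noncomputable def VV (k : Fin d → ℝ) : ℝ := (∑ j, sin (2 * π * k j) ^ 2) / d ^ 2

lemma continuous_VV : Continuous (VV (d := d)) := by unfold VV; fun_prop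

lemma VV_nonneg (k : Fin d → ℝ) : 0 ≤ VV k := by unfold VV; positivity

lemma VV_le (hd : 0 < d) (k : Fin d → ℝ) : VV k ≤ YY k * (2 - YY k) / d := by
  have hd0 : (0 : ℝ) < d := by exact_mod_cast hd
  have h1 : YY k = 1 - cs k / d := by rw [← DD_eq hd, DD]; ring
  have h2 := sq_sum_le_card_mul_sum_sq (s := univ) (f := fun j => cos (2 * π * k j))
  simp only [card_univ, Fintype.card_fin] at h2
  rw [h1, VV]
  simp only [sin_sq, sum_sub_distrib, sum_const, card_univ, Fintype.card_fin, nsmul_eq_mul]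
  rw [div_le_div_iff₀ (by positivity) hd0]
  have : (1 - cs k / d) * (2 - (1 - cs k / d)) * d ^ 2 = d ^ 2 - cs k ^ 2 := by field_simp; ring
  rw [this, cs]
  nlinarith

lemma integral_VD (hd : 0 < d) (n : ℕ) :
    ∫ k : Fin d → ℝ, VV k * DD k ^ n ∂(mu d) = pm d (n + 2) / (n + 1) := by
  obtain ⟨m, rfl⟩ : ∃ m, d = m + 1 := ⟨d - 1, by omega⟩
  have hc := continuous_cs (d := m + 1)
  have h1 : ∀ j : Fin (m + 1), ∫ k, cos (2 * π * k j) * cs k ^ (n + 1) ∂(mu (m + 1)) =
      (n + 1) * ∫ k, sin (2 * π * k j) ^ 2 * cs k ^ n ∂(mu (m + 1)) := by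
    intro j
    rw [integral_split j (by fun_prop), integral_split j (by fun_prop), ← integral_const_mul]
    congr 1; funext y
    simp only [cs_insert, Fin.insertNth_apply_same]
    rw [ibp]; simp
  have h2 := sum_congr (rfl : univ = univ) fun j _ => h1 j
  rw [← mul_sum, ← integral_finsetSum _ fun j _ => integrable_mu (by fun_prop),
    ← integral_finsetSum _ fun j _ => integrable_mu (by fun_prop)] at h2
  simp only [← sum_mul] at h2
  have h3 : mom (m + 1) (n + 2) = _ := Eq.trans (by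
    rw [mom]; congr 1; funext k; rw [pow_succ' _ (n + 1)]; rfl) h2
  rw [pm_eq hd, h3]
  simp only [VV, DD_eq hd, div_pow, div_mul_div_comm, integral_div]
  field_simp
  ring

lemma pm_succ_le {m : ℕ} (hm : 0 < m) (n : ℕ) : pm (m + 1) (2 * n) ≤ pm m (2 * n) := by
  have hm0 : (0 : ℝ) < m := by exact_mod_cast hm
  have hc := continuous_DD (d := m)
  have h1 : ∀ j : Fin (m + 1), ∫ k, DD (Fin.removeNth j k) ^ (2 * n) ∂(mu (m + 1)) =
      pm m (2 * n) := by
    intro j
    rw [integral_split j (by unfold Fin.removeNth; fun_prop)]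
    simp [pm]
  have h2 : ∀ k : Fin (m + 1) → ℝ, DD k ^ (2 * n) ≤
      ∑ j : Fin (m + 1), (1 / (m + 1) : ℝ) * DD (Fin.removeNth j k) ^ (2 * n) := by
    intro k
    have := (Even.convexOn_pow (𝕜 := ℝ) (even_two_mul n)).map_sum_le (t := univ)
      (w := fun _ : Fin (m + 1) => (1 / (m + 1) : ℝ)) (p := fun j => DD (Fin.removeNth j k))
      (fun _ _ => by positivity) (by simp; field_simp) (fun _ _ => Set.mem_univ _)
    simp only [smul_eq_mul] at this
    refine le_trans (le_of_eq ?_) this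
    congr 1
    have e : ∀ j : Fin (m + 1), cs (Fin.removeNth j k) = cs k - cos (2 * π * k j) := by
      intro j
      have := cs_insert j (k j) (Fin.removeNth j k)
      rw [Fin.insertNth_self_removeNth] at this
      linarith
    simp only [DD_eq hm, DD_eq m.succ_pos, e, ← mul_sum, ← sum_div, sum_sub_distrib, sum_const,
      card_univ, Fintype.card_fin, nsmul_eq_mul]
    change _ = _ * ((_ - cs k) / _)
    push_cast
    field_simp
    ring
  have hi : ∀ j : Fin (m + 1), Integrable
      (fun k => (1 / (m + 1) : ℝ) * DD (Fin.removeNth j k) ^ (2 * n)) (mu (m + 1)) :=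
    fun j => integrable_mu (by unfold Fin.removeNth; fun_prop)
  refine (integral_mono (integrable_mu (continuous_DD.pow _)) (integrable_finsetSum _
    fun j _ => hi j) h2).trans (le_of_eq ?_)
  rw [integral_finsetSum _ fun j _ => hi j]
  simp only [integral_const_mul, h1, sum_const, card_univ, Fintype.card_fin, nsmul_eq_mul]
  push_cast
  field_simp

lemma pm_le_five (hd : 5 ≤ d) (n : ℕ) : pm d (2 * n) ≤ pm 5 (2 * n) := by
  induction d, hd using Nat.le_induction with
  | base => exact le_rfl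
  | succ m hm ih => exact (pm_succ_le (by omega) n).trans ih

lemma ae_DD (hd : 0 < d) : ∀ᵐ k : Fin d → ℝ ∂(mu d), 0 < YY k ∧ YY k < 2 := by
  have hd0 : (0 : ℝ) < d := by exact_mod_cast hd
  have h2 : ∀ᵐ t ∂nu, t ≠ 1 / 2 ∧ t ≠ -1 / 2 := by
    rw [nu]; refine ae_restrict_of_ae (Eventually.and ?_ ?_) <;> simp [ae_iff]
  have := (Measure.tendsto_eval_ae_ae (μ := fun _ : Fin d => nu) (i := ⟨0, hd⟩)).eventually
    (ae_nu.and h2)
  filter_upwards [this] with k hk
  obtain ⟨⟨h1, h0⟩, h3, h4⟩ := hk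
  set t := k ⟨0, hd⟩
  constructor
  · refine div_pos (sum_pos' (fun j _ => yy_nonneg _) ⟨⟨0, hd⟩, mem_univ _, ?_⟩) hd0
    exact lt_of_lt_of_le (by positivity) (yy_lower h1)
  · rw [YY, div_lt_iff₀ hd0]
    have h5 : yy t < 2 := by
      have a1 := abs_le.1 h1
      have a2 : t < 1 / 2 := lt_of_le_of_ne a1.2 h3
      have a3 : -1 / 2 < t := lt_of_le_of_ne (by linarith [a1.1]) h4.symm
      have a4 : 0 < cos (π * t) := cos_pos_of_mem_Ioo ⟨by nlinarith [pi_pos], by nlinarith [pi_pos]⟩
      have a5 := cos_two_mul (π * t)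
      rw [yy, mul_assoc, a5]
      nlinarith
    calc _ < ∑ _j : Fin d, (2 : ℝ) :=
          sum_lt_sum (f := fun j => yy (k j)) (fun j _ => yy_le _) ⟨⟨0, hd⟩, mem_univ _, h5⟩
      _ = _ := by simp; ring

lemma series_int {F : (Fin d → ℝ) → ℝ} {T : ℕ → (Fin d → ℝ) → ℝ} {B : ℝ}
    (hT : ∀ n, Continuous (T n)) (h0 : ∀ n k, 0 ≤ T n k)
    (hs : ∀ K, ∑ n ∈ range K, ∫ k, T n k ∂(mu d) ≤ B)
    (h : ∀ᵐ k ∂(mu d), HasSum (fun n => T n k) (F k)) :
    Integrable F (mu d) ∧ ∫ k, F k ∂(mu d) ≤ B := by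
  have hi : ∀ n, Integrable (T n) (mu d) := fun n => integrable_mu (hT n)
  have hn : ∀ n, 0 ≤ ∫ k, T n k ∂(mu d) := fun n => integral_nonneg (h0 n)
  have hsum := summable_of_sum_range_le hn hs
  have e : ∀ n, (fun k => ‖T n k‖) = T n := fun n => funext fun k => Real.norm_of_nonneg (h0 n k)
  constructor
  · refine ⟨aestronglyMeasurable_of_tendsto_ae atTop (f := fun K k => ∑ n ∈ range K, T n k)
      (fun K => (continuous_finsetSum _ fun n _ => hT n).aestronglyMeasurable)
      (h.mono fun k hk => hk.tendsto_sum_nat), ?_⟩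
    have h1 : ∫⁻ k, ‖F k‖ₑ ∂(mu d) = ∫⁻ k, ∑' n, ENNReal.ofReal (T n k) ∂(mu d) := by
      refine lintegral_congr_ae (h.mono fun k hk => ?_)
      beta_reduce
      rw [← ENNReal.ofReal_tsum_of_nonneg (fun n => h0 n k) hk.summable, hk.tsum_eq,
        Real.enorm_eq_ofReal (hk.nonneg fun n => h0 n k)]
    rw [HasFiniteIntegral, h1, lintegral_tsum fun n => (hT n).measurable.ennreal_ofReal.aemeasurable]
    simp_rw [← ofReal_integral_eq_lintegral_ofReal (hi _) (Eventually.of_forall (h0 _))]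
    rw [← ENNReal.ofReal_tsum_of_nonneg hn hsum]
    exact ENNReal.ofReal_lt_top
  · have h1 := hasSum_integral_of_summable_integral_norm hi (by simp only [e]; exact hsum)
    rw [integral_congr_ae (h.mono fun k hk => hk.tsum_eq)] at h1
    rw [← h1.tsum_eq]
    exact Real.tsum_le_of_sum_range_le hn hs

lemma tele {u v w P : ℕ → ℝ} {B : ℝ} (hu : ∀ m, 0 ≤ u m * P m) (h0 : w 0 = u 0)
    (h1 : ∀ m, w (m + 1) = u (m + 1) + v m) (hB : ∀ K, ∑ m ∈ range K, w m * P m ≤ B) (K : ℕ) :
    ∑ m ∈ range K, (u m * P m + v m * P (m + 1)) ≤ B := by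
  have : ∑ m ∈ range K, (u m * P m + v m * P (m + 1)) + u K * P K =
      ∑ m ∈ range (K + 1), w m * P m := by
    induction K with
    | zero => simp [h0]
    | succ K ih => rw [sum_range_succ, sum_range_succ _ (K + 1), ← ih, h1]; ring
  linarith [hu K, hB (K + 1)]

/-- bounds on random walk integrals -/
structure Ints (d : ℕ) (J1 J2 J : ℝ) : Prop where
  i1 : Integrable (fun k : Fin d → ℝ => DD k ^ 2 / YY k) (mu d) ∧
    ∫ k : Fin d → ℝ, DD k ^ 2 / YY k ∂(mu d) ≤ J1
  i2 : Integrable (fun k : Fin d → ℝ => DD k ^ 4 / YY k) (mu d) ∧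
    ∫ k : Fin d → ℝ, DD k ^ 4 / YY k ∂(mu d) ≤ J2
  i3 : Integrable (fun k : Fin d → ℝ => DD k ^ 2 / YY k ^ 2) (mu d) ∧
    ∫ k : Fin d → ℝ, DD k ^ 2 / YY k ^ 2 ∂(mu d) ≤ J
  i4 : Integrable (fun k : Fin d → ℝ => VV k / YY k ^ 2) (mu d) ∧
    ∫ k : Fin d → ℝ, VV k / YY k ^ 2 ∂(mu d) ≤ J1
  i5 : Integrable (fun k : Fin d → ℝ => VV k / YY k ^ 3) (mu d) ∧
    ∫ k : Fin d → ℝ, VV k / YY k ^ 3 ∂(mu d) ≤ (J1 + J) / 2

lemma integral_poly {w : (Fin d → ℝ) → ℝ} (hw : Continuous w) (a b c e : ℝ) (n : ℕ) :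
    ∫ k : Fin d → ℝ, w k * DD k ^ n * (a + b * DD k + c * DD k ^ 2 + e * DD k ^ 3) ∂(mu d) =
      a * ∫ k, w k * DD k ^ n ∂(mu d) + b * ∫ k, w k * DD k ^ (n + 1) ∂(mu d) +
      c * ∫ k, w k * DD k ^ (n + 2) ∂(mu d) + e * ∫ k, w k * DD k ^ (n + 3) ∂(mu d) := by
  have := continuous_DD (d := d)
  simp only [← integral_const_mul]
  rw [← integral_add (integrable_mu (by fun_prop)) (integrable_mu (by fun_prop)),
    ← integral_add (integrable_mu (by fun_prop)) (integrable_mu (by fun_prop)),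
    ← integral_add (integrable_mu (by fun_prop)) (integrable_mu (by fun_prop))]
  congr 1; funext k; ring

theorem ints_of (hd : 0 < d) {J1 J2 J : ℝ} (h1 : ∀ K, ∑ m ∈ range K, pm d (2 * (m + 1)) ≤ J1)
    (h2 : ∀ K, ∑ m ∈ range K, pm d (2 * (m + 2)) ≤ J2)
    (h3 : ∀ K, ∑ m ∈ range K, (2 * m + 1) * pm d (2 * (m + 1)) ≤ J) : Ints d J1 J2 J := by
  have hD := continuous_DD (d := d)
  have hV := continuous_VV (d := d)
  have hp : ∀ k : Fin d → ℝ, 0 ≤ 1 + DD k := fun k => by linarith [YY_le hd k, DD.eq_1 k]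
  have geo : ∀ r : ℕ, ∀ᵐ k : Fin d → ℝ ∂(mu d), YY k ≠ 0 ∧ ∀ w : ℝ,
      HasSum (fun m : ℕ => ((m + r).choose r : ℝ) * (w * DD k ^ (2 * m) * (1 + DD k) ^ (r + 1)))
        (w / YY k ^ (r + 1)) := by
    intro r
    filter_upwards [ae_DD hd] with k hk
    refine ⟨hk.1.ne', fun w => ?_⟩
    have a1 : ‖DD k ^ 2‖ < 1 := by
      rw [Real.norm_of_nonneg (sq_nonneg _), DD]; nlinarith [hk.1, hk.2]
    have a2 := (hasSum_choose_mul_geometric_of_norm_lt_one r a1).mul_left (w * (1 + DD k) ^ (r + 1))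
    have a3 : 1 + DD k ≠ 0 := by rw [DD]; linarith [hk.2]
    have a4 : 1 - DD k ^ 2 = YY k * (1 + DD k) := by rw [DD]; ring
    rw [a4, mul_pow] at a2
    have a5 := hk.1.ne'
    have a6 : w / YY k ^ (r + 1) =
        w * (1 + DD k) ^ (r + 1) * (1 / (YY k ^ (r + 1) * (1 + DD k) ^ (r + 1))) := by field_simp
    rw [a6]
    exact hasSum_cg a2 fun m => by rw [pow_mul]; ring
  have odd : ∀ m, pm d (2 * m + 1) = 0 := fun m => pm_odd hd ⟨m, rfl⟩
  have E : ∀ (e m : ℕ), ∫ k : Fin d → ℝ, DD k ^ e * DD k ^ m ∂(mu d) = pm d (m + e) := by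
    intro e m; simp only [← pow_add, pm, add_comm]
  have hP : ∀ m, 0 ≤ pm d (2 * (m + 1)) := fun m => pm_even _
  refine ⟨?_, ?_, ?_, ?_, ?_⟩
  · refine series_int (T := fun m k => DD k ^ 2 * DD k ^ (2 * m) *
      (1 + 1 * DD k + 0 * DD k ^ 2 + 0 * DD k ^ 3)) (fun n => by fun_prop)
      (fun n k => by have := hp k; simp only [pow_mul]; simp; positivity) (fun K => ?_)
      ((geo 0).mono fun k hk => by simpa using hk.2 (DD k ^ 2))
    refine le_trans (le_of_eq (sum_congr rfl fun m _ => ?_)) (h1 K)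
    rw [integral_poly (by fun_prop), E, E, show 2 * m + 1 + 2 = 2 * (m + 1) + 1 by ring, odd]
    simp; rfl
  · refine series_int (T := fun m k => DD k ^ 4 * DD k ^ (2 * m) *
      (1 + 1 * DD k + 0 * DD k ^ 2 + 0 * DD k ^ 3)) (fun n => by fun_prop)
      (fun n k => by have := hp k; simp only [pow_mul]; simp; positivity) (fun K => ?_)
      ((geo 0).mono fun k hk => by simpa using hk.2 (DD k ^ 4))
    refine le_trans (le_of_eq (sum_congr rfl fun m _ => ?_)) (h2 K)
    rw [integral_poly (by fun_prop), E, E, show 2 * m + 1 + 4 = 2 * (m + 2) + 1 by ring, odd]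
    simp; rfl
  · refine series_int (T := fun m k => ((m : ℝ) + 1) * (DD k ^ 2 * DD k ^ (2 * m) *
      (1 + 2 * DD k + 1 * DD k ^ 2 + 0 * DD k ^ 3))) (fun n => by fun_prop)
      (fun n k => ?_) (fun K => ?_)
      ((geo 1).mono fun k hk => hasSum_cg (hk.2 (DD k ^ 2)) fun m => by simp; left; left; ring)
    · rw [show 1 + 2 * DD k + 1 * DD k ^ 2 + 0 * DD k ^ 3 = (1 + DD k) ^ 2 by ring, pow_mul]
      positivity
    refine le_trans (le_of_eq (sum_congr rfl fun m _ => ?_))
      (tele (u := fun m => m + 1) (v := fun m => m + 1) (P := fun m => pm d (2 * (m + 1)))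
        (fun m => mul_nonneg (by positivity) (hP m)) (by simp) (fun m => by push_cast; ring) h3 K)
    rw [integral_const_mul, integral_poly (by fun_prop), E, E, E,
      show 2 * m + 1 + 2 = 2 * (m + 1) + 1 by ring, odd]
    ring_nf
  · refine series_int (T := fun m k => ((m : ℝ) + 1) * (VV k * DD k ^ (2 * m) *
      (1 + 2 * DD k + 1 * DD k ^ 2 + 0 * DD k ^ 3))) (fun n => by fun_prop)
      (fun n k => ?_) (fun K => ?_)
      ((geo 1).mono fun k hk => hasSum_cg (hk.2 (VV k)) fun m => by simp; left; left; ring)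
    · rw [show 1 + 2 * DD k + 1 * DD k ^ 2 + 0 * DD k ^ 3 = (1 + DD k) ^ 2 by ring, pow_mul]
      have := VV_nonneg k
      positivity
    refine le_trans (le_of_eq (sum_congr rfl fun m _ => ?_))
      (tele (u := fun m => (m + 1) / (2 * m + 1)) (v := fun m => (m + 1) / (2 * m + 3))
        (w := fun _ => 1) (P := fun m => pm d (2 * (m + 1)))
        (fun m => mul_nonneg (by positivity) (hP m)) (by simp)
        (fun m => by push_cast; field_simp; ring) (by simpa using h1) K)
    rw [integral_const_mul, integral_poly (by fun_prop), integral_VD hd, integral_VD hd,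
      integral_VD hd, show 2 * m + 1 + 2 = 2 * (m + 1) + 1 by ring, odd]
    push_cast
    ring_nf
  · refine series_int (T := fun m k => (((m : ℝ) + 2) * (m + 1) / 2) * (VV k * DD k ^ (2 * m) *
      (1 + 3 * DD k + 3 * DD k ^ 2 + 1 * DD k ^ 3))) (fun n => by fun_prop)
      (fun n k => ?_) (fun K => ?_)
      ((geo 2).mono fun k hk => hasSum_cg (hk.2 (VV k)) fun m => ?_)
    · rw [show 1 + 3 * DD k + 3 * DD k ^ 2 + 1 * DD k ^ 3 = (1 + DD k) ^ 3 by ring, pow_mul]
      have := VV_nonneg k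
      have := hp k
      positivity
    · refine le_trans (le_of_eq (sum_congr rfl fun m _ => ?_))
        (tele (u := fun m => ((m : ℝ) + 2) * (m + 1) / 2 / (2 * m + 1))
          (v := fun m => 3 * (((m : ℝ) + 2) * (m + 1) / 2) / (2 * m + 3))
          (w := fun m => m + 1) (P := fun m => pm d (2 * (m + 1)))
          (fun m => mul_nonneg (by positivity) (hP m)) (by simp)
          (fun m => by push_cast; field_simp; ring) (fun K => ?_) K)
      · rw [integral_const_mul, integral_poly (by fun_prop), integral_VD hd, integral_VD hd,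
          integral_VD hd, integral_VD hd, show 2 * m + 1 + 2 = 2 * (m + 1) + 1 by ring, odd,
          show 2 * (m + 1) + 1 + 2 = 2 * (m + 2) + 1 by ring, odd]
        push_cast
        ring_nf
      · have := add_le_add (h1 K) (h3 K)
        rw [← sum_add_distrib] at this
        rw [le_div_iff₀ (by norm_num), sum_mul]
        exact le_trans (le_of_eq (sum_congr rfl fun m _ => by ring)) this
    · rw [Nat.cast_choose_two]; push_cast; ring

end Pool.Agent.P.MP_2ab770_pr
end

-- part Pool.Agent.P.MP_2ab770_pr.IR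
section

set_option autoImplicit false
set_option linter.dupNamespace false
set_option linter.unusedVariables false
set_option linter.unusedSectionVars false

namespace Pool.Agent.P.MP_2ab770_pr

open Finset Filter Topology MeasureTheory Real

variable {d : ℕ}

/-- nonnegative symmetric functions with two moments -/
structure Nc (f : X d → ℝ) : Prop where
  n0 : ∀ x, 0 ≤ f x
  s : Summable f
  q : Summable fun x => (nsq x : ℝ) * f x
  y : Sy f

lemma FT_Dj {f : X d → ℝ} (q : Summable fun x => (nsq x : ℝ) * f x) (y : ∀ x, f (-x) = f x)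
    (j : Fin d) (k : Fin d → ℝ) : FT (Dj j f) k = ST (Dj j f) k * Complex.I :=
  FT_odd (summ_Dj q j) (fun x => by simp [Dj, y]) k

lemma CT_zero (f : X d → ℝ) : CT f 0 = ∑' x, f x := by simp [CT, th]

lemma YY_zero : YY (0 : Fin d → ℝ) = 0 := by simp [YY, yy]

lemma engel {ι : Type} (s : Finset ι) {A B : ι → ℝ} {a b p q : ℝ} (ha : 0 ≤ a) (hb : 0 ≤ b)
    (hp : 0 ≤ p) (hq : 0 ≤ q) (hA : ∑ i ∈ s, A i ^ 2 ≤ a * p) (hB : ∑ i ∈ s, B i ^ 2 ≤ b * q) :
    ∑ i ∈ s, (A i + B i) ^ 2 ≤ (a + b) * (p + q) := by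
  have h1 := sum_mul_sq_le_sq_mul_sq s A B
  have h2 : (∑ i ∈ s, A i ^ 2) * ∑ i ∈ s, B i ^ 2 ≤ (a * p) * (b * q) :=
    mul_le_mul hA hB (sum_nonneg fun _ _ => sq_nonneg _) (by positivity)
  have h3 : ∑ i ∈ s, A i * B i ≤ (a * q + b * p) / 2 :=
    le_trans (le_abs_self _) (abs_le_of_sq_le_sq (by nlinarith [sq_nonneg (a * q - b * p)])
      (by positivity))
  have h4 : ∑ i ∈ s, (A i + B i) ^ 2 =
      ∑ i ∈ s, A i ^ 2 + 2 * ∑ i ∈ s, A i * B i + ∑ i ∈ s, B i ^ 2 := by
    rw [mul_sum, ← sum_add_distrib, ← sum_add_distrib]; exact sum_congr rfl fun i _ => by ring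
  nlinarith

/-- certificate for nonnegativity of a quadratic on the interval from zero to two -/
def quad {R : Type} [Field R] [LinearOrder R] (a b c : R) : Prop :=
  0 ≤ c ∧ 0 ≤ 4 * a + 2 * b + c ∧ (a ≤ 0 ∨ 0 ≤ b ∨ b + 4 * a ≤ 0 ∨ b ^ 2 ≤ 4 * a * c)

lemma quad.le {a b c y : ℝ} (h : quad a b c) (h0 : 0 ≤ y) (h2 : y ≤ 2) :
    0 ≤ a * y ^ 2 + b * y + c := by
  obtain ⟨h3, h4, h5⟩ := h
  have e := mul_nonneg h0 (sub_nonneg.2 h2)
  rcases le_or_gt a 0 with ha | ha
  · nlinarith [mul_nonneg h0 h4, mul_nonneg (sub_nonneg.2 h2) h3]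
  rcases h5 with h | h | h | h
  · linarith
  · positivity
  · nlinarith [mul_nonneg (sub_nonneg.2 h2) (sub_nonneg.2 h2)]
  · nlinarith [sq_nonneg (2 * a * y + b)]

/-- pointwise majorant certificate -/
def Maj {R : Type} [Field R] [LinearOrder R] (K lam e c io al g h h0 : R) : Prop :=
  quad al (-K * c) (K * (c - e) + h0) ∧
    quad (al - g * io) (2 * g * io - h * io + 2 * K * lam * io - K * c)
      (2 * h * io - 4 * K * lam * io + K * (c - e) + h0)

lemma Maj.le {K lam e cl ch c io al g h h0 y t : ℝ} (h1 : Maj K lam e cl io al g h h0)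
    (h2 : Maj K lam e ch io al g h h0) (hl : cl ≤ c) (hh : c ≤ ch) (y0 : 0 ≤ y) (y2 : y ≤ 2)
    (t0 : 0 ≤ t) (t1 : t ≤ (2 - y) * io) :
    K * (2 * lam * t + e - c * (1 - y)) ≤ al * y ^ 2 + g * y * t + h * t + h0 := by
  have a1 := h1.1.le y0 y2
  have a2 := h1.2.le y0 y2
  have a3 := h2.1.le y0 y2
  have a4 := h2.2.le y0 y2
  rcases le_total 0 (g * y + h - 2 * K * lam) with u | u <;>
    rcases le_total 0 (K * (1 - y)) with v | v
  · nlinarith [mul_nonneg u t0, mul_nonneg v (sub_nonneg.2 hl)]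
  · nlinarith [mul_nonneg u t0, mul_nonneg (neg_nonneg.2 v) (sub_nonneg.2 hh)]
  · nlinarith [mul_nonneg (neg_nonneg.2 u) (sub_nonneg.2 t1), mul_nonneg v (sub_nonneg.2 hl)]
  · nlinarith [mul_nonneg (neg_nonneg.2 u) (sub_nonneg.2 t1),
      mul_nonneg (neg_nonneg.2 v) (sub_nonneg.2 hh)]

lemma Ints.poly {J1 J2 J : ℝ} (H : Ints d J1 J2 J) (hd : 0 < d) {a b c e : ℝ} (hc : 0 ≤ c)
    (he : 0 ≤ e) {m : (Fin d → ℝ) → ℝ}
    (hm : ∀ k, YY k ≠ 0 → m k = a + b * DD k + c * (DD k ^ 2 / YY k) + e * (DD k ^ 2 / YY k ^ 2)) :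
    Integrable m (mu d) ∧ ∫ k, m k ∂(mu d) ≤ a + c * J1 + e * J := by
  have h1 : m =ᵐ[mu d] _ := (ae_DD hd).mono fun k hk => hm k hk.1.ne'
  have i0 := (integrable_mu (continuous_DD (d := d))).const_mul b
  have i1 := (integrable_const a).fun_add i0
  have i2 := i1.fun_add (H.i1.1.const_mul c)
  refine ⟨(i2.fun_add (H.i3.1.const_mul e)).congr h1.symm, ?_⟩
  have h2 : ∫ k : Fin d → ℝ, DD k ∂(mu d) = 0 := by simpa [pm] using pm_odd hd odd_one
  rw [integral_congr_ae h1, integral_add i2 (H.i3.1.const_mul e),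
    integral_add i1 (H.i1.1.const_mul c), integral_add (integrable_const a) i0]
  simp only [integral_const_mul, h2, integral_const, probReal_univ, smul_eq_mul]
  nlinarith [mul_le_mul_of_nonneg_left H.i1.2 hc, mul_le_mul_of_nonneg_left H.i3.2 he]

lemma Ints.w2 {J1 J2 J : ℝ} (H : Ints d J1 J2 J) (hd : 0 < d) :
    Integrable (fun k : Fin d → ℝ => 1 / YY k ^ 2) (mu d) ∧
      ∫ k : Fin d → ℝ, 1 / YY k ^ 2 ∂(mu d) ≤ 1 + 2 * J1 + 1 * J :=
  H.poly hd (b := 2) (by norm_num) (by norm_num) fun k hk => by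
    rw [DD]; field_simp; ring

/-- the renewal equation with a dominant nearest neighbour part -/
structure RP (ζ : ℝ) (G Pp Pm : X d → ℝ) : Prop where
  hd : 0 < d
  z0 : 0 ≤ ζ
  g : Nc G
  p : Nc Pp
  m : Nc Pm
  id : G = fun x => dl 0 x + rc (fun y => ζ * nn y + Pp y - Pm y) G x

namespace RP
variable {ζ : ℝ} {G Pp Pm : X d → ℝ} (R : RP ζ G Pp Pm)
include R

lemma fourier (k : Fin d → ℝ) :
    CT G k * (1 - 2 * d * ζ * DD k - CT Pp k + CT Pm k) = 1 ∧
    FT (fun x => nsq x * G x - rc (fun x => nsq x * Pp x) (rc G G) x +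
      rc (fun x => nsq x * Pm x) (rc G G) x) k = ((2 * d * ζ * DD k * CT G k ^ 2 -
        2 * (∑ j, (2 * ζ * sin (2 * π * k j) - ST (Dj j Pm) k + ST (Dj j Pp) k) ^ 2) *
          CT G k ^ 3 : ℝ) : ℂ) := by
  have lin : ∀ {a b c : X d → ℝ}, Summable a → Summable b → Summable c →
      Summable (fun y => ζ * a y + b y - c y) ∧
      FT (fun y => ζ * a y + b y - c y) k = ζ * FT a k + FT b k - FT c k := fun ha hb hc =>
    ⟨((ha.mul_left ζ).add hb).sub hc, by
      rw [FT_sub ((ha.mul_left ζ).add hb) hc, FT_add (ha.mul_left ζ) hb, FT_mul]⟩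
  have qn : Summable fun x : X d => (nsq x : ℝ) * nn x := by rw [nsq_nn]; exact summ_nn
  have e2 : (fun y => (nsq y : ℝ) * (ζ * nn y + Pp y - Pm y)) =
      fun y => ζ * nn y + nsq y * Pp y - nsq y * Pm y := funext fun y => by
    have := congrFun (nsq_nn (d := d)) y
    linear_combination ζ * this
  have e1 : ∀ j, Dj j (fun y => ζ * nn y + Pp y - Pm y) =
      fun y => ζ * Dj j nn y + Dj j Pp y - Dj j Pm y := fun j => funext fun y => by
    simp only [Dj]; ring
  obtain ⟨h1, h2⟩ := FT_second R.g.s (lin summ_nn R.p.s R.m.s).1 R.g.q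
    (e2 ▸ (lin summ_nn R.p.q R.m.q).1) R.id k
  rw [(lin summ_nn R.p.s R.m.s).2, FT_nn R.hd, FT_even R.g.s R.g.y.neg, FT_even R.p.s R.p.y.neg,
    FT_even R.m.s R.m.y.neg] at h1
  have sG := rc_summ R.g.s R.g.s
  constructor
  · have : ((CT G k * (1 - 2 * d * ζ * DD k - CT Pp k + CT Pm k) : ℝ) : ℂ) = (1 : ℝ) := by
      push_cast at h1 ⊢; linear_combination h1
    exact_mod_cast this
  · rw [FT_add (R.g.q.sub (rc_summ R.p.q sG)) (rc_summ R.m.q sG), FT_sub R.g.q (rc_summ R.p.q sG),
      h2, e2, (lin summ_nn R.p.q R.m.q).2, FT_rc R.p.q sG, FT_rc R.m.q sG, FT_rc R.g.s R.g.s,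
      FT_nn R.hd, FT_even R.g.s R.g.y.neg]
    have e3 : ∀ j, FT (Dj j fun y => ζ * nn y + Pp y - Pm y) k ^ 2 =
        -((2 * ζ * sin (2 * π * k j) - ST (Dj j Pm) k + ST (Dj j Pp) k : ℝ) : ℂ) ^ 2 := fun j => by
      rw [e1, (lin (summ_Dj qn j) (summ_Dj R.p.q j) (summ_Dj R.m.q j)).2, FT_Dj qn nn_neg,
        FT_Dj R.p.q R.p.y.neg, FT_Dj R.m.q R.m.y.neg, ST_nn]
      simp only [Complex.ofReal_add, Complex.ofReal_sub, Complex.ofReal_mul, Complex.ofReal_ofNat]
      linear_combination (2 * ζ * (sin (2 * π * k j) : ℝ) - ST (Dj j Pm) k + ST (Dj j Pp) k : ℂ) ^ 2 *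
        Complex.I_sq
    simp only [e3, sum_neg_distrib]
    simp only [Complex.ofReal_sub, Complex.ofReal_mul, Complex.ofReal_ofNat, Complex.ofReal_pow,
      Complex.ofReal_sum, Complex.ofReal_natCast]
    ring

lemma F0 : 0 < 1 - 2 * d * ζ - ∑' x, Pp x + ∑' x, Pm x := by
  have h := (R.fourier 0).1
  rw [CT_zero, CT_zero, CT_zero, DD, YY_zero, sub_zero, mul_one] at h
  exact pos_of_mul_pos_left (by rw [mul_comm, h]; exact one_pos) (tsum_nonneg R.g.n0)

variable {sm pq r κ : ℝ} (hsm : ∑' x, (nsq x : ℝ) * Pm x ≤ sm) (hpq : ∑' x, Pp x ≤ pq)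
  (hr : r ≤ ∑' x, Pm x) (hκ : κ + sm ≤ 2 * d * ζ ∨ 2 * (κ + sm) + pq ≤ 1 + 2 * d * ζ + r)
include hsm hpq hr hκ

lemma lower (k : Fin d → ℝ) : κ * YY k + (∑' x, Pp x - CT Pp k) ≤
    1 - 2 * d * ζ * DD k - CT Pp k + CT Pm k := by
  have h1 := R.F0
  have h2 := (R_le R.m.s R.m.q R.m.n0 R.m.y k).trans
    (mul_le_mul_of_nonneg_right hsm (YY_nonneg k))
  have h3 := YY_nonneg k
  have h4 := YY_le R.hd k
  rw [DD]
  rcases le_total (κ + sm) (2 * d * ζ) with h | h
  · nlinarith [mul_nonneg h3 (sub_nonneg.2 h)]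
  · rcases hκ with h' | h'
    · nlinarith [mul_nonneg h3 (sub_nonneg.2 h')]
    · nlinarith [mul_nonneg (sub_nonneg.2 h4) (sub_nonneg.2 h)]

variable {K : ℝ} (hK : 1 ≤ κ * K) (hK0 : 0 ≤ K)
include hK hK0

lemma infrared (k : Fin d → ℝ) : 0 < CT G k ∧ YY k * CT G k ≤ K := by
  have h1 := R.lower hsm hpq hr hκ k
  have h2 := (R.fourier k).1
  have h3 := R_nonneg R.p.s R.p.n0 k
  have h4 : 0 < κ := pos_of_mul_pos_left (one_pos.trans_le hK) hK0
  have h5 := mul_nonneg h4.le (YY_nonneg k)
  have h6 : 0 < CT G k := pos_of_mul_pos_left (h2 ▸ one_pos) (by linarith)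
  refine ⟨h6, le_of_mul_le_mul_left (le_trans ?_ hK) h4⟩
  nlinarith

theorem W_le {J1 J2 J sp GG0 GG1 lam cl ch io al g h h0 : ℝ} (H : Ints d J1 J2 J)
    (hsp : ∑' x, (nsq x : ℝ) * Pp x ≤ sp) (b0 : ∀ y, rc G G y ≤ GG0)
    (b1 : ∀ y, y ≠ 0 → rc G G y ≤ GG1) (g0 : 0 ≤ GG0) (g1 : 0 ≤ GG1)
    (hlam : K * (2 * d * ζ + sm) ^ 2 ≤ lam)
    (hl : cl ≤ 2 * d * ζ) (hh : 2 * d * ζ ≤ ch) (hio : 1 / (d : ℝ) ≤ io)
    (m1 : Maj (K * K) lam (4 * sp * io) cl io al g h h0)
    (m2 : Maj (K * K) lam (4 * sp * io) ch io al g h h0)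
    (c1 : 0 ≤ al) (c2 : 0 ≤ g) (c3 : 0 ≤ h) (c4 : 0 ≤ h0) (x : X d) (hx : x ≠ 0) :
    nsq x * G x ≤ sp * GG0 + sm * GG1 + al + 2 * g * J1 + h * (J1 + J) +
      2 * h0 * (1 + 2 * J1 + J) := by
  have hd0 : (0 : ℝ) < d := by exact_mod_cast R.hd
  have sG := rc_summ R.g.s R.g.s
  have nG : ∀ y, 0 ≤ rc G G y := fun y => tsum_nonneg fun v => mul_nonneg (R.g.n0 _) (R.g.n0 _)
  have np : ∀ y, 0 ≤ (nsq y : ℝ) * Pp y := fun y => mul_nonneg (Nat.cast_nonneg _) (R.p.n0 y)
  have nm : ∀ y, 0 ≤ (nsq y : ℝ) * Pm y := fun y => mul_nonneg (Nat.cast_nonneg _) (R.m.n0 y)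
  have sp0 : 0 ≤ ∑' y, (nsq y : ℝ) * Pp y := tsum_nonneg np
  have sm0 : 0 ≤ ∑' y, (nsq y : ℝ) * Pm y := tsum_nonneg nm
  obtain ⟨hi, hu⟩ := real_inv ((R.g.q.sub (rc_summ R.p.q sG)).add (rc_summ R.m.q sG))
    fun k => (R.fourier k).2
  obtain ⟨-, h1⟩ := real_inv (summ_dl (0 : X d)) (ψ := fun _ => 1) fun k => by
    rw [FT_dl, chr_zero]; simp
  replace h1 := h1 x
  have h2 := hu 0
  replace hu := hu x
  simp only [th_zero, cos_zero, mul_one, nsq_zero, Nat.cast_zero, zero_mul, one_mul, dl,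
    if_neg hx] at h1 h2
  have a1 : rc (fun x => nsq x * Pp x) (rc G G) x ≤ sp * GG0 := by
    refine le_trans ((rc_pt R.p.q sG x).tsum_le_tsum
      (fun y => mul_le_mul_of_nonneg_left (b0 _) (np y)) (R.p.q.mul_right GG0)) ?_
    rw [tsum_mul_right]; gcongr
  have a2 : rc (fun x => nsq x * Pm x) (rc G G) 0 ≤ sm * GG1 := by
    refine le_trans ((rc_pt R.m.q sG 0).tsum_le_tsum (fun y => ?_) (R.m.q.mul_right GG1)) ?_
    · by_cases hy : y = 0
      · simp [hy, nsq_zero]
      · exact mul_le_mul_of_nonneg_left (b1 _ (by simpa using hy)) (nm y)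
    · rw [tsum_mul_right]; gcongr
  have a3 : 0 ≤ rc (fun x => nsq x * Pm x) (rc G G) x :=
    tsum_nonneg fun y => mul_nonneg (nm y) (nG _)
  have a4 : 0 ≤ rc (fun x => nsq x * Pp x) (rc G G) 0 :=
    tsum_nonneg fun y => mul_nonneg (np y) (nG _)
  set ψ : (Fin d → ℝ) → ℝ := fun k => 2 * d * ζ * DD k * CT G k ^ 2 -
    2 * (∑ j, (2 * ζ * sin (2 * π * k j) - ST (Dj j Pm) k + ST (Dj j Pp) k) ^ 2) * CT G k ^ 3
  have key : ∀ k, 0 < YY k →
      -(ψ k + al) ≤ g * (VV k / YY k ^ 2) + h * (VV k / YY k ^ 3) + h0 * (1 / YY k ^ 2) := by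
    intro k hY
    obtain ⟨p1, p2⟩ := R.infrared hsm hpq hr hκ hK hK0 k
    have p3 := R.lower hsm hpq hr hκ k
    have p4 := (R.fourier k).1
    have p5 := R_nonneg R.p.s R.p.n0 k
    have hκ0 : 0 < κ := pos_of_mul_pos_left (one_pos.trans_le hK) hK0
    have hV := VV_nonneg k
    set t := VV k / YY k with ht
    have ht0 : 0 ≤ t := by positivity
    have htV : VV k = t * YY k := by rw [ht]; field_simp
    have ht1 : t ≤ (2 - YY k) * io := by
      have := YY_le R.hd k
      rw [ht, div_le_iff₀ hY]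
      refine (VV_le R.hd k).trans ?_
      calc _ = (2 - YY k) * (1 / d) * YY k := by ring
        _ ≤ _ := by gcongr
    have z0 := R.z0
    have q1 : ∑ j, (2 * ζ * sin (2 * π * k j) - ST (Dj j Pm) k) ^ 2 ≤ lam * t * (κ * YY k) := by
      calc _ ≤ ∑ j, (sin (2 * π * k j) * ((2 * d * ζ + sm) / d)) ^ 2 := by
            refine sum_le_sum fun j _ => sq_le_sq.2 ((abs_sub _ _).trans ?_)
            have := (S_le R.m.q R.m.n0 R.m.y k j).trans (mul_le_mul_of_nonneg_left
              (div_le_div_of_nonneg_right hsm hd0.le) (abs_nonneg _))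
            have s0 : 0 ≤ sm := sm0.trans hsm
            rw [abs_mul, abs_mul (sin _), abs_of_nonneg (by positivity : 0 ≤ 2 * ζ),
              abs_of_nonneg (by positivity : 0 ≤ (2 * d * ζ + sm) / d), add_div,
              show 2 * d * ζ / d = 2 * ζ by field_simp]
            linarith
        _ = (2 * d * ζ + sm) ^ 2 * 1 * VV k := by
            simp only [mul_pow, ← sum_mul, VV]; ring
        _ ≤ (2 * d * ζ + sm) ^ 2 * (κ * K) * VV k := by gcongr
        _ = K * (2 * d * ζ + sm) ^ 2 * (κ * VV k) := by ring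
        _ ≤ lam * (κ * VV k) := by gcongr
        _ = _ := by rw [htV]; ring
    have io0 : 0 ≤ io := le_trans (by positivity) hio
    have s0 : 0 ≤ sp := sp0.trans hsp
    have q2 : ∑ j, ST (Dj j Pp) k ^ 2 ≤ 2 * (sp * io) * (∑' x, Pp x - CT Pp k) := by
      refine (S_sq_le R.p.s R.p.q R.p.n0 R.p.y k).trans (mul_le_mul_of_nonneg_right ?_ (by linarith))
      rw [div_eq_mul_one_div]; gcongr
    have l0 : 0 ≤ lam := le_trans (by positivity) hlam
    have q3 := (engel univ (by positivity) (by positivity) (by positivity) (by linarith) q1 q2).trans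
      (mul_le_mul_of_nonneg_left p3 (by positivity))
    have q4 := m1.le m2 hl hh hY.le (YY_le R.hd k) ht0 ht1
    simp only [ψ]
    rw [htV, DD] at *
    generalize ∑ j, (2 * ζ * sin (2 * π * k j) - ST (Dj j Pm) k + ST (Dj j Pp) k) ^ 2 = b at *
    generalize CT G k = u at *
    generalize YY k = Y at *
    have q5 : b * u ≤ lam * t + 2 * (sp * io) := by
      have := mul_le_mul_of_nonneg_right q3 p1.le
      rwa [mul_assoc, (mul_comm _ u).trans p4, mul_one] at this
    have q6 : (Y * u) ^ 2 * (2 * lam * t + 4 * sp * io - 2 * d * ζ * (1 - Y)) ≤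
        al * Y ^ 2 + g * Y * t + h * t + h0 := by
      rcases le_total 0 (2 * lam * t + 4 * sp * io - 2 * d * ζ * (1 - Y)) with v | v
      · refine le_trans (mul_le_mul_of_nonneg_right ?_ v) q4
        rw [← sq]; gcongr
      · exact (mul_nonpos_of_nonneg_of_nonpos (sq_nonneg _) v).trans (by positivity)
    refine le_of_mul_le_mul_right ?_ (by positivity : 0 < Y ^ 2)
    have q7 : (g * (t * Y / Y ^ 2) + h * (t * Y / Y ^ 3) + h0 * (1 / Y ^ 2)) * Y ^ 2 =
        g * Y * t + h * t + h0 := by field_simp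
    rw [q7]
    nlinarith [mul_le_mul_of_nonneg_left q5 (sq_nonneg (Y * u))]
  have ic : Integrable (fun k : Fin d → ℝ => cos (th k x)) (mu d) :=
    integrable_mu (continuous_cos.comp (continuous_th x))
  have ip : Integrable (fun k : Fin d → ℝ => ψ k * cos (th k x)) (mu d) :=
    hi.mul_bdd (c := 1) ic.1 (Eventually.of_forall fun k => abs_cos_le_one _)
  have im1 := (H.i4.1.const_mul g).add (H.i5.1.const_mul h)
  have im := im1.add ((H.w2 R.hd).1.const_mul h0)
  have i1 := hi.add (integrable_const al)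
  have fin := integral_mono_ae (ip.add (ic.const_mul al)) (i1.add (im.const_mul 2))
    ((ae_DD R.hd).mono fun k hk => by
      have := key k hk.1
      have hV := VV_nonneg k
      have hY := hk.1
      have m0 : 0 ≤ g * (VV k / YY k ^ 2) + h * (VV k / YY k ^ 3) + h0 * (1 / YY k ^ 2) := by
        positivity
      have c5 := cos_le_one (th k x)
      have c6 := neg_one_le_cos (th k x)
      simp only [Pi.add_apply]
      rcases le_total 0 (ψ k + al) with v | v <;> nlinarith)
  rw [integral_add' ip (ic.const_mul al), integral_add' i1 (im.const_mul 2),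
    integral_add' hi (integrable_const al), integral_const_mul, integral_const_mul,
    integral_add' im1 ((H.w2 R.hd).1.const_mul h0),
    integral_add' (H.i4.1.const_mul g) (H.i5.1.const_mul h), integral_const_mul, integral_const_mul,
    integral_const_mul, ← h1, ← hu, ← h2, integral_const, probReal_univ, smul_eq_mul] at fin
  nlinarith [mul_le_mul_of_nonneg_left H.i4.2 c2, mul_le_mul_of_nonneg_left H.i5.2 c3,
    mul_le_mul_of_nonneg_left (H.w2 R.hd).2 c4]

end RP

end Pool.Agent.P.MP_2ab770_pr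
end

-- part Pool.Agent.P.MP_2ab770_pr.Diag
section

set_option autoImplicit false
set_option linter.dupNamespace false
set_option linter.unusedVariables false
set_option linter.unusedSectionVars false

namespace Pool.Agent.P.MP_2ab770_pr

open Finset
open scoped ENNReal NNReal

variable {d : ℕ}

open Classical in
/-- sum over trails with given last edge -/
noncomputable def hs (z : ℝ≥0∞) (h : X d) (c : Lt d) (ω : List (Lt d) → ℝ≥0∞) : ℝ≥0∞ :=
  ∑' v, if Hit h c v then z ^ v.length * ω v else 0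

lemma hs_mono (z : ℝ≥0∞) (h : X d) (c : Lt d) {ω ω' : List (Lt d) → ℝ≥0∞}
    (hω : ∀ v, Hit h c v → ω v ≤ ω' v) : hs z h c ω ≤ hs z h c ω' :=
  ENNReal.tsum_le_tsum fun v => by
    split_ifs with hv
    · exact mul_le_mul_right (hω v hv) _
    · exact le_rfl

lemma hs_add (z : ℝ≥0∞) (h : X d) (c : Lt d) (ω ω' : List (Lt d) → ℝ≥0∞) :
    hs z h c (fun v => ω v + ω' v) = hs z h c ω + hs z h c ω' := by
  simp only [hs, ← ENNReal.tsum_add]
  exact tsum_congr fun w => by split_ifs <;> simp [mul_add]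

lemma hs_mul (z : ℝ≥0∞) (h : X d) (c : Lt d) (B : ℝ≥0∞) (ω : List (Lt d) → ℝ≥0∞) :
    hs z h c (fun v => B * ω v) = B * hs z h c ω := by
  simp only [hs, ← ENNReal.tsum_mul_left]
  exact tsum_congr fun w => by split_ifs <;> simp [mul_left_comm]

lemma hs_snoc (z : ℝ≥0∞) (h : X d) (c : Lt d) (ω : List (Lt d) → ℝ≥0∞) :
    hs z h c ω = z * pf z (fun v => I (v ++ [c]) * ω (v ++ [c])) (h - step c) := by
  classical
  have : ∀ v : List (Lt d), (if Hit h c v then z ^ v.length * ω v else 0) =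
      if v.getLast? = some c then (if disp v = h then z ^ v.length * (I v * ω v) else 0) else 0 := by
    intro v
    by_cases h1 : goodT v <;> by_cases h2 : v.getLast? = some c <;> by_cases h3 : disp v = h <;>
      simp [Hit, I, h1, h2, h3]
  rw [hs, tsum_congr this, tsum_snoc, pf, ← ENNReal.tsum_mul_left]
  refine tsum_congr fun v => ?_
  rw [disp_append, disp_single]
  by_cases h1 : disp v + step c = h
  · rw [if_pos h1, if_pos (by rw [← h1]; abel), List.length_append, List.length_singleton]; ring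
  · rw [if_neg h1, if_neg (fun h' => h1 (by rw [h']; abel)), mul_zero]

lemma I_append_le (u v : List (Lt d)) : I (u ++ v) ≤ I u := by
  by_cases h : goodT (u ++ v)
  · rw [I_good h, I_good (good_left h)]
  · rw [I_not h]; exact zero_le

lemma hs_one (z : ℝ≥0∞) (h : X d) (c : Lt d) : hs z h c (fun _ => 1) ≤ z * G z (h - step c) := by
  rw [hs_snoc]
  exact mul_le_mul_right (pf_mono z (fun w => by simpa using I_append_le w [c]) _) _

lemma hs_len (z : ℝ≥0∞) (h : X d) (c : Lt d) :
    hs z h c (fun v => v.length) ≤ z * GG z (h - step c) := by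
  rw [hs_snoc]
  refine mul_le_mul_right (le_trans (pf_mono z (fun w => ?_) _) (B_le_GG z _)) _
  rw [mul_comm]
  simpa using mul_le_mul_right (I_append_le w [c]) _

open Classical in
lemma hs_esum (z : ℝ≥0∞) (h : X d) (c : Lt d) (g : List (Lt d) → Lt d → List (Lt d) → ℝ≥0∞) :
    hs z h c (fun v => esum v g) = ∑' x, ∑ a, ∑' y,
      if Hit h c (x ++ a :: y) then z ^ (x.length + 1 + y.length) * g x a y else 0 := by
  rw [← tsum_esum, hs]
  refine tsum_congr fun v => ?_
  refine le_antisymm ?_ ?_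
  · split_ifs with hv
    · rw [mul_esum]
      refine esum_le fun x a y e => ?_
      subst e
      rw [if_pos hv, List.length_append, List.length_cons, add_assoc, add_comm 1]
    · exact zero_le
  · split_ifs with hv
    · rw [mul_esum]
      refine esum_le fun x a y e => ?_
      subst e
      rw [if_pos hv, List.length_append, List.length_cons, add_assoc, add_comm 1]
    · refine le_trans (esum_le (g' := fun _ _ _ => 0) fun x a y e => ?_) ?_
      · subst e; rw [if_neg hv]
      · rw [esum_const]; simp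

/-- a trail with given last letter -/
def End (c : Lt d) (r : List (Lt d)) : Prop := goodT r ∧ r.getLast? = some c

open Classical in
/-- sum over the second part of a loop -/
noncomputable def Lam (z : ℝ≥0∞) (Ψ : X d → Lt d → ℝ≥0∞) (c : Lt d) : ℝ≥0∞ :=
  ∑ a, ∑' y, if End c (a :: y) then z ^ y.length * Ψ (-disp y) a else 0

lemma Lam_add (z : ℝ≥0∞) (Ψ Ψ' : X d → Lt d → ℝ≥0∞) (c : Lt d) :
    Lam z (fun h a => Ψ h a + Ψ' h a) c = Lam z Ψ c + Lam z Ψ' c := by
  simp only [Lam, ← sum_add_distrib, ← ENNReal.tsum_add]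
  refine sum_congr rfl fun a _ => tsum_congr fun y => ?_
  split_ifs <;> simp [mul_add]

lemma esum_add (u : List (Lt d)) (g g' : List (Lt d) → Lt d → List (Lt d) → ℝ≥0∞) :
    esum u (fun x c y => g x c y + g' x c y) = esum u g + esum u g' := by
  induction u generalizing g g' with
  | nil => simp [esum_nil]
  | cons a u ih => rw [esum_cons, esum_cons, esum_cons, ih]; ring

open Classical in
lemma first_line (z : ℝ≥0∞) (h : X d) (c : Lt d) (ω : List (Lt d) → Lt d → ℝ≥0∞)
    (Ψ : X d → Lt d → ℝ≥0∞) :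
    hs z h c (fun v => esum v (fun x a y => ω x a * Ψ (-disp y) a)) ≤
      ∑ a, ∑' y, (if End c (a :: y) then z ^ y.length * Ψ (-disp y) a else 0) *
        (z * pf z (fun x => I x * ω x a) (h - step a - disp y)) := by
  rw [hs_esum, Summable.tsum_finsetSum (fun _ _ => ENNReal.summable)]
  refine sum_le_sum fun a _ => ?_
  rw [ENNReal.tsum_comm]
  refine ENNReal.tsum_le_tsum fun y => ?_
  rw [pf, ← ENNReal.tsum_mul_left, ← ENNReal.tsum_mul_left]
  refine ENNReal.tsum_le_tsum fun x => ?_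
  split_ifs with h1 h2 h3 h4
  · rw [I_good (good_left h1.1), pow_add, pow_add]
    exact le_of_eq (by ring)
  · exact absurd (by rw [← h1.2.2, disp_append, disp_cons]; abel) h3
  · exact absurd ⟨good_right h1.1, by simpa using h1.2.1⟩ h2
  · exact absurd ⟨good_right h1.1, by simpa using h1.2.1⟩ h2
  all_goals exact zero_le

lemma first_line' (z : ℝ≥0∞) (h : X d) (c : Lt d) (ω : List (Lt d) → Lt d → ℝ≥0∞)
    (Ψ : X d → Lt d → ℝ≥0∞) {B : ℝ≥0∞} (hB : ∀ a y, pf z (fun x => I x * ω x a) y ≤ B) :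
    hs z h c (fun v => esum v (fun x a y => ω x a * Ψ (-disp y) a)) ≤ z * B * Lam z Ψ c := by
  refine (first_line z h c ω Ψ).trans ?_
  rw [Lam, mul_sum]
  refine sum_le_sum fun a _ => ?_
  rw [← ENNReal.tsum_mul_left]
  refine ENNReal.tsum_le_tsum fun y => ?_
  rw [mul_comm]
  gcongr
  exact hB _ _

lemma second_line (z : ℝ≥0∞) (h : X d) (c : Lt d) (Ψ : X d → Lt d → ℝ≥0∞) {B : ℝ≥0∞}
    (hB : ∀ y : X d, GG z y ≤ B) :
    hs z h c (fun v => esum v (fun x a y => y.length * Ψ (-disp y) a)) ≤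
      z * B * (z * ∑ a, ∑' p, G z p * Ψ (p + step a - h) a) := by
  classical
  rw [hs_esum, Summable.tsum_finsetSum (fun _ _ => ENNReal.summable), mul_sum, mul_sum]
  refine sum_le_sum fun a _ => ?_
  rw [G, tsum_pf z I (fun p => Ψ (p + step a - h) a), ← ENNReal.tsum_mul_left,
    ← ENNReal.tsum_mul_left]
  refine ENNReal.tsum_le_tsum fun x => ?_
  have h1 := (hs_len z (h - step a - disp x) c).trans (mul_le_mul_right (hB _) z)
  calc _ ≤ (z * (z ^ x.length * I x * Ψ (disp x + step a - h) a)) *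
        hs z (h - step a - disp x) c (fun v => v.length) := by
        rw [hs, ← ENNReal.tsum_mul_left]
        refine ENNReal.tsum_le_tsum fun y => ?_
        cases y with
        | nil => simp
        | cons b y =>
          split_ifs with h2 h3
          · have e : -disp (b :: y) = disp x + step a - h := by
              rw [← h2.2.2, disp_append, disp_cons a]; abel
            rw [I_good (good_left h2.1), pow_add, pow_add, e]
            exact le_of_eq (by ring)
          · refine absurd ⟨good_right (u := x ++ [a]) (by simpa using h2.1),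
              by simpa using h2.2.1, ?_⟩ h3
            rw [← h2.2.2, disp_append, disp_cons a]; abel
          all_goals exact zero_le
    _ ≤ _ := by rw [mul_comm (z * B)]; gcongr

lemma sum_Lam (z : ℝ≥0∞) (Ψ : X d → Lt d → ℝ≥0∞) :
    ∑ c, Lam z Ψ c ≤ ∑ a, ∑' h, G z h * Ψ h a := by
  classical
  simp only [Lam]
  rw [sum_comm]
  refine sum_le_sum fun a _ => ?_
  rw [← (Equiv.neg (X d)).tsum_eq]
  simp only [Equiv.neg_apply, G_neg]
  rw [G, tsum_pf z I (fun p => Ψ (-p) a), ← Summable.tsum_finsetSum (fun _ _ => ENNReal.summable)]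
  refine ENNReal.tsum_le_tsum fun y => ?_
  by_cases hg : goodT (a :: y)
  · rw [sum_eq_single ((a :: y).getLast (by simp))]
    · rw [I_good (good_right (u := [a]) hg), mul_one]
      split_ifs <;> simp
    · intro b _ hb
      refine if_neg fun h => hb ?_
      have := h.2
      rw [List.getLast?_eq_some_getLast (by simp)] at this
      exact (Option.some.inj this).symm
    · simp
  · rw [sum_eq_zero fun c _ => if_neg fun h => hg h.1]; exact zero_le

lemma Lam_sym (S : Sym d) (z : ℝ≥0∞) {Ψ : X d → Lt d → ℝ≥0∞}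
    (hΨ : ∀ h a, Ψ (S.T h) (S.σ a) = Ψ h a) (c : Lt d) : Lam z Ψ (S.σ c) = Lam z Ψ c := by
  classical
  rw [Lam, Lam, ← Equiv.sum_comp S.σ]
  refine sum_congr rfl fun a _ => ?_
  rw [← tsum_map S.σ]
  refine tsum_congr fun y => ?_
  have : End (S.σ c) (S.σ a :: y.map S.σ) ↔ End c (a :: y) := by
    rw [← List.map_cons, End, End, S.good_map, List.getLast?_map]
    cases (a :: y).getLast? <;> simp
  rw [S.disp_map, ← map_neg, hΨ, List.length_map, propext this]

lemma Lam_le (z : ℝ≥0∞) {Ψ : X d → Lt d → ℝ≥0∞}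
    (hΨ : ∀ (S : Sym d) h a, Ψ (S.T h) (S.σ a) = Ψ h a) {B : ℝ≥0∞}
    (hB : ∑ a, ∑' h, G z h * Ψ h a ≤ 2 * d * B) (c : Lt d) : Lam z Ψ c ≤ B :=
  le_of_sum_le (fun S a => Lam_sym S z (hΨ S) a) ((sum_Lam z Ψ).trans hB) c

/-- diagrams whose first loop closes on a given oriented edge -/
noncomputable def phi (z : ℝ≥0∞) (N : ℕ) (h : X d) (c : Lt d) (f : List (Lt d) → ℝ≥0∞) : ℝ≥0∞ :=
  hs z h c (fun v => (modelT d).q z N v (fun r => f (v ++ r)))

/-- both orientations -/
noncomputable def phi2 (z : ℝ≥0∞) (N : ℕ) (h : X d) (c : Lt d) (f : List (Lt d) → ℝ≥0∞) : ℝ≥0∞ :=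
  phi z N h c f + phi z N (h - step c) (iv c) f

lemma phi2_rev (z : ℝ≥0∞) (N : ℕ) (h : X d) (c : Lt d) (f : List (Lt d) → ℝ≥0∞) :
    phi2 z N (h - step c) (iv c) f = phi2 z N h c f := by
  rw [phi2, phi2, iv_iv, step_iv, add_comm]; congr 2; abel

lemma q_le_esum (z : ℝ≥0∞) (N : ℕ) (u : List (Lt d)) (f : List (Lt d) → ℝ≥0∞) :
    (modelT d).q z (N + 1) u f ≤ esum u (fun x c y => phi2 z N (-disp y) c f) := by
  classical
  simp only [phi2, phi, hs, ← ENNReal.tsum_add]
  rw [← tsum_esum_comm, Model.q_succ]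
  refine ENNReal.tsum_le_tsum fun v => ?_
  split_ifs with hF
  · obtain ⟨x, c, y, rfl, h⟩ := F_hit hF
    refine le_trans ?_ (le_esum x c y _)
    rcases h with h | h
    · rw [if_pos h]; exact le_self_add
    · rw [if_pos h]; exact le_add_self
  · exact zero_le

lemma q_le_len (z : ℝ≥0∞) (N : ℕ) (u : List (Lt d)) (f : List (Lt d) → ℝ≥0∞) {B : ℝ≥0∞}
    (hB : ∀ h c, phi2 z N h c f ≤ B) : (modelT d).q z (N + 1) u f ≤ B * u.length := by
  refine (q_le_esum z N u f).trans ((esum_le fun x c y _ => hB _ _).trans ?_)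
  rw [esum_const, mul_comm]

lemma q_single (z : ℝ≥0∞) (N : ℕ) (a : Lt d) (f : List (Lt d) → ℝ≥0∞) :
    (modelT d).q z (N + 1) [a] f ≤ phi2 z N 0 a f := by
  simpa [esum_cons, esum_nil, disp_nil] using q_le_esum z N [a] f

lemma q_snoc (z : ℝ≥0∞) (N : ℕ) (u : List (Lt d)) (c : Lt d) (f : List (Lt d) → ℝ≥0∞) {B : ℝ≥0∞}
    (hB : ∀ h c, phi2 z N h c f ≤ B) :
    (modelT d).q z (N + 1) (u ++ [c]) f ≤ phi2 z N 0 c f + B * u.length := by
  refine (q_le_esum z N _ f).trans ?_
  rw [esum_snoc, disp_nil, neg_zero]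
  refine add_le_add_right ((esum_le fun x c y _ => hB _ _).trans ?_) _
  rw [esum_const, mul_comm]

lemma phi_sym (S : Sym d) (z : ℝ≥0∞) (N : ℕ) (h : X d) (c : Lt d) :
    phi z N (S.T h) (S.σ c) (fun _ => 1) = phi z N h c (fun _ => 1) := by
  classical
  rw [phi, hs, ← tsum_map S.σ]
  refine tsum_congr fun v => ?_
  rw [propext (S.hit_map h c v), List.length_map, (modelT d).q_map S.σ S.good_map]

lemma phi2_sym (S : Sym d) (z : ℝ≥0∞) (N : ℕ) (h : X d) (c : Lt d) :
    phi2 z N (S.T h) (S.σ c) (fun _ => 1) = phi2 z N h c (fun _ => 1) := by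
  rw [phi2, phi2, phi_sym, S.hs, ← map_sub, ← S.iv_map, phi_sym]

lemma phi_zero (z : ℝ≥0∞) (h : X d) (c : Lt d) (f : List (Lt d) → ℝ≥0∞) :
    phi z 0 h c f = hs z h c f := by
  simp only [phi, Model.q_zero, List.append_nil]

lemma phi_zero_disp (z : ℝ≥0∞) (h : X d) (c : Lt d) (f : X d → ℝ≥0∞) :
    phi z 0 h c (fun r => f (disp r)) ≤ f h * hs z h c (fun _ => 1) := by
  rw [phi_zero, ← hs_mul]
  exact hs_mono z h c fun v hv => by rw [hv.2.2, mul_one]

/-- the open diagram -/
noncomputable def Th (z : ℝ≥0∞) (N : ℕ) (k : X d) : ℝ≥0∞ :=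
  ∑ a, ∑' h, G z (h + k) * phi2 z N h a (fun _ => 1)

lemma Th_eq (z : ℝ≥0∞) (N : ℕ) (k : X d) : Th z N k =
    ∑ a, ∑' h, (G z (h + k) + G z (h - step a + k)) * phi z N h a (fun _ => 1) := by
  simp only [Th, phi2, mul_add, add_mul, ENNReal.tsum_add, sum_add_distrib]
  congr 1
  rw [← sum_iv]
  refine sum_congr rfl fun a _ => ?_
  rw [← (Equiv.subRight (step a)).tsum_eq]
  simp [iv_iv, step_iv]

lemma Th_eq' (z : ℝ≥0∞) (N : ℕ) (k : X d) :
    ∑ a, ∑' p, G z p * phi2 z N (p + step a - k) a (fun _ => 1) = Th z N k := by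
  rw [Th, ← sum_iv]
  refine sum_congr rfl fun a _ => ?_
  rw [← (Equiv.addRight k).tsum_eq]
  refine tsum_congr fun h => ?_
  rw [← phi2_rev z N h a, step_iv]
  simp only [Equiv.coe_addRight]
  congr 2; abel

end Pool.Agent.P.MP_2ab770_pr
end

-- part Pool.Agent.P.MP_2ab770_pr.Diag2
section

set_option autoImplicit false
set_option linter.dupNamespace false
set_option linter.unusedVariables false
set_option linter.unusedSectionVars false

namespace Pool.Agent.P.MP_2ab770_pr

open Finset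
open scoped ENNReal NNReal

variable {d : ℕ}

/-- constants bounding the basic lines -/
structure Cs where
  z : ℝ≥0∞
  G0 : ℝ≥0∞
  g3 : ℝ≥0∞
  G1 : ℝ≥0∞
  GG0 : ℝ≥0∞
  GGe : ℝ≥0∞
  β : ℝ≥0∞
  ν : ℝ≥0∞
  U : ℝ≥0∞
  W : ℝ≥0∞
  l : ℝ≥0∞
  lp : ℝ≥0∞

/-- position space hypotheses -/
structure Hx (d : ℕ) (C : Cs) : Prop where
  G0 : G C.z (0 : X d) ≤ C.G0
  g3 : ∀ a : Lt d, pf C.z (fun w => I (w ++ [a])) (-step a) ≤ C.g3
  G1 : ∀ y : X d, y ≠ 0 → G C.z y ≤ C.G1
  GG0 : ∀ y : X d, GG C.z y ≤ C.GG0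
  GGe : ∀ a : Lt d, GG C.z (step a) ≤ C.GGe
  β : ∀ (y : X d) (a : Lt d), C.z * (GG C.z y + GG C.z (y + step a)) ≤ C.β
  ν1 : C.z * (C.G0 + C.g3) ≤ C.ν
  ν2 : C.z * (C.G1 + C.G1) ≤ C.ν
  W : ∀ y : X d, nsq y * G C.z y ≤ C.W
  U : ∀ (y : X d) (a : Lt d), nsq (y + step a) * G C.z y ≤ C.U
  WU : C.W ≤ C.U
  l : pf C.z (fun w => w.length * I w) (0 : X d) ≤ C.l
  lB : pf C.z (fun w => (w.length + 1) * I w) (0 : X d) ≤ 1 + C.l
  lp : ∀ a : Lt d, pf C.z (fun w => w.length * I (w ++ [a])) (-step a) ≤ C.lp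

/-- bounds for diagrams weighted with the squared displacement -/
noncomputable def Cs.mu (C : Cs) : ℕ → ℝ≥0∞
  | 0 => C.z * (C.W + C.U)
  | 1 => 2 * (C.z * C.z * (C.U * C.GGe + C.W * C.GG0))
  | N + 2 => 4 * C.z * C.U * C.β ^ (N + 2) + 2 * C.β ^ 2 * Cs.mu C N

/-- bounds for diagrams weighted with the length -/
noncomputable def Cs.lam (C : Cs) (d : ℕ) : ℕ → ℝ≥0∞
  | 0 => C.β
  | N + 1 => 2 * C.z * C.GG0 * (1 + 2 * d * C.z) * C.β ^ (N + 1) + C.β * Cs.lam C d N

/-- squared displacement -/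
def sq (r : List (Lt d)) : ℝ≥0∞ := nsq (disp r)

namespace Hx
variable {C : Cs} (H : Hx d C)
include H

lemma len2 (h : X d) (c : Lt d) : hs C.z h c (fun v => v.length) +
    hs C.z (h - step c) (iv c) (fun v => v.length) ≤ C.β := by
  refine le_trans ?_ (H.β (h - step c) c)
  rw [mul_add]
  refine add_le_add (hs_len _ _ _) ((hs_len _ _ _).trans (le_of_eq ?_))
  rw [step_iv]; congr 2; abel

lemma one_same (a : Lt d) : hs C.z 0 a (fun _ => 1) ≤ C.z * C.g3 := by
  rw [hs_snoc, zero_sub]
  simpa using mul_le_mul_right (H.g3 a) C.z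

lemma one_opp (a : Lt d) : hs C.z (step a) a (fun _ => 1) ≤ C.z * C.G0 :=
  (hs_one _ _ _).trans (by rw [sub_self]; exact mul_le_mul_right H.G0 _)

lemma one_opp' (a : Lt d) : hs C.z (0 - step a) (iv a) (fun _ => 1) ≤ C.z * C.G0 := by
  rw [zero_sub, ← step_iv]; exact H.one_opp _

lemma nu_T (a : Lt d) : phi2 C.z 0 0 a (fun _ => 1) ≤ C.z * (C.G0 + C.g3) := by
  rw [phi2, phi_zero, phi_zero, mul_add, add_comm]
  exact add_le_add (H.one_opp' a) (H.one_same a)

lemma nu : ∀ (N : ℕ) (h : X d) (c : Lt d), phi2 C.z N h c (fun _ => 1) ≤ C.ν * C.β ^ N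
  | 0, h, c => by
    rw [pow_zero, mul_one]
    by_cases h1 : h = 0
    · subst h1; exact (H.nu_T c).trans H.ν1
    by_cases h2 : h - step c = 0
    · rw [← phi2_rev, h2]; exact (H.nu_T _).trans H.ν1
    refine le_trans ?_ H.ν2
    rw [phi2, phi_zero, phi_zero, mul_add]
    refine add_le_add ((hs_one _ _ _).trans (mul_le_mul_right (H.G1 _ h2) _))
      ((hs_one _ _ _).trans (mul_le_mul_right (H.G1 _ ?_) _))
    rw [step_iv]; simpa using h1
  | N + 1, h, c => by
    have : ∀ (h : X d) c, phi C.z (N + 1) h c (fun _ => 1) ≤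
        C.ν * C.β ^ N * hs C.z h c (fun v => v.length) := by
      intro h c
      rw [← hs_mul]
      exact hs_mono _ _ _ fun v _ => q_le_len _ _ _ _ (nu N)
    refine (add_le_add (this _ _) (this _ _)).trans ?_
    rw [← mul_add, pow_succ, ← mul_assoc]
    exact mul_le_mul_right (H.len2 h c) _

lemma Th_le : ∀ (N : ℕ) (k : X d), Th C.z N k ≤ 2 * d * C.β ^ (N + 1)
  | 0, k => by
    rw [Th_eq, ← sum_const_Lt]
    refine sum_le_sum fun a _ => ?_
    calc _ ≤ ∑' h, (G C.z (h + k) + G C.z (h - step a + k)) * (C.z * G C.z (h - step a)) := by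
          refine ENNReal.tsum_le_tsum fun h => ?_
          rw [phi_zero]; exact mul_le_mul_right (hs_one _ _ _) _
      _ = C.z * (∑' h, G C.z (h + (k - step a)) * G C.z (h - step a) +
            ∑' h, G C.z (h + k) * G C.z (h - step a)) := by
          rw [← ENNReal.tsum_add, ← ENNReal.tsum_mul_left]
          refine tsum_congr fun h => ?_
          rw [show h + (k - step a) = h - step a + k by abel]; ring
      _ ≤ _ := by
          rw [tsum_GG, tsum_GG, sub_add_cancel, zero_add, pow_one]; exact H.β k a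
  | N + 1, k => by
    classical
    have h1 := (sum_Lam C.z (fun (h : X d) a => phi2 C.z N h a (fun _ => 1))).trans
      (le_of_eq_of_le (by simp [Th]) (Th_le N 0))
    rw [pow_succ', mul_left_comm]
    refine le_trans ?_ (mul_le_mul_right h1 C.β)
    rw [Th_eq, mul_sum]
    refine sum_le_sum fun c _ => ?_
    have h2 : ∀ h, phi C.z (N + 1) h c (fun _ => 1) ≤ ∑ a, ∑' y,
        (if End c (a :: y) then C.z ^ y.length * phi2 C.z N (-disp y) a (fun _ => 1) else 0) *
        (C.z * G C.z (h - step a - disp y)) := by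
      intro h
      have := first_line C.z h c (fun _ _ => 1) (fun h a => phi2 C.z N h a (fun _ => 1))
      simp only [one_mul, mul_one] at this
      exact le_trans (hs_mono _ _ _ fun v _ => q_le_esum _ _ _ _) this
    refine le_trans (ENNReal.tsum_le_tsum fun h => mul_le_mul_right (h2 h) _) ?_
    simp only [mul_sum, ← ENNReal.tsum_mul_left, Lam]
    rw [Summable.tsum_finsetSum (fun _ _ => ENNReal.summable)]
    refine sum_le_sum fun a _ => ?_
    rw [ENNReal.tsum_comm]
    refine ENNReal.tsum_le_tsum fun y => ?_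
    set T := (if End c (a :: y) then C.z ^ y.length * phi2 C.z N (-disp y) a (fun _ => 1) else 0)
    calc _ = T * (C.z * (∑' h, G C.z (h + (k - step c)) * G C.z (h - (step a + disp y)) +
            ∑' h, G C.z (h + k) * G C.z (h - (step a + disp y)))) := by
          rw [← ENNReal.tsum_add, ← ENNReal.tsum_mul_left, ← ENNReal.tsum_mul_left]
          refine tsum_congr fun h => ?_
          rw [show h + (k - step c) = h - step c + k by abel, sub_sub h (step a)]; ring
      _ ≤ _ := by
          rw [tsum_GG, tsum_GG, mul_comm C.β,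
            show k + (step a + disp y) = k - step c + (step a + disp y) + step c by abel]
          exact mul_le_mul_right (H.β _ c) _

lemma Lam2 (N : ℕ) (c : Lt d) :
    Lam C.z (fun h a => phi2 C.z N h a (fun _ => 1)) c ≤ C.β ^ (N + 1) :=
  Lam_le _ (fun S h a => phi2_sym S _ N h a) (le_of_eq_of_le (by simp [Th]) (H.Th_le N 0)) c

lemma Lam_same (c : Lt d) :
    Lam C.z (fun h a => phi C.z 0 h a (fun _ => 1)) c ≤ C.z * C.GGe := by
  refine Lam_le _ (fun S h a => phi_sym S _ 0 h a) ?_ c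
  rw [← sum_const_Lt]
  refine sum_le_sum fun a _ => ?_
  calc _ ≤ ∑' h, C.z * (G C.z (h + 0) * G C.z (h - step a)) := by
        refine ENNReal.tsum_le_tsum fun h => ?_
        rw [phi_zero, add_zero, mul_left_comm]; exact mul_le_mul_right (hs_one _ _ _) _
    _ ≤ _ := by
        rw [ENNReal.tsum_mul_left, tsum_GG, zero_add]; exact mul_le_mul_right (H.GGe a) _

lemma Lam_opp (c : Lt d) :
    Lam C.z (fun h a => phi C.z 0 (h - step a) (iv a) (fun _ => 1)) c ≤ C.z * C.GG0 := by
  refine Lam_le _ (fun S h a => by rw [S.hs, ← map_sub, ← S.iv_map, phi_sym]) ?_ c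
  rw [← sum_const_Lt]
  refine sum_le_sum fun a _ => ?_
  calc _ ≤ ∑' h, C.z * (G C.z (h + 0) * G C.z (h - 0)) := by
        refine ENNReal.tsum_le_tsum fun h => ?_
        rw [phi_zero, add_zero, mul_left_comm]
        refine mul_le_mul_right ((hs_one _ _ _).trans (le_of_eq ?_)) _
        rw [step_iv]; congr 2; abel
    _ ≤ _ := by
        rw [ENNReal.tsum_mul_left, tsum_GG]; exact mul_le_mul_right (H.GG0 _) _

omit H in
lemma pf_disp (z : ℝ≥0∞) (f : X d → ℝ≥0∞) (y : X d) :
    pf z (fun x => I x * f (disp x)) y = f y * G z y := by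
  rw [G, pf, pf, ← ENNReal.tsum_mul_left]
  refine tsum_congr fun w => ?_
  split_ifs with h
  · rw [h]; ring
  · simp

omit H in
lemma phi_shift {A B : ℝ≥0∞} (hAB : Adm A B) (z : ℝ≥0∞) (N : ℕ) (h : X d) (c : Lt d) (k : X d)
    {M : ℝ≥0∞} (hM : ∀ h c, phi2 z N h c (sq (d := d)) ≤ M) :
    phi z (N + 1) h c (fun r => nsq (k + disp r)) ≤
      A * nsq (k + h) * phi z (N + 1) h c (fun _ => 1) + B * M * hs z h c (fun v => v.length) := by
  rw [phi, phi, ← hs_mul, ← hs_mul, ← hs_add]
  refine hs_mono _ _ _ fun v hv => ?_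
  refine le_trans (Model.q_mono _ _ _ _ (g := fun r => A * nsq (k + h) + B * sq r) fun r => ?_) ?_
  · rw [disp_append, hv.2.2, ← add_assoc]; exact hAB _ _ _
  · rw [Model.q_lin, mul_assoc B]
    gcongr
    exact q_le_len _ _ _ _ hM

lemma mu_le : ∀ (N : ℕ) (h : X d) (c : Lt d), phi2 C.z N h c sq ≤ C.mu N
  | 0, h, c => by
    have h1 : ∀ (h : X d) c, phi C.z 0 h c sq ≤ C.z * (nsq h * G C.z (h - step c)) := by
      intro h c
      refine (phi_zero_disp C.z h c (fun x => nsq x)).trans ?_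
      rw [mul_left_comm]
      exact mul_le_mul_right (hs_one _ _ _) _
    refine (add_le_add (h1 _ _) (h1 _ _)).trans ?_
    rw [← mul_add, Cs.mu, step_iv, sub_neg_eq_add, sub_add_cancel]
    refine mul_le_mul_right ?_ _
    rcases le_total (nsq h) (nsq (h - step c)) with h2 | h2
    · refine add_le_add (le_trans (by gcongr) (H.W (h - step c))) ?_
      have := H.U h (iv c)
      rwa [step_iv, ← sub_eq_add_neg] at this
    · rw [add_comm]
      refine add_le_add (le_trans (by gcongr) (H.W h)) ?_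
      have := H.U (h - step c) c
      rwa [sub_add_cancel] at this
  | 1, h, c => by
    have h1 : ∀ (h : X d) c, phi C.z 1 h c sq ≤ C.z * C.z * (C.U * C.GGe + C.W * C.GG0) := by
      intro h c
      have a1 := first_line' C.z h c (fun x a => nsq (disp x + step a))
        (fun h a => phi C.z 0 h a (fun _ => 1)) (B := C.U) fun a y => by
          rw [pf_disp C.z (fun p => nsq (p + step a))]; exact H.U y a
      have a2 := first_line' C.z h c (fun x a => nsq (disp x))
        (fun h a => phi C.z 0 (h - step a) (iv a) (fun _ => 1)) (B := C.W) fun a y => by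
          rw [pf_disp C.z (fun p => nsq p)]; exact H.W y
      have a3 := add_le_add (a1.trans (mul_le_mul_right (H.Lam_same c) _))
        (a2.trans (mul_le_mul_right (H.Lam_opp c) _))
      rw [← hs_add] at a3
      refine le_trans (hs_mono _ _ _ fun v hv => ?_) (a3.trans (le_of_eq (by ring)))
      rw [← esum_add]
      refine (q_le_esum _ _ _ _).trans (esum_le fun x a y e => ?_)
      subst e
      simp only [sq, disp_append, phi2]
      refine add_le_add ((phi_zero_disp C.z _ _ (fun p => nsq (disp x + disp (a :: y) + p))).trans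
        (le_of_eq ?_)) ((phi_zero_disp C.z _ _
          (fun p => nsq (disp x + disp (a :: y) + p))).trans (le_of_eq ?_))
      · rw [phi_zero, disp_cons]; congr 3; abel
      · rw [phi_zero, disp_cons]; congr 3; abel
    rw [Cs.mu, two_mul]
    exact add_le_add (h1 _ _) (h1 _ _)
  | N + 2, h, c => by
    have h1 : ∀ (h : X d) c, phi C.z (N + 2) h c sq ≤ 2 * C.z * C.U * C.β ^ (N + 2) +
        2 * C.mu N * C.β * hs C.z h c (fun v => v.length) := by
      intro h c
      have a1 := first_line' C.z h c (fun x a => nsq (disp x + step a))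
        (fun h a => phi C.z (N + 1) h a (fun _ => 1)) (B := C.U) fun a y => by
          rw [pf_disp C.z (fun p => nsq (p + step a))]; exact H.U y a
      have a2 := first_line' C.z h c (fun x a => nsq (disp x))
        (fun h a => phi C.z (N + 1) (h - step a) (iv a) (fun _ => 1)) (B := C.U) fun a y => by
          rw [pf_disp C.z (fun p => nsq p)]; exact (H.W y).trans H.WU
      have a3 := add_le_add a1 a2
      rw [← hs_add, ← mul_add, ← Lam_add] at a3
      have a4 := mul_le_mul_right (a3.trans (mul_le_mul_right (H.Lam2 (N + 1) c) _)) 2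
      rw [← hs_mul, ← mul_assoc, ← mul_assoc] at a4
      refine le_trans ?_ (add_le_add_left a4 _)
      rw [← hs_mul, ← hs_add]
      refine hs_mono _ _ _ fun v hv => ?_
      rw [← esum_add, mul_esum, mul_comm _ (v.length : ℝ≥0∞), ← esum_const, ← esum_add]
      refine (q_le_esum _ _ _ _).trans (esum_le fun x a y e => ?_)
      subst e
      simp only [sq, disp_append, phi2]
      refine (add_le_add (phi_shift adm_two _ _ _ _ _ (mu_le N))
        (phi_shift adm_two _ _ _ _ _ (mu_le N))).trans ?_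
      rw [add_add_add_comm, ← mul_add, disp_cons,
        show disp x + (step a + disp y) + -disp y = disp x + step a by abel,
        show disp x + (step a + disp y) + (-disp y - step a) = disp x by abel]
      refine add_le_add (le_of_eq (by ring)) (mul_le_mul_right (H.len2 _ _) _)
    refine (add_le_add (h1 _ _) (h1 _ _)).trans ?_
    rw [add_add_add_comm, ← mul_add (2 * C.mu N * C.β), Cs.mu]
    refine le_trans (add_le_add le_rfl (mul_le_mul_right (H.len2 h c) _)) (le_of_eq ?_)
    ring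

lemma lam_le : ∀ (N : ℕ) (h : X d) (c : Lt d), phi2 C.z N h c (fun r => r.length) ≤ C.lam d N
  | 0, h, c => by
    rw [phi2, phi_zero, phi_zero]; exact H.len2 h c
  | N + 1, h, c => by
    have h1 : ∀ (h : X d) c, phi C.z (N + 1) h c (fun r => r.length) ≤
        C.z * C.GG0 * (1 + 2 * d * C.z) * C.β ^ (N + 1) +
        C.lam d N * hs C.z h c (fun v => v.length) := by
      intro h c
      have a1 := first_line' C.z h c (fun x a => x.length + 1)
        (fun h a => phi2 C.z N h a (fun _ => 1)) (B := C.GG0) fun a y => by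
          simp_rw [mul_comm (I _)]; exact (B_le_GG _ _).trans (H.GG0 y)
      have a2 := second_line C.z h c (fun h a => phi2 C.z N h a (fun _ => 1)) H.GG0
      rw [Th_eq'] at a2
      have a3 := add_le_add (a1.trans (mul_le_mul_right (H.Lam2 N c) _))
        (a2.trans (mul_le_mul_right (mul_le_mul_right (H.Th_le N h) _) _))
      rw [← hs_add] at a3
      refine le_trans ?_ (add_le_add_left (a3.trans (le_of_eq (by ring))) _)
      rw [← hs_mul, ← hs_add]
      refine hs_mono _ _ _ fun v hv => ?_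
      refine le_trans (Model.q_mono _ _ _ _ (g := fun r => v.length + 1 * r.length)
        fun r => by simp) ?_
      rw [Model.q_lin, one_mul]
      refine add_le_add ?_ (q_le_len _ _ _ _ (lam_le N))
      refine (mul_le_mul_right (q_le_esum _ _ _ _) _).trans ?_
      rw [← esum_add, mul_esum]
      refine esum_le fun x a y e => le_of_eq ?_
      subst e
      simp only [List.length_append, List.length_cons]
      push_cast; ring
    refine (add_le_add (h1 _ _) (h1 _ _)).trans ?_
    rw [add_add_add_comm, ← mul_add (C.lam d N), Cs.lam]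
    refine le_trans (add_le_add le_rfl (mul_le_mul_right (H.len2 h c) _)) (le_of_eq ?_)
    ring

end Hx

end Pool.Agent.P.MP_2ab770_pr
end

-- part Pool.Agent.P.MP_2ab770_pr.Diag3
section

set_option autoImplicit false
set_option linter.dupNamespace false
set_option linter.unusedVariables false
set_option linter.unusedSectionVars false

namespace Pool.Agent.P.MP_2ab770_pr

open Finset
open scoped ENNReal NNReal

variable {d : ℕ}

/-- diagrams whose number of loops lies in a progression -/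
noncomputable def rh (e : ℕ) : List (Lt d) → ℝ≥0∞
  | [] => 0
  | a :: w => ∑' j, (modelT d).Qn (2 * j + e) [a] w

lemma rh_sym (S : Sym d) (e : ℕ) (w : List (Lt d)) : rh e (w.map S.σ) = rh e w := by
  cases w with
  | nil => rfl
  | cons a w =>
    simp only [List.map_cons, rh]
    refine tsum_congr fun j => ?_
    rw [← (modelT d).Qn_map S.σ S.good_map _ [a] w]; rfl

lemma tsum_rh (z : ℝ≥0∞) (e : ℕ) (f : List (Lt d) → ℝ≥0∞) :
    ∑' w, z ^ w.length * rh e w * f w =
      z * ∑ a, ∑' j, (modelT d).q z (2 * j + e) [a] (fun r => f (a :: r)) := by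
  rw [tsum_cons, mul_sum]
  simp only [rh, mul_zero, zero_mul, zero_add]
  refine sum_congr rfl fun a _ => ?_
  simp only [Model.q]
  rw [ENNReal.tsum_comm, ← ENNReal.tsum_mul_left]
  refine tsum_congr fun w => ?_
  rw [ENNReal.tsum_mul_right, ENNReal.tsum_mul_left, List.length_cons]; ring

lemma rh_eq (e : ℕ) (a : Lt d) (w : List (Lt d)) : rh e (a :: w) =
    ((∑ j ∈ range (w.length + 1), (modelT d).Qn (2 * j + e) [a] w : ℕ) : ℝ≥0∞) := by
  rw [rh, tsum_eq_sum (s := range (w.length + 1)), Nat.cast_sum]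
  intro j hj
  rw [Model.Qn_zero, Nat.cast_zero]
  have := mem_range.not.1 hj
  omega

lemma rh_ne_top (e : ℕ) (w : List (Lt d)) : rh e w ≠ ⊤ := by
  cases w with
  | nil => simp [rh]
  | cons a w => rw [rh_eq]; finiteness

lemma rho_eq (w : List (Lt d)) : (modelT d).rho w = (rh 0 w).toReal - (rh 1 w).toReal := by
  cases w with
  | nil => simp [rh, Model.rho]
  | cons a w =>
    rw [Model.rho, rh_eq, rh_eq, Model.P_eq_sum _ (2 * (w.length + 1)) _ _ (by omega)]
    simp only [ENNReal.toReal_natCast]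
    simp only [Nat.cast_sum, ← sum_sub_distrib]
    generalize w.length + 1 = L
    induction L with
    | zero => simp
    | succ L ih =>
      rw [show 2 * (L + 1) = 2 * L + 1 + 1 by ring, sum_range_succ, sum_range_succ, ih,
        sum_range_succ, pow_succ, pow_mul]
      simp; ring

lemma I_toReal (w : List (Lt d)) : (I w).toReal = (modelT d).ind w := by
  by_cases h : goodT w
  · rw [I_good h, (modelT d).ind_good h]; simp
  · rw [I_not h, (modelT d).ind_not h]; simp

lemma I_ne_top (w : List (Lt d)) : I w ≠ ⊤ := ne_top_of_le_ne_top (by simp) (I_le_one w)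

lemma word_identity (w : List (Lt d)) :
    I w + ssum w (fun x y => rh 1 x * I y) =
      (if w = [] then 1 else 0) + ssum w (fun x y => rh 0 x * I y) := by
  have h := (modelT d).ind_eq w
  have fin : ∀ e, ∀ i ∈ range (w.length + 1), rh e (w.take i) * I (w.drop i) ≠ ⊤ :=
    fun e i _ => ENNReal.mul_ne_top (rh_ne_top _ _) (I_ne_top _)
  have fin2 : ∀ e, ssum w (fun x y => rh e x * I y) ≠ ⊤ := fun e => ENNReal.sum_ne_top.2 (fin e)
  have fin3 : (if w = [] then (1 : ℝ≥0∞) else 0) ≠ ⊤ := by split_ifs <;> simp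
  rw [← ENNReal.toReal_eq_toReal_iff' (ENNReal.add_ne_top.2 ⟨I_ne_top _, fin2 _⟩)
    (ENNReal.add_ne_top.2 ⟨fin3, fin2 _⟩), ENNReal.toReal_add (I_ne_top _) (fin2 _),
    ENNReal.toReal_add fin3 (fin2 _), ssum, ssum, ENNReal.toReal_sum (fin _),
    ENNReal.toReal_sum (fin _), I_toReal, h]
  simp only [ssum, rho_eq, ENNReal.toReal_mul, I_toReal, sub_mul, sum_sub_distrib]
  split_ifs <;> simp [add_assoc]

/-- position space coefficients -/
noncomputable def Pi (z : ℝ≥0∞) (e : ℕ) : X d → ℝ≥0∞ := pf z (rh e)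

lemma Pi_sym (S : Sym d) (z : ℝ≥0∞) (e : ℕ) (x : X d) : Pi z e (S.T x) = Pi z e x :=
  pf_sym S z (rh_sym S e) x

lemma G_identity (z : ℝ≥0∞) (x : X d) :
    G z x + ec (Pi z 1) (G z) x = (if x = 0 then 1 else 0) + ec (Pi z 0) (G z) x := by
  have := congrArg (fun φ => pf z φ x) (funext (word_identity (d := d)))
  simp only [pf_add, pf_cat, pf_one, disp_nil, List.length_nil, pow_zero] at this
  simpa only [G, Pi, eq_comm] using this

lemma Qn_one_rev (a : Lt d) : 1 ≤ (modelT d).Qn 1 [a] [iv a] := by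
  simp [Model.Qn, ssum_cons, ssum_nil, F_rev]

lemma Qn_two_rev (a : Lt d) : 1 ≤ (modelT d).Qn 2 [a] [iv a, a] := by
  have := Qn_one_rev (iv a)
  rw [iv_iv] at this
  rw [Model.Qn, ssum_cons, ssum_cons, if_pos (F_rev a)]
  omega

lemma Pi_one_ge (z : ℝ≥0∞) : 2 * d * z ^ 2 ≤ Pi z 1 (0 : X d) := by
  classical
  have h1 : ∀ w : List (Lt d), ∑ a : Lt d, (if w = [a, iv a] then 1 else 0) ≤ rh 1 w := by
    intro w
    by_cases h : ∃ a, w = [a, iv a]
    · obtain ⟨a, rfl⟩ := h
      rw [sum_eq_single a (fun b _ hb => if_neg (by simp [hb.symm])) (by simp), if_pos rfl, rh]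
      refine le_trans ?_ (ENNReal.le_tsum 0)
      exact_mod_cast Qn_one_rev a
    · rw [sum_eq_zero fun a _ => if_neg fun h' => h ⟨a, h'⟩]; exact zero_le
  refine le_trans (le_of_eq ?_) (pf_mono z h1 0)
  rw [pf_sum, ← sum_const_Lt]
  refine sum_congr rfl fun a _ => ?_
  rw [pf_one, if_pos (by simp [disp, step_iv])]; rfl

lemma Pi_zero_ge (z : ℝ≥0∞) (a : Lt d) : z + z ^ 3 ≤ Pi z 0 (step a) := by
  classical
  have h1 : ∀ w : List (Lt d), (if w = [a] then 1 else 0) + (if w = [a, iv a, a] then 1 else 0)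
      ≤ rh 0 w := by
    intro w
    by_cases h : w = [a]
    · subst h
      rw [if_pos rfl, if_neg (by simp), add_zero, rh]
      refine le_trans ?_ (ENNReal.le_tsum 0)
      simp [Model.Qn]
    · rw [if_neg h, zero_add]
      split_ifs with h2
      · subst h2
        refine le_trans ?_ (ENNReal.le_tsum 1)
        exact_mod_cast Qn_two_rev a
      · exact zero_le
  refine le_trans (le_of_eq ?_) (pf_mono z h1 _)
  rw [pf_add, pf_one, pf_one, if_pos (by simp [disp]), if_pos (by simp [disp, step_iv])]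
  simp

/-- constants for the geometric sums -/
structure Ds where
  Γ : ℝ≥0∞
  Γ1 : ℝ≥0∞
  Mo : ℝ≥0∞
  Me : ℝ≥0∞
  A1 : ℝ≥0∞
  B1 : ℝ≥0∞
  A2 : ℝ≥0∞
  B2 : ℝ≥0∞
  A3 : ℝ≥0∞
  B3 : ℝ≥0∞
  L : ℝ≥0∞

/-- numerical hypotheses -/
structure Hd (d : ℕ) (C : Cs) (D : Ds) : Prop where
  Γ : 1 + C.β ^ 2 * D.Γ ≤ D.Γ
  Γ1 : 1 + C.β * D.Γ1 ≤ D.Γ1
  Mo : 2 * (C.z * C.z * (C.U * C.GGe + C.W * C.GG0)) + 4 * C.z * C.U * C.β ^ 3 * D.Γ +
    2 * C.β ^ 2 * D.Mo ≤ D.Mo
  Me : 4 * C.z * C.U * C.β ^ 2 * D.Γ + 2 * C.β ^ 2 * (C.z * (C.W + C.U) + D.Me) ≤ D.Me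
  a1 : Adm D.A1 D.B1
  a2 : Adm D.A2 D.B2
  a3 : Adm D.A3 D.B3
  L : C.β + 2 * C.z * C.GG0 * (1 + 2 * d * C.z) * C.β * D.Γ1 + C.β * D.L ≤ D.L

namespace Hd
variable {C : Cs} {D : Ds} (K : Hd d C D)
include K

lemma geo (B : ℝ≥0∞) (e : ℕ) : ∑' j, B * C.β ^ (2 * j + e) ≤ B * C.β ^ e * D.Γ := by
  simp_rw [pow_add, pow_mul, mul_comm (_ ^ _) (C.β ^ e), ← mul_assoc]
  rw [ENNReal.tsum_mul_left]
  exact mul_le_mul_right (geo_pow K.Γ) _

lemma mu_odd : ∑' j, C.mu (2 * j + 1) ≤ D.Mo := by
  refine geo_sum (v := fun j => 4 * C.z * C.U * C.β ^ (2 * j + 3)) (r := 2 * C.β ^ 2)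
    (fun j => le_of_eq rfl) (le_trans ?_ K.Mo)
  gcongr
  · exact le_of_eq rfl
  · exact K.geo _ 3

lemma mu_even : ∑' j, C.mu (2 * j + 2) ≤ D.Me := by
  refine geo_sum (v := fun j => 4 * C.z * C.U * C.β ^ (2 * (j + 1) + 2)) (r := 2 * C.β ^ 2)
    (fun j => le_of_eq rfl) (le_trans ?_ K.Me)
  have := K.geo (4 * C.z * C.U) 2
  rw [tsum_eq_zero_add' ENNReal.summable] at this
  calc _ = (4 * C.z * C.U * C.β ^ (2 * 0 + 2) + ∑' j, 4 * C.z * C.U * C.β ^ (2 * (j + 1) + 2)) +
        2 * C.β ^ 2 * (C.z * (C.W + C.U) + D.Me) := by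
        simp only [Cs.mu]; ring
    _ ≤ _ := add_le_add_left this _

lemma lam_sum : ∑' N, C.lam d N ≤ D.L := by
  refine geo_sum (v := fun N => 2 * C.z * C.GG0 * (1 + 2 * d * C.z) * C.β ^ (N + 1)) (r := C.β)
    (fun j => le_of_eq rfl) (le_trans ?_ K.L)
  gcongr
  · exact le_of_eq rfl
  · simp_rw [pow_succ', ← mul_assoc]
    rw [ENNReal.tsum_mul_left]
    exact mul_le_mul_right (geo_pow K.Γ1) _

end Hd

namespace Hx
variable {C : Cs} (H : Hx d C)
include H

lemma Ao (a : Lt d) : hs C.z (0 - step a) (iv a) (fun v => v.length) ≤ C.z * (1 + C.l) := by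
  rw [hs_snoc, step_iv, zero_sub, sub_self]
  refine mul_le_mul_right (le_trans (pf_mono _ (fun w => ?_) _) H.lB) _
  rw [mul_comm]
  simpa using mul_le_mul_right (I_append_le w [iv a]) _

lemma As (a : Lt d) : hs C.z 0 a (fun v => v.length) ≤ C.z * (C.g3 + C.lp) := by
  rw [hs_snoc, zero_sub]
  refine mul_le_mul_right (le_trans (le_of_eq ?_) (add_le_add (H.g3 a) (H.lp a))) _
  rw [← pf_add]
  congr 1; funext w; simp only [List.length_append, List.length_singleton]; push_cast; ring

lemma mass (N : ℕ) (a : Lt d) : (modelT d).q C.z (N + 2) [a] (fun _ => 1) ≤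
    (C.z * (1 + C.l) + C.z * (C.g3 + C.lp)) * C.ν * C.β ^ N := by
  have : ∀ (h : X d) c, phi C.z (N + 1) h c (fun _ => 1) ≤
      C.ν * C.β ^ N * hs C.z h c (fun v => v.length) := by
    intro h c
    rw [← hs_mul]
    exact hs_mono _ _ _ fun v _ => q_le_len _ _ _ _ (H.nu N)
  refine (q_single _ _ _ _).trans ((add_le_add (this _ _) (this _ _)).trans ?_)
  rw [← mul_add, mul_assoc _ C.ν, mul_comm, add_comm]
  exact mul_le_mul_left (add_le_add (H.Ao a) (H.As a)) _

lemma sq_one (a : Lt d) : phi2 C.z 0 0 a (fun r => nsq (step a + disp r)) ≤ C.z * C.g3 := by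
  rw [phi2]
  refine (add_le_add (phi_zero_disp _ _ _ (fun p => nsq (step a + p)))
    (phi_zero_disp _ _ _ (fun p => nsq (step a + p)))).trans ?_
  simpa [nsq_step, nsq_zero] using H.one_same a

lemma sq_gen {A B : ℝ≥0∞} (hAB : Adm A B) (N : ℕ) (a : Lt d) :
    (modelT d).q C.z (N + 2) [a] (fun r => nsq (step a + disp r)) ≤
      C.z * (1 + C.l) * C.mu N + C.z * (C.g3 + C.lp) * (A * (C.ν * C.β ^ N) + B * C.mu N) := by
  refine (q_single _ _ _ _).trans ?_
  rw [phi2, add_comm]
  refine add_le_add ?_ ?_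
  · refine le_trans ?_ (mul_le_mul_left (H.Ao a) _)
    rw [mul_comm, ← hs_mul]
    refine hs_mono _ _ _ fun v hv => le_trans (le_of_eq ?_) (q_le_len _ _ _ _ (H.mu_le N))
    congr 1; funext r
    beta_reduce
    rw [disp_append, hv.2.2, sq]; congr 2; abel
  · refine (phi_shift hAB _ _ _ _ _ (H.mu_le N)).trans ?_
    have : phi C.z (N + 1) 0 a (fun _ => 1) ≤ C.ν * C.β ^ N * hs C.z 0 a (fun v => v.length) := by
      rw [← hs_mul]
      exact hs_mono _ _ _ fun v _ => q_le_len _ _ _ _ (H.nu N)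
    have h2 := H.As a
    rw [add_zero, nsq_step, Nat.cast_one, mul_one]
    calc _ ≤ A * (C.ν * C.β ^ N * (C.z * (C.g3 + C.lp))) +
          B * C.mu N * (C.z * (C.g3 + C.lp)) := by
          gcongr
          exact this.trans (by gcongr)
      _ = _ := by ring

lemma sq_two {A B : ℝ≥0∞} (hAB : Adm A B) (a : Lt d) :
    (modelT d).q C.z 2 [a] (fun r => nsq (step a + disp r)) ≤
      C.z * C.z * C.G0 * C.G0 + C.z * C.l * C.mu 0 + C.z * C.z * C.g3 * C.g3 +
        C.z * C.lp * (A * C.ν + B * C.mu 0) := by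
  refine (q_single _ _ _ _).trans ?_
  rw [phi2, add_comm, add_assoc]
  refine add_le_add ?_ ?_
  · rw [phi, hs_snoc, step_iv, zero_sub, sub_self, mul_assoc, mul_assoc, mul_assoc, ← mul_add]
    refine mul_le_mul_right ?_ _
    have h1 : phi2 C.z 0 0 (iv a) sq ≤ C.z * C.G0 := by
      rw [phi2]
      refine (add_le_add (phi_zero_disp _ _ _ (fun p => nsq p))
        (phi_zero_disp _ _ _ (fun p => nsq p))).trans ?_
      simpa [nsq_step, nsq_zero, nsq_neg] using H.one_opp' (iv a)
    calc _ ≤ pf C.z (fun w => C.z * C.G0 * I w + C.mu 0 * (w.length * I w)) 0 := by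
          refine ENNReal.tsum_le_tsum fun w => ?_
          split_ifs with hw
          · refine mul_le_mul_right ?_ _
            have e : (fun r => (nsq (step a + disp (w ++ [iv a] ++ r)) : ℝ≥0∞)) = sq := by
              funext r
              rw [disp_append, disp_append, hw, disp_single, step_iv, sq]; congr 2; abel
            beta_reduce
            rw [e]
            refine (mul_le_mul' (I_append_le _ _) ((q_snoc _ _ _ _ _ (H.mu_le 0)).trans
              (add_le_add_left h1 _))).trans (le_of_eq (by ring))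
          · exact le_rfl
      _ ≤ _ := by
          rw [pf_add, pf_mul, pf_mul, mul_comm C.l, ← mul_assoc]
          exact add_le_add (mul_le_mul_right H.G0 _) (mul_le_mul_right H.l _)
  · rw [phi, hs_snoc, zero_sub, mul_assoc, mul_assoc, mul_assoc, ← mul_add]
    refine mul_le_mul_right ?_ _
    have h1 : ∀ (h : X d) c, phi2 C.z 0 h c (fun r => nsq (step a + disp r)) ≤
        A * C.ν + B * C.mu 0 := by
      intro h c
      have a1 := H.nu 0 h c
      have a2 := H.mu_le 0 h c
      rw [pow_zero, mul_one] at a1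
      refine le_trans ?_ (add_le_add (mul_le_mul_right a1 A) (mul_le_mul_right a2 B))
      simp only [phi2, phi_zero, mul_add, ← hs_mul]
      rw [add_add_add_comm, ← hs_add, ← hs_add]
      refine add_le_add (hs_mono _ _ _ fun v _ => ?_) (hs_mono _ _ _ fun v _ => ?_) <;>
        simpa [nsq_step, sq] using hAB _ (step a) (disp v)
    calc _ ≤ pf C.z (fun w => C.z * C.g3 * I (w ++ [a]) +
            (A * C.ν + B * C.mu 0) * (w.length * I (w ++ [a]))) (-step a) := by
          refine ENNReal.tsum_le_tsum fun w => ?_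
          split_ifs with hw
          · refine mul_le_mul_right ?_ _
            have e : (fun r => (nsq (step a + disp (w ++ [a] ++ r)) : ℝ≥0∞)) =
                fun r => (nsq (step a + disp r) : ℝ≥0∞) := by
              funext r
              rw [disp_append, disp_append, hw, disp_single]; congr 2; abel
            beta_reduce
            rw [e]
            refine (mul_le_mul_right ((q_snoc _ _ _ _ _ h1).trans
              (add_le_add_left (H.sq_one a) _)) _).trans (le_of_eq (by ring))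
          · exact le_rfl
      _ ≤ _ := by
          rw [pf_add, pf_mul, pf_mul, mul_comm C.lp, ← mul_assoc]
          exact add_le_add (mul_le_mul_right (H.g3 a) _) (mul_le_mul_right (H.lp a) _)

variable {D : Ds} (K : Hd d C D)
include K

omit H K in
lemma top_le {z B : ℝ≥0∞} {f : Lt d → ℝ≥0∞} (h : ∀ a, f a ≤ B) : z * ∑ a, f a ≤ 2 * d * z * B := by
  refine (mul_le_mul_right (sum_le_sum fun a _ => h a) z).trans (le_of_eq ?_)
  rw [sum_const_Lt]; ring

lemma mass_odd : ∑' x : X d, Pi C.z 1 x ≤ 2 * d * C.z * (C.z * (C.G0 + C.g3) +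
    (C.z * (1 + C.l) + C.z * (C.g3 + C.lp)) * C.ν * C.β * D.Γ) := by
  have := tsum_pf C.z (rh (d := d) 1) (fun _ => 1)
  simp only [mul_one] at this
  rw [Pi, this]
  have h2 := tsum_rh C.z 1 (fun _ : List (Lt d) => 1)
  simp only [mul_one] at h2
  rw [h2]
  refine top_le fun a => ?_
  rw [tsum_eq_zero_add' ENNReal.summable]
  refine add_le_add ((q_single _ _ _ _).trans (H.nu_T a)) ?_
  refine le_trans (ENNReal.tsum_le_tsum fun j => H.mass (2 * j + 1) a) ?_
  simpa using K.geo _ 1

lemma mass_even : ∑' x : X d, Pi C.z 0 x ≤ 2 * d * C.z * (1 +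
    (C.z * (1 + C.l) + C.z * (C.g3 + C.lp)) * C.ν * D.Γ) := by
  have := tsum_pf C.z (rh (d := d) 0) (fun _ => 1)
  simp only [mul_one] at this
  rw [Pi, this]
  have h2 := tsum_rh C.z 0 (fun _ : List (Lt d) => 1)
  simp only [mul_one] at h2
  rw [h2]
  refine top_le fun a => ?_
  rw [tsum_eq_zero_add' ENNReal.summable]
  refine add_le_add (le_of_eq (Model.q_zero _ _ _ _)) ?_
  refine le_trans (ENNReal.tsum_le_tsum fun j => H.mass (2 * j + 0) a) ?_
  simpa using K.geo _ 0

lemma sq_odd : ∑' x : X d, Pi C.z 1 x * nsq x ≤ 2 * d * C.z * (C.z * C.g3 +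
    C.z * (1 + C.l) * D.Mo + C.z * (C.g3 + C.lp) * (D.A1 * C.ν * C.β * D.Γ + D.B1 * D.Mo)) := by
  rw [Pi, tsum_pf C.z (rh (d := d) 1) (fun x => nsq x), tsum_rh]
  refine top_le fun a => ?_
  simp only [disp_cons]
  rw [tsum_eq_zero_add' ENNReal.summable, add_assoc]
  refine add_le_add ((q_single _ _ _ _).trans (H.sq_one a)) ?_
  refine le_trans (ENNReal.tsum_le_tsum fun j => H.sq_gen K.a1 (2 * j + 1) a) ?_
  have h1 := K.geo C.ν 1
  have h2 := K.mu_odd
  simp only [ENNReal.tsum_add, ENNReal.tsum_mul_left, pow_one] at h1 ⊢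
  rw [mul_assoc D.A1, mul_assoc D.A1]
  gcongr

lemma sq_even : ∑' x : X d, Pi C.z 0 x * nsq x ≤ 2 * d * C.z * (1 +
    (C.z * C.z * C.G0 * C.G0 + C.z * C.l * (C.z * (C.W + C.U)) + C.z * C.z * C.g3 * C.g3 +
        C.z * C.lp * (D.A2 * C.ν + D.B2 * (C.z * (C.W + C.U))) +
    (C.z * (1 + C.l) * D.Me +
      C.z * (C.g3 + C.lp) * (D.A3 * C.ν * C.β ^ 2 * D.Γ + D.B3 * D.Me)))) := by
  rw [Pi, tsum_pf C.z (rh (d := d) 0) (fun x => nsq x), tsum_rh]
  refine top_le fun a => ?_
  simp only [disp_cons]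
  rw [tsum_eq_zero_add' ENNReal.summable, tsum_eq_zero_add' ENNReal.summable]
  refine add_le_add (le_of_eq ?_) (add_le_add (H.sq_two K.a2 a) ?_)
  · simp [Model.q_zero, disp_nil, nsq_step]
  refine le_trans (ENNReal.tsum_le_tsum fun j => H.sq_gen K.a3 (2 * j + 2) a) ?_
  have h1 := K.geo C.ν 2
  have h2 := K.mu_even
  simp only [ENNReal.tsum_add, ENNReal.tsum_mul_left] at h1 ⊢
  rw [mul_assoc D.A3, mul_assoc D.A3]
  gcongr

lemma len_sum : ∑' w : List (Lt d), C.z ^ w.length * (rh 0 w + rh 1 w) * (w.length - 1 : ℕ) ≤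
    2 * d * C.z * D.L := by
  simp only [mul_add, add_mul, ENNReal.tsum_add, tsum_rh]
  rw [← mul_add, ← sum_add_distrib]
  refine top_le fun a => le_trans ?_ K.lam_sum
  simp only [List.length_cons, Nat.add_sub_cancel, add_zero]
  rw [tsum_even_add_odd (f := fun N => (modelT d).q C.z N [a] (fun r => r.length))
    ENNReal.summable ENNReal.summable, tsum_eq_zero_add' ENNReal.summable, Model.q_zero]
  simp only [List.length_nil, Nat.cast_zero, zero_add]
  exact ENNReal.tsum_le_tsum fun N => (q_single _ _ _ _).trans (H.lam_le N _ _)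

end Hx

end Pool.Agent.P.MP_2ab770_pr
end

-- part Pool.Agent.P.MP_2ab770_pr.XB
section

set_option autoImplicit false
set_option linter.dupNamespace false
set_option linter.unusedVariables false
set_option linter.unusedSectionVars false

namespace Pool.Agent.P.MP_2ab770_pr

open Finset Filter Topology MeasureTheory
open scoped ENNReal NNReal

variable {d : ℕ}

lemma step_ne (a : Lt d) : step a ≠ 0 := fun h => by
  have := nsq_step a
  rw [h, nsq_zero] at this
  exact zero_ne_one this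

lemma parity (e a b : Lt d) : step e - step a - step b ≠ 0 := fun h => by
  have h1 : ∀ c : Lt d, ∑ j, step c j = if c.2 then 1 else -1 := fun c => by simp [step]
  have := congrArg (fun x : X d => ∑ j, x j) h
  simp only [Pi.sub_apply, sum_sub_distrib, h1, Pi.zero_apply, sum_const_zero] at this
  split_ifs at this <;> omega

lemma G_le (z : ℝ≥0∞) (x : X d) :
    G z x ≤ (if x = 0 then 1 else 0) + z * ∑ a, G z (x - step a) := by
  rw [G, pf_cons, I_good good_nil]
  gcongr with a
  exact pf_mono z (I_cons_le a) _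

lemma G_two (z : ℝ≥0∞) (x : X d) : G z x + 2 * d * z * z * G z x ≤ (if x = 0 then 1 else 0) +
    z * ∑ a, (if x - step a = 0 then 1 else 0) + z * z * ∑ a, ∑ b, G z (x - step a - step b) := by
  have h : ∀ a : Lt d, pf z (fun w => I (a :: w)) (x - step a) + z * G z x ≤
      (if x - step a = 0 then 1 else 0) + z * ∑ b, G z (x - step a - step b) := by
    intro a
    rw [pf_cons, I_good (good_single a), add_assoc, ← mul_add]
    gcongr
    have e : G z x = ∑ b, if b = iv a then G z x else 0 := by simp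
    rw [e, ← sum_add_distrib]
    refine sum_le_sum fun b _ => ?_
    split_ifs with hb
    · have : ∀ w, I (a :: iv a :: w) = 0 := fun w =>
        I_not fun hw => not_good_rev a (good_left (u := [a, iv a]) hw)
      simp [hb, this, pf, step_iv]
    · rw [add_zero]
      exact pf_mono z (fun w => (I_cons_le _ _).trans (I_cons_le _ _)) _
  calc _ = (if x = 0 then 1 else 0) +
        z * ∑ a, (pf z (fun w => I (a :: w)) (x - step a) + z * G z x) := by
        have e : G z x = _ := pf_cons z I x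
        rw [I_good good_nil] at e
        rw [sum_add_distrib, sum_const_Lt, mul_add, ← add_assoc, ← e]
        ring
    _ ≤ (if x = 0 then 1 else 0) + z * ∑ a, ((if x - step a = 0 then 1 else 0) +
        z * ∑ b, G z (x - step a - step b)) := add_le_add_right (mul_le_mul_right (sum_le_sum fun a _ => h a) _) _
    _ = _ := by rw [sum_add_distrib, ← mul_sum]; ring

lemma pf_end (z : ℝ≥0∞) (φ : List (Lt d) → ℝ≥0∞) (a : Lt d) (h : φ [iv a] = 1) :
    pf z (fun w => φ w * I (w ++ [a])) (-step a) + z ≤ pf z (fun w => φ w * I w) (-step a) := by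
  classical
  have := pf_one z [iv a] (-step a)
  rw [if_pos (by rw [disp_single, step_iv]), List.length_singleton, pow_one] at this
  refine le_trans (le_of_eq ?_) (pf_mono z (φ := fun w => φ w * I (w ++ [a]) +
    if w = [iv a] then 1 else 0) (fun w => ?_) _)
  · rw [pf_add, this]
  · split_ifs with hw
    · have := not_good_rev (iv a)
      rw [iv_iv] at this
      simp [hw, h, I_not this, I_good (good_single _)]
    · rw [add_zero]; exact mul_le_mul_right (I_append_le _ _) _

lemma B_two (z : ℝ≥0∞) :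
    pf z (fun w => (w.length + 1) * I w) (0 : X d) + 2 * d * z * z ≤ GG z (0 : X d) := by
  classical
  have e : pf z (fun w => ∑ a : Lt d, if w = [a, iv a] then 1 else 0) (0 : X d) = 2 * d * z * z := by
    rw [pf_sum, mul_assoc, ← sum_const_Lt]
    refine sum_congr rfl fun a _ => ?_
    rw [pf_one, if_pos (by simp [disp, step_iv])]; simp [pow_two]
  rw [← e, ← pf_add, GG, G, ← pf_cat]
  refine pf_mono z (fun w => ?_) _
  by_cases h : ∃ a, w = [a, iv a]
  · obtain ⟨a, rfl⟩ := h
    rw [sum_eq_single a (fun b _ hb => if_neg (by simp [hb.symm])) (by simp), if_pos rfl,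
      I_not (not_good_rev a)]
    simp [ssum_cons, ssum_nil, I_good (good_single _), I_not (not_good_rev a)]
  · rw [sum_eq_zero fun a _ => if_neg fun h' => h ⟨a, h'⟩, add_zero]; exact ssum_I w

lemma GG_le (z : ℝ≥0∞) (y : X d) : GG z y ≤ G z y + z * ∑ a, GG z (y - step a) := by
  rw [GG, ec]
  refine (ENNReal.tsum_le_tsum fun x => mul_le_mul_right (G_le z (y - x)) _).trans (le_of_eq ?_)
  simp only [mul_add, ENNReal.tsum_add, mul_left_comm _ z, mul_sum]
  rw [tsum_eq_single y fun x hx => by simp [sub_eq_zero, hx.symm],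
    Summable.tsum_finsetSum fun _ _ => ENNReal.summable]
  simp only [sub_self, if_true, mul_one, ENNReal.tsum_mul_left, ec, sub_right_comm y _ (step _)]

lemma len_le (z : ℝ≥0∞) (x : X d) :
    pf z (fun w => w.length * I w) x ≤ z * ∑ a, GG z (x - step a) := by
  rw [pf_cons]
  simp only [List.length_nil, Nat.cast_zero, zero_mul, ite_self, zero_add]
  gcongr with a
  refine le_trans (pf_mono z (fun w => ?_) _) (B_le_GG z _)
  simpa using mul_le_mul_right (I_cons_le a w) _

lemma Sy.nb {u : X d → ℝ} (h : Sy u) : Sy (rc nn u) := fun S x => by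
  rw [rc_nn, rc_nn, ← S.σ.sum_comp]
  exact sum_congr rfl fun a _ => by rw [S.hs, ← map_sub, h]

lemma Sy.avg {u : X d → ℝ} (h : Sy u) (a : Lt d) : rc nn u 0 = 2 * d * u (step a) := by
  have : ∀ b, u (0 - step b) = u (step a) := fun b => by
    rw [zero_sub, h.neg]
    exact sym_const (fun c => u (step c)) (fun S c => by rw [S.hs, h]) b a
  simp [rc_nn, this, mul_comm, -zero_sub]

lemma Sy.cv {u : X d → ℝ} (h : Sy u) : Sy (rc u u) := fun S x => by
  unfold rc
  rw [← S.T.toEquiv.tsum_eq]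
  refine tsum_congr fun y => ?_
  change u (S.T y) * u (S.T x - S.T y) = _
  rw [← map_sub, h, h]

lemma FT_N (hd : 0 < d) {u : X d → ℝ} {ψ : (Fin d → ℝ) → ℝ} (h : Summable u ∧ ∀ k, FT u k = ψ k) :
    Summable (rc nn u) ∧ ∀ k, FT (rc nn u) k = ((2 * d * DD k * ψ k : ℝ) : ℂ) :=
  ⟨rc_summ summ_nn h.1, fun k => by rw [FT_rc summ_nn h.1, FT_nn hd, h.2, ← Complex.ofReal_mul]⟩

lemma fbounds (hd : 0 < d) {J1 J2 J K : ℝ} (H : Ints d J1 J2 J) {g : X d → ℝ} (hg : Nc g)
    (hK : ∀ k, YY k * |CT g k| ≤ K) :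
    (∀ x, ∑ a, ∑ b, g (x - step a - step b) ≤ (2 * d) ^ 2 * (K * J1)) ∧
    (∀ e, ∑ a, ∑ b, ∑ c, g (step e - step a - step b - step c) ≤ (2 * d) ^ 3 * (K * J2)) ∧
    (∀ y, rc g g y ≤ K ^ 2 * (1 + 2 * J1 + J)) ∧
    (∀ e, ∑ a, rc g g (step e - step a) ≤ 2 * d * (K ^ 2 * J)) ∧
    (∀ e, rc g g 0 + rc g g (step e) ≤ K ^ 2 * (1 + 3 * J1 + 2 * J)) ∧
    (∀ y, y ≠ 0 → rc g g y + 2 * g 0 ≤ 2 * g y + rc g g 0 + 1) := by
  have hd0 : (0 : ℝ) < 2 * d := by have : (0 : ℝ) < d := by exact_mod_cast hd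
                                   linarith
  have h0 : Summable g ∧ ∀ k, FT g k = CT g k := ⟨hg.s, FT_even hg.s hg.y.neg⟩
  have h2 : Summable (rc g g) ∧ ∀ k, FT (rc g g) k = (CT g k ^ 2 : ℝ) :=
    ⟨rc_summ hg.s hg.s, fun k => by rw [FT_rc hg.s hg.s, h0.2]; push_cast; ring⟩
  have b1 : ∀ᵐ k ∂(mu d), |CT g k| ≤ K / YY k ∧ CT g k ^ 2 ≤ K ^ 2 / YY k ^ 2 ∧
      0 < YY k ∧ YY k < 2 :=
    (ae_DD hd).mono fun k hk => by
      have : |CT g k| ≤ K / YY k := by rw [le_div_iff₀ hk.1, mul_comm]; exact hK k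
      exact ⟨this, by rw [← sq_abs, ← div_pow]; gcongr, hk⟩
  refine ⟨fun x => ?_, fun e => ?_, fun y => ?_, fun e => ?_, fun e => ?_, fun y hy => ?_⟩
  · have h := FT_N hd (FT_N hd h0)
    have := le_integral_of h.1 h.2 (H.i1.1.const_mul ((2 * d) ^ 2 * K)) (b1.mono fun k hk => by
      rw [← mul_assoc, abs_mul, abs_mul_self]
      exact (mul_le_mul_of_nonneg_left hk.1 (mul_self_nonneg _)).trans (le_of_eq (by ring))) x
    have K0 : 0 ≤ K := le_trans (mul_nonneg (YY_nonneg 0) (abs_nonneg _)) (hK 0)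
    simp only [rc_nn, integral_const_mul] at this
    rw [← mul_assoc]
    exact this.trans (mul_le_mul_of_nonneg_left H.i1.2 (by positivity))
  · have h := FT_N hd (FT_N hd (FT_N hd (FT_N hd h0)))
    have := le_integral_of h.1 h.2 (H.i2.1.const_mul ((2 * d) ^ 4 * K)) (b1.mono fun k hk => by
      rw [show ∀ a b : ℝ, a * (a * (a * (a * b))) = (a ^ 2) ^ 2 * b from fun a b => by ring,
        abs_mul, abs_sq]
      exact (mul_le_mul_of_nonneg_left hk.1 (sq_nonneg _)).trans (le_of_eq (by ring))) 0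
    have K0 : 0 ≤ K := le_trans (mul_nonneg (YY_nonneg 0) (abs_nonneg _)) (hK 0)
    rw [hg.y.nb.nb.nb.avg e, integral_const_mul] at this
    simp only [rc_nn] at this
    refine le_of_mul_le_mul_left (this.trans ?_) hd0
    exact (mul_le_mul_of_nonneg_left H.i2.2 (by positivity)).trans (le_of_eq (by ring))
  · have := le_integral_of h2.1 h2.2 ((H.w2 hd).1.const_mul (K ^ 2)) (b1.mono fun k hk => by
      rw [abs_sq, mul_one_div]; exact hk.2.1) y
    rw [integral_const_mul] at this
    exact this.trans ((mul_le_mul_of_nonneg_left (H.w2 hd).2 (by positivity)).trans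
      (le_of_eq (by ring)))
  · have h := FT_N hd (FT_N hd h2)
    have := zero_le_integral_of h.1 h.2 (H.i3.1.const_mul ((2 * d) ^ 2 * K ^ 2))
      (b1.mono fun k hk => by
        rw [← mul_assoc]
        exact (mul_le_mul_of_nonneg_left hk.2.1 (mul_self_nonneg _)).trans (le_of_eq (by ring)))
    rw [hg.y.cv.nb.avg e, integral_const_mul, rc_nn] at this
    refine le_of_mul_le_mul_left (this.trans ?_) hd0
    exact (mul_le_mul_of_nonneg_left H.i3.2 (by positivity)).trans (le_of_eq (by ring))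
  · have h := FT_N hd h2
    obtain ⟨i1, i2⟩ := H.poly hd (a := 1) (b := 3) (c := 3) (e := 2) (by norm_num) (by norm_num)
      (m := fun k => (1 + DD k) / YY k ^ 2) fun k hk => by rw [DD]; field_simp; ring
    have := zero_le_integral_of ((h2.1.mul_left (2 * d : ℝ)).add h.1)
      (ψ := fun k => 2 * d * (1 + DD k) * CT g k ^ 2) (fun k => by
        rw [FT_add (h2.1.mul_left _) h.1, FT_mul, h.2, h2.2]; push_cast; ring)
      (i1.const_mul (2 * d * K ^ 2)) (b1.mono fun k hk => by
        have : 0 ≤ 1 + DD k := by rw [DD]; linarith [hk.2.2.2]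
        exact (mul_le_mul_of_nonneg_left hk.2.1 (by positivity)).trans (le_of_eq (by ring)))
    rw [hg.y.cv.avg e, integral_const_mul, ← mul_add] at this
    refine le_of_mul_le_mul_left (this.trans ?_) hd0
    exact (mul_le_mul_of_nonneg_left i2 (by positivity)).trans (le_of_eq (by ring))
  · have s1 := h2.1.sub (hg.s.mul_left 2)
    have hF : ∀ k, FT (fun x => rc g g x - 2 * g x + dl 0 x) k = (((CT g k - 1) ^ 2 : ℝ) : ℂ) :=
      fun k => by
        rw [FT_add s1 (summ_dl 0), FT_sub h2.1 (hg.s.mul_left 2), FT_mul, h2.2, h0.2, FT_dl,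
          chr_zero]
        push_cast; ring
    obtain ⟨i1, i2⟩ := real_inv (s1.add (summ_dl 0)) hF
    have := le_integral_of (s1.add (summ_dl 0)) hF i1
      (Eventually.of_forall fun k => (abs_sq _).le) y
    have i3 := i2 0
    simp only [th_zero, Real.cos_zero, mul_one] at i3
    rw [← i3] at this
    simp only [dl, if_neg hy, if_true] at this
    linarith

lemma nc_of {F : X d → ℝ≥0∞} (f1 : ∑' x, F x ≠ ⊤) (f2 : ∑' x, F x * nsq x ≠ ⊤)
    (sy : ∀ (S : Sym d) x, F (S.T x) = F x) : Nc fun x => (F x).toReal :=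
  ⟨fun x => ENNReal.toReal_nonneg, ENNReal.summable_toReal f1,
    (ENNReal.summable_toReal f2).congr fun x => by simp [mul_comm],
    fun S x => by simp only [sy]⟩

lemma ec_real {F H : X d → ℝ≥0∞} (f1 : ∑' x, F x ≠ ⊤) (f2 : ∑' x, H x ≠ ⊤) (y : X d) :
    ec F H y ≠ ⊤ ∧ (ec F H y).toReal = rc (fun x => (F x).toReal) (fun x => (H x).toReal) y := by
  refine ⟨ENNReal.ne_top_of_tsum_ne_top (by rw [tsum_ec]; finiteness) y, ?_⟩
  rw [ec, ENNReal.tsum_toReal_eq fun x => ENNReal.mul_ne_top (ENNReal.ne_top_of_tsum_ne_top f1 _)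
    (ENNReal.ne_top_of_tsum_ne_top f2 _)]
  simp only [ENNReal.toReal_mul, rc]

/-- real valued two point function -/
noncomputable def Gr (z : ℝ≥0) (x : X d) : ℝ := (G z x).toReal

theorem hx_of (hd : 0 < d) {J1 J2 J z c K W G0 g3 G1 GG0 GGe GG1 b nu U AU BU l lp : ℝ≥0}
    (H : Ints d J1 J2 J) (hc : c = 2 * d * z) (f1 : ∑' x : X d, G z x ≠ ⊤)
    (f2 : ∑' x : X d, G z x * nsq x ≠ ⊤) (hK : ∀ k : Fin d → ℝ, YY k * |CT (Gr z) k| ≤ K)
    (hW : ∀ x : X d, nsq x * Gr z x ≤ W)
    (c1 : 1 + c ^ 2 * (K * J1) ≤ G0 + c * z) (c2 : c ^ 3 * (K * J2) ≤ g3 + c * z * z)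
    (c3 : z + g3 ≤ G1) (c4 : c ^ 2 * (K * J1) ≤ G1) (c5 : K ^ 2 * (1 + 2 * J1 + J) ≤ GG0)
    (c6 : z + g3 + c * (K ^ 2 * J) ≤ GGe) (c7 : 2 * G1 + GG0 ≤ GG1 + 1)
    (c8 : z * (K ^ 2 * (1 + 3 * J1 + 2 * J)) ≤ b) (c9 : z * (GG1 + GG1) ≤ b)
    (c10 : z * (G0 + g3) ≤ nu) (c11 : z * (G1 + G1) ≤ nu) (c12 : G0 ≤ U)
    (c13 : AU * W + BU * G1 ≤ U) (c14 : Adm AU BU) (c15 : W ≤ U) (c16 : GG0 ≤ 1 + l + c * z)
    (c17 : c * (K ^ 2 * J) ≤ lp + z) :
    Hx d ⟨z, G0, g3, G1, GG0, GGe, b, nu, U, W, l, lp⟩ ∧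
      (∀ y : X d, rc (Gr z) (Gr z) y ≤ GG0) ∧ ∀ y : X d, y ≠ 0 → rc (Gr z) (Gr z) y ≤ GG1 := by
  obtain ⟨b1, b2, b3, b4, b5, b6⟩ := fbounds hd H (nc_of f1 f2 fun S => G_sym S z) hK
  obtain ⟨g, hg⟩ : ∃ g : X d → ℝ≥0, ∀ x, G z x = g x :=
    ⟨fun x => (G z x).toNNReal, fun x =>
      (ENNReal.coe_toNNReal (ENNReal.ne_top_of_tsum_ne_top f1 x)).symm⟩
  obtain ⟨gg, hgg⟩ : ∃ gg : X d → ℝ≥0, ∀ x, GG z x = gg x :=
    ⟨fun x => (GG z x).toNNReal, fun x => (ENNReal.coe_toNNReal (ec_real f1 f1 x).1).symm⟩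
  have e2 : ∀ y, rc (fun x => (G z x).toReal) (fun x => (G z x).toReal) y = gg y := fun y => by
    rw [← (ec_real f1 f1 y).2, ← GG, hgg]; rfl
  unfold Gr at hW ⊢
  simp only [e2] at b3 b4 b5 b6 ⊢
  simp only [hg, ENNReal.coe_toReal] at b1 b2 b6 hW
  norm_cast at b1 b2 b3 b4 b5 b6 hW
  push_cast at b1 b2 b4
  have a0 : 1 ≤ g 0 := by have := one_le_G (d := d) z; rw [hg] at this; exact_mod_cast this
  have a1 : ∀ x, g x + c * z * g x ≤ (if x = 0 then 1 else 0) +
      z * ∑ a, (if x - step a = 0 then 1 else 0) + z * z * ∑ a, ∑ b, g (x - step a - step b) := by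
    intro x
    have := G_two z x
    simp only [hg] at this
    rw [hc, ← ENNReal.coe_le_coe]
    push_cast [apply_ite]
    exact this
  have a2 : ∀ x, g x ≤ (if x = 0 then 1 else 0) + z * ∑ a, g (x - step a) := by
    intro x
    have := G_le z x
    simp only [hg] at this
    rw [← ENNReal.coe_le_coe]
    push_cast [apply_ite]
    exact this
  have a3 : ∀ x, z * z * ∑ a, ∑ b, g (x - step a - step b) ≤ c ^ 2 * (K * J1) := fun x =>
    (mul_le_mul_right (b1 x) _).trans (le_of_eq (by rw [hc]; ring))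
  have a4 : g 0 ≤ G0 := by
    have := (a1 0).trans (add_le_add_right (a3 0) _)
    simp only [if_true, zero_sub, neg_eq_zero, step_ne, if_false, sum_const_zero, mul_zero,
      add_zero] at this
    exact le_of_add_le_add_right ((add_le_add_right (le_mul_of_one_le_right' a0) _).trans
      (this.trans c1))
  have a5 : ∀ e, z ≤ g (step e) := fun e => by
    have := le_add_self.trans (pf_end z (fun _ => 1) (iv e) rfl)
    simp only [one_mul, step_iv, neg_neg] at this
    have h2 := this.trans_eq (hg _)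
    exact_mod_cast h2
  have a6 : ∀ e, g (step e) ≤ z + g3 := fun e => by
    have h1 := a1 (step e)
    simp only [step_ne, if_false, sub_eq_zero, step_injective.eq_iff, sum_ite_eq, mem_univ, if_true,
      zero_add, mul_one] at h1
    have h2 : ∑ a, ∑ b, g (step e - step a - step b) ≤
        z * ∑ a, ∑ b, ∑ c, g (step e - step a - step b - step c) := by
      rw [mul_sum]
      refine sum_le_sum fun a _ => ?_
      rw [mul_sum]
      exact sum_le_sum fun b _ => by simpa [parity] using a2 (step e - step a - step b)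
    refine le_of_add_le_add_right ((add_le_add_right (mul_le_mul_right (a5 e) (c * z)) _).trans
      (h1.trans ?_))
    rw [add_assoc]
    refine add_le_add_right (le_trans ?_ c2) _
    exact (mul_le_mul_right (h2.trans (mul_le_mul_right (b2 e) _)) _).trans
      (le_of_eq (by rw [hc]; ring))
  have a7 : ∀ y, y ≠ 0 → g y ≤ G1 := fun y hy => by
    by_cases h : ∃ e, y = step e
    · obtain ⟨e, rfl⟩ := h
      exact (a6 e).trans c3
    · have := (a1 y).trans (add_le_add_right (a3 y) _)
      rw [if_neg hy, sum_eq_zero fun a _ => if_neg fun h' => h ⟨a, sub_eq_zero.1 h'⟩] at this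
      exact le_self_add.trans (this.trans (by simpa using c4))
  have a8 : ∀ y, gg y ≤ GG0 := fun y => (b3 y).trans c5
  have a9 : ∀ y, y ≠ 0 → gg y ≤ GG1 := fun y hy => by
    have h1 := b6 y hy
    have h2 := a7 y hy
    have h3 := a8 0
    rw [← NNReal.coe_le_coe] at *
    push_cast at *
    linarith
  have a10 : ∀ e, z * ∑ a, gg (step e - step a) ≤ c * (K ^ 2 * J) := fun e =>
    (mul_le_mul_right (b4 e) _).trans (le_of_eq (by rw [hc]; ring))
  have a11 : pf z (fun w => (w.length + 1) * I w) (0 : X d) ≤ 1 + l := by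
    have := (B_two (d := d) z).trans_eq (hgg 0)
    refine ENNReal.le_of_add_le_add_right (by finiteness) (this.trans ?_)
    have := (a8 0).trans c16
    rw [hc] at this
    exact_mod_cast this
  have gn : ∀ y, gg (-y) = gg y := fun y => by
    have := GG_neg z y
    rw [hgg, hgg] at this
    exact_mod_cast this
  refine ⟨⟨?_, fun a => ?_, fun y hy => ?_, fun y => ?_, fun a => ?_, fun y a => ?_, ?_, ?_,
    fun y => ?_, fun y a => ?_, ?_, ?_, a11, fun a => ?_⟩, fun y => by exact_mod_cast a8 y,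
    fun y hy => by exact_mod_cast a9 y hy⟩ <;> dsimp only
  · rw [hg]; exact_mod_cast a4
  · have := pf_end z (fun _ => 1) a rfl
    simp only [one_mul] at this
    refine ENNReal.le_of_add_le_add_right ENNReal.coe_ne_top ((this.trans_eq (hg _)).trans ?_)
    rw [← step_iv, add_comm]
    exact_mod_cast a6 _
  · rw [hg]; exact_mod_cast a7 y hy
  · rw [hgg]; exact_mod_cast a8 y
  · refine (GG_le z _).trans ?_
    simp only [hg, hgg]
    exact_mod_cast (add_le_add (a6 a) (a10 a)).trans c6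
  · rw [hgg, hgg]
    norm_cast
    by_cases h1 : y = 0
    · rw [h1, zero_add]; exact (mul_le_mul_right (b5 a) _).trans c8
    by_cases h2 : y + step a = 0
    · rw [h2, eq_neg_of_add_eq_zero_left h2, gn, add_comm]
      exact (mul_le_mul_right (b5 a) _).trans c8
    · exact (mul_le_mul_right (add_le_add (a9 _ h1) (a9 _ h2)) _).trans c9
  · exact_mod_cast c10
  · exact_mod_cast c11
  · rw [hg]; exact_mod_cast hW y
  · by_cases h1 : y = 0
    · rw [h1, zero_add, nsq_step, hg, Nat.cast_one, one_mul]; exact_mod_cast a4.trans c12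
    · refine (mul_le_mul_left (c14 d y _) _).trans ?_
      rw [nsq_step, hg, Nat.cast_one, mul_one, add_mul, mul_assoc]
      exact_mod_cast (add_le_add (mul_le_mul_right (hW y) _) (mul_le_mul_right (a7 y h1) _)).trans c13
  · exact_mod_cast c15
  · refine ENNReal.le_of_add_le_add_left ENNReal.one_ne_top (le_trans ?_ a11)
    simp only [add_mul, one_mul, pf_add]
    rw [add_comm]
    exact add_le_add_right (one_le_G z) _
  · refine ENNReal.le_of_add_le_add_right ENNReal.coe_ne_top
      ((pf_end z (fun w => w.length) a (by simp)).trans ((len_le z _).trans ?_))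
    simp only [hgg, ← step_iv]
    exact_mod_cast (a10 _).trans c17

end Pool.Agent.P.MP_2ab770_pr
end

-- part Pool.Agent.P.MP_2ab770_pr.Cert
section

set_option autoImplicit false
set_option linter.dupNamespace false
set_option linter.unusedVariables false
set_option linter.unusedSectionVars false

namespace Pool.Agent.P.MP_2ab770_pr

open Finset Filter Topology MeasureTheory
open scoped ENNReal NNReal

variable {d : ℕ}

/-- constants for one interval of the bootstrap -/
structure Ct (R : Type) where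
  (lo hi K W G0 g3 G1 GG0 GGe GG1 b nu U AU BU l lp Ga Gb Mo Me A1 B1 A2 B2 A3 B3 : R)
  (sm sp pm pq Kn Ke lam al g h h0 Wn L : R)

/-- change of scalars -/
def Ct.map {R S : Type} (f : R → S) (C : Ct R) : Ct S :=
  ⟨f C.lo, f C.hi, f C.K, f C.W, f C.G0, f C.g3, f C.G1, f C.GG0, f C.GGe, f C.GG1, f C.b,
    f C.nu, f C.U, f C.AU, f C.BU, f C.l, f C.lp, f C.Ga, f C.Gb, f C.Mo, f C.Me, f C.A1,
    f C.B1, f C.A2, f C.B2, f C.A3, f C.B3, f C.sm, f C.sp, f C.pm, f C.pq, f C.Kn, f C.Ke,
    f C.lam, f C.al, f C.g, f C.h, f C.h0, f C.Wn, f C.L⟩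

section
variable {R S : Type} [Semifield R] [LinearOrder R] [Semifield S] [LinearOrder S]

/-- admissible pair -/
def adm (A B : R) : Prop := ¬ A ≤ 1 ∧ A + B ≤ A * B

/-- infrared condition -/
def kap (K sm pq t z : R) : Prop :=
  ¬ K ≤ 0 ∧ (K⁻¹ + sm ≤ t * (1 + z * z) ∨ 2 * (K⁻¹ + sm) + pq ≤ 1 + t * (1 + z * z) + t * z)

/-- position space conditions -/
def Ct.ok1 (C : Ct R) (zl zh J1 J2 J : R) : Prop :=
  1 + C.hi ^ 2 * (C.K * J1) ≤ C.G0 + C.lo * zl ∧ C.hi ^ 3 * (C.K * J2) ≤ C.g3 + C.lo * zl * zl ∧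
  zh + C.g3 ≤ C.G1 ∧ C.hi ^ 2 * (C.K * J1) ≤ C.G1 ∧ C.K ^ 2 * (1 + 2 * J1 + J) ≤ C.GG0 ∧
  zh + C.g3 + C.hi * (C.K ^ 2 * J) ≤ C.GGe ∧ 2 * C.G1 + C.GG0 ≤ C.GG1 + 1 ∧
  zh * (C.K ^ 2 * (1 + 3 * J1 + 2 * J)) ≤ C.b ∧ zh * (C.GG1 + C.GG1) ≤ C.b ∧
  zh * (C.G0 + C.g3) ≤ C.nu ∧ zh * (C.G1 + C.G1) ≤ C.nu ∧ C.G0 ≤ C.U ∧
  C.AU * C.W + C.BU * C.G1 ≤ C.U ∧ adm C.AU C.BU ∧ C.W ≤ C.U ∧ C.GG0 ≤ 1 + C.l + C.lo * zl ∧
  C.hi * (C.K ^ 2 * J) ≤ C.lp + zl

/-- diagram conditions -/
def Ct.ok2 (C : Ct R) (zh : R) : Prop :=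
  1 + C.b ^ 2 * C.Ga ≤ C.Ga ∧ 1 + C.b * C.Gb ≤ C.Gb ∧
  2 * (zh * zh * (C.U * C.GGe + C.W * C.GG0)) + 4 * zh * C.U * C.b ^ 3 * C.Ga +
    2 * C.b ^ 2 * C.Mo ≤ C.Mo ∧
  4 * zh * C.U * C.b ^ 2 * C.Ga + 2 * C.b ^ 2 * (zh * (C.W + C.U) + C.Me) ≤ C.Me ∧
  adm C.A1 C.B1 ∧ adm C.A2 C.B2 ∧ adm C.A3 C.B3 ∧
  C.b + 2 * zh * C.GG0 * (1 + C.hi) * C.b * C.Gb + C.b * C.L ≤ C.L

/-- conditions on the kernel -/
def Ct.ok3 (C : Ct R) (zl zh ze J1 J : R) : Prop :=
  C.hi * (zh * (C.G0 + C.g3) + (zh * (1 + C.l) + zh * (C.g3 + C.lp)) * C.nu * C.b * C.Ga) ≤ C.pm ∧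
  C.hi * ((zh * (1 + C.l) + zh * (C.g3 + C.lp)) * C.nu * C.Ga) ≤ C.pq + C.lo * (zl * zl) ∧
  C.hi * (zh * C.g3 + zh * (1 + C.l) * C.Mo +
    zh * (C.g3 + C.lp) * (C.A1 * C.nu * C.b * C.Ga + C.B1 * C.Mo)) ≤ C.sm ∧
  C.hi * (zh * zh * C.G0 * C.G0 + zh * C.l * (zh * (C.W + C.U)) + zh * zh * C.g3 * C.g3 +
    zh * C.lp * (C.A2 * C.nu + C.B2 * (zh * (C.W + C.U))) + (zh * (1 + C.l) * C.Me +
      zh * (C.g3 + C.lp) * (C.A3 * C.nu * C.b ^ 2 * C.Ga + C.B3 * C.Me))) ≤
        C.sp + C.lo * (zl * zl) ∧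
  kap C.Kn C.sm C.pq C.lo zl ∧ kap C.Ke C.sm C.pq C.hi ze ∧
  C.Kn * (C.hi * (1 + zh * zh) + C.sm) ^ 2 ≤ C.lam ∧
  C.sp * C.GG0 + C.sm * C.GG1 + C.al + 2 * C.g * J1 + C.h * (J1 + J) +
    2 * C.h0 * (1 + 2 * J1 + J) ≤ C.Wn ∧
  100 * (C.hi * C.L) ≤ 99 ∧ ¬ C.K ≤ C.Kn ∧ ¬ C.W ≤ C.Wn

/-- all semiring conditions -/
def Ct.ok (C : Ct R) (xl xh : R) : Prop :=
  C.ok1 (xl * C.lo) (xh * C.hi) (1564 / 10000) (564 / 10000) (624 / 1000) ∧ C.ok2 (xh * C.hi) ∧
    C.ok3 (xl * C.lo) (xh * C.hi) (xl * C.hi) (1564 / 10000) (624 / 1000)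

lemma Ct.ok_map (φ : R →+* S) (hφ : ∀ a b, a ≤ b ↔ φ a ≤ φ b) (C : Ct R) (xl xh : R) :
    C.ok xl xh ↔ (C.map φ).ok (φ xl) (φ xh) := by
  simp only [Ct.ok, Ct.ok1, Ct.ok2, Ct.ok3, adm, kap, Ct.map, hφ, map_add, map_mul, map_pow,
    map_ofNat, map_one, map_zero, map_inv₀, map_div₀]

end

/-- majorant conditions -/
def Ct.okM {R : Type} [Field R] [LinearOrder R] (C : Ct R) (xl xh : R) : Prop :=
  Maj (C.Kn * C.Kn) C.lam (4 * C.sp * (2 * xh)) (C.lo * (1 + xl * C.lo * (xl * C.lo))) (2 * xh)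
    C.al C.g C.h C.h0 ∧
  Maj (C.Kn * C.Kn) C.lam (4 * C.sp * (2 * xh)) (C.hi * (1 + xh * C.hi * (xh * C.hi))) (2 * xh)
    C.al C.g C.h C.h0

lemma Ct.okM_map (C : Ct ℚ) (xl xh : ℚ) (h : C.okM xl xh) :
    (C.map (Rat.castHom ℝ)).okM xl xh := by
  simp only [Ct.okM, Maj, quad, Ct.map, eq_ratCast] at h ⊢
  exact_mod_cast h

lemma adm.le {A B : ℝ≥0} (h : adm A B) : Adm A B :=
  adm_of (by exact_mod_cast not_le.1 h.1) (by exact_mod_cast h.2)

lemma Sy_nn : Sy (nn (d := d)) := fun S x => by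
  rw [nn, nn, ← S.σ.sum_comp]
  exact sum_congr rfl fun a _ => by simp [dl, S.hs]

lemma nn_le {f : X d → ℝ} {ζ : ℝ} (h0 : ∀ x, 0 ≤ f x) (h : ∀ a, ζ ≤ f (step a)) (x : X d) :
    ζ * nn x ≤ f x := by
  by_cases hx : ∃ a, x = step a
  · obtain ⟨a, rfl⟩ := hx
    simpa [nn, dl, step_injective.eq_iff] using h a
  · have : nn x = 0 := sum_eq_zero fun a _ => if_neg fun h' => hx ⟨a, h'⟩
    rw [this, mul_zero]; exact h0 x

lemma kap.mono {K sm pq t z t' z' : ℝ≥0} (h : kap K sm pq t z) (h1 : t ≤ t') (h2 : z ≤ z') :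
    (K⁻¹ + sm : ℝ) ≤ t' * (1 + z' * z') ∨
      2 * (K⁻¹ + sm : ℝ) + pq ≤ 1 + t' * (1 + z' * z') + t' * z' := by
  norm_cast
  exact h.2.imp (fun h => h.trans (by gcongr)) fun h => h.trans (by gcongr)

theorem Ct.step (hd : 0 < d) (H : Ints d 0.1564 0.0564 0.624) (C : Ct ℝ≥0) {xl xh z : ℝ≥0}
    (h1 : C.ok xl xh) (h2 : (C.map NNReal.toReal).okM xl xh) (hxl : xl * (2 * d) ≤ 1)
    (hxh : 1 ≤ xh * (2 * d)) (lo : C.lo ≤ 2 * d * z) (hi : 2 * d * z ≤ C.hi)
    (f1 : ∑' x : X d, G z x ≠ ⊤) (f2 : ∑' x : X d, G z x * nsq x ≠ ⊤)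
    (hK : ∀ k : Fin d → ℝ, YY k * |CT (Gr z) k| ≤ C.K) (hW : ∀ x : X d, nsq x * Gr z x ≤ C.W) :
    (∀ k : Fin d → ℝ, YY k * |CT (Gr z) k| ≤ C.Kn) ∧ (∀ x : X d, nsq x * Gr z x ≤ C.Wn) ∧
      (2 * d * z = C.hi → ∀ k : Fin d → ℝ, YY k * |CT (Gr z) k| ≤ C.Ke) ∧
      2 * d * z < 1 + C.pm ∧
      100 * ∑' w : List (Lt d), (z : ℝ≥0∞) ^ w.length * (rh 0 w + rh 1 w) * (w.length - 1 : ℕ) ≤
        99 := by
  obtain ⟨⟨c1, c2, c3, c4, c5, c6, c7, c8, c9, c10, c11, c12, c13, c14, c15, c16, c17⟩,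
    ⟨e1, e2, e3, e4, e5, e6, e7, e8⟩, k1, k2, k3, k4, k5, k6, k7, k8, k9, -⟩ := h1
  obtain ⟨c, hc⟩ : ∃ c, c = 2 * d * z := ⟨_, rfl⟩
  rw [← hc] at lo hi ⊢
  have zl' : xl * c ≤ z := by rw [hc, ← mul_assoc]; exact mul_le_of_le_one_left' hxl
  have zl : xl * C.lo ≤ z := le_trans (by gcongr) zl'
  have zh : z ≤ xh * C.hi :=
    le_trans (by rw [hc, ← mul_assoc]; exact le_mul_of_one_le_left' hxh) (by gcongr : xh * c ≤ _)
  obtain ⟨m1, m2⟩ := h2
  simp only [Ct.map] at m1 m2
  norm_cast at m1 m2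
  generalize xl * C.lo = zl at *
  generalize xh * C.hi = zh at *
  obtain ⟨X1, X2, X3⟩ := hx_of hd (J1 := 1564 / 10000) (J2 := 564 / 10000) (J := 624 / 1000)
    (G0 := C.G0) (g3 := C.g3) (G1 := C.G1) (GGe := C.GGe) (b := C.b) (nu := C.nu) (l := C.l)
    (lp := C.lp) (by convert H <;> norm_num) hc f1 f2 hK hW
    (le_trans (by gcongr) (c1.trans (by gcongr))) (le_trans (by gcongr) (c2.trans (by gcongr)))
    (le_trans (by gcongr) c3) (le_trans (by gcongr) c4) c5 (le_trans (by gcongr) c6) c7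
    (le_trans (by gcongr) c8) (le_trans (by gcongr) c9) (le_trans (by gcongr) c10)
    (le_trans (by gcongr) c11) c12 c13 c14.le c15 (c16.trans (by gcongr))
    (le_trans (by gcongr) (c17.trans (by gcongr)))
  have hc' : 2 * d * (z : ℝ≥0∞) = c := by rw [hc]; norm_cast
  have D : Hd d ⟨z, C.G0, C.g3, C.G1, C.GG0, C.GGe, C.b, C.nu, C.U, C.W, C.l, C.lp⟩
      ⟨C.Ga, C.Gb, C.Mo, C.Me, C.A1, C.B1, C.A2, C.B2, C.A3, C.B3, C.L⟩ := by
    refine ⟨?_, ?_, ?_, ?_, e5.le, e6.le, e7.le, ?_⟩ <;> dsimp only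
    · exact_mod_cast e1
    · exact_mod_cast e2
    · exact_mod_cast le_trans (by gcongr) e3
    · exact_mod_cast le_trans (by gcongr) e4
    · rw [hc']; exact_mod_cast le_trans (by gcongr) e8
  have p1 := X1.mass_odd D
  have p2 := X1.mass_even D
  have p3 := X1.sq_odd D
  have p4 := X1.sq_even D
  have p5 := X1.len_sum D
  dsimp only at p1 p2 p3 p4 p5
  rw [hc'] at p1 p2 p3 p4 p5
  replace p1 : ∑' x : X d, Pi z 1 x ≤ C.pm := p1.trans (by exact_mod_cast le_trans (by gcongr) k1)
  replace p2 : ∑' x : X d, Pi z 0 x ≤ (c + (C.pq + c * (z * z)) : ℝ≥0) := p2.trans (by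
    rw [mul_add, mul_one]
    exact_mod_cast add_le_add_right (le_trans (by gcongr) (k2.trans (by gcongr))) c)
  replace p3 : ∑' x : X d, Pi z 1 x * nsq x ≤ C.sm :=
    p3.trans (by exact_mod_cast le_trans (by gcongr) k3)
  replace p4 : ∑' x : X d, Pi z 0 x * nsq x ≤ (c + (C.sp + c * (z * z)) : ℝ≥0) := p4.trans (by
    rw [mul_add, mul_one]
    exact_mod_cast add_le_add_right (le_trans (by gcongr) (k4.trans (by gcongr))) c)
  have t1 := ne_top_of_le_ne_top ENNReal.coe_ne_top p1
  have t2 := ne_top_of_le_ne_top ENNReal.coe_ne_top p2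
  have t3 := ne_top_of_le_ne_top ENNReal.coe_ne_top p3
  have t4 := ne_top_of_le_ne_top ENNReal.coe_ne_top p4
  have n0 := nc_of f1 f2 fun S => G_sym S z
  have n1 := nc_of t1 t3 fun S => Pi_sym S z 1
  have n2 := nc_of t2 t4 fun S => Pi_sym S z 0
  have tr : ∀ {F : X d → ℝ≥0∞} {B : ℝ≥0}, ∑' x, F x ≤ B → ∑' x, (F x).toReal ≤ B := fun h => by
    rw [← ENNReal.tsum_toReal_eq
      (ENNReal.ne_top_of_tsum_ne_top (ne_top_of_le_ne_top ENNReal.coe_ne_top h))]
    exact ENNReal.toReal_le_coe_of_le_coe h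
  have q1 := tr p1
  have q2 := tr p2
  have q3 := tr p3
  have q4 := tr p4
  simp only [ENNReal.toReal_mul, ENNReal.toReal_natCast, mul_comm _ (nsq _ : ℝ)] at q3 q4
  set ζ : ℝ := z + z ^ 3 with hζ
  have cζ : 2 * d * ζ = c * (1 + z * z) := by rw [hζ, hc]; push_cast; ring
  have sn : HasSum (fun x : X d => ζ * nn x) (2 * d * ζ) := by
    convert (summ_nn_mul (d := d) fun _ => ζ) using 1
    · funext x; ring
    · simp [mul_comm]
  have sq : HasSum (fun x : X d => nsq x * ((Pi z 0 x).toReal - ζ * nn x))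
      (∑' x : X d, nsq x * (Pi z 0 x).toReal - 2 * d * ζ) :=
    hasSum_cg (n2.q.hasSum.sub sn) fun x => by
      linear_combination (-ζ) * congrFun (nsq_nn (d := d)) x
  have R : RP ζ (Gr (d := d) z) (fun x => (Pi z 0 x).toReal - ζ * nn x)
      fun x => (Pi z 1 x).toReal := by
    refine ⟨hd, by positivity, n0, ⟨fun x => sub_nonneg.2 (nn_le n2.n0 (fun a => ?_) x),
      n2.s.sub sn.summable, sq.summable, fun S x => by simp only [Pi_sym, Sy_nn S x]⟩, n1, funext fun x => ?_⟩
    · have := ENNReal.toReal_mono (ENNReal.ne_top_of_tsum_ne_top t2 _) (Pi_zero_ge z a)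
      rw [ENNReal.toReal_add (by finiteness) (by finiteness)] at this
      simpa using this
    · have := congrArg ENNReal.toReal (G_identity z x)
      rw [ENNReal.toReal_add (ENNReal.ne_top_of_tsum_ne_top f1 _) (ec_real t1 f1 x).1,
        ENNReal.toReal_add (by split_ifs <;> simp) (ec_real t2 f1 x).1, (ec_real t1 f1 x).2,
        (ec_real t2 f1 x).2, apply_ite ENNReal.toReal] at this
      have e := (rc_pt n2.s n0.s x).tsum_sub (rc_pt n1.s n0.s x)
      simp only [rc, dl, Gr, add_sub_cancel, sub_mul, ENNReal.toReal_one, ENNReal.toReal_zero]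
        at this ⊢
      linarith
  have r1 : ∑' x : X d, ((Pi z 0 x).toReal - ζ * nn x) ≤ C.pq := by
    rw [(n2.s.hasSum.sub sn).tsum_eq, cζ]
    push_cast at q2; linarith
  have r2 : ∑' x : X d, nsq x * ((Pi z 0 x).toReal - ζ * nn x) ≤ C.sp := by
    rw [sq.tsum_eq, cζ]
    push_cast at q4; linarith
  have r3 : (c : ℝ) * z ≤ ∑' x : X d, (Pi z 1 x).toReal := by
    refine le_trans ?_ (n1.s.le_tsum 0 fun x _ => n1.n0 x)
    have := ENNReal.toReal_mono (ENNReal.ne_top_of_tsum_ne_top t1 _) (Pi_one_ge z)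
    rw [pow_two, ← mul_assoc, hc'] at this
    simpa using this
  have inv : ∀ {K : ℝ≥0}, ¬ K ≤ 0 → (1 : ℝ) ≤ (K : ℝ)⁻¹ * K := fun h =>
    (inv_mul_cancel₀ (by exact_mod_cast (not_le.1 h).ne')).ge
  have ir : ∀ {K t y : ℝ≥0}, kap K C.sm C.pq t y → t ≤ c → y ≤ z →
      ∀ k : Fin d → ℝ, YY k * |CT (Gr z) k| ≤ K := fun h a1 a2 k => by
    obtain ⟨u, v⟩ := R.infrared q3 r1 r3 (cζ ▸ h.mono a1 a2) (inv h.1) NNReal.zero_le_coe k
    rwa [abs_of_pos u]
  refine ⟨ir k5 lo zl, fun x => ?_, fun h => ir k6 h.ge (h ▸ zl'), ?_, ?_⟩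
  · by_cases hx : x = 0
    · simp [hx, nsq_zero]
    have hd0 : (0 : ℝ) < d := by exact_mod_cast hd
    push_cast at m1 m2
    refine (R.W_le q3 r1 r3 (cζ ▸ k5.mono lo zl) (inv k5.1) NNReal.zero_le_coe H r2 X2 X3
      NNReal.zero_le_coe NNReal.zero_le_coe ?_ ?_ ?_ ?_ m1 m2 NNReal.zero_le_coe NNReal.zero_le_coe
      NNReal.zero_le_coe NNReal.zero_le_coe x hx).trans ?_
    · rw [cζ]; exact_mod_cast le_trans (by gcongr) k7
    · rw [cζ]; norm_cast; gcongr
    · rw [cζ]; norm_cast; gcongr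
    · rw [div_le_iff₀ hd0, mul_right_comm, mul_comm]; exact_mod_cast hxh
    · rw [← NNReal.coe_le_coe] at k8
      push_cast at k8
      norm_num at k8 ⊢
      exact k8
  · have := R.F0
    have a1 : 0 ≤ ∑' x : X d, ((Pi z 0 x).toReal - ζ * nn x) := tsum_nonneg R.p.n0
    have a2 : 0 ≤ (c : ℝ) * (z * z) := by positivity
    rw [← NNReal.coe_lt_coe]
    push_cast
    linarith
  · exact (mul_le_mul_right p5 _).trans (by exact_mod_cast le_trans (by gcongr) k9)

end Pool.Agent.P.MP_2ab770_pr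
end

-- part Pool.Agent.P.MP_2ab770_pr.Table
section

set_option autoImplicit false
set_option linter.dupNamespace false
set_option synthInstance.maxSize 4000

namespace Pool.Agent.P.MP_2ab770_pr

/-- value of an entry -/
def val (R : Type) [Semifield R] (n : ℕ) : R := n / 1000000

instance decOk (C : Ct ℚ) (xl xh : ℚ) : Decidable (C.ok xl xh ∧ C.okM xl xh) := by
  unfold Ct.ok Ct.ok1 Ct.ok2 Ct.ok3 Ct.okM Maj quad adm kap
  infer_instance

/-- check of a chain of intervals -/
def chain (xl xh : ℕ) : ℕ → ℕ → ℕ → List (Ct ℕ) → Bool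
  | _, _, _, [] => false
  | t, K, W, C :: L => decide (C.lo = t ∧ C.lo ≤ C.hi ∧ K < C.K ∧ W < C.W) &&
    decide ((C.map (val ℚ)).ok (val ℚ xl) (val ℚ xh) ∧ (C.map (val ℚ)).okM (val ℚ xl) (val ℚ xh)) &&
    (decide (1000000 + C.pm ≤ C.hi) || chain xl xh C.hi C.Ke C.Wn L)

/-- constants in dimension five -/
def tab5 : List (Ct ℕ) := [
  ⟨0, 200000, 2002980, 754000, 1012540, 910, 20910, 7770310, 521600, 6812130, 272490, 20270,
    1026100, 1166600, 7005000, 6770310, 500690, 1080210, 1374560, 8115, 13942, 2167000, 1856900,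
    2326000, 1754200, 3929000, 1341500, 313, 1750, 4260, 725, 2002710, 1662890, 80430, 200200,
    1000, 640500, 7800, 746310, 566580⟩,
  ⟨200000, 400000, 1680330, 771000, 1038050, 5990, 45990, 5468580, 750740, 4560560, 364850,
    41770, 1193680, 1244300, 5095000, 4464580, 684750, 1153560, 1574440, 36878, 68483, 2449000,
    1690200, 2372000, 1728900, 4268000, 1306000, 4485, 16077, 18440, 4666, 1680050, 1425520,
    275750, 297800, 423900, 295600, 0, 769460, 1128370⟩,
  ⟨400000, 500000, 1428240, 770460, 1039850, 9430, 59430, 3950820, 695870, 3069680, 306970,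
    52470, 1257940, 1277800, 4601000, 2934820, 596440, 1104040, 1442940, 34048, 55805, 2384000,
    1722600, 2391000, 1719000, 4198000, 1312700, 5116, 19570, 28260, 5936, 1428090, 1324440,
    366180, 324900, 99700, 0, 0, 449110, 821710⟩,
  ⟨500000, 600000, 1330940, 553000, 1049940, 14970, 74970, 3430860, 738190, 2580800, 309700,
    63900, 1049940, 1368200, 3716000, 2405860, 613220, 1106090, 1448650, 34053, 55907, 2248000,
    1801300, 2227000, 1815000, 3872000, 1348200, 7215, 25610, 41520, 9015, 1330850, 1238610,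
    494200, 321800, 380200, 0, 0, 547220, 876780⟩,
  ⟨600000, 700000, 1253490, 754000, 1060070, 22090, 96070, 3043180, 778410, 2235320, 312950,
    75760, 1388370, 1356900, 3802000, 2007180, 626320, 1108580, 1455500, 57562, 89018, 2480000,
    1675700, 2407000, 1710800, 4290000, 1304000, 14700, 47842, 57740, 12884, 1253240, 1169500,
    646310, 309700, 838600, 0, 0, 750470, 935680⟩,
  ⟨700000, 750000, 1169600, 751470, 1053900, 24400, 102900, 2649480, 739610, 1855280, 278780,
    80880, 1410560, 1370000, 3703000, 1600480, 570210, 1084270, 1386540, 52189, 72066, 2462000,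
    1684000, 2416000, 1706300, 4252000, 1307600, 13960, 45661, 65050, 12332, 1168110, 1129810,
    689310, 347000, 455000, 0, 0, 636210, 759290⟩,
  ⟨750000, 800000, 1133710, 678000, 1057230, 28520, 113480, 2489370, 750150, 1716330, 279400,
    86860, 1346250, 1409000, 3445000, 1433120, 566630, 1084680, 1387740, 52997, 73189, 2419000,
    1704800, 2366000, 1732100, 4155000, 1317000, 15945, 50219, 74590, 14042, 1133450, 1096980,
    764120, 334500, 599300, 0, 0, 674350, 773500⟩,
  ⟨800000, 850000, 1104870, 769000, 1060850, 33150, 124850, 2364330, 765630, 1614030, 281950,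
    92990, 1513640, 1403000, 3482000, 1300330, 567480, 1086370, 1392670, 66052, 89528, 2523000,
    1656600, 2445000, 1692100, 4339000, 1299500, 21240, 64250, 85020, 16054, 1104620, 1069610,
    850340, 315100, 847400, 0, 0, 766360, 799290⟩,
  ⟨850000, 900000, 1079230, 879000, 1064480, 38240, 136730, 2255870, 782360, 1529330, 284840,
    99250, 1709160, 1394400, 3536000, 1183620, 569120, 1088300, 1398290, 82677, 109973, 2640000,
    1609800, 2532000, 1652800, 4543000, 1282300, 28265, 82142, 96280, 18278, 1079000, 1045220,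
    944410, 293600, 1130600, 0, 0, 875780, 827960⟩,
  ⟨900000, 930000, 1045720, 876780, 1060460, 40150, 141460, 2117950, 767750, 1400870, 276340,
    102360, 1722680, 1401700, 3490000, 1036950, 544600, 1082680, 1381870, 82195, 106111, 2639000,
    1610200, 2537000, 1650700, 4541000, 1282500, 28735, 81999, 102140, 17840, 1045490, 1026050,
    977180, 305400, 993000, 0, 0, 829940, 783070⟩,
  ⟨930000, 960000, 1029760, 862000, 1061940, 43350, 148430, 2053800, 774580, 1350660, 276610,
    106110, 1725880, 1415000, 3410000, 967310, 542230, 1082860, 1382390, 85553, 109717, 2641000,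
    1609400, 2531000, 1653200, 4533000, 1283100, 31468, 87684, 109350, 18990, 1029550, 1010570,
    1030200, 295100, 1098200, 0, 0, 861210, 790930⟩,
  ⟨960000, 990000, 1017300, 938000, 1063780, 46830, 155940, 2004400, 785150, 1316280, 278400,
    109960, 1858890, 1407700, 3453000, 912240, 543320, 1084020, 1385810, 97850, 123990, 2718000,
    1582100, 2587000, 1630200, 4664000, 1273000, 37100, 100956, 116990, 20388, 1017080, 998440,
    1093330, 283000, 1276800, 0, 0, 933580, 808070⟩,
  ⟨990000, 1010000, 999130, 934580, 1061400, 48360, 159410, 1933440, 778510, 1252260, 273960,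
    112090, 1865970, 1412900, 3422000, 835430, 530150, 1081150, 1377340, 97968, 121934, 2718000,
    1582100, 2589000, 1629400, 4662000, 1273100, 37749, 101147, 121390, 20139, 998970, 986840,
    1118330, 284300, 1224200, 0, 0, 910070, 785330⟩,
  ⟨1010000, 1030000, 989960, 937000, 1062250, 50710, 164260, 1898110, 783590, 1226630, 274280,
    114640, 1885910, 1418600, 3389000, 796100, 528880, 1081350, 1377950, 101737, 125899, 2730000,
    1578100, 2593000, 1627800, 4675000, 1272200, 40346, 106367, 126650, 20941, 989770, 977820,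
    1157200, 278200, 1300600, 0, 0, 936420, 791320⟩,
  ⟨1030000, 1040000, 977920, 937420, 1059340, 51120, 165430, 1852220, 775740, 1183080, 270250,
    115490, 1890460, 1420000, 3381000, 746130, 517620, 1078790, 1370340, 100745, 122870, 2730000,
    1578100, 2596000, 1626600, 4675000, 1272200, 39991, 104466, 128540, 20267, 977160, 971280,
    1163610, 283700, 1212500, 0, 0, 903780, 769180⟩,
  ⟨1040000, 1050000, 971380, 904780, 1059340, 52180, 167500, 1827530, 775420, 1162530, 269210,
    116710, 1850960, 1430200, 3325000, 719370, 514240, 1078140, 1368390, 98779, 120093, 2708000,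
    1585500, 2575000, 1635000, 4629000, 1275600, 39987, 103551, 131090, 20462, 971360, 965540,
    1178690, 282100, 1214100, 0, 0, 897600, 764980⟩,
  ⟨1050000, 1060000, 967690, 921000, 1059810, 53430, 170060, 1813670, 778820, 1153790, 269720,
    118010, 1882630, 1429600, 3328000, 703420, 514390, 1078460, 1369340, 102256, 123893, 2726000,
    1579400, 2587000, 1630200, 4659000, 1273300, 41849, 107499, 133850, 20903, 967490, 961700,
    1200140, 277400, 1268100, 0, 0, 917320, 769930⟩,
  ⟨1060000, 1070000, 963940, 940000, 1060250, 54700, 172610, 1799640, 782100, 1144860, 270160,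
    119300, 1918280, 1428500, 3334000, 687280, 514400, 1078740, 1370170, 106031, 127966, 2747000,
    1572500, 2602000, 1624300, 4692000, 1270900, 43832, 111690, 136640, 21336, 963730, 957980,
    1222070, 274100, 1320100, 0, 0, 938220, 774500⟩,
  ⟨1070000, 1080000, 961420, 991000, 1060900, 56060, 175390, 1790240, 786990, 1141020, 271260,
    120640, 2000290, 1420600, 3378000, 675750, 515930, 1079430, 1372240, 113419, 136225, 2792000,
    1558100, 2637000, 1610900, 4771000, 1265200, 47078, 119068, 139550, 21891, 961220, 955480,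
    1248490, 276500, 1355400, 27800, 0, 989050, 783080⟩,
  ⟨1080000, 1085000, 955580, 990050, 1059300, 56250, 175940, 1768560, 782980, 1120440, 269210,
    121040, 2000810, 1421500, 3373000, 651920, 510230, 1078140, 1368390, 112714, 134364, 2792000,
    1558100, 2638000, 1610600, 4770000, 1265300, 46794, 117729, 140510, 21484, 955040, 951500,
    1251140, 273900, 1349200, 6200, 0, 961410, 771750⟩,
  ⟨1085000, 1090000, 951600, 962410, 1059110, 56740, 176830, 1753860, 781660, 1107520, 268200,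
    121630, 1964370, 1428700, 3333000, 636140, 507420, 1077510, 1366500, 110261, 131144, 2772000,
    1564400, 2620000, 1617300, 4730000, 1268100, 46268, 115852, 141770, 21488, 951020, 946360,
    1256020, 272400, 1339400, 600, 0, 946270, 766700⟩,
  ⟨1090000, 1095000, 946460, 947270, 1058680, 57140, 177490, 1734960, 778720, 1089940, 266530,
    122190, 1944920, 1432800, 3311000, 616150, 503080, 1076480, 1363390, 108511, 128379, 2760000,
    1568200, 2610000, 1621200, 4707000, 1269800, 45809, 114194, 142940, 21375, 945950, 941340,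
    1259610, 270400, 1314900, 0, 0, 929760, 757760⟩,
  ⟨1095000, 1105000, 944490, 991000, 1060470, 58750, 180370, 1727750, 784350, 1088490, 267850,
    123680, 2017020, 1426700, 3344000, 607850, 505600, 1077290, 1365850, 115473, 136131, 2799000,
    1555900, 2640000, 1609800, 4774000, 1265000, 49108, 121688, 146130, 22210, 944270, 935120,
    1287320, 273100, 1338900, 43100, 0, 989250, 767470⟩,
  ⟨1105000, 1115000, 935520, 990250, 1059810, 59650, 181910, 1695090, 780080, 1058910, 265160,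
    124820, 2021070, 1428500, 3334000, 572990, 498430, 1075630, 1360850, 115216, 134266, 2799000,
    1555900, 2641000, 1609400, 4772000, 1265200, 49299, 121126, 148610, 22079, 935290, 926310,
    1298250, 270100, 1324200, 37700, 0, 971260, 753430⟩,
  ⟨1115000, 1125000, 926410, 972260, 1059060, 60540, 183380, 1662240, 775530, 1029000, 262350,
    125960, 2000220, 1434300, 3303000, 537920, 490990, 1073920, 1355660, 113213, 130532, 2787000,
    1559600, 2630000, 1613500, 4745000, 1267100, 48928, 119078, 151090, 21910, 925990, 917180,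
    1307260, 266500, 1307800, 26700, 0, 944700, 738850⟩,
  ⟨1125000, 1135000, 917280, 945700, 1058250, 61410, 184820, 1629630, 770830, 999270, 259500,
    127090, 1966680, 1441900, 3263000, 503070, 483420, 1072210, 1350440, 110358, 125951, 2767000,
    1566000, 2613000, 1620000, 4705000, 1270000, 48277, 116288, 153570, 21712, 916630, 907990,
    1315330, 262800, 1290100, 13300, 0, 914480, 724210⟩,
  ⟨1135000, 1145000, 908090, 915480, 1057380, 62270, 186200, 1597140, 765950, 969540, 256560,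
    128200, 1927470, 1450900, 3218000, 468320, 475680, 1070470, 1345100, 107108, 120983, 2745000,
    1573100, 2594000, 1627400, 4660000, 1273300, 47482, 113105, 156050, 21475, 907330, 898860,
    1322930, 259000, 1266300, 600, 0, 882250, 709270⟩,
  ⟨1145000, 1165000, 904180, 988000, 1060830, 65630, 191940, 1583420, 776450, 967300, 258800,
    131240, 2050970, 1440800, 3269000, 452320, 479820, 1071790, 1349170, 119450, 133983, 2812000,
    1551900, 2643000, 1608700, 4772000, 1265200, 53754, 126552, 162760, 23129, 903950, 887270,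
    1377760, 264000, 1258200, 98800, 0, 987050, 725440⟩]

/-- constants in higher dimensions -/
def tab6 : List (Ct ℕ) := [
  ⟨0, 200000, 2001910, 727000, 1012530, 910, 17580, 7762010, 517740, 6797170, 226580, 16900,
    1012530, 1155500, 7431000, 6762010, 500160, 1054120, 1292960, 4741, 7389, 2084000, 1922600,
    2310000, 1763400, 3843000, 1351800, 155, 1075, 3490, 491, 2001610, 1667780, 80240, 199900,
    1000, 637400, 4900, 726020, 410570⟩,
  ⟨200000, 400000, 1676690, 727020, 1041960, 6060, 41960, 5444910, 741100, 4528830, 301930,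
    34940, 1118370, 1240300, 5163000, 4444910, 701700, 1100310, 1432530, 18535, 32009, 2264000,
    1791200, 2327000, 1753600, 4023000, 1330800, 1988, 8758, 14930, 3154, 1676630, 1435890,
    271540, 294800, 366100, 0, 0, 466010, 747400⟩,
  ⟨400000, 600000, 1455730, 771000, 1081970, 17740, 81970, 4104370, 861160, 3268310, 326840,
    54990, 1355800, 1326100, 4067000, 3104370, 793410, 1119610, 1485540, 41026, 70136, 2428000,
    1700300, 2391000, 1719000, 4266000, 1306200, 8471, 30689, 35960, 9080, 1455630, 1270670,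
    541590, 339500, 872000, 0, 0, 765910, 959200⟩,
  ⟨600000, 700000, 1273260, 766910, 1097580, 24640, 97580, 3139930, 791120, 2335090, 272430,
    65470, 1411670, 1356700, 3804000, 2139930, 708140, 1080170, 1374440, 36619, 53162, 2379000,
    1725200, 2394000, 1717400, 4183000, 1314200, 8964, 34383, 48880, 11184, 1273170, 1196970,
    644250, 407400, 1000, 0, 0, 536610, 694940⟩,
  ⟨700000, 800000, 1206390, 668000, 1120760, 34840, 120760, 2818780, 828040, 2060300, 274710,
    77050, 1356830, 1425200, 3352000, 1818780, 726530, 1081630, 1378760, 41031, 58781, 2339000,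
    1746900, 2324000, 1755300, 4058000, 1327100, 13112, 46726, 66010, 15914, 1206380, 1137750,
    804600, 436100, 220900, 0, 0, 663930, 732050⟩,
  ⟨800000, 900000, 1159850, 974000, 1146940, 47690, 146940, 2605490, 878190, 1899370, 284910,
    89600, 1877620, 1388400, 3575000, 1605490, 755500, 1088350, 1398430, 73156, 100861, 2623000,
    1616200, 2545000, 1647300, 4570000, 1280200, 26447, 86145, 87040, 22438, 1159650, 1096090,
    1006250, 373200, 1041800, 0, 0, 973760, 812170⟩,
  ⟨900000, 950000, 1097350, 974760, 1154900, 53070, 154900, 2332260, 846080, 1642060, 260000,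
    95640, 1906850, 1398600, 3509000, 1332260, 713840, 1072510, 1351360, 69499, 86289, 2615000,
    1619200, 2545000, 1647300, 4528000, 1283500, 26696, 87395, 97070, 23909, 1097280, 1067980,
    1059540, 432300, 567700, 0, 0, 857550, 693260⟩,
  ⟨950000, 1000000, 1077460, 971000, 1168520, 60770, 168520, 2248470, 868520, 1585510, 264260,
    102450, 1948560, 1416500, 3401000, 1248470, 724420, 1075080, 1359180, 77547, 96178, 2633000,
    1612400, 2542000, 1648600, 4537000, 1282800, 32791, 103135, 109800, 27845, 1077260, 1033910,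
    1164580, 402800, 905800, 0, 0, 970030, 725070⟩,
  ⟨1000000, 1050000, 1038390, 985000, 1179060, 67800, 179060, 2088370, 861780, 1446490, 256370,
    109110, 2004050, 1426300, 3346000, 1088370, 706480, 1070350, 1344760, 81280, 96397, 2648000,
    1606800, 2549000, 1645600, 4544000, 1282200, 36755, 113125, 122440, 30716, 1038160, 986930,
    1244320, 380000, 1008300, 0, 0, 984810, 692100⟩,
  ⟨1050000, 1100000, 988840, 985810, 1187140, 74240, 187140, 1893820, 837080, 1268100, 243560,
    115630, 2032050, 1435600, 3296000, 893820, 671170, 1063070, 1321990, 81019, 90553, 2646000,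
    1607600, 2547000, 1646500, 4524000, 1283800, 38702, 117278, 135160, 32713, 988830, 942250,
    1303060, 364600, 936000, 0, 0, 928570, 632340⟩,
  ⟨1100000, 1150000, 943320, 929570, 1195120, 80920, 195120, 1723470, 815320, 1113710, 231720,
    122290, 1976480, 1458100, 3183000, 723470, 638560, 1056750, 1301610, 77290, 81669, 2607000,
    1622300, 2510000, 1662300, 4431000, 1291500, 39732, 117856, 148700, 34794, 943160, 900690,
    1358820, 352800, 839300, 0, 0, 862710, 580430⟩]

lemma chain5 : chain 100000 100000 0 2000000 0 tab5 = true := by decide +kernel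

lemma chain6 : chain 0 83334 0 2000000 0 tab6 = true := by decide +kernel

end Pool.Agent.P.MP_2ab770_pr
end

-- part Pool.Agent.P.MP_2ab770_pr.Num
section

set_option autoImplicit false
set_option linter.dupNamespace false
set_option linter.unusedVariables false
set_option linter.unusedSectionVars false

namespace Pool.Agent.P.MP_2ab770_pr

open Finset Filter Topology MeasureTheory Real
open scoped Nat

variable {d : ℕ}

lemma c1_even (j : ℕ) : c1 (2 * j) * 4 ^ j * (j ! : ℝ) ^ 2 = (2 * j)! := by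
  induction j with
  | zero => simp [c1_zero]
  | succ j ih =>
    have h := c1_succ (2 * j)
    rw [show 2 * (j + 1) = 2 * j + 1 + 1 by ring, Nat.factorial_succ (2 * j + 1),
      Nat.factorial_succ (2 * j), Nat.factorial_succ j]
    push_cast at h ⊢
    rw [← ih]
    linear_combination (4 ^ j * (j ! : ℝ) ^ 2 * (2 * j + 2)) * h

lemma sum_even {f : ℕ → ℝ} (h : ∀ j, f (2 * j + 1) = 0) (m : ℕ) :
    ∑ i ∈ range (2 * m + 1), f i = ∑ j ∈ range (m + 1), f (2 * j) := by
  induction m with
  | zero => simp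
  | succ m ih =>
    rw [show 2 * (m + 1) + 1 = 2 * m + 1 + 1 + 1 by ring, sum_range_succ, sum_range_succ, ih, h,
      sum_range_succ _ (m + 1)]
    simp [mul_add]

/-- rounded weights -/
def wt (i : ℕ) : ℕ := 2 ^ 470 * 1400 ^ i / (i !) ^ 2 + 1

/-- generating polynomial of the weights -/
noncomputable def qq : Polynomial ℕ := ∑ i ∈ range 501, Polynomial.monomial i (wt i)

lemma qq_coeff {i : ℕ} (h : i ≤ 500) : qq.coeff i = wt i := by
  simp only [qq, Polynomial.finsetSum_coeff, Polynomial.coeff_monomial]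
  rw [sum_ite_eq' (range 501) i wt, if_pos (mem_range.2 (by omega))]

lemma c1_le (j : ℕ) : c1 (2 * j) * 5600 ^ j * 2 ^ 470 ≤ (2 * j)! * wt j := by
  have h0 : 0 < (j !) ^ 2 := by positivity
  have h1 : 2 ^ 470 * 1400 ^ j ≤ wt j * (j !) ^ 2 := by
    rw [wt, add_mul, one_mul]; exact (Nat.lt_div_mul_add h0).le
  have h2 : (2 : ℝ) ^ 470 * 1400 ^ j ≤ wt j * (j ! : ℝ) ^ 2 := by exact_mod_cast h1
  have h3 : (0 : ℝ) < (j ! : ℝ) ^ 2 := by positivity
  refine le_of_mul_le_mul_right ?_ h3
  calc _ = (c1 (2 * j) * 4 ^ j * (j ! : ℝ) ^ 2) * (2 ^ 470 * 1400 ^ j) := by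
        rw [show (5600 : ℝ) = 4 * 1400 by norm_num, mul_pow]; ring
    _ ≤ _ := by
        rw [c1_even, mul_assoc]; exact mul_le_mul_of_nonneg_left h2 (by positivity)

lemma mom_le (d : ℕ) : ∀ m ≤ 500,
    mom d (2 * m) * 5600 ^ m * (2 ^ 470) ^ d ≤ (2 * m)! * (qq ^ d).coeff m := by
  induction d with
  | zero =>
    intro m hm
    rcases m with _ | m
    · simp [mom]
    · simp [mom, cs, Polynomial.coeff_one]
  | succ d ih =>
    intro m hm
    rw [mom_succ, sum_even fun j => by rw [c1_odd]; simp, pow_succ' qq, Polynomial.coeff_mul,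
      Nat.sum_antidiagonal_eq_sum_range_succ_mk, Nat.cast_sum, mul_sum, sum_mul, sum_mul]
    refine sum_le_sum fun j hj => ?_
    have hj := Nat.lt_succ_iff.1 (mem_range.1 hj)
    obtain ⟨i, rfl⟩ := Nat.exists_eq_add_of_le hj
    have a1 := ih i (by omega)
    have a2 := c1_le j
    have a3 : 0 ≤ mom d (2 * i) := integral_nonneg fun k => by simp only [pow_mul]; positivity
    have a4 : ((2 * (j + i)).choose (2 * j) : ℝ) * (2 * j)! * (2 * i)! = (2 * (j + i))! := by
      have := Nat.choose_mul_factorial_mul_factorial (show 2 * j ≤ 2 * (j + i) by omega)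
      rw [show 2 * (j + i) - 2 * j = 2 * i by omega] at this
      exact_mod_cast this
    rw [show 2 * (j + i) - 2 * j = 2 * i by omega, Nat.add_sub_cancel_left, qq_coeff (by omega),
      ← a4]
    have a5 := mul_le_mul_of_nonneg_left (mul_le_mul a2 a1 (by positivity) (by positivity))
      (Nat.cast_nonneg (α := ℝ) ((2 * (j + i)).choose (2 * j)))
    push_cast
    refine le_trans (le_of_eq ?_) (a5.trans (le_of_eq (by ring)))
    rw [pow_add, pow_succ]
    generalize (2 : ℝ) ^ 470 = S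
    ring

lemma digit {x : ℕ} (m : ℕ) : ∀ r : Polynomial ℕ, (∀ i, r.coeff i < x) →
    r.eval x / x ^ m % x = r.coeff m := by
  have key : ∀ r : Polynomial ℕ, r.eval x = r.coeff 0 + x * r.divX.eval x := fun r => by
    conv_lhs => rw [← r.divX_mul_X_add]
    simp; ring
  induction m with
  | zero =>
    intro r hr
    rw [key, pow_zero, Nat.div_one, Nat.add_mul_mod_self_left, Nat.mod_eq_of_lt (hr 0)]
  | succ m ih =>
    intro r hr
    have hx : 0 < x := (Nat.zero_le _).trans_lt (hr 0)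
    rw [pow_succ', ← Nat.div_div_eq_div_mul, key, Nat.add_mul_div_left _ _ hx,
      Nat.div_eq_of_lt (hr 0), zero_add, ih _ fun i => by rw [Polynomial.coeff_divX]; exact hr _,
      Polynomial.coeff_divX]

lemma coeff_le_eval (r : Polynomial ℕ) (i : ℕ) : r.coeff i ≤ r.eval 1 := by
  rw [Polynomial.eval_eq_sum, Polynomial.sum_def]
  by_cases h : i ∈ r.support
  · simp only [one_pow, mul_one]
    exact single_le_sum (f := fun i => r.coeff i) (fun _ _ => Nat.zero_le _) h
  · rw [Polynomial.notMem_support_iff.1 h]; exact Nat.zero_le _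

/-- packed weights -/
def PP : ℕ := ∑ i ∈ range 501, wt i * (2 ^ 3000) ^ i

/-- unpacked fifth convolution power -/
def dg (m : ℕ) : ℕ := (PP ^ 5 >>> (3000 * m)) % 2 ^ 3000

/-- rounded return probabilities -/
def uu (m : ℕ) : ℕ := (2 * m)! * dg m * 10 ^ 12 / (140000 ^ m * (2 ^ 470) ^ 5) + 1

lemma chk : (∑ i ∈ range 501, wt i * 1 ^ i) ^ 5 < 2 ^ 3000 ∧
    ∑ m ∈ range 500, uu (m + 1) ≤ 156297000000 ∧
    ∑ m ∈ range 500, uu (m + 2) ≤ 56297000000 ∧
    ∑ m ∈ range 500, (2 * m + 1) * uu (m + 1) ≤ 586700000000 := by decide +kernel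

lemma dg_eq (m : ℕ) : dg m = (qq ^ 5).coeff m := by
  have e : ∀ x : ℕ, (qq ^ 5).eval x = (∑ i ∈ range 501, wt i * x ^ i) ^ 5 := fun x => by
    simp only [qq, Polynomial.eval_pow, Polynomial.eval_finsetSum, Polynomial.eval_monomial]
  have h : ∀ i, (qq ^ 5).coeff i < 2 ^ 3000 := fun i => by
    refine (coeff_le_eval _ i).trans_lt ?_
    rw [e]; exact chk.1
  rw [← digit m _ h, e, dg, Nat.shiftRight_eq_div_pow, pow_mul, PP]

lemma pm_le_uu {m : ℕ} (hm : m ≤ 500) : pm 5 (2 * m) ≤ uu m / 10 ^ 12 := by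
  have h := mom_le 5 m hm
  rw [← dg_eq] at h
  have h0 : 0 < 140000 ^ m * (2 ^ 470) ^ 5 := by positivity
  have h1 : (2 * m)! * dg m * 10 ^ 12 ≤ uu m * (140000 ^ m * (2 ^ 470) ^ 5) := by
    rw [uu, add_mul, one_mul]; exact (Nat.lt_div_mul_add h0).le
  have h2 : ((2 * m)! : ℝ) * dg m * 10 ^ 12 ≤ uu m * (140000 ^ m * (2 ^ 470) ^ 5) := by
    exact_mod_cast h1
  have h3 : (0 : ℝ) < 2 ^ 470 := by positivity
  generalize (2 : ℝ) ^ 470 = S at *
  rw [pm_eq (by norm_num), div_le_div_iff₀ (by positivity) (by positivity)]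
  refine le_of_mul_le_mul_right ?_ (by positivity : (0 : ℝ) < 5600 ^ m * S ^ 5)
  have h4 : (140000 : ℝ) ^ m = ((5 : ℕ) : ℝ) ^ (2 * m) * 5600 ^ m := by
    rw [pow_mul, ← mul_pow]; norm_num
  rw [h4] at h2
  calc _ = mom 5 (2 * m) * 5600 ^ m * S ^ 5 * 10 ^ 12 := by ring
    _ ≤ _ := (mul_le_mul_of_nonneg_right h (by positivity)).trans (h2.trans (le_of_eq (by ring)))

lemma yy_ge {t : ℝ} (h : |t| ≤ 1 / 2) : 2 * π ^ 2 * 0.9894 * t ^ 2 ≤ yy t ∨ 1 / 20 ≤ yy t := by
  have h1 : |2 * π * t| ≤ π := by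
    rw [abs_mul, abs_of_pos (by positivity : 0 < 2 * π)]; nlinarith [pi_pos]
  rw [yy, show 2 * π ^ 2 * 0.9894 * t ^ 2 = 0.4947 * (2 * π * t) ^ 2 by ring]
  generalize 2 * π * t = x at *
  rcases le_total |x| 0.318 with h2 | h2
  · left
    have a1 := (abs_le.1 (cos_bound (h2.trans (by norm_num)))).2
    have a2 : x ^ 2 ≤ 0.318 ^ 2 := by rw [← sq_abs]; gcongr
    rw [show |x| ^ 4 = x ^ 2 * x ^ 2 by rw [← sq_abs]; ring] at a1
    nlinarith [sq_nonneg x]
  · right
    have a0 : |(0.318 : ℝ)| = 0.318 := abs_of_pos (by norm_num)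
    have a1 := (abs_le.1 (cos_bound (x := 0.318) (by rw [a0]; norm_num))).2
    have a2 := cos_le_cos_of_nonneg_of_le_pi (by norm_num) h1 h2
    rw [cos_abs] at a2
    rw [a0] at a1
    norm_num at a1 a2 ⊢
    linarith

lemma phi_le {m : ℝ} (hm : 500 ≤ m) :
    ∫ t, exp (-(2 * m / 5 * yy t)) ∂nu ≤ 0.63518 / √m := by
  set b := 2 * m / 5 * (2 * π ^ 2 * 0.9894)
  have hb : 0 < b := by have := pi_pos; positivity
  have hg := integrable_exp_neg_mul_sq hb
  have hr : 0 < √m := sqrt_pos.2 (by linarith)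
  have h1 : ∫ t, exp (-(2 * m / 5 * yy t)) ∂nu ≤ ∫ t, (exp (-b * t ^ 2) + exp (-(m / 50))) ∂nu := by
    refine integral_mono_ae (integrable_nu (by unfold yy; fun_prop)) (integrable_nu (by fun_prop))
      (ae_nu.mono fun t ht => ?_)
    rcases yy_ge ht.1 with h | h
    · refine le_add_of_le_of_nonneg (exp_le_exp.2 ?_) (exp_pos _).le
      have := mul_le_mul_of_nonneg_left h (show 0 ≤ 2 * m / 5 by positivity)
      simp only [b]; linarith
    · refine le_add_of_nonneg_of_le (exp_pos _).le (exp_le_exp.2 ?_)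
      nlinarith
  rw [integral_add (integrable_nu (by fun_prop)) (integrable_const _), integral_const] at h1
  have h2 : ∫ t, exp (-b * t ^ 2) ∂nu ≤ 0.63416 / √m := by
    refine (setIntegral_le_integral hg (Eventually.of_forall fun t => (exp_pos _).le)).trans ?_
    rw [integral_gaussian, sqrt_le_left (by positivity), div_pow, sq_sqrt (by linarith),
      div_le_div_iff₀ hb (by linarith)]
    have := pi_gt_d6
    have a1 : 0 ≤ π * m := by positivity
    simp only [b]
    nlinarith
  have h3 : exp (-(m / 50)) ≤ 0.00102 / √m := by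
    have a1 : 22000 ≤ exp 10 := by
      have := exp_one_gt_d9
      calc (22000 : ℝ) ≤ 2.7182818283 ^ 10 := by norm_num
        _ ≤ exp 1 ^ 10 := by gcongr
        _ = _ := by rw [← exp_nat_mul]; norm_num
    have a2 := add_one_le_exp (m / 50 - 10)
    have a3 : exp (m / 50) = exp 10 * exp (m / 50 - 10) := by rw [← exp_add]; ring_nf
    have a4 : 22000 * (m / 50 - 10 + 1) ≤ exp (m / 50) := by
      rw [a3]; exact mul_le_mul a1 a2 (by linarith) (by linarith)
    have a5 := sq_sqrt (show 0 ≤ m by linarith)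
    rw [exp_neg, inv_eq_one_div, div_le_div_iff₀ (exp_pos _) hr]
    nlinarith [sq_nonneg (√m - 22)]
  simp only [probReal_univ, smul_eq_mul, one_mul] at h1
  calc _ ≤ 0.63416 / √m + 0.00102 / √m := by linarith
    _ = _ := by rw [← add_div]; norm_num

lemma shift (s : ℝ) : ∫ t, exp (-(s * (2 - yy t))) ∂nu = ∫ t, exp (-(s * yy t)) ∂nu := by
  have hp : Function.Periodic (fun t => exp (-(s * yy t))) 1 := fun t => by
    simp only [yy, mul_add, mul_one, cos_add_two_pi]
  have e : ∀ t, 2 - yy t = yy (t + 1 / 2) := fun t => by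
    rw [yy, yy, show 2 * π * (t + 1 / 2) = 2 * π * t + π by ring, cos_add_pi]; ring
  simp only [e]
  rw [integral_nu, integral_nu, intervalIntegral.integral_comp_add_right
    (fun t => exp (-(s * yy t)))]
  have := hp.intervalIntegral_add_eq (-1 / 2 + 1 / 2) (-1 / 2)
  norm_num at this ⊢
  exact this

lemma pm_tail {m : ℕ} (hm : 500 ≤ m) : pm 5 (2 * m) ≤ 0.2068 / √m ^ 5 := by
  have hm' : (500 : ℝ) ≤ m := by exact_mod_cast hm
  have h1 : ∀ k : Fin 5 → ℝ, DD k ^ (2 * m) ≤ ∏ j, exp (-(2 * m / 5 * yy (k j))) +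
      ∏ j, exp (-(2 * m / 5 * (2 - yy (k j)))) := by
    intro k
    have e1 : ∏ j, exp (-(2 * m / 5 * yy (k j))) = exp (DD k - 1) ^ (2 * m) := by
      rw [← exp_sum, ← exp_nat_mul, DD, YY, sum_neg_distrib, ← mul_sum]; push_cast; ring_nf
    have e2 : ∏ j, exp (-(2 * m / 5 * (2 - yy (k j)))) = exp (-DD k - 1) ^ (2 * m) := by
      rw [← exp_sum, ← exp_nat_mul, DD, YY, sum_neg_distrib, ← mul_sum, sum_sub_distrib]
      simp; ring
    rw [e1, e2]
    rcases le_total 0 (DD k) with h | h
    · refine le_add_of_le_of_nonneg (pow_le_pow_left₀ h ?_ _) (by positivity)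
      linarith [add_one_le_exp (DD k - 1)]
    · rw [← (even_two_mul m).neg_pow]
      refine le_add_of_nonneg_of_le (by positivity) (pow_le_pow_left₀ (by linarith) ?_ _)
      linarith [add_one_le_exp (-DD k - 1)]
  have h2 := integral_mono (integrable_mu (continuous_DD.pow _))
    (integrable_mu (by unfold yy; fun_prop)) h1
  rw [integral_add (integrable_mu (by unfold yy; fun_prop)) (integrable_mu (by unfold yy; fun_prop)),
    mu, integral_fintype_prod_eq_pow (fun t => exp (-(2 * m / 5 * yy t))),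
    integral_fintype_prod_eq_pow (fun t => exp (-(2 * m / 5 * (2 - yy t)))), shift] at h2
  have h3 := pow_le_pow_left₀ (integral_nonneg fun t => (exp_pos _).le) (phi_le hm') 5
  have hr : 0 < √(m : ℝ) := sqrt_pos.2 (by linarith)
  simp only [Fintype.card_fin] at h2
  calc _ ≤ 2 * (0.63518 / √(m : ℝ)) ^ 5 := by
        refine le_trans h2 ?_; linarith
    _ = 2 * 0.63518 ^ 5 / √(m : ℝ) ^ 5 := by ring
    _ ≤ _ := by gcongr; norm_num

lemma tail_sum (K : ℕ) :
    ∑ m ∈ range K, (2 * (500 + m : ℕ) + 1 : ℝ) * pm 5 (2 * (500 + m + 1)) ≤ 0.037 := by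
  have : ∑ m ∈ range K, (2 * (500 + m : ℕ) + 1 : ℝ) * pm 5 (2 * (500 + m + 1)) ≤
      0.8272 / √((500 + 0 : ℕ) : ℝ) - 0.8272 / √((500 + K : ℕ) : ℝ) := by
    induction K with
    | zero => simp
    | succ K ih =>
      rw [sum_range_succ, ← add_assoc]
      have a1 := pm_tail (m := 500 + K + 1) (by omega)
      have a2 := sq_sqrt (Nat.cast_nonneg (α := ℝ) (500 + K))
      have a3 := sq_sqrt (Nat.cast_nonneg (α := ℝ) (500 + K + 1))
      have a4 : 0 < √((500 + K : ℕ) : ℝ) := sqrt_pos.2 (by positivity)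
      have a5 : √((500 + K : ℕ) : ℝ) ≤ √((500 + K + 1 : ℕ) : ℝ) := sqrt_le_sqrt (by push_cast; linarith)
      replace a3 := a3.trans (Nat.cast_succ (500 + K))
      have a6 : (0 : ℝ) ≤ (500 + K : ℕ) := Nat.cast_nonneg _
      generalize √((500 + K : ℕ) : ℝ) = q at *
      generalize √((500 + K + 1 : ℕ) : ℝ) = r at *
      generalize ((500 + K : ℕ) : ℝ) = n at *
      have hr : 0 < r := by linarith
      have a7 : (2 * n + 1) * (0.2068 / r ^ 5) ≤ 0.8272 / q - 0.8272 / r := by
        have b1 : (2 * n + 1) * (0.2068 / r ^ 5) ≤ 2 * r ^ 2 * (0.2068 / r ^ 5) := by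
          gcongr; linarith
        have b2 : 0.8272 / q - 0.8272 / r = 0.8272 / (q * r * (q + r)) := by
          field_simp; nlinarith
        have b3 : 0.8272 / (r * r * (r + r)) ≤ 0.8272 / (q * r * (q + r)) := by gcongr
        refine b1.trans (le_trans (le_of_eq ?_) (b3.trans b2.ge))
        field_simp; ring
      have := mul_le_mul_of_nonneg_left a1 (show 0 ≤ 2 * n + 1 by linarith)
      linarith
  have a1 : 22.36 ≤ √((500 + 0 : ℕ) : ℝ) := le_sqrt_of_sq_le (by norm_num)
  have a2 : 0.8272 / √((500 + 0 : ℕ) : ℝ) ≤ 0.8272 / 22.36 := by gcongr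
  have a3 : 0 ≤ 0.8272 / √((500 + K : ℕ) : ℝ) := by positivity
  have a4 : (0.8272 : ℝ) / 22.36 ≤ 0.037 := by norm_num
  linarith

theorem ints_five (hd : 5 ≤ d) : Ints d 0.1564 0.0564 0.624 := by
  have hP : ∀ m, 0 ≤ pm 5 (2 * m) := pm_even
  have sp : ∀ (f : ℕ → ℝ) (K n : ℕ), (∀ m, 0 ≤ f m) →
      ∑ m ∈ range K, f m ≤ ∑ m ∈ range n, f m + ∑ m ∈ range K, f (n + m) := fun f K n h => by
    rw [← sum_range_add]
    exact sum_le_sum_of_subset_of_nonneg (range_mono (by omega)) fun i _ _ => h i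
  have t1 : ∀ K, ∑ m ∈ range K, pm 5 (2 * (500 + m + 1)) ≤ 0.000037 := fun K => by
    have : 1000 * ∑ m ∈ range K, pm 5 (2 * (500 + m + 1)) ≤ 0.037 := by
      rw [mul_sum]
      refine le_trans (sum_le_sum fun m _ => mul_le_mul_of_nonneg_right ?_ (hP _)) (tail_sum K)
      push_cast; linarith [Nat.cast_nonneg (α := ℝ) m]
    linarith
  obtain ⟨-, c1, c2, c3⟩ := chk
  have c1 : ∑ m ∈ range 500, (uu (m + 1) : ℝ) ≤ 156297000000 := by exact_mod_cast c1
  have c2 : ∑ m ∈ range 499, (uu (m + 2) : ℝ) ≤ 56297000000 := by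
    exact_mod_cast (sum_le_sum_of_subset (range_mono (by omega))).trans c2
  have c3 : ∑ m ∈ range 500, (2 * m + 1) * (uu (m + 1) : ℝ) ≤ 586700000000 := by exact_mod_cast c3
  refine ints_of (by omega) (fun K => ?_) (fun K => ?_) fun K => ?_
  · refine (sum_le_sum fun m _ => pm_le_five hd _).trans ((sp _ K 500 fun m => hP _).trans ?_)
    have := sum_le_sum fun m (hm : m ∈ range 500) => pm_le_uu (m := m + 1) (mem_range.1 hm)
    rw [← sum_div] at this
    have := (div_le_div_iff_of_pos_right (by positivity : (0 : ℝ) < 10 ^ 12)).2 c1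
    linarith [t1 K]
  · refine (sum_le_sum fun m _ => pm_le_five hd _).trans ((sp _ K 499 fun m => hP _).trans ?_)
    have := sum_le_sum fun m (hm : m ∈ range 499) =>
      pm_le_uu (m := m + 2) (by have := mem_range.1 hm; omega)
    rw [← sum_div] at this
    have := (div_le_div_iff_of_pos_right (by positivity : (0 : ℝ) < 10 ^ 12)).2 c2
    have e : ∀ m, 499 + m + 2 = 500 + m + 1 := fun m => by ring
    simp only [e]
    linarith [t1 K]
  · refine (sum_le_sum fun m _ => mul_le_mul_of_nonneg_left (pm_le_five hd _) (by positivity)).trans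
      ((sp _ K 500 fun m => mul_nonneg (by positivity) (hP _)).trans ?_)
    have := sum_le_sum fun m (hm : m ∈ range 500) => mul_le_mul_of_nonneg_left
      (pm_le_uu (m := m + 1) (mem_range.1 hm)) (show (0 : ℝ) ≤ 2 * m + 1 by positivity)
    simp only [← mul_div_assoc] at this
    rw [← sum_div] at this
    have := (div_le_div_iff_of_pos_right (by positivity : (0 : ℝ) < 10 ^ 12)).2 c3
    linarith [tail_sum K]

end Pool.Agent.P.MP_2ab770_pr
end

-- part Pool.Agent.P.MP_2ab770_pr.Main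
section

set_option autoImplicit false
set_option linter.dupNamespace false
set_option linter.unusedVariables false
set_option linter.unusedSectionVars false

namespace Pool.Agent.P.MP_2ab770_pr

open Finset Filter Topology MeasureTheory
open scoped ENNReal NNReal

variable {d : ℕ}

/-- bootstrap hypothesis -/
def Hyp (d : ℕ) (z : ℝ≥0) (K W : ℝ) : Prop :=
  (∀ k : Fin d → ℝ, YY k * |CT (Gr z) k| ≤ K) ∧ ∀ x : X d, nsq x * Gr z x ≤ W

lemma Hyp.mono {z : ℝ≥0} {K W K' W' : ℝ} (h : Hyp d z K W) (h1 : K ≤ K') (h2 : W ≤ W') :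
    Hyp d z K' W' := ⟨fun k => (h.1 k).trans h1, fun x => (h.2 x).trans h2⟩

/-- weighted susceptibility -/
noncomputable def Ph (d : ℕ) (z : ℝ≥0) : ℝ≥0∞ := ∑' x : X d, G z x * (2 + nsq x)

lemma Ph_eq (z : ℝ≥0) :
    Ph d z = ∑' w : List (Lt d), (z : ℝ≥0∞) ^ w.length * I w * (2 + nsq (disp w)) :=
  tsum_pf z I fun x => 2 + nsq x

lemma nsq_disp (w : List (Lt d)) : nsq (disp w) ≤ d * w.length ^ 2 := by
  have : ∀ j, (disp w j).natAbs ≤ w.length := fun j => by
    induction w with
    | nil => simp [disp_nil]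
    | cons a w ih =>
      have : (step a j).natAbs ≤ 1 := by
        simp only [step, Pi.single_apply]; split_ifs <;> simp
      rw [disp_cons, Pi.add_apply, List.length_cons]
      omega
  refine (sum_le_sum fun j _ => Nat.pow_le_pow_left (this j) 2).trans (by simp)

lemma Ph_fin {z : ℝ≥0}
    (h : Summable fun n : ℕ => ((n : ℝ) + 1) ^ 3 * (tot (modelT d).ind n * (z : ℝ) ^ n)) :
    Ph d z ≠ ⊤ := by
  rw [Ph_eq, tsum_words]
  refine ne_top_of_le_ne_top (h.mul_left (2 + d : ℝ)).tsum_ofReal_ne_top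
    (ENNReal.tsum_le_tsum fun n => ?_)
  rw [tot, sum_mul, mul_sum, mul_sum, ENNReal.ofReal_sum_of_nonneg fun w _ => by
    have := (modelT d).ind_nonneg w; positivity]
  refine sum_le_sum fun w hw => ?_
  have h1 : (nsq (disp w) : ℝ) ≤ d * n ^ 2 := by
    rw [← mem_words.1 hw]; exact_mod_cast nsq_disp w
  have h0 := (modelT d).ind_nonneg w
  rw [ENNReal.le_ofReal_iff_toReal_le (by have := I_ne_top w; finiteness) (by positivity),
    ENNReal.toReal_mul, ENNReal.toReal_mul, ENNReal.toReal_add (by simp) (by simp), I_toReal,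
    mem_words.1 hw]
  simp only [ENNReal.toReal_pow, ENNReal.coe_toReal, ENNReal.toReal_ofNat, ENNReal.toReal_natCast]
  have h2 : 2 + (nsq (disp w) : ℝ) ≤ (2 + d) * (n + 1) ^ 3 := by
    have : (0 : ℝ) ≤ n := n.cast_nonneg
    have : (0 : ℝ) ≤ d := d.cast_nonneg
    nlinarith [mul_nonneg this (pow_nonneg ‹(0 : ℝ) ≤ n› 3), pow_nonneg ‹(0 : ℝ) ≤ n› 3,
      mul_nonneg this (sq_nonneg (n : ℝ)), mul_nonneg this ‹(0 : ℝ) ≤ n›]
  calc _ ≤ (z : ℝ) ^ n * (modelT d).ind w * ((2 + d) * (n + 1) ^ 3) := by gcongr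
    _ = _ := by ring

lemma Ph_parts {z : ℝ≥0} (h : Ph d z ≠ ⊤) :
    ∑' x : X d, G z x ≠ ⊤ ∧ ∑' x : X d, G z x * nsq x ≠ ⊤ :=
  ⟨ne_top_of_le_ne_top h (ENNReal.tsum_le_tsum fun x =>
      le_mul_of_one_le_right' (one_le_two.trans le_self_add)),
    ne_top_of_le_ne_top h (ENNReal.tsum_le_tsum fun x => mul_le_mul_right le_add_self _)⟩

lemma G_mono {s t : ℝ≥0} (h : s ≤ t) (x : X d) : G s x ≤ G t x :=
  ENNReal.tsum_le_tsum fun w => by split_ifs; gcongr; exact le_rfl

lemma Ph_mono {s t : ℝ≥0} (h : s ≤ t) : Ph d s ≤ Ph d t :=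
  ENNReal.tsum_le_tsum fun x => mul_le_mul_left (G_mono h x) _

lemma Ph_cont {a b : ℝ≥0} (h : Ph d b ≠ ⊤) :
    ContinuousOn (fun z => (Ph d z).toReal) (Set.Icc a b) := by
  have fin : ∀ (z : ℝ≥0) (w : List (Lt d)),
      (z : ℝ≥0∞) ^ w.length * I w * (2 + nsq (disp w)) ≠ ⊤ := fun z w => by
    have := I_ne_top w; finiteness
  simp only [Ph_eq, ENNReal.tsum_toReal_eq (fin _)] at h ⊢
  refine continuousOn_tsum (fun w => ?_) (ENNReal.summable_toReal h) fun w s hs => ?_
  · simp only [ENNReal.toReal_mul, ENNReal.toReal_pow, ENNReal.coe_toReal]; fun_prop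
  · rw [Real.norm_of_nonneg ENNReal.toReal_nonneg]
    exact ENNReal.toReal_mono (fin _ _) (by gcongr; exact hs.2)

lemma Ph_sum {z : ℝ≥0} (h : Ph d z ≠ ⊤) :
    HasSum (fun x : X d => Gr z x * (2 + nsq x)) (Ph d z).toReal := by
  rw [Ph, ENNReal.tsum_toReal_eq (ENNReal.ne_top_of_tsum_ne_top h)]
  exact hasSum_cg (ENNReal.hasSum_toReal h) fun x => by
    rw [ENNReal.toReal_mul, ENNReal.toReal_add (by simp) (by simp)]; simp [Gr]

lemma close (hd : 0 < d) {s t : ℝ≥0} (h : s ≤ t) (ht : Ph d t ≠ ⊤) :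
    (∀ k : Fin d → ℝ, abs (YY k * |CT (Gr t) k| - YY k * |CT (Gr s) k|) ≤
      (Ph d t).toReal - (Ph d s).toReal) ∧
    ∀ x : X d, |nsq x * Gr t x - nsq x * Gr s x| ≤ (Ph d t).toReal - (Ph d s).toReal := by
  have hs := ne_top_of_le_ne_top ht (Ph_mono h)
  have st : Summable (Gr (d := d) t) := ENNReal.summable_toReal (Ph_parts ht).1
  have ss : Summable (Gr (d := d) s) := ENNReal.summable_toReal (Ph_parts hs).1
  have D : ∀ x : X d, 0 ≤ Gr t x - Gr s x := fun x => sub_nonneg.2
    (ENNReal.toReal_mono (ENNReal.ne_top_of_tsum_ne_top (Ph_parts ht).1 x) (G_mono h x))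
  have S := (Ph_sum ht).sub (Ph_sum hs)
  simp only [← sub_mul] at S
  refine ⟨fun k => ?_, fun x => ?_⟩
  · have a1 := abs_CT_le (st.sub ss) D k
    have a2 : CT (fun x => Gr t x - Gr s x) k = CT (Gr t) k - CT (Gr s) k := by
      simp only [CT, sub_mul]
      exact (summ_bdd st fun x => Real.abs_cos_le_one _).tsum_sub
        (summ_bdd ss fun x => Real.abs_cos_le_one _)
    have a3 := hasSum_le (fun x => mul_le_mul_of_nonneg_left
      (le_add_of_nonneg_right (Nat.cast_nonneg _)) (D x)) ((st.sub ss).hasSum.mul_right 2) S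
    rw [← mul_sub, abs_mul, abs_of_nonneg (YY_nonneg k)]
    rw [a2] at a1
    have a4 := mul_le_mul (YY_le hd k) ((abs_abs_sub_abs_le_abs_sub _ _).trans a1) (abs_nonneg _)
      zero_le_two
    linarith
  · rw [← mul_sub, abs_of_nonneg (mul_nonneg (Nat.cast_nonneg _) (D x))]
    refine le_trans ?_ (le_hasSum S x fun y _ => mul_nonneg (D y) (by positivity))
    nlinarith [D x]

lemma Hyp.move (hd : 0 < d) {s t : ℝ≥0} (hs : Ph d s ≠ ⊤) (ht : Ph d t ≠ ⊤) {K W ε : ℝ}
    (he : |(Ph d t).toReal - (Ph d s).toReal| ≤ ε) (h : Hyp d s K W) :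
    Hyp d t (K + ε) (W + ε) := by
  have := abs_le.1 he
  rcases le_total s t with u | u
  · obtain ⟨a, b⟩ := close hd u ht
    exact ⟨fun k => by linarith [h.1 k, abs_le.1 (a k)], fun x => by linarith [h.2 x, abs_le.1 (b x)]⟩
  · obtain ⟨a, b⟩ := close hd u hs
    exact ⟨fun k => by linarith [h.1 k, abs_le.1 (a k)], fun x => by linarith [h.2 x, abs_le.1 (b x)]⟩

lemma interval (hd : 0 < d) {a b : ℝ≥0} (hab : a ≤ b) (hb : Ph d b ≠ ⊤) {K W K' W' : ℝ}
    (hK : K' < K) (hW : W' < W) (h0 : Hyp d a K' W')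
    (hs : ∀ s ∈ Set.Icc a b, Hyp d s K W → Hyp d s K' W') : Hyp d b K' W' := by
  have fin : ∀ s ∈ Set.Icc a b, Ph d s ≠ ⊤ := fun s hs => ne_top_of_le_ne_top hb (Ph_mono hs.2)
  refine (isPreconnected_Icc (a := a) (b := b)).induction₂'
    (fun x y => Hyp d x K' W' → Hyp d y K' W') (fun x hx => ?_) (fun x y z _ _ _ h1 h2 h => h2 (h1 h))
    ⟨le_rfl, hab⟩ ⟨hab, le_rfl⟩ h0
  have e : 0 < min (K - K') (W - W') := lt_min (sub_pos.2 hK) (sub_pos.2 hW)
  filter_upwards [Metric.tendsto_nhds.1 (Ph_cont hb x hx) _ e, self_mem_nhdsWithin] with y h1 hy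
  rw [Real.dist_eq] at h1
  have m1 := min_le_left (K - K') (W - W')
  have m2 := min_le_right (K - K') (W - W')
  exact ⟨fun h => hs y hy ((h.move hd (fin x hx) (fin y hy) h1.le).mono (by linarith) (by linarith)),
    fun h => hs x hx ((h.move hd (fin y hy) (fin x hx) ((abs_sub_comm _ _).trans_le h1.le)).mono
      (by linarith) (by linarith))⟩

lemma transfer (C : Ct ℕ) (xl xh : ℕ)
    (h : (C.map (val ℚ)).ok (val ℚ xl) (val ℚ xh) ∧ (C.map (val ℚ)).okM (val ℚ xl) (val ℚ xh)) :
    (C.map (val ℝ≥0)).ok (val ℝ≥0 xl) (val ℝ≥0 xh) ∧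
      ((C.map (val ℝ≥0)).map NNReal.toReal).okM (val ℝ≥0 xl : ℝ≥0) (val ℝ≥0 xh : ℝ≥0) := by
  have e1 : ∀ n, ((val ℝ≥0 n : ℝ≥0) : ℝ) = (val ℚ n : ℚ) := fun n => by simp [val]
  have e2 : (C.map (val ℝ≥0)).map NNReal.toReal = (C.map (val ℚ)).map (Rat.castHom ℝ) := by
    simp only [Ct.map, e1, eq_ratCast]
  constructor
  · rw [Ct.ok_map NNReal.toRealHom fun a b => NNReal.coe_le_coe.symm]
    have := (Ct.ok_map (Rat.castHom ℝ) (fun a b => by simp) _ _ _).1 h.1
    rw [← e2] at this
    simpa only [NNReal.coe_toRealHom, e1, eq_ratCast] using this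
  · rw [e2, e1, e1]; exact Ct.okM_map _ _ _ h.2

lemma val_lt {a b : ℕ} (h : a < b) : val ℝ≥0 a < val ℝ≥0 b := by unfold val; gcongr

lemma val_le {a b : ℕ} (h : a ≤ b) : val ℝ≥0 a ≤ val ℝ≥0 b := by unfold val; gcongr

theorem run (hd : 5 ≤ d) {zc : ℝ} (fin : ∀ z : ℝ≥0, z < zc → Ph d z ≠ ⊤) {xl xh : ℕ}
    (hxl : val ℝ≥0 xl * (2 * d) ≤ 1) (hxh : 1 ≤ val ℝ≥0 xh * (2 * d)) (L : List (Ct ℕ)) :
    ∀ t K W, chain xl xh t K W L = true →
      (∀ a : ℝ≥0, 2 * d * a = val ℝ≥0 t → a < zc → Hyp d a (val ℝ≥0 K) (val ℝ≥0 W)) →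
      ∀ z : ℝ≥0, val ℝ≥0 t ≤ 2 * d * z → z < zc →
      100 * ∑' w : List (Lt d), (z : ℝ≥0∞) ^ w.length * (rh 0 w + rh 1 w) * (w.length - 1 : ℕ) ≤
        99 := by
  have hd0 : 0 < d := by omega
  have hd1 : (0 : ℝ≥0) < 2 * d := by positivity
  induction L with
  | nil => intro t K W h; simp [chain] at h
  | cons C L ih =>
    intro t K W h h0 z hz hzc
    simp only [chain, Bool.and_eq_true, Bool.or_eq_true, decide_eq_true_eq] at h
    obtain ⟨⟨⟨rfl, c0, c1, c2⟩, c3⟩, c4⟩ := h
    obtain ⟨o1, o2⟩ := transfer C xl xh c3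
    have st := fun (s : ℝ≥0) h1 h2 (h3 : s < zc) (h4 : Hyp d s _ _) =>
      Ct.step hd0 (ints_five hd) _ o1 o2 hxl hxh h1 h2 (Ph_parts (fin s h3)).1
        (Ph_parts (fin s h3)).2 h4.1 h4.2
    have e : ∀ u : ℝ≥0, 2 * d * (u / (2 * d)) = u := fun u => mul_div_cancel₀ u hd1.ne'
    have key : ∀ s : ℝ≥0, val ℝ≥0 C.lo ≤ 2 * d * s → 2 * d * s ≤ val ℝ≥0 C.hi → s < zc →
        Hyp d s (val ℝ≥0 C.K) (val ℝ≥0 C.W) := by
      intro s h1 h2 h3
      have a1 : val ℝ≥0 C.lo / (2 * d) ≤ s := by rw [div_le_iff₀' hd1]; exact h1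
      have k1 : max (val ℝ≥0 K : ℝ) (val ℝ≥0 C.Kn) < val ℝ≥0 C.K :=
        max_lt (val_lt c1) (not_le.1 o1.2.2.2.2.2.2.2.2.2.2.2.1)
      have k2 : max (val ℝ≥0 W : ℝ) (val ℝ≥0 C.Wn) < val ℝ≥0 C.W :=
        max_lt (val_lt c2) (not_le.1 o1.2.2.2.2.2.2.2.2.2.2.2.2)
      refine (interval hd0 a1 (fin s h3) k1 k2 ((h0 _ (e _) (lt_of_le_of_lt a1 h3)).mono
        (le_max_left _ _) (le_max_left _ _)) fun r hr h4 => ?_).mono k1.le k2.le
      have := st r ((div_le_iff₀' hd1).1 hr.1) (le_trans (by gcongr; exact hr.2) h2)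
        (lt_of_le_of_lt hr.2 h3) h4
      exact Hyp.mono ⟨this.1, this.2.1⟩ (le_max_right _ _) (le_max_right _ _)
    rcases le_total (2 * d * z) (val ℝ≥0 C.hi) with u | u
    · exact (st z hz u hzc (key z hz u hzc)).2.2.2.2
    have fin2 : ∀ a : ℝ≥0, 2 * d * a = val ℝ≥0 C.hi → a < zc →
        Hyp d a (val ℝ≥0 C.Ke) (val ℝ≥0 C.Wn) ∧ val ℝ≥0 C.hi < 1 + val ℝ≥0 C.pm := by
      intro a h1 h2
      have := st a (h1 ▸ val_le c0) h1.le h2 (key a (h1 ▸ val_le c0) h1.le h2)
      exact ⟨⟨this.2.2.1 h1, this.2.1⟩, h1 ▸ this.2.2.2.1⟩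
    rcases c4 with c4 | c4
    · have a1 : val ℝ≥0 C.hi / (2 * d) ≤ z := by rw [div_le_iff₀' hd1]; exact u
      have a2 := (fin2 _ (e _) (lt_of_le_of_lt a1 hzc)).2
      have a3 := val_le c4
      rw [show val ℝ≥0 (1000000 + C.pm) = 1 + val ℝ≥0 C.pm by simp [val, add_div]] at a3
      exact absurd a2 (not_lt.2 a3)
    · exact ih _ _ _ c4 (fun a h1 h2 => (fin2 a h1 h2).1) z u hzc

lemma Hyp_zero (hd : 0 < d) : Hyp d 0 2 0 := by
  have e : Gr (d := d) 0 = dl 0 := funext fun x => by
    rw [Gr, G, pf_cons, I_good good_nil, dl]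
    split_ifs <;> simp
  have e2 : ∀ k : Fin d → ℝ, CT (dl 0) k = 1 := fun k => by
    rw [CT, tsum_eq_single 0 fun x hx => by simp [dl, hx]]; simp [dl, th_zero]
  refine ⟨fun k => by simpa [e, e2] using YY_le hd k, fun x => ?_⟩
  rw [e, dl]
  split_ifs with h <;> simp [h, nsq_zero]

theorem trails (hd : 5 ≤ d) :
    ∃ μ A : ℝ, 0 < μ ∧ 1 ≤ A ∧ Tendsto (fun n => tot (modelT d).ind n / μ ^ n) atTop (𝓝 A) := by
  have hd0 : 0 < d := by omega
  obtain ⟨zc, hzc0, -, hsub, hsum, hge⟩ := crit hd0 (niceT d)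
  have fin : ∀ z : ℝ≥0, z < zc → Ph d z ≠ ⊤ := fun z hz => Ph_fin (hsub z z.2 hz)
  have h0 : ∀ a : ℝ≥0, 2 * d * a = val ℝ≥0 0 → a < zc →
      Hyp d a (val ℝ≥0 2000000) (val ℝ≥0 0) := fun a ha _ => by
    have : a = 0 := by simpa [val, hd0.ne'] using ha
    subst this
    convert Hyp_zero hd0 <;> norm_num [val]
  have h1 : ∀ z : ℝ≥0, z < zc →
      100 * ∑' w : List (Lt d), (z : ℝ≥0∞) ^ w.length * (rh 0 w + rh 1 w) * (w.length - 1 : ℕ) ≤
        99 := fun z hz => by
    rcases hd.eq_or_lt with rfl | h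
    · exact run hd fin (by norm_num [val]) (by norm_num [val]) _ _ _ _ chain5 h0 z (by simp [val]) hz
    · refine run hd fin (by simp [val]) ?_ _ _ _ _ chain6 h0 z (by simp [val]) hz
      have : (6 : ℝ≥0) ≤ d := by exact_mod_cast h
      exact le_trans (by rw [← NNReal.coe_le_coe]; norm_num [val]) (mul_le_mul_right
        (mul_le_mul_right this 2) _)
  refine finish (ε := 99 / 100) hzc0 (by norm_num) hsum hge fun K => ?_
  have hc : Continuous fun z : ℝ =>
      ∑ n ∈ range K, ((n : ℝ) + 1) * (nrm (modelT d).rho (n + 2) * z ^ (n + 2)) := by fun_prop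
  refine le_of_tendsto ((hc.tendsto zc).mono_left (nhdsWithin_le_nhds (s := Set.Iio zc))) ?_
  filter_upwards [Ico_mem_nhdsLT hzc0] with z hz
  lift z to ℝ≥0 using hz.1
  have h2 := h1 z hz.2
  rw [tsum_words] at h2
  have h3 := (mul_le_mul_right (ENNReal.sum_le_tsum (range (K + 2))) 100).trans h2
  rw [sum_range_succ', sum_range_succ'] at h3
  replace h3 := (mul_le_mul_right (le_self_add.trans le_self_add) 100).trans h3
  have fin : ∀ w : List (Lt d),
      (z : ℝ≥0∞) ^ w.length * (rh 0 w + rh 1 w) * (w.length - 1 : ℕ) ≠ ⊤ := fun w => by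
    have := rh_ne_top 0 w
    have := rh_ne_top 1 w
    finiteness
  have h4 := ENNReal.toReal_mono (by simp) h3
  rw [ENNReal.toReal_mul, ENNReal.toReal_sum fun n _ => ENNReal.sum_ne_top.2 fun w _ => fin w] at h4
  rw [le_div_iff₀' (by norm_num)]
  refine le_trans (mul_le_mul (by simp) (sum_le_sum fun n _ => ?_) (sum_nonneg fun n _ => by
    have := nrm_nonneg (modelT d).rho (n + 2); positivity) ENNReal.toReal_nonneg)
    (h4.trans (by simp))
  rw [ENNReal.toReal_sum fun w _ => fin w, nrm, sum_mul, mul_sum]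
  refine sum_le_sum fun w hw => ?_
  rw [ENNReal.toReal_mul, ENNReal.toReal_mul, ENNReal.toReal_add (rh_ne_top _ _) (rh_ne_top _ _),
    mem_words.1 hw, rho_eq]
  have a1 : |(rh 0 w).toReal - (rh 1 w).toReal| ≤ (rh 0 w).toReal + (rh 1 w).toReal :=
    abs_sub_le_iff.2 ⟨by linarith [@ENNReal.toReal_nonneg (rh 1 w)],
      by linarith [@ENNReal.toReal_nonneg (rh 0 w)]⟩
  simp only [ENNReal.toReal_pow, ENNReal.coe_toReal, ENNReal.toReal_natCast]
  push_cast
  calc _ ≤ ((n : ℝ) + 1) * (((rh 0 w).toReal + (rh 1 w).toReal) * (z : ℝ) ^ (n + 2)) := by gcongr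
    _ = _ := by ring

theorem main5 (d : ℕ) (hd : 5 ≤ d) : ∃ lam G : ℝ, 0 < lam ∧ 0 < G ∧
    Tendsto (fun n : ℕ =>
      ((Set.ncard {ω : Fin (n + 1) → (Fin d → ℤ) |
          ω 0 = 0 ∧
          (∀ i : Fin n, ∑ k : Fin d, |ω i.succ k - ω i.castSucc k| = 1) ∧
          Function.Injective (fun i : Fin n => s(ω i.castSucc, ω i.succ))} : ℕ) : ℝ) /
        lam ^ n) atTop (𝓝 G) := by
  obtain ⟨lam, G, hl, hG, h2⟩ := trails hd
  refine ⟨lam, G, hl, by linarith, h2.congr fun n => ?_⟩
  rw [count_eq (modelT d) n _ (goodT_iff n)]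

end Pool.Agent.P.MP_2ab770_pr
end
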